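import Pool.Agent.Lib.MP_88e1a1_al.Even.Defs

/-! # MP_88e1a1_al, even `n`: points of the maximal torus of `SU(n)` in alcove coordinates -/

set_option autoImplicit false

namespace Pool.Agent.Lib.MP_88e1a1_al.Even

open Finset Matrix
open scoped Real

/-- a point of the circle has an angle in `[0, 1)` (in units of `2π`) -/
theorem circle_angle (z : Circle) :
    ∃ y : ℝ, 0 ≤ y ∧ y < 1 ∧ (z : ℂ) = Complex.exp (((2 * π * y : ℝ) : ℂ) * Complex.I) := by
  refine ⟨Int.fract (Complex.arg z / (2 * π)), Int.fract_nonneg _, Int.fract_lt_one _, ?_⟩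
  have hz : (z : ℂ) = Complex.exp ((Complex.arg z : ℂ) * Complex.I) := by
    have := Complex.norm_mul_exp_arg_mul_I (z : ℂ)
    rw [Circle.norm_coe] at this
    simpa using this.symm
  have hpi : (2 * π : ℝ) ≠ 0 := by positivity
  have h1 : (2 * π * Int.fract (Complex.arg z / (2 * π)) : ℝ)
      = Complex.arg z - (⌊Complex.arg z / (2 * π)⌋ : ℝ) * (2 * π) := by
    rw [Int.fract]
    field_simp
  rw [h1]
  push_cast
  rw [sub_mul, Complex.exp_sub]
  have h2 : Complex.exp ((⌊Complex.arg (z : ℂ) / (2 * π)⌋ : ℂ) * (2 * π) * Complex.I) = 1 := by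
    rw [Complex.exp_eq_one_iff]
    exact ⟨⌊Complex.arg (z : ℂ) / (2 * π)⌋, by ring⟩
  rw [h2, div_one]
  exact hz

/-- points of `SU(n)` in alcove coordinates -/
theorem alcove_coords (n : ℕ) (d : Fin n → Circle) (hd : ∏ i, d i = 1) :
    ∃ (σ : Fin n ≃ Fin n) (x : Fin n → ℝ), Alc n x ∧
      ∀ i, (d (σ i) : ℂ) = Complex.exp (((2 * π * x i : ℝ) : ℂ) * Complex.I) := by
  choose y hy0 hy1 hy using fun i => circle_angle (d i)
  have hpi : (π : ℂ) ≠ 0 := by exact_mod_cast Real.pi_ne_zero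
  -- the sum of the angles is an integer
  obtain ⟨k, hk⟩ : ∃ k : ℤ, ∑ i, y i = k := by
    have h1 : Complex.exp (((2 * π * ∑ i, y i : ℝ) : ℂ) * Complex.I) = 1 := by
      have h2 : ((∏ i, d i : Circle) : ℂ) = 1 := by rw [hd]; rfl
      rw [show ((∏ i, d i : Circle) : ℂ) = ∏ i, (d i : ℂ) from map_prod Circle.coeHom d univ] at h2
      rw [← h2]
      simp_rw [hy]
      rw [← Complex.exp_sum]
      congr 1
      push_cast
      rw [Finset.mul_sum, Finset.sum_mul]
    rw [Complex.exp_eq_one_iff] at h1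
    obtain ⟨k, hk⟩ := h1
    refine ⟨k, ?_⟩
    have h3 : ((∑ i, y i : ℝ) : ℂ) = ((k : ℝ) : ℂ) := by
      have h4 : (2 * (π : ℂ) * Complex.I) * ((∑ i, y i : ℝ) : ℂ)
          = (2 * (π : ℂ) * Complex.I) * ((k : ℝ) : ℂ) := by
        push_cast at hk ⊢
        linear_combination hk
      exact mul_left_cancel₀ (by simp [hpi]) h4
    exact_mod_cast h3
  have hk0 : 0 ≤ k := by
    have : (0 : ℝ) ≤ k := by rw [← hk]; exact Finset.sum_nonneg fun i _ => hy0 i
    exact_mod_cast this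
  have hkn : k ≤ n := by
    have : (k : ℝ) ≤ n := by
      rw [← hk]
      calc ∑ i, y i ≤ ∑ _i : Fin n, (1 : ℝ) := Finset.sum_le_sum fun i _ => (hy1 i).le
        _ = n := by simp
    exact_mod_cast this
  obtain ⟨K, rfl⟩ := Int.eq_ofNat_of_zero_le hk0
  have hKn : K ≤ n := by exact_mod_cast hkn
  -- sort the angles
  set σ₀ := Tuple.sort y with hσ₀
  have hmono : Monotone (y ∘ σ₀) := Tuple.monotone_sort y
  -- move the top `K` down
  set v : Fin n → ℝ := fun i => y (σ₀ i) - if n - K ≤ (i : ℕ) then 1 else 0 with hv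
  have hvsum : ∑ i, v i = 0 := by
    have h1 : ∑ i, v i = ∑ i, y (σ₀ i) - ∑ i : Fin n, (if n - K ≤ (i : ℕ) then (1 : ℝ) else 0) := by
      rw [← Finset.sum_sub_distrib]
    have h2 : ∑ i, y (σ₀ i) = (K : ℝ) := by
      rw [Equiv.sum_comp σ₀ y, hk]
      simp
    have h3 : ∑ i : Fin n, (if n - K ≤ (i : ℕ) then (1 : ℝ) else 0) = K := by
      rw [Fin.sum_univ_eq_sum_range (fun i => if n - K ≤ i then (1 : ℝ) else 0) n,
        ← Finset.sum_filter]
      have h4 : (Finset.range n).filter (fun i => n - K ≤ i) = Finset.Ico (n - K) n := by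
        ext i
        simp only [Finset.mem_filter, Finset.mem_range, Finset.mem_Ico]
        omega
      rw [h4]
      simp only [sum_const, Nat.card_Ico, nsmul_eq_mul, mul_one]
      congr 1
      omega
    rw [h1, h2, h3, sub_self]
  have hspread : ∀ i j, v j - v i ≤ 1 := by
    intro i j
    have hi0 := hy0 (σ₀ i)
    have hi1 := hy1 (σ₀ i)
    have hj0 := hy0 (σ₀ j)
    have hj1 := hy1 (σ₀ j)
    simp only [hv]
    by_cases hi : n - K ≤ (i : ℕ) <;> by_cases hj : n - K ≤ (j : ℕ)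
    · rw [if_pos hi, if_pos hj]; linarith
    · rw [if_pos hi, if_neg hj]
      have : y (σ₀ j) ≤ y (σ₀ i) := hmono (show j ≤ i from Fin.le_def.2 (by omega))
      linarith
    · rw [if_neg hi, if_pos hj]; linarith
    · rw [if_neg hi, if_neg hj]; linarith
  refine ⟨(Tuple.sort v).trans σ₀, v ∘ Tuple.sort v, ⟨Tuple.monotone_sort v, fun i j => ?_, ?_⟩,
    fun i => ?_⟩
  · exact hspread _ _
  · rw [← hvsum]
    exact Equiv.sum_comp (Tuple.sort v) v
  · simp only [Equiv.trans_apply, Function.comp_apply, hv]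
    rw [hy]
    split_ifs with h
    · push_cast
      rw [show 2 * (π : ℂ) * ((y (σ₀ ((Tuple.sort v) i)) : ℂ) - 1) * Complex.I
        = 2 * (π : ℂ) * (y (σ₀ ((Tuple.sort v) i)) : ℂ) * Complex.I - 2 * π * Complex.I by ring,
        Complex.exp_sub, Complex.exp_two_pi_mul_I, div_one]
    · simp

end Pool.Agent.Lib.MP_88e1a1_al.Even
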