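import Pool.Agent.Lib.MP_88e1a1_al.Even.Spec

/-! # MP_88e1a1_al, even `n`: the total angle along a path of unitary matrices -/

set_option autoImplicit false

namespace Pool.Agent.Lib.MP_88e1a1_al.Even

open Finset Matrix
open scoped Real

/-- the angle in `(0, 2π]` -/
noncomputable def ang (z : ℂ) : ℝ := π + Complex.arg (-z)

theorem ang_nonneg (z : ℂ) : 0 ≤ ang z := by
  have := Complex.neg_pi_lt_arg (-z)
  unfold ang
  linarith

theorem ang_le (z : ℂ) : ang z ≤ 2 * π := by
  have := Complex.arg_le_pi (-z)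
  unfold ang
  linarith

theorem exp_ang (z : Circle) : Complex.exp ((ang z : ℂ) * Complex.I) = z := by
  unfold ang
  have h1 : ‖-(z : ℂ)‖ = 1 := by rw [norm_neg]; exact Circle.norm_coe z
  have h2 := Complex.norm_mul_exp_arg_mul_I (-(z : ℂ))
  rw [h1, Complex.ofReal_one, one_mul] at h2
  push_cast
  rw [add_mul, Complex.exp_add, Complex.exp_pi_mul_I, h2]
  ring

theorem ang_continuousAt {z : ℂ} (hz : z ∈ Metric.sphere (0 : ℂ) 1) (h : z ≠ 1) :
    ContinuousAt ang z := by
  have hn : z.re * z.re + z.im * z.im = 1 := by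
    have h1 : ‖z‖ = 1 := by simpa using hz
    have h2 := Complex.normSq_eq_norm_sq z
    rw [h1, Complex.normSq_apply] at h2
    linarith
  have hs : -z ∈ Complex.slitPlane := by
    rw [Complex.mem_slitPlane_iff, Complex.neg_re, Complex.neg_im]
    by_cases him : z.im = 0
    · left
      rw [him] at hn
      have h3 : z.re ≠ 1 := by
        intro h4
        exact h (Complex.ext (by simpa using h4) (by simpa using him))
      have h5 : (z.re - 1) * (z.re + 1) = 0 := by nlinarith
      rcases mul_eq_zero.mp h5 with h6 | h6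
      · exact absurd (by linarith) h3
      · linarith
    · right
      exact neg_ne_zero.mpr him
  unfold ang
  exact continuousAt_const.add
    (ContinuousAt.comp (g := Complex.arg) (f := fun w : ℂ => -w) (Complex.continuousAt_arg hs)
      continuousAt_id.neg)

/-- the angle, cut off near `1` -/
noncomputable def cutF (c : ℝ) (z : ℂ) : ℝ := ang z * min 1 (‖1 - z‖ / c)

theorem cutF_cont (c : ℝ) (hc : 0 < c) : ContinuousOn (cutF c) (Metric.sphere 0 1) := by
  intro z hz
  by_cases h : z = 1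
  · subst h
    have h0 : cutF c 1 = 0 := by simp [cutF]
    rw [ContinuousWithinAt, h0]
    have hb : ∀ w : ℂ, ‖cutF c w‖ ≤ 2 * π * (‖1 - w‖ / c) := by
      intro w
      have h1 : 0 ≤ ‖1 - w‖ / c := by positivity
      have h2 : 0 ≤ min 1 (‖1 - w‖ / c) := le_min zero_le_one h1
      unfold cutF
      rw [norm_mul, Real.norm_of_nonneg (ang_nonneg w), Real.norm_of_nonneg h2]
      exact mul_le_mul (ang_le w) (min_le_right _ _) h2 (by positivity)
    have hcont : Continuous fun w : ℂ => 2 * π * (‖1 - w‖ / c) := by fun_prop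
    have h3 := hcont.tendsto 1
    simp only [sub_self, norm_zero, zero_div, mul_zero] at h3
    exact squeeze_zero_norm hb (h3.mono_left nhdsWithin_le_nhds)
  · have hcont : Continuous fun w : ℂ => min 1 (‖1 - w‖ / c) := by fun_prop
    exact ((ang_continuousAt hz h).mul hcont.continuousAt).continuousWithinAt

theorem cutF_eq {c : ℝ} (hc : 0 < c) {z : ℂ} (h : c ≤ ‖1 - z‖) : cutF c z = ang z := by
  unfold cutF
  rw [min_eq_left ((one_le_div hc).mpr h), mul_one]

theorem ang_sum_const {κ : Type*} [Fintype κ] [DecidableEq κ] (g V : ℝ → Matrix κ κ ℂ)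
    (d : ℝ → κ → Circle) (p : ℕ) (D0 : ℂ) (hg : Continuous g)
    (hV : ∀ τ, V τ ∈ unitaryGroup κ ℂ)
    (hd : ∀ τ, g τ = V τ * diagonal (fun k => (d τ k : ℂ)) * star (V τ))
    (hdet : ∀ τ, (g τ).det = D0 * Complex.exp (((p * τ : ℝ) : ℂ) * Complex.I))
    (h1 : ∀ τ ∈ Set.Ico π (2 * π), ∀ k, (d τ k : ℂ) ≠ 1) :
    ∀ τ ∈ Set.Ico π (2 * π), ∑ k, ang (d τ k) - p * τ = ∑ k, ang (d π k) - p * π := by
  intro τ1 hτ1
  have hVV : ∀ τ, (V τ).det * (star (V τ)).det = 1 := by
    intro τ
    rw [← det_mul, (Unitary.mem_iff.mp (hV τ)).2, det_one]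
  -- the distance of the eigenvalues to 1
  have hdist : ∀ τ, ‖(1 - g τ).det‖ = ∏ k, ‖1 - (d τ k : ℂ)‖ := by
    intro τ
    have h2 : 1 - g τ = V τ * diagonal (fun k => 1 - (d τ k : ℂ)) * star (V τ) := by
      have h3 : diagonal (fun k => 1 - (d τ k : ℂ)) = 1 - diagonal (fun k => (d τ k : ℂ)) := by
        rw [← diagonal_one, diagonal_sub]
      rw [h3, mul_sub, sub_mul, mul_one, (Unitary.mem_iff.mp (hV τ)).2, ← hd τ]
    rw [h2, det_mul, det_mul, det_diagonal, mul_right_comm, hVV, one_mul, norm_prod]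
  have hcdet : Continuous fun τ => ‖(1 - g τ).det‖ :=
    (Continuous.matrix_det (continuous_const.sub hg)).norm
  obtain ⟨τ0, hτ0, hmin⟩ := isCompact_Icc.exists_isMinOn (Set.nonempty_Icc.mpr hτ1.1)
    (hcdet.continuousOn (s := Set.Icc π τ1))
  have hpos : 0 < ‖(1 - g τ0).det‖ := by
    rw [hdist]
    refine Finset.prod_pos fun k _ => ?_
    rw [norm_pos_iff, sub_ne_zero]
    exact (h1 τ0 ⟨hτ0.1, lt_of_le_of_lt hτ0.2 hτ1.2⟩ k).symm
  set m : ℝ := ‖(1 - g τ0).det‖ with hm
  set c : ℝ := m / 2 ^ (Fintype.card κ) with hcdef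
  have hc : 0 < c := by positivity
  have hfar : ∀ τ ∈ Set.Icc π τ1, ∀ k, c ≤ ‖1 - (d τ k : ℂ)‖ := by
    intro τ hτ k
    have h2 : m ≤ ∏ k, ‖1 - (d τ k : ℂ)‖ := by
      rw [← hdist]; exact hmin hτ
    have h3 : ∏ j, ‖1 - (d τ j : ℂ)‖ ≤ ‖1 - (d τ k : ℂ)‖ * 2 ^ (Fintype.card κ) := by
      rw [← Finset.mul_prod_erase univ _ (Finset.mem_univ k)]
      refine mul_le_mul_of_nonneg_left ?_ (norm_nonneg _)
      calc ∏ j ∈ univ.erase k, ‖1 - (d τ j : ℂ)‖ ≤ ∏ _j ∈ univ.erase k, (2 : ℝ) := by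
            refine Finset.prod_le_prod (fun _ _ => norm_nonneg _) fun j _ => ?_
            calc ‖1 - (d τ j : ℂ)‖ ≤ ‖(1 : ℂ)‖ + ‖(d τ j : ℂ)‖ := norm_sub_le _ _
              _ = 2 := by rw [norm_one, Circle.norm_coe]; norm_num
        _ = 2 ^ (#(univ.erase k)) := by rw [Finset.prod_const]
        _ ≤ 2 ^ (Fintype.card κ) := by
            refine pow_le_pow_right₀ (by norm_num) ?_
            exact (Finset.card_le_card (Finset.erase_subset _ _)).trans_eq Finset.card_univ
    rw [hcdef, div_le_iff₀ (by positivity)]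
    exact h2.trans h3
  have hcont : ContinuousOn (fun τ => ∑ k, ang (d τ k)) (Set.Icc π τ1) := by
    have h2 := spec_continuous (cutF c) (cutF_cont c hc) g V d hg hV hd
    refine h2.continuousOn.congr fun τ hτ => ?_
    exact Finset.sum_congr rfl fun k _ => (cutF_eq hc (hfar τ hτ k)).symm
  -- integrality
  have hexp : ∀ τ, Complex.exp (((∑ k, ang (d τ k) - p * τ : ℝ) : ℂ) * Complex.I) = D0 := by
    intro τ
    have h2 : Complex.exp (((∑ k, ang (d τ k) : ℝ) : ℂ) * Complex.I) = (g τ).det := by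
      rw [hd, det_mul, det_mul, det_diagonal, mul_right_comm, hVV, one_mul]
      push_cast
      rw [Finset.sum_mul, Complex.exp_sum]
      exact Finset.prod_congr rfl fun k _ => exp_ang _
    have h3 : Complex.exp (((p * τ : ℝ) : ℂ) * Complex.I) ≠ 0 := Complex.exp_ne_zero _
    rw [hdet] at h2
    rw [Complex.ofReal_sub, sub_mul, Complex.exp_sub, h2]
    field_simp
  set h : ℝ → ℝ := fun τ => ((∑ k, ang (d τ k) - p * τ) - (∑ k, ang (d π k) - p * π)) / (2 * π)
    with hh
  have hint : ∀ τ, ∃ n : ℤ, h τ = n := by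
    intro τ
    have h2 : Complex.exp (((∑ k, ang (d τ k) - p * τ : ℝ) : ℂ) * Complex.I)
        = Complex.exp (((∑ k, ang (d π k) - p * π : ℝ) : ℂ) * Complex.I) := by
      rw [hexp, hexp]
    rw [Complex.exp_eq_exp_iff_exists_int] at h2
    obtain ⟨n, hn⟩ := h2
    refine ⟨n, ?_⟩
    have h3 : (∑ k, ang (d τ k) - p * τ) = (∑ k, ang (d π k) - p * π) + n * (2 * π) := by
      have h4 := congrArg Complex.im hn
      simpa using h4
    rw [hh]
    simp only
    rw [h3]
    field_simp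
    ring
  have hhc : ContinuousOn h (Set.Icc π τ1) := by
    rw [hh]
    refine ContinuousOn.div_const ?_ _
    refine ContinuousOn.sub (hcont.sub ?_) continuousOn_const
    fun_prop
  have hh0 : h π = 0 := by rw [hh]; simp
  have hfin : h τ1 = 0 := by
    obtain ⟨n, hn⟩ := hint τ1
    by_contra hne
    have hn0 : n ≠ 0 := by
      rintro rfl
      exact hne (by simpa using hn)
    rcases lt_or_gt_of_ne hn0 with hneg | hp
    · have h5 : h τ1 ≤ -1 := by
        rw [hn]; exact_mod_cast Int.le_sub_one_of_lt hneg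
      have h6 : (-(1 / 2) : ℝ) ∈ h '' Set.Icc π τ1 :=
        intermediate_value_Icc' hτ1.1 hhc ⟨by linarith, by rw [hh0]; norm_num⟩
      obtain ⟨τ, _, h7⟩ := h6
      obtain ⟨n', hn'⟩ := hint τ
      rw [hn'] at h7
      have h8 : (2 : ℝ) * n' = -1 := by linarith
      have h9 : (2 : ℤ) * n' = -1 := by exact_mod_cast h8
      omega
    · have h5 : 1 ≤ h τ1 := by
        rw [hn]; exact_mod_cast hp
      have h6 : ((1 / 2) : ℝ) ∈ h '' Set.Icc π τ1 :=
        intermediate_value_Icc hτ1.1 hhc ⟨by rw [hh0]; norm_num, by linarith⟩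
      obtain ⟨τ, _, h7⟩ := h6
      obtain ⟨n', hn'⟩ := hint τ
      rw [hn'] at h7
      have h8 : (2 : ℝ) * n' = 1 := by linarith
      have h9 : (2 : ℤ) * n' = 1 := by exact_mod_cast h8
      omega
  rw [hh] at hfin
  simp only at hfin
  rw [div_eq_zero_iff] at hfin
  rcases hfin with h10 | h10
  · linarith
  · exact absurd h10 (by positivity)

end Pool.Agent.Lib.MP_88e1a1_al.Even
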