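import Pool.Agent.Lib.MP_88e1a1_al.Even.Defs

/-! # MP_88e1a1_al, even `n`: direct sums of explicit `2 × 2` blocks -/

set_option autoImplicit false
set_option linter.unusedSectionVars false

namespace Pool.Agent.Lib.MP_88e1a1_al.Even

open Finset Matrix
open scoped Real

theorem om_cube_aux : om ^ 3 = 1 := by
  unfold om
  rw [← Complex.exp_nat_mul, Complex.exp_eq_one_iff]
  exact ⟨1, by push_cast; ring⟩

theorem om_ne_one_aux : om ≠ 1 := by
  intro h
  unfold om at h
  rw [Complex.exp_eq_one_iff] at h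
  obtain ⟨n, hn⟩ := h
  have h2 : (2 * π * Complex.I : ℂ) ≠ 0 := Complex.two_pi_I_ne_zero
  have h3 : (1 : ℂ) / 3 = n := by
    apply mul_right_cancel₀ h2
    rw [← hn]
    ring
  have h4 : (3 : ℂ) * n = 1 := by rw [← h3]; norm_num
  have h5 : (3 : ℤ) * n = 1 := by exact_mod_cast h4
  omega

theorem om_sum_aux : 1 + om + om ^ 2 = 0 := by
  have h1 : (om - 1) * (1 + om + om ^ 2) = 0 := by
    have := om_cube_aux
    linear_combination this
  rcases mul_eq_zero.1 h1 with h | h
  · exact absurd (sub_eq_zero.1 h) om_ne_one_aux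
  · exact h

theorem Th_unitary_aux {ι : Type*} [Fintype ι] [DecidableEq ι] (θ : ι → ℝ) :
    Th θ ∈ unitaryGroup ι ℂ := by
  rw [Matrix.mem_unitaryGroup_iff]
  unfold Th
  rw [Matrix.star_eq_conjTranspose, Matrix.diagonal_conjTranspose, Matrix.diagonal_mul_diagonal,
    ← Matrix.diagonal_one]
  congr 1
  funext i
  rw [Pi.star_apply, Complex.star_def, ← Complex.exp_conj, map_mul, Complex.conj_I,
    Complex.conj_ofReal, ← Complex.exp_add]
  simp

section Blocks

variable {ι : Type*} [Fintype ι] [DecidableEq ι]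

/-- the real symmetric involution built from `σ` and `a` -/
noncomputable def Sm (σ : ι → ι) (a : ι → ℝ) : Matrix ι ι ℂ :=
  fun i j => (if j = i then (a i : ℂ) else 0) + (if j = σ i then ((Real.sqrt (1 - a i ^ 2) : ℝ) : ℂ) else 0)

theorem Sm_mul (σ : ι → ι) (a : ι → ℝ) (A : Matrix ι ι ℂ) (i j : ι) :
    (Sm σ a * A) i j = a i * A i j + ((Real.sqrt (1 - a i ^ 2) : ℝ) : ℂ) * A (σ i) j := by
  rw [Matrix.mul_apply]
  simp [Sm, add_mul, Finset.sum_add_distrib, ite_mul]

variable {σ : ι → ι} {a : ι → ℝ}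

theorem Sm_star (hσ : ∀ i, σ (σ i) = i) (ha : ∀ i, a (σ i) = -a i) : star (Sm σ a) = Sm σ a := by
  ext i j
  rw [Matrix.star_apply]
  have h1 : ((i = j) ↔ (j = i)) := ⟨Eq.symm, Eq.symm⟩
  have h2 : ((i = σ j) ↔ (j = σ i)) := by
    constructor
    · intro h; rw [h, hσ]
    · intro h; rw [h, hσ]
  simp only [Sm, star_add]
  congr 1
  · by_cases h : j = i
    · subst h; simp
    · rw [if_neg h, if_neg (fun h' => h h'.symm)]; simp
  · by_cases h : j = σ i
    · rw [if_pos h, if_pos (h2.2 h)]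
      rw [h, ha]
      simp
    · rw [if_neg h, if_neg (fun h' => h (h2.1 h'))]; simp

theorem Sm_sq (hσ : ∀ i, σ (σ i) = i) (hσ1 : ∀ i, σ i ≠ i) (ha : ∀ i, a (σ i) = -a i)
    (ha1 : ∀ i, a i ^ 2 ≤ 1) : Sm σ a * Sm σ a = 1 := by
  ext i j
  rw [Sm_mul]
  have hr : ((Real.sqrt (1 - a i ^ 2) : ℝ) : ℂ) * ((Real.sqrt (1 - a i ^ 2) : ℝ) : ℂ)
      = 1 - (a i : ℂ) ^ 2 := by
    rw [← Complex.ofReal_mul, Real.mul_self_sqrt (by linarith [ha1 i])]
    push_cast
    ring
  have hr' : Real.sqrt (1 - a (σ i) ^ 2) = Real.sqrt (1 - a i ^ 2) := by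
    rw [ha, neg_sq]
  by_cases h : j = i
  · subst h
    rw [Matrix.one_apply_eq]
    have n1 : ¬ (j = σ j) := fun h => hσ1 j h.symm
    simp only [Sm, hσ, n1, if_true, if_false, hr']
    linear_combination hr
  · rw [Matrix.one_apply_ne (fun h' => h h'.symm)]
    by_cases h' : j = σ i
    · subst h'
      simp only [Sm, hσ, h, if_true, if_false, ha]
      push_cast
      ring
    · simp only [Sm, hσ, h, h', if_false]
      ring

theorem Sm_diag (hσ1 : ∀ i, σ i ≠ i) (i : ι) : Sm σ a i i = a i := by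
  have n1 : ¬ (i = σ i) := fun h => hσ1 i h.symm
  simp only [Sm, n1, if_true, if_false, add_zero]

theorem Sm_conj_diag (hσ : ∀ i, σ (σ i) = i) (hσ1 : ∀ i, σ i ≠ i) (ha : ∀ i, a (σ i) = -a i)
    (ha1 : ∀ i, a i ^ 2 ≤ 1) (e k2 ek : ι → ℂ)
    (h1 : ∀ i, a i * (e i - e (σ i)) = -k2 i) (h2 : ∀ i, e (σ i) + ek i = 0) :
    Sm σ a * (diagonal e * Sm σ a) + diagonal k2 * Sm σ a + diagonal ek = 0 := by
  ext i j
  rw [Matrix.add_apply, Matrix.add_apply, Sm_mul, Matrix.diagonal_mul, Matrix.diagonal_mul,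
    Matrix.diagonal_mul, Matrix.zero_apply]
  have hr : ((Real.sqrt (1 - a i ^ 2) : ℝ) : ℂ) * ((Real.sqrt (1 - a i ^ 2) : ℝ) : ℂ)
      = 1 - (a i : ℂ) ^ 2 := by
    rw [← Complex.ofReal_mul, Real.mul_self_sqrt (by linarith [ha1 i])]
    push_cast
    ring
  have hr' : Real.sqrt (1 - a (σ i) ^ 2) = Real.sqrt (1 - a i ^ 2) := by
    rw [ha, neg_sq]
  have e1 := h1 i
  have e2 := h2 i
  by_cases h : j = i
  · subst h
    rw [Matrix.diagonal_apply_eq]
    have n1 : ¬ (j = σ j) := fun h => hσ1 j h.symm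
    simp only [Sm, hσ, n1, if_true, if_false, hr']
    linear_combination (e (σ j)) * hr + (a j : ℂ) * e1 + e2
  · rw [Matrix.diagonal_apply_ne _ (fun h' => h h'.symm)]
    by_cases h' : j = σ i
    · subst h'
      simp only [Sm, hσ, h, if_true, if_false, ha]
      push_cast
      linear_combination ((Real.sqrt (1 - a i ^ 2) : ℝ) : ℂ) * e1
    · simp only [Sm, hσ, h, h', if_false]
      ring

/-- the cube of `E s` is one -/
theorem cube_one (s e k2 k ek : Matrix ι ι ℂ)
    (h : s * (e * s) + k2 * s + ek = 0) (hk : k2 * e = e * k2) (he : e * ek = k)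
    (h1 : k2 * k2 = k) (h2 : k2 * k = 1) : (e * s) ^ 3 = 1 := by
  have h3 : (e * s) * (e * s) = -(k2 * (e * s)) - k := by
    have : e * (s * (e * s) + k2 * s + ek) = 0 := by rw [h, mul_zero]
    have h5 : e * (k2 * s) = k2 * (e * s) := by rw [← mul_assoc, ← hk, mul_assoc]
    have h4 : e * s * (e * s) + k2 * (e * s) + k = 0 := by
      rw [mul_add, mul_add, he, h5, ← mul_assoc] at this
      exact this
    calc (e * s) * (e * s) = (e * s * (e * s) + k2 * (e * s) + k) - k2 * (e * s) - k := by abel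
      _ = _ := by rw [h4]; abel
  rw [pow_succ, pow_two, h3, sub_mul, neg_mul, mul_assoc, h3, mul_sub, mul_neg, h2, ← mul_assoc, h1]
  abel

theorem om_pow_eq (n : ℕ) : om ^ n = Complex.exp (2 * π * Complex.I / 3 * n) := by
  unfold om
  rw [← Complex.exp_nat_mul]
  congr 1
  ring

theorem om_pow_mod (n : ℕ) : om ^ (n % 3) = om ^ n := by
  conv_rhs => rw [← Nat.div_add_mod n 3, pow_add, pow_mul, om_cube_aux, one_pow, one_mul]

theorem half_le_cos {x : ℝ} (hx : |x| ≤ 1) : 1 / 2 ≤ Real.cos (π / 3 * x) := by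
  rw [← Real.cos_abs, ← Real.cos_pi_div_three]
  have hpi := Real.pi_pos
  apply Real.cos_le_cos_of_nonneg_of_le_pi (abs_nonneg _)
  · linarith
  · rw [abs_mul, abs_of_pos (by positivity : (0 : ℝ) < π / 3)]
    nlinarith

/-- the two angle identities -/
theorem angle_facts {x y : ℝ} {k l : ℕ} (hy : y = -x) (hx : |x| ≤ 1) (hl : l % 6 = (k + 3) % 6) :
    Complex.exp (((π / 3 * (x + k) : ℝ) : ℂ) * Complex.I)
        * Complex.exp (((π / 3 * (y + l) : ℝ) : ℂ) * Complex.I) = -om ^ k ∧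
      ((-(-1 : ℝ) ^ k / (2 * Real.cos (π / 3 * x)) : ℝ) : ℂ)
        * (Complex.exp (((π / 3 * (x + k) : ℝ) : ℂ) * Complex.I)
          - Complex.exp (((π / 3 * (y + l) : ℝ) : ℂ) * Complex.I)) = -om ^ (2 * k) := by
  obtain ⟨q, hq⟩ : ∃ q : ℤ, (l : ℤ) = k + 3 + 6 * q := ⟨((l : ℤ) - k - 3) / 6, by omega⟩
  have hqc : (l : ℂ) = k + 3 + 6 * q := by exact_mod_cast hq
  have hπI : Complex.exp (π * Complex.I) = -1 := Complex.exp_pi_mul_I
  have hz : Complex.exp ((q : ℂ) * (2 * π * Complex.I)) = 1 := Complex.exp_int_mul_two_pi_mul_I q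
  -- e' = - exp(-iπx/3) ζ
  have e1 : Complex.exp (((π / 3 * (x + k) : ℝ) : ℂ) * Complex.I)
      = Complex.exp ((π / 3 * x : ℂ) * Complex.I) * Complex.exp ((π / 3 * k : ℂ) * Complex.I) := by
    rw [← Complex.exp_add]
    congr 1
    push_cast
    ring
  have e2 : Complex.exp (((π / 3 * (y + l) : ℝ) : ℂ) * Complex.I)
      = -(Complex.exp (-(π / 3 * x : ℂ) * Complex.I) * Complex.exp ((π / 3 * k : ℂ) * Complex.I)) := by
    have : (((π / 3 * (y + l) : ℝ) : ℂ) * Complex.I)
        = (-(π / 3 * x : ℂ) * Complex.I) + ((π / 3 * k : ℂ) * Complex.I) + (π * Complex.I)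
          + (q : ℂ) * (2 * π * Complex.I) := by
      rw [hy]
      push_cast
      rw [hqc]
      ring
    rw [this, Complex.exp_add, Complex.exp_add, Complex.exp_add, hπI, hz]
    ring
  have e3 : Complex.exp ((π / 3 * x : ℂ) * Complex.I) * Complex.exp (-(π / 3 * x : ℂ) * Complex.I) = 1 := by
    rw [← Complex.exp_add]
    simp
  have e4 : Complex.exp ((π / 3 * k : ℂ) * Complex.I) * Complex.exp ((π / 3 * k : ℂ) * Complex.I)
      = om ^ k := by
    rw [om_pow_eq, ← Complex.exp_add]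
    congr 1
    ring
  constructor
  · rw [e1, e2]
    linear_combination (-(Complex.exp ((π / 3 * k : ℂ) * Complex.I) * Complex.exp ((π / 3 * k : ℂ) * Complex.I))) * e3 - e4
  · have hcos := half_le_cos hx
    have hc0 : Real.cos (π / 3 * x) ≠ 0 := by linarith
    have hc0' : (Real.cos (π / 3 * x) : ℂ) ≠ 0 := by exact_mod_cast hc0
    have e5 : Complex.exp ((π / 3 * x : ℂ) * Complex.I) + Complex.exp (-(π / 3 * x : ℂ) * Complex.I)
        = 2 * (Real.cos (π / 3 * x) : ℂ) := by
      rw [Complex.ofReal_cos, Complex.cos]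
      push_cast
      ring
    have e6 : (-1 : ℂ) ^ k * Complex.exp ((π / 3 * k : ℂ) * Complex.I) = om ^ (2 * k) := by
      rw [om_pow_eq, ← hπI, ← Complex.exp_nat_mul, ← Complex.exp_add]
      congr 1
      push_cast
      ring
    rw [e1, e2]
    have e7 : Complex.exp ((π / 3 * x : ℂ) * Complex.I) * Complex.exp ((π / 3 * k : ℂ) * Complex.I)
        - -(Complex.exp (-(π / 3 * x : ℂ) * Complex.I) * Complex.exp ((π / 3 * k : ℂ) * Complex.I))
        = 2 * (Real.cos (π / 3 * x) : ℂ) * Complex.exp ((π / 3 * k : ℂ) * Complex.I) := by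
      rw [← e5]; ring
    rw [e7, ← e6]
    rw [Complex.ofReal_div, Complex.ofReal_mul, Complex.ofReal_neg, Complex.ofReal_pow]
    generalize (Real.cos (π / 3 * x) : ℂ) = C at hc0'
    push_cast
    field_simp

end Blocks

/-- direct sums of `2 × 2` blocks; the hypothesis `hatt` is the theorem `att_of` -/
theorem att_blocks_of {ι : Type*} [Fintype ι] [DecidableEq ι] (b : ι → Bool) (c : ι → Fin 3)
    (x : ι → ℝ) (κ : ι → ℕ) (σ : ι → ι) (hσ : ∀ i, σ (σ i) = i) (hx : ∀ i, x (σ i) = -x i)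
    (hx1 : ∀ i, |x i| ≤ 1) (hκ : ∀ i, κ (σ i) % 6 = (κ i + 3) % 6)
    (hb : 2 * nb b = Fintype.card ι)
    (hc : ∀ k : Fin 3, 2 * nc c k + #{i | (κ i + (k : ℕ)) % 3 = 0} = Fintype.card ι)
    (hatt : ∀ (θ : ι → ℝ) (s t : Matrix ι ι ℂ), s ∈ unitaryGroup ι ℂ → s * s = 1 →
      trace s = (Fintype.card ι : ℂ) - 2 * nb b → t ∈ unitaryGroup ι ℂ → t ^ 3 = 1 →
      trace t = ∑ k : Fin 3, (nc c k : ℂ) * om ^ (k : ℕ) → t * s = Th θ → Att b c θ) :
    Att b c fun i => π / 3 * (x i + κ i) := by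
  set θ : ι → ℝ := fun i => π / 3 * (x i + κ i) with hθ
  set e : ι → ℂ := fun i => Complex.exp ((θ i : ℂ) * Complex.I) with he
  set a : ι → ℝ := fun i => -(-1 : ℝ) ^ κ i / (2 * Real.cos (π / 3 * x i)) with ha
  have hσ1 : ∀ i, σ i ≠ i := by
    intro i h
    have := hκ i
    rw [h] at this
    omega
  have hF := fun i => angle_facts (hx i) (hx1 i) (hκ i)
  have hF1 : ∀ i, e i * e (σ i) = -om ^ κ i := fun i => (hF i).1
  have hF2 : ∀ i, (a i : ℂ) * (e i - e (σ i)) = -om ^ (2 * κ i) := fun i => (hF i).2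
  have haσ : ∀ i, a (σ i) = -a i := by
    intro i
    simp only [ha]
    rw [hx i]
    have h1 : (-1 : ℝ) ^ κ (σ i) = -(-1) ^ κ i := by
      obtain ⟨q, hq⟩ : ∃ q : ℤ, (κ (σ i) : ℤ) = κ i + 3 + 6 * q :=
        ⟨((κ (σ i) : ℤ) - κ i - 3) / 6, by have := hκ i; omega⟩
      rcases Nat.even_or_odd (κ i) with h | h
      · have h' : Odd (κ (σ i)) := by
          have := hκ i
          rw [Nat.odd_iff]
          rw [Nat.even_iff] at h
          omega
        rw [h.neg_one_pow, h'.neg_one_pow]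
      · have h' : Even (κ (σ i)) := by
          have := hκ i
          rw [Nat.even_iff]
          rw [Nat.odd_iff] at h
          omega
        rw [h.neg_one_pow, h'.neg_one_pow]
        norm_num
    rw [h1, mul_neg, Real.cos_neg]
    ring
  have ha1 : ∀ i, a i ^ 2 ≤ 1 := by
    intro i
    have h1 := half_le_cos (hx1 i)
    have h2 : ((-1 : ℝ) ^ κ i) ^ 2 = 1 := by
      rw [← pow_mul, mul_comm, pow_mul]
      norm_num
    simp only [ha]
    rw [div_pow, neg_sq, h2, div_le_one (by positivity)]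
    nlinarith
  set s : Matrix ι ι ℂ := Sm σ a with hs
  have hs2 : s * s = 1 := Sm_sq hσ hσ1 haσ ha1
  have hss : star s = s := Sm_star hσ haσ
  have hsU : s ∈ unitaryGroup ι ℂ := by
    rw [Matrix.mem_unitaryGroup_iff, hss, hs2]
  have hE : Th θ = diagonal e := rfl
  have htU : Th θ * s ∈ unitaryGroup ι ℂ := mul_mem (Th_unitary_aux θ) hsU
  -- reindexing along the involution
  have hre : ∀ f : ι → ℂ, ∑ i, f (σ i) = ∑ i, f i := fun f =>
    Equiv.sum_comp (⟨σ, σ, hσ, hσ⟩ : ι ≃ ι) f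
  have htrs : trace s = (Fintype.card ι : ℂ) - 2 * nb b := by
    have h1 : trace s = ∑ i, (a i : ℂ) :=
      Finset.sum_congr rfl (fun i _ => Sm_diag hσ1 i)
    have h2 : ∑ i, (a i : ℂ) = 0 := by
      have h3 := hre (fun i => (a i : ℂ))
      have h4 : ∑ i, ((a (σ i) : ℝ) : ℂ) = -∑ i, (a i : ℂ) := by
        rw [← Finset.sum_neg_distrib]
        exact Finset.sum_congr rfl (fun i _ => by rw [haσ]; push_cast; rfl)
      rw [h4] at h3
      linear_combination (-1 / 2) * h3
    rw [h1, h2, ← hb]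
    push_cast
    ring
  have ht3 : (Th θ * s) ^ 3 = 1 := by
    rw [hE]
    refine cube_one s (diagonal e) (diagonal fun i => om ^ (2 * κ i)) (diagonal fun i => om ^ κ i)
      (diagonal fun i => -e (σ i)) ?_ ?_ ?_ ?_ ?_
    · exact Sm_conj_diag hσ hσ1 haσ ha1 e _ _ hF2 (fun i => by ring)
    · rw [Matrix.diagonal_mul_diagonal, Matrix.diagonal_mul_diagonal]
      congr 1
      funext i
      ring
    · rw [Matrix.diagonal_mul_diagonal]
      congr 1
      funext i
      linear_combination -(hF1 i)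
    · rw [Matrix.diagonal_mul_diagonal]
      congr 1
      funext i
      have := om_cube_aux
      calc om ^ (2 * κ i) * om ^ (2 * κ i) = (om ^ 3) ^ κ i * om ^ κ i := by
            rw [← pow_add, ← pow_mul, ← pow_add]; congr 1; ring
        _ = om ^ κ i := by rw [this, one_pow, one_mul]
    · rw [Matrix.diagonal_mul_diagonal, ← Matrix.diagonal_one]
      congr 1
      funext i
      have := om_cube_aux
      calc om ^ (2 * κ i) * om ^ κ i = (om ^ 3) ^ κ i := by
            rw [← pow_add, ← pow_mul]; congr 1; ring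
        _ = 1 := by rw [this, one_pow]
  have htt : trace (Th θ * s) = ∑ k : Fin 3, (nc c k : ℂ) * om ^ (k : ℕ) := by
    have h1 : trace (Th θ * s) = ∑ i, e i * a i := by
      unfold Matrix.trace
      refine Finset.sum_congr rfl (fun i _ => ?_)
      rw [Matrix.diag_apply, hE, Matrix.diagonal_mul, hs, Sm_diag hσ1]
    have h2 : 2 * ∑ i, e i * a i = -∑ i, om ^ (2 * κ i) := by
      have h3 := hre (fun i => e i * (a i : ℂ))
      rw [two_mul]
      nth_rewrite 2 [← h3]
      rw [← Finset.sum_add_distrib, ← Finset.sum_neg_distrib]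
      refine Finset.sum_congr rfl (fun i _ => ?_)
      rw [← hF2 i, haσ]
      push_cast
      ring
    have h4 : 2 * ∑ k : Fin 3, (nc c k : ℂ) * om ^ (k : ℕ) = -∑ i, om ^ (2 * κ i) := by
      have h5 : ∀ k : Fin 3, 2 * ((nc c k : ℂ) * om ^ (k : ℕ))
          = (Fintype.card ι : ℂ) * om ^ (k : ℕ)
            - ∑ i, (if (κ i + (k : ℕ)) % 3 = 0 then om ^ (k : ℕ) else 0) := by
        intro k
        have h6 := hc k
        have h7 : (2 : ℂ) * nc c k + (#{i | (κ i + (k : ℕ)) % 3 = 0} : ℂ) = Fintype.card ι := by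
          exact_mod_cast h6
        rw [← Finset.sum_filter, Finset.sum_const, nsmul_eq_mul]
        linear_combination (om ^ (k : ℕ)) * h7
      rw [Finset.mul_sum, Finset.sum_congr rfl (fun k _ => h5 k), Finset.sum_sub_distrib,
        Finset.sum_comm]
      have h8 : ∑ k : Fin 3, (Fintype.card ι : ℂ) * om ^ (k : ℕ) = 0 := by
        rw [← Finset.mul_sum, Fin.sum_univ_three]
        have := om_sum_aux
        simp only [Fin.val_zero, Fin.val_one, Fin.val_two, pow_zero, pow_one]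
        rw [this, mul_zero]
      rw [h8, zero_sub]
      congr 1
      refine Finset.sum_congr rfl (fun i _ => ?_)
      rw [Fin.sum_univ_three]
      rw [← om_pow_mod (2 * κ i)]
      simp only [Fin.val_zero, Fin.val_one, Fin.val_two]
      have h9 : κ i % 3 = 0 ∨ κ i % 3 = 1 ∨ κ i % 3 = 2 := by omega
      rcases h9 with h | h | h
      · rw [if_pos (by omega), if_neg (by omega), if_neg (by omega),
          show 2 * κ i % 3 = 0 by omega]
        simp
      · rw [if_neg (by omega), if_neg (by omega), if_pos (by omega),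
          show 2 * κ i % 3 = 2 by omega]
        simp
      · rw [if_neg (by omega), if_pos (by omega), if_neg (by omega),
          show 2 * κ i % 3 = 1 by omega]
        simp
    rw [h1]
    linear_combination (1 / 2) * h2 - (1 / 2) * h4
  refine hatt θ s (Th θ * s) hsU hs2 htrs htU ht3 htt ?_
  rw [mul_assoc, hs2, mul_one]

end Pool.Agent.Lib.MP_88e1a1_al.Even
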