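import Pool.Agent.Lib.MP_88e1a1_al.Even.Defs
import Mathlib.RingTheory.RootsOfUnity.Complex

/-! # MP_88e1a1_al, even `n`: conjugacy classes of elements of order 2 and 3 -/

set_option autoImplicit false

namespace Pool.Agent.Lib.MP_88e1a1_al.Even

open Finset Matrix
open scoped Real

namespace Conj

theorem om_prim : IsPrimitiveRoot om 3 := by
  have h := Complex.isPrimitiveRoot_exp 3 (by norm_num)
  have e : om = Complex.exp (2 * π * Complex.I / (3 : ℕ)) := by
    rw [om]
    norm_num
  rwa [e]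

theorem om_cube : om ^ 3 = 1 := om_prim.pow_eq_one

theorem om_sum : 1 + om + om ^ 2 = 0 := by
  have h := om_prim.geom_sum_eq_zero (by norm_num)
  simpa [Finset.sum_range_succ] using h

theorem om_im : om.im ≠ 0 := by
  have e : om = Complex.exp ((2 * π / 3 : ℝ) * Complex.I) := by
    rw [om]
    congr 1
    push_cast
    ring
  rw [e, Complex.exp_ofReal_mul_I_im]
  have h := Real.pi_pos
  exact (Real.sin_pos_of_pos_of_lt_pi (by positivity) (by linarith)).ne'

theorem exists_perm {ι α : Type*} [Fintype ι] [DecidableEq α] (f g : ι → α)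
    (h : ∀ a, #{i | f i = a} = #{i | g i = a}) : ∃ σ : ι ≃ ι, ∀ i, g (σ i) = f i := by
  have h1 : ∀ a, Nonempty ({i // f i = a} ≃ {i // g i = a}) := by
    intro a
    refine ⟨Fintype.equivOfCardEq ?_⟩
    rw [Fintype.card_subtype, Fintype.card_subtype, h a]
  let e := fun a => (h1 a).some
  let σ : ι ≃ ι := (Equiv.sigmaFiberEquiv f).symm.trans ((Equiv.sigmaCongrRight (fun a => e a)).trans
    (Equiv.sigmaFiberEquiv g))
  refine ⟨σ, fun i => ?_⟩
  exact (e (f i) ⟨i, rfl⟩).2

section

variable {ι : Type*} [Fintype ι] [DecidableEq ι]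

theorem submatrix_unitary {V : Matrix ι ι ℂ} (hV : V ∈ unitaryGroup ι ℂ) (σ : ι ≃ ι) :
    V.submatrix id σ ∈ unitaryGroup ι ℂ := by
  rw [mem_unitaryGroup_iff]
  have e : star (V.submatrix id σ) = (star V).submatrix σ id := by
    rw [star_eq_conjTranspose, star_eq_conjTranspose, conjTranspose_submatrix]
  rw [e, submatrix_mul_equiv, mem_unitaryGroup_iff.1 hV, submatrix_id_id]

theorem submatrix_conj (V : Matrix ι ι ℂ) (σ : ι ≃ ι) (d : ι → ℂ) :
    V.submatrix id σ * diagonal (fun i => d (σ i)) * star (V.submatrix id σ) =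
      V * diagonal d * star V := by
  have e : star (V.submatrix id σ) = (star V).submatrix σ id := by
    rw [star_eq_conjTranspose, star_eq_conjTranspose, conjTranspose_submatrix]
  have e2 : diagonal (fun i => d (σ i)) = (diagonal d).submatrix σ σ := by
    rw [submatrix_diagonal_equiv]
    rfl
  rw [e, e2, submatrix_mul_equiv, submatrix_mul_equiv, submatrix_id_id]

theorem diag_cancel {V X : Matrix ι ι ℂ} (hV : V ∈ unitaryGroup ι ℂ) (h : V * X * star V = 1) :
    X = 1 := by
  have h1 := mem_unitaryGroup_iff'.1 hV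
  calc X = (star V * V) * X * (star V * V) := by rw [h1, one_mul, mul_one]
    _ = star V * (V * X * star V) * V := by simp only [mul_assoc]
    _ = 1 := by rw [h, mul_one, h1]

theorem trace_conj {V X : Matrix ι ι ℂ} (hV : V ∈ unitaryGroup ι ℂ) :
    trace (V * X * star V) = trace X := by
  rw [trace_mul_comm, ← mul_assoc, mem_unitaryGroup_iff'.1 hV, one_mul]

end

end Conj

section

variable {ι : Type*} [Fintype ι] [DecidableEq ι]

theorem conj_S (s : Matrix ι ι ℂ) (hs : s ∈ unitaryGroup ι ℂ) (h2 : s * s = 1) :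
    ∃ V ∈ unitaryGroup ι ℂ, ∃ b : ι → Bool, s = V * S0 b * star V := by
  classical
  obtain ⟨V, hV, d, hd⟩ := unitary_diag s hs
  have hV1 := mem_unitaryGroup_iff'.1 hV
  have h3 : V * (diagonal (fun i => (d i : ℂ)) * diagonal (fun i => (d i : ℂ))) * star V = 1 := by
    rw [← h2, hd]
    calc V * (diagonal (fun i => (d i : ℂ)) * diagonal (fun i => (d i : ℂ))) * star V =
        V * diagonal (fun i => (d i : ℂ)) * 1 * diagonal (fun i => (d i : ℂ)) * star V := by
          simp only [mul_assoc, one_mul, mul_one]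
      _ = _ := by rw [← hV1]; simp only [mul_assoc]
  have h4 := Conj.diag_cancel hV h3
  rw [diagonal_mul_diagonal] at h4
  have h5 : ∀ i, (d i : ℂ) * (d i : ℂ) = 1 := by
    intro i
    have := congrFun (congrFun h4 i) i
    rwa [diagonal_apply_eq, one_apply_eq] at this
  have h6 : ∀ z : ℂ, z * z = 1 → z = if decide (z = -1) = true then -1 else 1 := by
    intro z hz
    have hne : (1 : ℂ) ≠ -1 := by norm_num
    rcases mul_self_eq_one_iff.mp hz with h | h
    · rw [h, decide_eq_false hne]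
      rfl
    · rw [h, decide_eq_true rfl]
      rfl
  refine ⟨V, hV, fun i => decide ((d i : ℂ) = -1), ?_⟩
  have e : diagonal (fun i => (d i : ℂ)) = S0 (fun i => decide ((d i : ℂ) = -1)) := by
    rw [S0]
    exact congrArg diagonal (funext fun i => h6 _ (h5 i))
  rw [hd, e]

theorem conj_T (t : Matrix ι ι ℂ) (ht : t ∈ unitaryGroup ι ℂ) (h3 : t ^ 3 = 1) :
    ∃ U ∈ unitaryGroup ι ℂ, ∃ c : ι → Fin 3, t = U * T0 c * star U := by
  obtain ⟨V, hV, d, hd⟩ := unitary_diag t ht
  have hV1 := mem_unitaryGroup_iff'.1 hV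
  have h4 : V * (diagonal (fun i => (d i : ℂ)) * (diagonal (fun i => (d i : ℂ)) *
      diagonal (fun i => (d i : ℂ)))) * star V = 1 := by
    rw [← h3, hd, pow_succ, pow_succ, pow_one]
    calc V * (diagonal (fun i => (d i : ℂ)) * (diagonal (fun i => (d i : ℂ)) *
        diagonal (fun i => (d i : ℂ)))) * star V =
        V * diagonal (fun i => (d i : ℂ)) * 1 * diagonal (fun i => (d i : ℂ)) * 1 *
          diagonal (fun i => (d i : ℂ)) * star V := by
          simp only [mul_assoc, one_mul, mul_one]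
      _ = _ := by rw [← hV1]; simp only [mul_assoc]
  have h5 := Conj.diag_cancel hV h4
  rw [diagonal_mul_diagonal, diagonal_mul_diagonal] at h5
  have h6 : ∀ i, (d i : ℂ) ^ 3 = 1 := by
    intro i
    have := congrFun (congrFun h5 i) i
    rw [diagonal_apply_eq, one_apply_eq] at this
    rw [← this]
    ring
  have h7 : ∀ i, ∃ k : Fin 3, om ^ (k : ℕ) = (d i : ℂ) := by
    intro i
    obtain ⟨k, hk, e⟩ := Conj.om_prim.eq_pow_of_pow_eq_one (h6 i)
    exact ⟨⟨k, hk⟩, e⟩
  choose c hc using h7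
  refine ⟨V, hV, c, ?_⟩
  have e : diagonal (fun i => (d i : ℂ)) = T0 c := by
    rw [T0]
    exact congrArg diagonal (funext fun i => (hc i).symm)
  rw [hd, e]

theorem trace_S0 (b : ι → Bool) : trace (S0 b) = (Fintype.card ι : ℂ) - 2 * nb b := by
  have h : ∀ i, (if b i then (-1 : ℂ) else 1) = 1 - 2 * (if b i = true then 1 else 0) := by
    intro i
    cases b i <;> norm_num
  rw [S0, trace_diagonal]
  simp only [h]
  rw [Finset.sum_sub_distrib, ← Finset.mul_sum, Finset.sum_boole]
  simp [nb]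

theorem trace_T0 (c : ι → Fin 3) : trace (T0 c) = ∑ k : Fin 3, (nc c k : ℂ) * om ^ (k : ℕ) := by
  rw [T0, trace_diagonal, ← Finset.sum_fiberwise (s := Finset.univ) (g := c)]
  refine Finset.sum_congr rfl (fun k _ => ?_)
  rw [Finset.sum_congr rfl (g := fun _ => om ^ (k : ℕ))]
  · rw [Finset.sum_const, nsmul_eq_mul, nc]
  · intro i hi
    rw [Finset.mem_filter] at hi
    rw [hi.2]

theorem sum_nc (c : ι → Fin 3) : ∑ k, nc c k = Fintype.card ι := by
  have h := Finset.card_eq_sum_card_fiberwise (s := (Finset.univ : Finset ι))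
    (t := (Finset.univ : Finset (Fin 3))) (f := c) (fun _ _ => Finset.mem_univ _)
  rw [Finset.card_univ] at h
  exact h.symm

theorem nc_unique (C C' : Fin 3 → ℕ) (hs : ∑ k, C k = ∑ k, C' k)
    (h : ∑ k : Fin 3, (C k : ℂ) * om ^ (k : ℕ) = ∑ k : Fin 3, (C' k : ℂ) * om ^ (k : ℕ)) :
    C = C' := by
  have e : om ^ 2 = -1 - om := by
    have := Conj.om_sum
    linear_combination this
  have hr : ∀ D : Fin 3 → ℕ, ∑ k : Fin 3, (D k : ℂ) * om ^ (k : ℕ) =
      (((D 0 : ℝ) - D 2 : ℝ) : ℂ) + (((D 1 : ℝ) - D 2 : ℝ) : ℂ) * om := by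
    intro D
    rw [Fin.sum_univ_three]
    have e0 : ((0 : Fin 3) : ℕ) = 0 := rfl
    have e1 : ((1 : Fin 3) : ℕ) = 1 := rfl
    have e2 : ((2 : Fin 3) : ℕ) = 2 := rfl
    rw [e0, e1, e2, e]
    push_cast
    ring
  rw [hr C, hr C'] at h
  have him := congrArg Complex.im h
  have hre := congrArg Complex.re h
  rw [Complex.add_im, Complex.add_im, Complex.ofReal_im, Complex.ofReal_im, Complex.im_ofReal_mul,
    Complex.im_ofReal_mul, zero_add, zero_add] at him
  have h1 : (C 1 : ℝ) - C 2 = C' 1 - C' 2 := mul_right_cancel₀ Conj.om_im him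
  rw [Complex.add_re, Complex.add_re, Complex.ofReal_re, Complex.ofReal_re, Complex.re_ofReal_mul,
    Complex.re_ofReal_mul, h1] at hre
  have h0 : (C 0 : ℝ) - C 2 = C' 0 - C' 2 := by linarith
  have hs' : (C 0 : ℝ) + C 1 + C 2 = C' 0 + C' 1 + C' 2 := by
    rw [Fin.sum_univ_three, Fin.sum_univ_three] at hs
    exact_mod_cast hs
  have h2 : (C 2 : ℝ) = C' 2 := by linarith
  have h1' : (C 1 : ℝ) = C' 1 := by linarith
  have h0' : (C 0 : ℝ) = C' 0 := by linarith
  funext k
  fin_cases k
  · exact_mod_cast h0'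
  · exact_mod_cast h1'
  · exact_mod_cast h2

/-- if `s`, `t` have the right traces they are of the types `b`, `c` -/
theorem att_of {b : ι → Bool} {c : ι → Fin 3} {θ : ι → ℝ} (s t : Matrix ι ι ℂ)
    (hs : s ∈ unitaryGroup ι ℂ) (hs2 : s * s = 1) (hsb : trace s = (Fintype.card ι : ℂ) - 2 * nb b)
    (ht : t ∈ unitaryGroup ι ℂ) (ht3 : t ^ 3 = 1)
    (htc : trace t = ∑ k : Fin 3, (nc c k : ℂ) * om ^ (k : ℕ)) (h : t * s = Th θ) :
    Att b c θ := by
  obtain ⟨V, hV, b', hb'⟩ := conj_S s hs hs2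
  obtain ⟨U, hU, c', hc'⟩ := conj_T t ht ht3
  have h1 : nb b = nb b' := by
    rw [hb', Conj.trace_conj hV, trace_S0] at hsb
    have h2 : (nb b : ℂ) = nb b' := by linear_combination hsb / 2
    exact_mod_cast h2
  have h2 : nc c = nc c' := by
    rw [hc', Conj.trace_conj hU, trace_T0] at htc
    exact (nc_unique _ _ (by rw [sum_nc, sum_nc]) htc).symm
  obtain ⟨σ, hσ⟩ := Conj.exists_perm b b' (fun a => by
    have hc : ∀ f : ι → Bool, #{i | f i = false} + #{i | f i = true} = Fintype.card ι := by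
      intro f
      have := Finset.card_filter_add_card_filter_not (s := (Finset.univ : Finset ι))
        (fun i => f i = false)
      simp only [Bool.not_eq_false] at this
      rw [this, Finset.card_univ]
    have h3 := hc b
    have h4 := hc b'
    have h5 : #{i | b i = true} = #{i | b' i = true} := h1
    cases a
    · omega
    · exact h5)
  obtain ⟨τ, hτ⟩ := Conj.exists_perm c c' (fun a => congrFun h2 a)
  refine ⟨V.submatrix id σ, Conj.submatrix_unitary hV σ, U.submatrix id τ,
    Conj.submatrix_unitary hU τ, ?_⟩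
  have e1 : S0 b = diagonal (fun i => (fun j => if b' j then (-1 : ℂ) else 1) (σ i)) := by
    rw [S0]
    congr 1
    funext i
    simp only [hσ]
  have e2 : T0 c = diagonal (fun i => (fun j => om ^ (c' j : ℕ)) (τ i)) := by
    rw [T0]
    congr 1
    funext i
    simp only [hτ]
  have e3 := Conj.submatrix_conj U τ (fun j => om ^ (c' j : ℕ))
  have e4 := Conj.submatrix_conj V σ (fun j => if b' j then (-1 : ℂ) else 1)
  rw [← e1] at e4
  rw [← e2] at e3
  rw [e3, e4, ← h, hb', hc']
  rfl

end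

end Pool.Agent.Lib.MP_88e1a1_al.Even
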