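import Pool.Agent.Lib.MP_88e1a1_al.Even.BaseAux
import Pool.Agent.Lib.MP_88e1a1_al.Even.Blocks
import Pool.Agent.Lib.MP_88e1a1_al.Even.Conj

/-! # The base point -/

set_option autoImplicit false

namespace Pool.Agent.Lib.MP_88e1a1_al.Even

open Finset Matrix
open scoped Real

/-- direct sums of `2 × 2` blocks -/
theorem att_blocks {ι : Type*} [Fintype ι] [DecidableEq ι] (b : ι → Bool) (c : ι → Fin 3)
    (x : ι → ℝ) (κ : ι → ℕ) (σ : ι → ι) (hσ : ∀ i, σ (σ i) = i) (hx : ∀ i, x (σ i) = -x i)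
    (hx1 : ∀ i, |x i| ≤ 1) (hκ : ∀ i, κ (σ i) % 6 = (κ i + 3) % 6)
    (hb : 2 * nb b = Fintype.card ι)
    (hc : ∀ k : Fin 3, 2 * nc c k + #{i | (κ i + (k : ℕ)) % 3 = 0} = Fintype.card ι) :
    Att b c fun i => π / 3 * (x i + κ i) :=
  att_blocks_of b c x κ σ hσ hx hx1 hκ hb hc
    (fun _ s t h1 h2 h3 h4 h5 h6 h7 => att_of s t h1 h2 h3 h4 h5 h6 h7)

/-- the base point -/
theorem base (n : ℕ) (hn : Even n) (b : Fin n → Bool) (c : Fin n → Fin 3)
    (hb : nb b = n / 2) (hc : ∀ k, nc c k = cc n k) :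
    ∃ x : Fin n → ℝ, AlcO n x ∧ Att b c (tht n x) := by
  have hn2 : n % 2 = 0 := Nat.even_iff.mp hn
  let σ : Fin n → Fin n := fun i => ⟨pi6 n i, pi6_lt n i hn2 i.2⟩
  have hσ : ∀ i, σ (σ i) = i := fun i => Fin.ext (pi6_pi6 n i hn2 i.2)
  have hx : ∀ i, xb n (σ i) = -xb n i := fun i => xb_pi6 n hn2 i
  refine ⟨xb n, ⟨xb_mono n, ?_, ?_, ?_⟩, ?_⟩
  · intro i j
    have h1 := xb_bound n i
    have h2 := xb_bound n j
    linarith [h1.1, h2.2]
  · have h1 : ∑ i, xb n (σ i) = ∑ i, xb n i :=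
      (Equiv.sum_comp (⟨σ, σ, hσ, hσ⟩ : Fin n ≃ Fin n) (xb n))
    have h2 : ∑ i, xb n (σ i) = -∑ i, xb n i := by
      rw [← Finset.sum_neg_distrib]
      exact Finset.sum_congr rfl fun i _ => hx i
    linarith
  · intro i j hij hk
    exact xb_strict n i j hij hk
  · refine att_blocks b c (xb n) (fun i => kap n i) σ hσ hx ?_ ?_ ?_ ?_
    · intro i
      have h1 := xb_bound n i
      rw [abs_le]
      constructor <;> linarith [h1.1, h1.2]
    · intro i
      exact kap_pi6 n i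
    · rw [hb, Fintype.card_fin]
      omega
    · intro k
      rw [hc k, Fintype.card_fin]
      exact count_kap n hn2 k

end Pool.Agent.Lib.MP_88e1a1_al.Even
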