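import Pool.Agent.Lib.MP_88e1a1_al.Even.Defs

/-! # The base point: combinatorics of the pattern `kap` -/

set_option autoImplicit false

namespace Pool.Agent.Lib.MP_88e1a1_al.Even

open Finset Matrix
open scoped Real

/-! ## The base point -/

theorem count_per (p : ℕ → Prop) [DecidablePred p] (hp : ∀ i, p (6 + i) ↔ p i) (m r : ℕ) :
    Nat.count p (6 * m + r) = m * Nat.count p 6 + Nat.count p r := by
  induction m with
  | zero => simp
  | succ m ih =>
    have h1 : 6 * (m + 1) + r = 6 + (6 * m + r) := by ring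
    have h2 : Nat.count (fun k => p (6 + k)) (6 * m + r) = Nat.count p (6 * m + r) := by
      simp only [hp]
    rw [h1, Nat.count_add, h2, ih]
    ring

theorem card_filter_fin (n : ℕ) (p : ℕ → Prop) [DecidablePred p] :
    #{i : Fin n | p (i : ℕ)} = Nat.count p n := by
  rw [Nat.count_eq_card_filter_range]
  have : ({i ∈ range n | p i} : Finset ℕ) = ({i : Fin n | p (i : ℕ)} : Finset (Fin n)).map
      Fin.valEmbedding := by
    ext j
    simp only [mem_filter, mem_range, mem_map, mem_univ, true_and, Fin.valEmbedding_apply]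
    constructor
    · rintro ⟨h1, h2⟩
      exact ⟨⟨j, h1⟩, h2, rfl⟩
    · rintro ⟨a, h1, rfl⟩
      exact ⟨a.2, h1⟩
  rw [this, card_map]

/-- number of indices `< n` with residue `u` modulo `6` -/
def MM (n u : ℕ) : ℕ := (n + 5 - u) / 6

/-- the base point -/
noncomputable def xb (n : ℕ) (i : Fin n) : ℝ :=
  (2 * ((i : ℕ) / 6 : ℕ) + 1) / (2 * (MM n ((i : ℕ) % 6) : ℝ)) - 1 / 2

/-- partner residue -/
def pu (n u : ℕ) : ℕ := if n % 6 = 0 then (u + 3) % 6 else if u % 2 = 0 then u + 1 else u - 1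

/-- partner index -/
def pi6 (n i : ℕ) : ℕ := 6 * (MM n (i % 6) - 1 - i / 6) + pu n (i % 6)

theorem pu_lt (n u : ℕ) (hu : u < 6) : pu n u < 6 := by
  unfold pu
  split_ifs <;> omega

theorem MM_pu (n u : ℕ) (hn : n % 2 = 0) (hu : u < 6) : MM n (pu n u) = MM n u := by
  unfold pu MM
  split_ifs <;> omega

theorem lt_MM (n i : ℕ) (hi : i < n) : i / 6 < MM n (i % 6) := by
  unfold MM
  omega

theorem pi6_div (n i : ℕ) : pi6 n i / 6 = MM n (i % 6) - 1 - i / 6 := by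
  have := pu_lt n (i % 6) (Nat.mod_lt _ (by norm_num))
  unfold pi6
  omega

theorem pi6_mod (n i : ℕ) : pi6 n i % 6 = pu n (i % 6) := by
  have := pu_lt n (i % 6) (Nat.mod_lt _ (by norm_num))
  unfold pi6
  omega

theorem pu_pu (n u : ℕ) (hu : u < 6) : pu n (pu n u) = u := by
  unfold pu
  split_ifs <;> omega

theorem pi6_pi6 (n i : ℕ) (hn : n % 2 = 0) (hi : i < n) : pi6 n (pi6 n i) = i := by
  have h6 : i % 6 < 6 := Nat.mod_lt _ (by norm_num)
  have h1 := lt_MM n i hi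
  have h2 : pi6 n (pi6 n i) = 6 * (MM n (pi6 n i % 6) - 1 - pi6 n i / 6) + pu n (pi6 n i % 6) :=
    rfl
  rw [h2, pi6_mod, pi6_div, MM_pu n _ hn h6, pu_pu n _ h6]
  omega

theorem pi6_lt (n i : ℕ) (hn : n % 2 = 0) (hi : i < n) : pi6 n i < n := by
  have h6 : i % 6 < 6 := Nat.mod_lt _ (by norm_num)
  have h1 := lt_MM n i hi
  have h2 := MM_pu n _ hn h6
  have h3 := pu_lt n _ h6
  unfold pi6
  unfold MM at *
  omega

theorem kap_mod (n i : ℕ) : kap n i = kap n (i % 6) := by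
  obtain ⟨q, r, hr, rfl⟩ : ∃ q r, r < 6 ∧ i = 6 * q + r :=
    ⟨i / 6, i % 6, Nat.mod_lt _ (by norm_num), (Nat.div_add_mod i 6).symm⟩
  have h1 : (6 * q + r) % 6 = r := by omega
  rw [h1]
  unfold kap
  split_ifs with h0 h2
  · omega
  · interval_cases r <;> omega
  · interval_cases r <;> omega

theorem kap_pi6 (n i : ℕ) : kap n (pi6 n i) % 6 = (kap n i + 3) % 6 := by
  have h6 : i % 6 < 6 := Nat.mod_lt _ (by norm_num)
  rw [kap_mod n (pi6 n i), pi6_mod, kap_mod n i]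
  generalize i % 6 = u at h6
  unfold pu kap
  split_ifs <;> interval_cases u <;> omega

theorem kap_per (n i : ℕ) : kap n (6 + i) % 3 = kap n i % 3 := by
  rw [kap_mod n (6 + i), kap_mod n i, Nat.add_mod_left]

theorem count_kap (n : ℕ) (hn : n % 2 = 0) (k : Fin 3) :
    2 * cc n k + #{i : Fin n | (kap n (i : ℕ) + (k : ℕ)) % 3 = 0} = n := by
  rw [card_filter_fin n (fun i => (kap n i + (k : ℕ)) % 3 = 0)]
  have hper : ∀ i, (kap n (6 + i) + (k : ℕ)) % 3 = 0 ↔ (kap n i + (k : ℕ)) % 3 = 0 := by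
    intro i
    have := kap_per n i
    omega
  have hm : n = 6 * (n / 6) + n % 6 := (Nat.div_add_mod n 6).symm
  have hc : Nat.count (fun i => (kap n i + (k : ℕ)) % 3 = 0) n
      = (n / 6) * Nat.count (fun i => (kap n i + (k : ℕ)) % 3 = 0) 6
        + Nat.count (fun i => (kap n i + (k : ℕ)) % 3 = 0) (n % 6) := by
    have := count_per (fun i => (kap n i + (k : ℕ)) % 3 = 0) hper (n / 6) (n % 6)
    rwa [← hm] at this
  rw [hc]
  have h3 : n % 6 = 0 ∨ n % 6 = 2 ∨ n % 6 = 4 := by omega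
  rcases h3 with h | h | h
  · have hk : ∀ i, kap n i = i % 6 := fun i => by unfold kap; rw [if_pos h]
    simp only [hk, h]
    have hcc : cc n k = n / 3 := by unfold cc; rw [if_pos h]
    rw [hcc]
    have : Nat.count (fun i => (i % 6 + (k : ℕ)) % 3 = 0) 6 = 2 := by
      clear hcc hc hper
      revert k
      decide
    rw [this]
    simp
    omega
  · have hk : ∀ i, kap n i = (2 * (i / 2)) % 3 + 3 * (i % 2) := fun i => by
      unfold kap; rw [if_neg (by omega), if_pos h]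
    simp only [hk, h]
    have hcc : cc n k = if k = 0 then n / 3 else n / 3 + 1 := by
      unfold cc; rw [if_neg (by omega), if_pos h]
    rw [hcc]
    have h6 : Nat.count (fun i => ((2 * (i / 2)) % 3 + 3 * (i % 2) + (k : ℕ)) % 3 = 0) 6 = 2 := by
      clear hcc hc hper
      revert k
      decide
    have h2 : Nat.count (fun i => ((2 * (i / 2)) % 3 + 3 * (i % 2) + (k : ℕ)) % 3 = 0) 2
        = if k = 0 then 2 else 0 := by
      clear hcc hc hper
      revert k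
      decide
    rw [h6, h2]
    split_ifs <;> omega
  · have hk : ∀ i, kap n i = (i / 2) % 3 + 3 * (i % 2) := fun i => by
      unfold kap; rw [if_neg (by omega), if_neg (by omega)]
    simp only [hk, h]
    have hcc : cc n k = if k = 1 then n / 3 + 1 else n / 3 := by
      unfold cc; rw [if_neg (by omega), if_neg (by omega)]
    rw [hcc]
    have h6 : Nat.count (fun i => ((i / 2) % 3 + 3 * (i % 2) + (k : ℕ)) % 3 = 0) 6 = 2 := by
      clear hcc hc hper
      revert k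
      decide
    have h4 : Nat.count (fun i => ((i / 2) % 3 + 3 * (i % 2) + (k : ℕ)) % 3 = 0) 4
        = if k = 1 then 0 else 2 := by
      clear hcc hc hper
      revert k
      decide
    rw [h6, h4]
    split_ifs <;> omega

theorem xb_bound (n : ℕ) (i : Fin n) : -(1 / 2) < xb n i ∧ xb n i < 1 / 2 := by
  have h1 := lt_MM n i i.2
  have h2 : (0 : ℝ) < MM n ((i : ℕ) % 6) := by
    have : 0 < MM n ((i : ℕ) % 6) := by omega
    exact_mod_cast this
  have h3 : (((i : ℕ) / 6 : ℕ) : ℝ) + 1 ≤ MM n ((i : ℕ) % 6) := by exact_mod_cast h1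
  have h4 : (0 : ℝ) ≤ (((i : ℕ) / 6 : ℕ) : ℝ) := Nat.cast_nonneg _
  unfold xb
  constructor
  · have : 0 < (2 * (((i : ℕ) / 6 : ℕ) : ℝ) + 1) / (2 * (MM n ((i : ℕ) % 6) : ℝ)) := by positivity
    linarith
  · have : (2 * (((i : ℕ) / 6 : ℕ) : ℝ) + 1) / (2 * (MM n ((i : ℕ) % 6) : ℝ)) < 1 := by
      rw [div_lt_one (by positivity)]
      linarith
    linarith

theorem xb_mono (n : ℕ) : Monotone (xb n) := by
  intro i j hij
  have hij' : (i : ℕ) ≤ j := hij
  have hi := i.2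
  have hj := j.2
  have h1 := lt_MM n i i.2
  have h2 := lt_MM n j j.2
  have p1 : (0 : ℝ) < MM n ((i : ℕ) % 6) := by
    have : 0 < MM n ((i : ℕ) % 6) := by omega
    exact_mod_cast this
  have p2 : (0 : ℝ) < MM n ((j : ℕ) % 6) := by
    have : 0 < MM n ((j : ℕ) % 6) := by omega
    exact_mod_cast this
  have key : (2 * ((i : ℕ) / 6) + 1) * MM n ((j : ℕ) % 6)
      ≤ (2 * ((j : ℕ) / 6) + 1) * MM n ((i : ℕ) % 6) := by
    rcases Nat.lt_or_ge ((i : ℕ) / 6) ((j : ℕ) / 6) with h | h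
    · have a1 : MM n ((j : ℕ) % 6) ≤ n / 6 + 1 := by unfold MM; omega
      have a2 : n / 6 ≤ MM n ((i : ℕ) % 6) := by unfold MM; omega
      have a3 : (j : ℕ) / 6 ≤ n / 6 := by omega
      calc (2 * ((i : ℕ) / 6) + 1) * MM n ((j : ℕ) % 6)
          ≤ (2 * ((i : ℕ) / 6) + 1) * (n / 6 + 1) := Nat.mul_le_mul_left _ a1
        _ ≤ (2 * ((i : ℕ) / 6) + 3) * (n / 6) := by
            have : 2 * ((i : ℕ) / 6) + 1 ≤ 2 * (n / 6) := by omega
            nlinarith
        _ ≤ (2 * ((j : ℕ) / 6) + 1) * MM n ((i : ℕ) % 6) := Nat.mul_le_mul (by omega) a2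
    · have a1 : (i : ℕ) / 6 = (j : ℕ) / 6 := by omega
      have a2 : MM n ((j : ℕ) % 6) ≤ MM n ((i : ℕ) % 6) := by unfold MM; omega
      rw [a1]
      exact Nat.mul_le_mul_left _ a2
  have key' : (2 * (((i : ℕ) / 6 : ℕ) : ℝ) + 1) * (MM n ((j : ℕ) % 6) : ℝ)
      ≤ (2 * (((j : ℕ) / 6 : ℕ) : ℝ) + 1) * (MM n ((i : ℕ) % 6) : ℝ) := by exact_mod_cast key
  unfold xb
  have : (2 * (((i : ℕ) / 6 : ℕ) : ℝ) + 1) / (2 * (MM n ((i : ℕ) % 6) : ℝ))
      ≤ (2 * (((j : ℕ) / 6 : ℕ) : ℝ) + 1) / (2 * (MM n ((j : ℕ) % 6) : ℝ)) := by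
    rw [div_le_div_iff₀ (by positivity) (by positivity)]
    linarith
  linarith

theorem xb_strict (n : ℕ) (i j : Fin n) (hij : i < j)
    (hk : kap n i = kap n j) : xb n i < xb n j := by
  have hij' : (i : ℕ) < j := hij
  have h6 : (i : ℕ) % 6 = (j : ℕ) % 6 := by
    rw [kap_mod n i, kap_mod n j] at hk
    have a1 : (i : ℕ) % 6 < 6 := Nat.mod_lt _ (by norm_num)
    have a2 : (j : ℕ) % 6 < 6 := Nat.mod_lt _ (by norm_num)
    generalize (i : ℕ) % 6 = u at hk a1 ⊢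
    generalize (j : ℕ) % 6 = v at hk a2 ⊢
    unfold kap at hk
    split_ifs at hk <;> interval_cases u <;> interval_cases v <;> omega
  have hl : (i : ℕ) / 6 < (j : ℕ) / 6 := by omega
  have h2 := lt_MM n j j.2
  have p2 : (0 : ℝ) < MM n ((j : ℕ) % 6) := by
    have : 0 < MM n ((j : ℕ) % 6) := by omega
    exact_mod_cast this
  have hl' : (((i : ℕ) / 6 : ℕ) : ℝ) < (((j : ℕ) / 6 : ℕ) : ℝ) := by exact_mod_cast hl
  unfold xb
  rw [h6]
  have : (2 * (((i : ℕ) / 6 : ℕ) : ℝ) + 1) / (2 * (MM n ((j : ℕ) % 6) : ℝ))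
      < (2 * (((j : ℕ) / 6 : ℕ) : ℝ) + 1) / (2 * (MM n ((j : ℕ) % 6) : ℝ)) := by
    apply div_lt_div_of_pos_right _ (by positivity)
    linarith
  linarith

theorem xb_pi6 (n : ℕ) (hn : n % 2 = 0) (i : Fin n) :
    xb n ⟨pi6 n i, pi6_lt n i hn i.2⟩ = -xb n i := by
  have h6 : (i : ℕ) % 6 < 6 := Nat.mod_lt _ (by norm_num)
  have h1 := lt_MM n i i.2
  have p1 : (0 : ℝ) < MM n ((i : ℕ) % 6) := by
    have : 0 < MM n ((i : ℕ) % 6) := by omega
    exact_mod_cast this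
  unfold xb
  simp only
  rw [pi6_mod, pi6_div, MM_pu n _ hn h6]
  have e : ((MM n ((i : ℕ) % 6) - 1 - (i : ℕ) / 6 : ℕ) : ℝ)
      = (MM n ((i : ℕ) % 6) : ℝ) - 1 - (((i : ℕ) / 6 : ℕ) : ℝ) := by
    rw [Nat.cast_sub (by omega), Nat.cast_sub (by omega)]
    simp
  rw [e]
  field_simp
  ring

end Pool.Agent.Lib.MP_88e1a1_al.Even
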