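import Pool.Agent.Lib.MP_88e1a1_al.Even.Blocks

/-! # MP_88e1a1_al, even `n`: the identity `w(t⁻¹, t⁻¹ s) = (t s) ^ 6` and elementary facts -/

set_option autoImplicit false

namespace Pool.Agent.Lib.MP_88e1a1_al.Even

open Finset Matrix
open scoped Real

theorem om_cube : om ^ 3 = 1 := om_cube_aux

theorem om_sum : 1 + om + om ^ 2 = 0 := om_sum_aux

theorem om_norm : ‖om‖ = 1 := by
  have h : ‖om‖ ^ 3 = 1 := by rw [← norm_pow, om_cube, norm_one]
  exact (pow_eq_one_iff_of_nonneg (norm_nonneg _) (by norm_num)).1 h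

open scoped commutatorElement in
theorem word_ident {G : Type*} [Group G] (s t : G) (hs : s ^ 2 = 1) (ht : t ^ 3 = 1) :
    wG t⁻¹ (t⁻¹ * s) = (t * s) ^ 6 := by
  have hs1 : s * s = 1 := by rw [← pow_two, hs]
  have hs2 : s⁻¹ = s := by
    rw [inv_eq_iff_mul_eq_one, hs1]
  have hs3 : ∀ a, s * (s * a) = a := fun a => by rw [← mul_assoc, hs1, one_mul]
  have ht1 : t * t * t = 1 := by rw [← ht, pow_succ, pow_two]
  have ht2 : t⁻¹ = t * t := by
    rw [inv_eq_iff_mul_eq_one, ← mul_assoc, ht1]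
  have ht3 : ∀ a, t * (t * (t * a)) = a := fun a => by
    rw [← mul_assoc, ← mul_assoc, ht1, one_mul]
  have ht4 : t * (t * t) = 1 := by rw [← mul_assoc, ht1]
  have hu : ⁅t⁻¹, t⁻¹ * s⁆ = t * (s * (t * (s * t))) := by
    rw [commutatorElement_def, _root_.mul_inv_rev, inv_inv, hs2, ht2]
    simp only [mul_assoc, ht3]
  have hv : ⁅t⁻¹ ^ 2, (t⁻¹ * s) ^ 2⁆ = s * (t * (t * (s * (t * (t * (s * (t * (s * t)))))))) := by
    rw [commutatorElement_def, pow_two, pow_two, _root_.mul_inv_rev, _root_.mul_inv_rev, _root_.mul_inv_rev, inv_inv,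
      hs2, ht2]
    simp only [mul_assoc, ht3]
  have hu' : (t * (s * (t * (s * t))))⁻¹ = t * (t * (s * (t * (t * (s * (t * t)))))) := by
    rw [_root_.mul_inv_rev, _root_.mul_inv_rev, _root_.mul_inv_rev, _root_.mul_inv_rev, hs2, ht2]
    simp only [mul_assoc]
  have hv' : (s * (t * (t * (s * (t * (t * (s * (t * (s * t)))))))))⁻¹
      = t * (t * (s * (t * (t * (s * (t * (s * (t * s)))))))) := by
    rw [inv_eq_iff_mul_eq_one]
    simp only [mul_assoc, ht3, hs3, hs1]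
  unfold wG
  rw [commutatorElement_def, hu, hv, hu', hv']
  simp only [pow_succ, pow_zero, one_mul, mul_assoc, hs3, ht3, ht4, mul_one]

section

variable {ι : Type*} [Fintype ι] [DecidableEq ι]

theorem diagonal_unitary (d : ι → ℂ) (hd : ∀ i, ‖d i‖ = 1) : diagonal d ∈ unitaryGroup ι ℂ := by
  rw [mem_unitaryGroup_iff, star_eq_conjTranspose, diagonal_conjTranspose, diagonal_mul_diagonal,
    ← diagonal_one]
  congr 1
  funext i
  have h1 := RCLike.mul_conj (d i)
  rw [hd i] at h1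
  have h2 : d i * star (d i) = d i * (starRingEnd ℂ) (d i) := rfl
  rw [Pi.star_apply, h2, h1]
  simp

theorem S0_unitary (b : ι → Bool) : S0 b ∈ unitaryGroup ι ℂ := by
  apply diagonal_unitary
  intro i
  split_ifs <;> simp

theorem S0_sq (b : ι → Bool) : S0 b * S0 b = 1 := by
  unfold S0
  rw [diagonal_mul_diagonal, ← diagonal_one]
  congr 1
  funext i
  split_ifs <;> simp

theorem T0_unitary (c : ι → Fin 3) : T0 c ∈ unitaryGroup ι ℂ := by
  apply diagonal_unitary
  intro i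
  rw [norm_pow, om_norm, one_pow]

theorem T0_cube (c : ι → Fin 3) : T0 c ^ 3 = 1 := by
  unfold T0
  rw [diagonal_pow, ← diagonal_one]
  congr 1
  funext i
  rw [Pi.pow_apply, ← pow_mul, mul_comm, pow_mul, om_cube, one_pow]

theorem Th_unitary (θ : ι → ℝ) : Th θ ∈ unitaryGroup ι ℂ := by
  apply diagonal_unitary
  intro i
  exact Complex.norm_exp_ofReal_mul_I _

/-- attained angles give values of the word map -/
theorem hit_of_att {b : ι → Bool} {c : ι → Fin 3} {θ : ι → ℝ} (h : Att b c θ) (d : ι → Circle)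
    (hd : ∀ i, (d i : ℂ) = Complex.exp (((6 * θ i : ℝ) : ℂ) * Complex.I)) :
    Hit (diagonal fun i => (d i : ℂ)) := by
  obtain ⟨V, hV, U, hU, h⟩ := h
  set VV : unitaryGroup ι ℂ := ⟨V, hV⟩
  set UU : unitaryGroup ι ℂ := ⟨U, hU⟩
  set SS : unitaryGroup ι ℂ := ⟨S0 b, S0_unitary b⟩
  set TT : unitaryGroup ι ℂ := ⟨T0 c, T0_unitary c⟩
  have hSS : SS ^ 2 = 1 := by
    apply Subtype.ext
    change S0 b ^ 2 = 1
    rw [pow_two, S0_sq]
  have hTT : TT ^ 3 = 1 := by
    apply Subtype.ext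
    change T0 c ^ 3 = 1
    exact T0_cube c
  set s := VV * SS * VV⁻¹ with hs
  set t := UU * TT * UU⁻¹ with ht
  have hs2 : s ^ 2 = 1 := by
    rw [hs, conj_pow, hSS, mul_one, mul_inv_cancel]
  have ht3 : t ^ 3 = 1 := by
    rw [ht, conj_pow, hTT, mul_one, mul_inv_cancel]
  have hts : (t * s).1 = Th θ := h
  refine ⟨(t⁻¹).1, (t⁻¹).2, (t⁻¹ * s).1, (t⁻¹ * s).2, ?_⟩
  rw [W_coe, word_ident s t hs2 ht3]
  have : ((t * s) ^ 6).1 = (t * s).1 ^ 6 := rfl
  rw [this, hts]
  unfold Th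
  rw [diagonal_pow]
  congr 1
  funext i
  rw [Pi.pow_apply, ← Complex.exp_nat_mul, hd i]
  congr 1
  push_cast
  ring

theorem det_S0 (b : ι → Bool) : (S0 b).det = (-1) ^ nb b := by
  unfold S0 nb
  rw [det_diagonal, Finset.prod_ite, Finset.prod_const, Finset.prod_const_one, mul_one]

theorem det_T0 (c : ι → Fin 3) : (T0 c).det = om ^ (nc c 1 + 2 * nc c 2) := by
  unfold T0
  rw [det_diagonal, Finset.prod_pow_eq_pow_sum]
  congr 1
  have h : ∀ i : ι, ((c i : Fin 3) : ℕ) = (if c i = 1 then 1 else 0) + 2 * (if c i = 2 then 1 else 0) := by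
    intro i
    generalize c i = k
    fin_cases k <;> rfl
  rw [Finset.sum_congr rfl fun i _ => h i, Finset.sum_add_distrib, ← Finset.mul_sum]
  unfold nc
  rw [Finset.card_filter, Finset.card_filter]

/-- determinant relation -/
theorem det_of_att {b : ι → Bool} {c : ι → Fin 3} {θ : ι → ℝ} (h : Att b c θ) :
    Complex.exp (((∑ i, θ i : ℝ) : ℂ) * Complex.I)
      = (-1) ^ nb b * om ^ (nc c 1 + 2 * nc c 2) := by
  obtain ⟨V, hV, U, hU, h⟩ := h
  have h1 := congrArg det h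
  have hV' := congrArg det (mem_unitaryGroup_iff.1 hV)
  have hU' := congrArg det (mem_unitaryGroup_iff.1 hU)
  rw [det_mul, det_one] at hV' hU'
  rw [det_mul, det_mul, det_mul, det_mul, det_mul, det_S0, det_T0] at h1
  have h2 : (Th θ).det = Complex.exp (((∑ i, θ i : ℝ) : ℂ) * Complex.I) := by
    unfold Th
    rw [det_diagonal, ← Complex.exp_sum]
    congr 1
    push_cast
    rw [Finset.sum_mul]
  rw [← h2, ← h1]
  linear_combination ((-1 : ℂ) ^ nb b * om ^ (nc c 1 + 2 * nc c 2) * (U.det * (star U).det)) * hV'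
    + ((-1 : ℂ) ^ nb b * om ^ (nc c 1 + 2 * nc c 2)) * hU'

end

end Pool.Agent.Lib.MP_88e1a1_al.Even
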