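import Pool.Agent.Lib.MP_88e1a1_al.Even.Conj
import Pool.Agent.Lib.MP_88e1a1_al.Even.AngSum

/-! # MP_88e1a1_al, even `n`: the index lemma -/

set_option autoImplicit false

namespace Pool.Agent.Lib.MP_88e1a1_al.Even

open Finset Matrix
open scoped Real

namespace Index

/-! ## the function `G` -/

/-- continuous majorant of `ang` on the circle, exact at the cube roots of unity -/
noncomputable def G (z : ℂ) : ℝ :=
  if z.im ≤ 0 then π + Real.arccos (-z.re)
  else max (π - Real.arccos (-z.re)) (2 * Real.arccos (-z.re))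

theorem G_continuousOn : ContinuousOn G (Metric.sphere 0 1) := by
  have hα : Continuous fun z : ℂ => Real.arccos (-z.re) :=
    Real.continuous_arccos.comp Complex.continuous_re.neg
  have h1 : Continuous fun z : ℂ => π + Real.arccos (-z.re) := by fun_prop
  have h2 : Continuous fun z : ℂ =>
      max (π - Real.arccos (-z.re)) (2 * Real.arccos (-z.re)) := by fun_prop
  have hfr : ∀ z ∈ Metric.sphere (0 : ℂ) 1, z.im = 0 →
      π + Real.arccos (-z.re) = max (π - Real.arccos (-z.re)) (2 * Real.arccos (-z.re)) := by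
    intro z hz him
    have hn : z.re * z.re = 1 := by
      have h3 : ‖z‖ = 1 := by simpa using hz
      have h4 := Complex.sq_norm z
      rw [h3, Complex.normSq_apply, him] at h4
      linarith
    have hpi := Real.pi_pos
    rcases mul_self_eq_one_iff.mp hn with h | h
    · rw [h, Real.arccos_neg_one]
      rw [max_eq_right (by linarith)]
      ring
    · rw [h, neg_neg, Real.arccos_one]
      rw [max_eq_left (by linarith)]
      ring
  unfold G
  refine ContinuousOn.if ?_ h1.continuousOn h2.continuousOn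
  rintro z ⟨hz, hz'⟩
  have : z.im = 0 := by
    have := frontier_le_subset_eq Complex.continuous_im continuous_const hz'
    simpa using this
  exact hfr z hz this

theorem dot_self {κ : Type*} [Fintype κ] (v : κ → ℂ) :
    star v ⬝ᵥ v = ((∑ k, Complex.normSq (v k) : ℝ) : ℂ) := by
  rw [dotProduct, Complex.ofReal_sum]
  refine Finset.sum_congr rfl fun k _ => ?_
  rw [Pi.star_apply, Complex.star_def, mul_comm, Complex.mul_conj]

theorem ang_le_G (z : ℂ) (hz : ‖z‖ = 1) : ang z ≤ G z := by
  have hn : ‖-z‖ = 1 := by rwa [norm_neg]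
  have h0 : -z ≠ 0 := by
    intro h
    rw [h, norm_zero] at hn
    exact zero_ne_one hn
  unfold ang G
  split_ifs with h
  · rw [Complex.arg_of_im_nonneg_of_ne_zero (by simpa using h) h0, hn, div_one, Complex.neg_re]
  · push Not at h
    rw [Complex.arg_of_im_neg (by simpa using h), hn, div_one, Complex.neg_re]
    exact (le_of_eq (by ring)).trans (le_max_left _ _)

theorem ang_exp (φ : ℝ) (h0 : 0 < φ) (h2 : φ < 2 * π) :
    ang (Complex.exp ((φ : ℂ) * Complex.I)) = φ := by
  have h : -Complex.exp ((φ : ℂ) * Complex.I) = Complex.exp (((φ - π : ℝ) : ℂ) * Complex.I) := by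
    push_cast
    rw [sub_mul, Complex.exp_sub, Complex.exp_pi_mul_I]
    ring
  unfold ang
  rw [h, Complex.arg_exp_mul_I, (toIocMod_eq_self _).mpr]
  · ring
  · constructor <;> linarith

theorem om_exp : om = Complex.exp (((2 * π / 3 : ℝ) : ℂ) * Complex.I) := by
  unfold om
  congr 1
  push_cast
  ring

theorem G_om (k : Fin 3) : G (om ^ (k : ℕ)) = hang k := by
  have hpi := Real.pi_pos
  have hc : Real.cos (2 * π / 3) = -(1 / 2) := by
    rw [show 2 * π / 3 = π - π / 3 by ring, Real.cos_pi_sub, Real.cos_pi_div_three]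
  have hs : 0 < Real.sin (2 * π / 3) := Real.sin_pos_of_pos_of_lt_pi (by linarith) (by linarith)
  have ha : Real.arccos (1 / 2) = π / 3 := by
    rw [← Real.cos_pi_div_three]
    exact Real.arccos_cos (by linarith) (by linarith)
  have hre : om.re = -(1 / 2) := by
    rw [om_exp, Complex.exp_ofReal_mul_I_re, hc]
  have him : om.im = Real.sin (2 * π / 3) := by
    rw [om_exp, Complex.exp_ofReal_mul_I_im]
  fin_cases k
  · simp [G, hang]
    ring
  · simp only [Fin.mk_one, pow_one, G, hang, him, hre, neg_neg, ha]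
    rw [if_neg (by linarith), if_neg (by decide), max_eq_left (by linarith)]
    push_cast
    ring
  · have h2 : (om ^ 2).re = -(1 / 2) ∧ (om ^ 2).im = - Real.sin (2 * π / 3) := by
      have h3 : om ^ 2 = -1 - om := by linear_combination Conj.om_sum
      rw [h3]
      constructor
      · simp [hre]; norm_num
      · simp [him]
    simp only [Fin.reduceFinMk, G, hang, h2.1, h2.2, neg_neg, ha]
    rw [if_pos (by linarith), if_neg (by decide)]
    push_cast
    ring

/-! ## the path `E` -/

section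
variable {κ : Type*} [Fintype κ] [DecidableEq κ]

/-- the path of unitary matrices -/
noncomputable def E (t P : Matrix κ κ ℂ) (τ : ℝ) : Matrix κ κ ℂ :=
  t * (1 + (Complex.exp ((τ : ℂ) * Complex.I) - 1) • P)

theorem E_continuous (t P : Matrix κ κ ℂ) : Continuous (E t P) := by
  unfold E
  fun_prop

theorem E_unitary {t P : Matrix κ κ ℂ} (ht : t ∈ unitaryGroup κ ℂ) (hP : P * P = P)
    (hP' : star P = P) (τ : ℝ) : E t P τ ∈ unitaryGroup κ ℂ := by
  refine Submonoid.mul_mem _ ht ?_
  rw [mem_unitaryGroup_iff]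
  set z := Complex.exp ((τ : ℂ) * Complex.I) with hz
  have hzz : z * star z = 1 := by
    have h1 : ‖z‖ = 1 := Complex.norm_exp_ofReal_mul_I τ
    rw [Complex.star_def, Complex.mul_conj, Complex.normSq_eq_norm_sq, h1]
    norm_num
  rw [star_add, star_one, star_smul, hP', star_sub, star_one, add_mul, one_mul, mul_add, mul_one,
    smul_mul_smul_comm, hP, add_assoc, ← add_smul, ← add_smul]
  have : star z - 1 + (z - 1 + (z - 1) * (star z - 1)) = 0 := by
    linear_combination hzz
  rw [this, zero_smul, add_zero]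

theorem E_pi (t P : Matrix κ κ ℂ) : E t P π = t * (1 - (2 : ℂ) • P) := by
  unfold E
  rw [Complex.exp_pi_mul_I, show (-1 : ℂ) - 1 = -2 by norm_num, neg_smul, sub_eq_add_neg]

theorem E_two_pi (t P : Matrix κ κ ℂ) : E t P (2 * π) = t := by
  unfold E
  have : Complex.exp (((2 * π : ℝ) : ℂ) * Complex.I) = 1 := by
    push_cast
    exact Complex.exp_two_pi_mul_I
  rw [this, sub_self, zero_smul, add_zero, mul_one]

/-- trace and determinants for a projection -/
theorem proj_det {P : Matrix κ κ ℂ} (hP : P * P = P) (hP' : star P = P) :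
    ∃ p : ℕ, trace P = p ∧ ∀ z : ℂ, (1 + z • P).det = (1 + z) ^ p := by
  have hs2 : (1 - (2 : ℂ) • P) * (1 - (2 : ℂ) • P) = 1 := by
    rw [sub_mul, one_mul, mul_sub, mul_one, smul_mul_smul_comm, hP]
    module
  have hss : star (1 - (2 : ℂ) • P) = 1 - (2 : ℂ) • P := by
    rw [star_sub, star_one, star_smul, hP']
    simp
  have hs : (1 - (2 : ℂ) • P) ∈ unitaryGroup κ ℂ := by
    rw [mem_unitaryGroup_iff, hss, hs2]
  obtain ⟨V, hV, b, hb⟩ := conj_S _ hs hs2
  have hV1 : star V * V = 1 := mem_unitaryGroup_iff'.1 hV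
  have hV2 : V * star V = 1 := mem_unitaryGroup_iff.1 hV
  have hPd : P = V * diagonal (fun i => if b i then (1 : ℂ) else 0) * star V := by
    have h1 : (2 : ℂ) • P = V * (1 - S0 b) * star V := by
      rw [mul_sub, mul_one, sub_mul, hV2, ← hb]
      abel
    have h2 : (1 - S0 b) = (2 : ℂ) • diagonal (fun i => if b i then (1 : ℂ) else 0) := by
      ext i j
      by_cases hij : i = j
      · subst hij
        by_cases hi : b i
        · simp [S0, hi]; norm_num
        · simp [S0, hi]
      · simp [S0, hij]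
    rw [h2, Matrix.mul_smul, Matrix.smul_mul] at h1
    exact smul_right_injective _ (two_ne_zero' ℂ) h1
  refine ⟨nb b, ?_, fun z => ?_⟩
  · rw [hPd, Conj.trace_conj hV, trace_diagonal, nb]
    simp
  · have h3 : 1 + z • P = V * diagonal (fun i => if b i then (1 + z) else 1) * star V := by
      have h4 : diagonal (fun i => if b i then (1 + z) else 1)
          = 1 + z • diagonal (fun i => if b i then (1 : ℂ) else 0) := by
        ext i j
        by_cases hij : i = j
        · subst hij
          by_cases hi : b i <;> simp [hi]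
        · simp [hij]
      rw [h4, mul_add, mul_one, add_mul, hV2, Matrix.mul_smul, Matrix.smul_mul, ← hPd]
    rw [h3, det_mul_comm, ← mul_assoc, hV1, one_mul, det_diagonal, Finset.prod_ite, nb]
    simp

/-- an eigenvector for the eigenvalue `d k` -/
theorem exists_eigenvector {g V : Matrix κ κ ℂ} {d : κ → ℂ} (hV : V ∈ unitaryGroup κ ℂ)
    (hg : g = V * diagonal d * star V) (k : κ) :
    ∃ w : κ → ℂ, w ≠ 0 ∧ g *ᵥ w = d k • w := by
  have hV1 : star V * V = 1 := mem_unitaryGroup_iff'.1 hV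
  refine ⟨V *ᵥ Pi.single k 1, ?_, ?_⟩
  · intro h
    have h1 : star V *ᵥ (V *ᵥ Pi.single k (1 : ℂ)) = Pi.single k 1 := by
      rw [mulVec_mulVec, hV1, one_mulVec]
    rw [h, mulVec_zero] at h1
    have := congrFun h1 k
    simp at this
  · rw [hg, mulVec_mulVec, mul_assoc, hV1, mul_one, ← mulVec_mulVec, ← mulVec_smul]
    congr 1
    ext i
    rw [mulVec_diagonal]
    by_cases hi : i = k
    · subst hi; simp
    · simp [hi]

/-- no eigenvalue 1 -/
theorem no_eig {t P : Matrix κ κ ℂ} (ht : t ∈ unitaryGroup κ ℂ) (hP : P * P = P)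
    (hP' : star P = P) {φ : κ → ℝ} (h0 : ∀ k, 0 < φ k) (h2 : ∀ k, φ k < 2 * π)
    (hg : t * (1 - (2 : ℂ) • P) = Th φ)
    (hS : ∀ D : κ → ℂ, P *ᵥ (star t *ᵥ D - D) = star t *ᵥ D - D →
      (star D ⬝ᵥ (t *ᵥ D)).im ≤ 0)
    (τ : ℝ) (hτ : τ ∈ Set.Ico π (2 * π)) (w : κ → ℂ) (hw : E t P τ *ᵥ w = w) : w = 0 := by
  have hTh : Th φ *ᵥ w = w → w = 0 := by
    intro h
    ext k
    have h1 := congrFun h k
    rw [Th, mulVec_diagonal] at h1
    have h3 : Complex.exp ((φ k : ℂ) * Complex.I) ≠ 1 := by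
      intro h4
      have h5 := ang_exp (φ k) (h0 k) (h2 k)
      rw [h4, ang, Complex.arg_neg_one] at h5
      linarith [h2 k]
    have h6 : (Complex.exp ((φ k : ℂ) * Complex.I) - 1) * w k = 0 := by
      linear_combination h1
    rcases mul_eq_zero.mp h6 with h7 | h7
    · exact absurd (sub_eq_zero.mp h7) h3
    · exact h7
  rcases eq_or_lt_of_le hτ.1 with h | h
  · rw [← h, E_pi, hg] at hw
    exact hTh hw
  set z := Complex.exp ((τ : ℂ) * Complex.I) with hz
  have ht1 : star t * t = 1 := mem_unitaryGroup_iff'.1 ht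
  have ht2 : t * star t = 1 := mem_unitaryGroup_iff.1 ht
  have h1 : star t *ᵥ w = w + (z - 1) • (P *ᵥ w) := by
    conv_lhs => rw [← hw]
    rw [E, mulVec_mulVec, ← mul_assoc, ht1, one_mul, add_mulVec, one_mulVec, smul_mulVec]
  have h3 : P *ᵥ (star t *ᵥ w - w) = star t *ᵥ w - w := by
    rw [h1, add_sub_cancel_left, mulVec_smul, mulVec_mulVec, hP]
  have h4 := hS w h3
  -- `w* P w = |P w|²`
  have h5 : star w ⬝ᵥ (P *ᵥ w) = star (P *ᵥ w) ⬝ᵥ (P *ᵥ w) := by
    rw [star_mulVec, ← star_eq_conjTranspose, hP', ← dotProduct_mulVec, mulVec_mulVec, hP]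
  have h6 : star w ⬝ᵥ (star t *ᵥ w) = star (star w ⬝ᵥ (t *ᵥ w)) := by
    rw [← star_dotProduct_star, star_star, star_mulVec, ← star_eq_conjTranspose,
      ← dotProduct_mulVec]
  rw [h1, dotProduct_add, dotProduct_smul, h5, dot_self, dot_self, smul_eq_mul] at h6
  have h7 := congrArg Complex.im h6
  rw [Complex.star_def, Complex.conj_im, Complex.add_im, Complex.ofReal_im, zero_add,
    Complex.im_mul_ofReal, Complex.sub_im, Complex.one_im, sub_zero, hz,
    Complex.exp_ofReal_mul_I_im] at h7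
  have hsin : Real.sin τ < 0 := by
    have h8 : 0 < Real.sin (τ - π) :=
      Real.sin_pos_of_pos_of_lt_pi (by linarith) (by linarith [hτ.2])
    rw [Real.sin_sub_pi] at h8
    linarith
  have hN : (0 : ℝ) ≤ ∑ k, Complex.normSq ((P *ᵥ w) k) :=
    Finset.sum_nonneg fun k _ => Complex.normSq_nonneg _
  have hN0 : ∑ k, Complex.normSq ((P *ᵥ w) k) = 0 := by
    by_contra hne
    have hpos : 0 < ∑ k, Complex.normSq ((P *ᵥ w) k) := lt_of_le_of_ne hN (Ne.symm hne)
    have := mul_neg_of_neg_of_pos hsin hpos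
    linarith
  have hPw : P *ᵥ w = 0 := by
    ext k
    have := (Finset.sum_eq_zero_iff_of_nonneg fun k _ => Complex.normSq_nonneg _).1 hN0 k
      (Finset.mem_univ k)
    exact Complex.normSq_eq_zero.1 this
  rw [hPw, smul_zero, add_zero] at h1
  have htw : t *ᵥ w = w := by
    conv_lhs => rw [← h1]
    rw [mulVec_mulVec, ht2, one_mulVec]
  refine hTh ?_
  rw [← hg, ← mulVec_mulVec, sub_mulVec, one_mulVec, smul_mulVec, hPw, smul_zero, sub_zero, htw]

end

end Index

theorem index_lemma {κ : Type*} [Fintype κ] [DecidableEq κ] (t P U : Matrix κ κ ℂ)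
    (c : κ → Fin 3) (hU : U ∈ unitaryGroup κ ℂ) (ht : t = U * T0 c * star U) (hP : P * P = P)
    (hP' : star P = P) (φ : κ → ℝ) (h0 : ∀ k, 0 < φ k) (h2 : ∀ k, φ k < 2 * π)
    (hg : t * (1 - (2 : ℂ) • P) = Th φ)
    (hS : ∀ D : κ → ℂ, P *ᵥ (star t *ᵥ D - D) = star t *ᵥ D - D →
      (star D ⬝ᵥ (t *ᵥ D)).im ≤ 0) :
    ∑ k, φ k ≤ ∑ k, hang (c k) - π * (trace P).re := by
  classical
  have hT0 : T0 c ∈ unitaryGroup κ ℂ := by
    rw [mem_unitaryGroup_iff, T0, star_eq_conjTranspose, diagonal_conjTranspose,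
      diagonal_mul_diagonal, ← diagonal_one]
    congr 1
    funext i
    have hn : ‖om ^ (c i : ℕ)‖ = 1 := by
      rw [norm_pow, Index.om_exp, Complex.norm_exp_ofReal_mul_I, one_pow]
    rw [Pi.star_apply, Complex.star_def, Complex.mul_conj, Complex.normSq_eq_norm_sq, hn]
    norm_num
  have htu : t ∈ unitaryGroup κ ℂ := by
    rw [ht]
    exact Submonoid.mul_mem _ (Submonoid.mul_mem _ hU hT0) (Unitary.star_mem hU)
  choose V hV d hd using fun τ => unitary_diag (Index.E t P τ) (Index.E_unitary htu hP hP' τ)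
  obtain ⟨p, hp, hdet⟩ := Index.proj_det hP hP'
  have h1 : ∀ τ ∈ Set.Ico π (2 * π), ∀ k, (d τ k : ℂ) ≠ 1 := by
    intro τ hτ k hk
    obtain ⟨w, hw0, hw⟩ := Index.exists_eigenvector (hV τ) (hd τ) k
    rw [hk, one_smul] at hw
    exact hw0 (Index.no_eig htu hP hP' h0 h2 hg hS τ hτ w hw)
  have hconst := ang_sum_const (Index.E t P) V d p t.det (Index.E_continuous t P) hV hd
    (fun τ => by
      rw [Index.E, det_mul, hdet]
      congr 1
      rw [add_sub_cancel, ← Complex.exp_nat_mul]
      congr 1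
      push_cast
      ring) h1
  -- value at `π`
  have hA : ∑ k, ang (d π k) = ∑ k, φ k := by
    have h3 := spec_unique ang (V π) 1 (fun k => (d π k : ℂ))
      (fun k => Complex.exp ((φ k : ℂ) * Complex.I)) (hV π) (Submonoid.one_mem _) (by
        rw [← hd π, Index.E_pi, hg, Th, star_one, one_mul, mul_one])
    rw [h3]
    exact Finset.sum_congr rfl fun k _ => Index.ang_exp (φ k) (h0 k) (h2 k)
  -- value of the majorant at `2π`
  have hG2 : ∑ k, Index.G (d (2 * π) k) = ∑ k, hang (c k) := by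
    have h3 := spec_unique Index.G (V (2 * π)) U (fun k => (d (2 * π) k : ℂ))
      (fun k => om ^ (c k : ℕ)) (hV _) hU (by
        rw [← hd (2 * π), Index.E_two_pi, ht, T0])
    rw [h3]
    exact Finset.sum_congr rfl fun k _ => Index.G_om (c k)
  have hGc := spec_continuous Index.G Index.G_continuousOn (Index.E t P) V d
    (Index.E_continuous t P) hV hd
  have hle : ∀ τ ∈ Set.Ico π (2 * π),
      ∑ k, φ k + p * (τ - π) ≤ ∑ k, Index.G (d τ k) := by
    intro τ hτ
    have h3 := hconst τ hτ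
    rw [hA] at h3
    calc ∑ k, φ k + p * (τ - π) = ∑ k, ang (d τ k) := by linarith
      _ ≤ _ := Finset.sum_le_sum fun k _ => Index.ang_le_G _ (Circle.norm_coe _)
  have hlim : ∑ k, φ k + p * (2 * π - π) ≤ ∑ k, Index.G (d (2 * π) k) := by
    have hpi := Real.pi_pos
    have hl : Filter.Tendsto (fun τ : ℝ => ∑ k, φ k + p * (τ - π)) (nhdsWithin (2 * π) (Set.Iio (2 * π)))
        (nhds (∑ k, φ k + p * (2 * π - π))) := by
      have : Continuous fun τ : ℝ => ∑ k, φ k + p * (τ - π) := by fun_prop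
      exact (this.tendsto _).mono_left nhdsWithin_le_nhds
    have hr : Filter.Tendsto (fun τ : ℝ => ∑ k, Index.G (d τ k)) (nhdsWithin (2 * π) (Set.Iio (2 * π)))
        (nhds (∑ k, Index.G (d (2 * π) k))) :=
      (hGc.tendsto _).mono_left nhdsWithin_le_nhds
    refine le_of_tendsto_of_tendsto hl hr ?_
    filter_upwards [Ioo_mem_nhdsLT (show π < 2 * π by linarith)] with τ hτ
    exact hle τ ⟨hτ.1.le, hτ.2⟩
  rw [hG2] at hlim
  rw [hp, Complex.natCast_re]
  linarith

end Pool.Agent.Lib.MP_88e1a1_al.Even
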