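import Pool.Agent.Lib.MP_88e1a1_al.Even.SecVar

/-! # MP_88e1a1_al, even `n`: splitting into the levels of `ψ` -/

set_option autoImplicit false

namespace Pool.Agent.Lib.MP_88e1a1_al.Even

open Finset Matrix
open scoped Real

variable {ι : Type*} [Fintype ι] [DecidableEq ι]

/-- projection to a level of `ψ` -/
noncomputable def lev (ψ : ι → ℝ) (ν : ℝ) : Matrix ι ι ℂ :=
  diagonal fun j => if ψ j = ν then 1 else 0

theorem lev_comm (ψ : ι → ℝ) (ν : ℝ) (s : Matrix ι ι ℂ) (hs : ∀ i j, ψ i ≠ ψ j → s i j = 0) :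
    lev ψ ν * s = s * lev ψ ν := by
  ext i j
  simp only [lev, diagonal_mul, mul_diagonal]
  by_cases h : ψ i = ψ j
  · rw [h, mul_comm]
  · rw [hs i j h]; simp

omit [Fintype ι] in
theorem star_lev (ψ : ι → ℝ) (ν : ℝ) : star (lev ψ ν) = lev ψ ν := by
  rw [lev, star_eq_conjTranspose, diagonal_conjTranspose]
  congr 1
  ext i
  by_cases h : ψ i = ν <;> simp [h]

theorem lev_lev (ψ : ι → ℝ) (ν : ℝ) : lev ψ ν * lev ψ ν = lev ψ ν := by
  rw [lev, diagonal_mul_diagonal]
  congr 1
  ext i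
  by_cases h : ψ i = ν <;> simp [h]

theorem sum_lev (ψ : ι → ℝ) : ∑ ν ∈ univ.image ψ, lev ψ ν = 1 := by
  ext i j
  rw [Matrix.sum_apply]
  by_cases hij : i = j
  · subst hij
    simp only [lev, diagonal_apply_eq, one_apply_eq]
    rw [Finset.sum_ite_eq]
    simp
  · simp [lev, diagonal_apply_ne _ hij, one_apply_ne hij]

theorem levels (b : ι → Bool) (c : ι → Fin 3) (θ ψ : ι → ℝ) (V U : Matrix ι ι ℂ)
    (hmax : IsMx b c θ V U) (hψ : ∀ i, |ψ i| < π / 2)
    (hts : (U * T0 c * star U) * (V * S0 b * star V) = Th (fun i => θ i + ψ i))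
    (hsb : ∀ i j, ψ i ≠ ψ j → (V * S0 b * star V) i j = 0)
    (htb : ∀ i j, ψ i ≠ ψ j → (U * T0 c * star U) i j = 0)
    (W : Finset ι) (μ : ℝ) (hμ : ∀ i ∈ W, ψ i = μ) (hμ' : ∀ j ∉ W, ψ j < μ)
    (s t D : Matrix ι ι ℂ) (hs : s = V * S0 b * star V) (ht : t = U * T0 c * star U)
    (hD : ∀ i j, D i j ≠ 0 → i ∈ W ∧ j ∉ W)
    (hC : s * (star t * D * t - D) = -((star t * D * t - D) * s)) :
    (trace (star D * (t * D * star t))).im ≤ 0 := by
  rw [← hs, ← ht] at hts
  rw [← hs] at hsb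
  rw [← ht] at htb
  have htb' : ∀ i j, ψ i ≠ ψ j → (star t) i j = 0 := by
    intro i j hij
    rw [star_apply, htb j i (Ne.symm hij), star_zero]
  have key : trace (star D * (t * D * star t))
      = ∑ ν ∈ univ.image ψ,
        trace (star (D * lev ψ ν) * (t * (D * lev ψ ν) * star t)) := by
    have h1 : trace (star D * (t * D * star t))
        = trace ((∑ ν ∈ univ.image ψ, lev ψ ν) * (star D * (t * D * star t))) := by
      rw [sum_lev, one_mul]
    rw [h1, Finset.sum_mul, trace_sum]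
    refine Finset.sum_congr rfl fun ν _ => ?_
    have h2 : star (D * lev ψ ν) * (t * (D * lev ψ ν) * star t)
        = lev ψ ν * (star D * (t * D * star t)) * lev ψ ν := by
      rw [star_mul, star_lev]
      simp only [mul_assoc]
      rw [lev_comm ψ ν (star t) htb']
    have h3 : lev ψ ν * (lev ψ ν * (star D * (t * D * star t)))
        = lev ψ ν * (star D * (t * D * star t)) := by
      rw [← mul_assoc (lev ψ ν) (lev ψ ν), lev_lev]
    rw [h2, trace_mul_comm (lev ψ ν * (star D * (t * D * star t))) (lev ψ ν), h3]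
  rw [key, Complex.im_sum]
  refine Finset.sum_nonpos fun ν hν => ?_
  by_cases h0 : D * lev ψ ν = 0
  · rw [h0]; simp
  · have hex : ∃ i j, (D * lev ψ ν) i j ≠ 0 := by
      by_contra hcon
      push Not at hcon
      exact h0 (by ext i j; exact hcon i j)
    have hDν : ∀ i j, (D * lev ψ ν) i j ≠ 0 → i ∈ W ∧ j ∉ W ∧ ψ j = ν := by
      intro i j hij
      rw [lev, mul_diagonal] at hij
      have h3 := hD i j (left_ne_zero_of_mul hij)
      refine ⟨h3.1, h3.2, ?_⟩
      by_contra h4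
      rw [if_neg h4, mul_zero] at hij
      exact hij rfl
    obtain ⟨i0, j0, hij0⟩ := hex
    obtain ⟨hi0, hj0, hj0'⟩ := hDν i0 j0 hij0
    have hsin : Real.sin ν < Real.sin μ := by
      have h5 := hψ i0
      have h6 := hψ j0
      have h7 := hμ' j0 hj0
      rw [hμ i0 hi0] at h5
      rw [hj0'] at h6 h7
      rw [abs_lt] at h5 h6
      exact Real.sin_lt_sin_of_lt_of_le_pi_div_two (by linarith) (by linarith) h7
    refine second_var b c θ ψ V U s t hmax hs ht hts hsb htb μ ν hsin (D * lev ψ ν) ?_ ?_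
    · intro i j hij
      obtain ⟨h8, _, h9⟩ := hDν i j hij
      exact ⟨hμ i h8, h9⟩
    · have h10 : star t * (D * lev ψ ν) * t - D * lev ψ ν
          = (star t * D * t - D) * lev ψ ν := by
        rw [sub_mul]
        congr 1
        simp only [mul_assoc]
        rw [lev_comm ψ ν t htb]
      rw [h10, ← mul_assoc, hC, neg_mul, mul_assoc _ (lev ψ ν) s, lev_comm ψ ν s hsb,
        ← mul_assoc]

end Pool.Agent.Lib.MP_88e1a1_al.Even
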