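import Pool.Agent.Lib.MP_88e1a1_al.Even.Conj
import Pool.Agent.Lib.MP_88e1a1_al.Even.Levels
import Pool.Agent.Lib.MP_88e1a1_al.Even.Index
import Pool.Agent.Lib.MP_88e1a1_al.Even.Ident

/-! # The inequality for a block of a maximum -/

set_option autoImplicit false
set_option linter.unusedSectionVars false
set_option linter.unusedVariables false

namespace Pool.Agent.Lib.MP_88e1a1_al.Even

open Finset Matrix
open scoped Real Kronecker

namespace Blk

section Sub

variable {ι : Type*} [Fintype ι] [DecidableEq ι]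

/-- The block of a matrix on the indices with the property `p`. -/
def sub (p : ι → Prop) (M : Matrix ι ι ℂ) : Matrix {i // p i} {i // p i} ℂ :=
  M.submatrix Subtype.val Subtype.val

theorem sub_apply (p : ι → Prop) (M : Matrix ι ι ℂ) (i j : {i // p i}) :
    sub p M i j = M i j := rfl

theorem sum_split (p : ι → Prop) [DecidablePred p] {A : Type*} [AddCommMonoid A] (f : ι → A) :
    ∑ i, f i = (∑ i : {i // p i}, f i) + ∑ i : {i // ¬ p i}, f i :=
  (Fintype.sum_subtype_add_sum_subtype p f).symm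

theorem sub_mul (p : ι → Prop) [DecidablePred p] (M N : Matrix ι ι ℂ)
    (h : ∀ i k, p i → ¬ p k → M i k = 0) : sub p (M * N) = sub p M * sub p N := by
  ext i j
  rw [sub_apply, mul_apply, mul_apply, sum_split p]
  have h1 : ∑ k : {i // ¬ p i}, M i k * N k j = 0 :=
    Finset.sum_eq_zero fun k _ => by rw [h i k i.2 k.2, zero_mul]
  rw [h1, add_zero]
  rfl

theorem sub_one (p : ι → Prop) : sub p (1 : Matrix ι ι ℂ) = 1 := by
  ext i j
  rw [sub_apply, one_apply, one_apply]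
  simp [Subtype.ext_iff]

theorem sub_star (p : ι → Prop) (M : Matrix ι ι ℂ) : sub p (star M) = star (sub p M) := rfl

theorem trace_split (p : ι → Prop) [DecidablePred p] (M : Matrix ι ι ℂ) :
    trace M = trace (sub p M) + trace (sub (fun i => ¬ p i) M) := by
  unfold trace
  exact sum_split p _

/-- Matrices without entries between `p` and its complement. -/
def BD (p : ι → Prop) (M : Matrix ι ι ℂ) : Prop :=
  (∀ i k, p i → ¬ p k → M i k = 0) ∧ ∀ i k, ¬ p i → p k → M i k = 0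

theorem BD.not {p : ι → Prop} {M : Matrix ι ι ℂ} (h : BD p M) : BD (fun i => ¬ p i) M :=
  ⟨fun i k hi hk => h.2 i k hi (not_not.mp hk), fun i k hi hk => h.1 i k (not_not.mp hi) hk⟩

theorem BD.star {p : ι → Prop} {M : Matrix ι ι ℂ} (h : BD p M) : BD p (star M) := by
  refine ⟨fun i k hi hk => ?_, fun i k hi hk => ?_⟩
  · rw [star_apply, h.2 k i hk hi, star_zero]
  · rw [star_apply, h.1 k i hk hi, star_zero]

theorem sub_unitary {p : ι → Prop} [DecidablePred p] {M : Matrix ι ι ℂ} (h : BD p M)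
    (hM : M ∈ unitaryGroup ι ℂ) : sub p M ∈ unitaryGroup {i // p i} ℂ := by
  rw [mem_unitaryGroup_iff, ← sub_star, ← sub_mul p M _ h.1, mem_unitaryGroup_iff.mp hM, sub_one]

theorem sub_sq {p : ι → Prop} [DecidablePred p] {M : Matrix ι ι ℂ} (h : BD p M)
    (hM : M * M = 1) : sub p M * sub p M = 1 := by
  rw [← sub_mul p M _ h.1, hM, sub_one]

theorem sub_cube {p : ι → Prop} [DecidablePred p] {M : Matrix ι ι ℂ} (h : BD p M)
    (hM : M ^ 3 = 1) : sub p M ^ 3 = 1 := by
  have h1 : M * (M * M) = 1 := by rw [← hM, pow_succ, pow_two, mul_assoc]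
  rw [pow_succ, pow_two, mul_assoc, ← sub_mul p M M h.1, ← sub_mul p M _ h.1, h1, sub_one]

end Sub

section Kron

variable {α β : Type*} [Fintype α] [DecidableEq α] [Fintype β] [DecidableEq β]

/-- The matrix of `D ↦ A D B*`. -/
def L (A : Matrix α α ℂ) (B : Matrix β β ℂ) : Matrix (α × β) (α × β) ℂ :=
  A ⊗ₖ B.map (starRingEnd ℂ)

theorem L_apply (A : Matrix α α ℂ) (B : Matrix β β ℂ) (x y : α × β) :
    L A B x y = A x.1 y.1 * starRingEnd ℂ (B x.2 y.2) := rfl

theorem L_mul (A A' : Matrix α α ℂ) (B B' : Matrix β β ℂ) :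
    L A B * L A' B' = L (A * A') (B * B') := by
  unfold L
  rw [Matrix.map_mul, mul_kronecker_mul]

theorem L_one : L (1 : Matrix α α ℂ) (1 : Matrix β β ℂ) = 1 := by
  unfold L
  rw [Matrix.map_one _ (map_zero _) (map_one _), one_kronecker_one]

theorem L_star (A : Matrix α α ℂ) (B : Matrix β β ℂ) : star (L A B) = L (star A) (star B) := by
  ext x y
  simp [star_apply, L_apply]

theorem L_trace (A : Matrix α α ℂ) (B : Matrix β β ℂ) :
    trace (L A B) = trace A * starRingEnd ℂ (trace B) := by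
  unfold L
  rw [trace_kronecker]
  congr 1
  unfold trace
  simp

theorem L_unitary {A : Matrix α α ℂ} {B : Matrix β β ℂ} (hA : A ∈ unitaryGroup α ℂ)
    (hB : B ∈ unitaryGroup β ℂ) : L A B ∈ unitaryGroup (α × β) ℂ := by
  rw [mem_unitaryGroup_iff, L_star, L_mul, mem_unitaryGroup_iff.mp hA,
    mem_unitaryGroup_iff.mp hB, L_one]

theorem L_mulVec (A : Matrix α α ℂ) (B : Matrix β β ℂ) (D : α × β → ℂ) (x : α × β) :
    (L A B *ᵥ D) x = ∑ i, ∑ j, A x.1 i * D (i, j) * starRingEnd ℂ (B x.2 j) := by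
  rw [mulVec, dotProduct, Fintype.sum_prod_type]
  refine Finset.sum_congr rfl fun i _ => Finset.sum_congr rfl fun j _ => ?_
  rw [L_apply]
  ring

end Kron

section Ext

variable {ι : Type*} [Fintype ι] [DecidableEq ι] (p : ι → Prop) [DecidablePred p]

/-- The matrix with the block `D` on `p × ¬ p`. -/
def ex (D : {i // p i} × {i // ¬ p i} → ℂ) : Matrix ι ι ℂ := fun i j =>
  if hi : p i then (if hj : ¬ p j then D (⟨i, hi⟩, ⟨j, hj⟩) else 0) else 0

variable {p}

theorem ex_pos (D : {i // p i} × {i // ¬ p i} → ℂ) (i : {i // p i}) (j : {i // ¬ p i}) :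
    ex p D i j = D (i, j) := by
  unfold ex
  rw [dif_pos i.2, dif_pos j.2]

theorem ex_left (D : {i // p i} × {i // ¬ p i} → ℂ) {i : ι} (hi : ¬ p i) (j : ι) :
    ex p D i j = 0 := by
  unfold ex
  rw [dif_neg hi]

theorem ex_right (D : {i // p i} × {i // ¬ p i} → ℂ) (i : ι) {j : ι} (hj : p j) :
    ex p D i j = 0 := by
  unfold ex
  split_ifs with h1
  · rfl
  · rfl

theorem ex_sub (D E : {i // p i} × {i // ¬ p i} → ℂ) : ex p (D - E) = ex p D - ex p E := by
  ext i j
  rw [Matrix.sub_apply]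
  unfold ex
  split_ifs <;> simp

theorem ex_neg (D : {i // p i} × {i // ¬ p i} → ℂ) : ex p (-D) = -ex p D := by
  ext i j
  rw [Matrix.neg_apply]
  unfold ex
  split_ifs <;> simp

theorem sum_sum_ex (D : {i // p i} × {i // ¬ p i} → ℂ) (f : ι → ι → ℂ → ℂ)
    (hf : ∀ i j, f i j 0 = 0) : ∑ i, ∑ j, f i j (ex p D i j) =
      ∑ i : {i // p i}, ∑ j : {i // ¬ p i}, f i j (D (i, j)) := by
  rw [sum_split p]
  have h1 : ∑ i : {i // ¬ p i}, ∑ j, f i j (ex p D i j) = 0 :=
    Finset.sum_eq_zero fun i _ => Finset.sum_eq_zero fun j _ => by rw [ex_left D i.2, hf]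
  rw [h1, add_zero]
  refine Finset.sum_congr rfl fun i _ => ?_
  rw [sum_split p]
  have h2 : ∑ j : {i // p i}, f i j (ex p D i j) = 0 :=
    Finset.sum_eq_zero fun j _ => by rw [ex_right D i j.2, hf]
  rw [h2, zero_add]
  exact Finset.sum_congr rfl fun j _ => by rw [ex_pos]

theorem conj_ex {A B : Matrix ι ι ℂ} (hA : BD p A) (hB : BD p B)
    (D : {i // p i} × {i // ¬ p i} → ℂ) :
    A * ex p D * star B = ex p (L (sub p A) (sub (fun i => ¬ p i) B) *ᵥ D) := by
  ext i j
  have h1 : (A * ex p D * star B) i j =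
      ∑ k, ∑ l, A i k * ex p D k l * starRingEnd ℂ (B j l) := by
    rw [mul_apply]
    simp only [mul_apply, star_apply, Finset.sum_mul, starRingEnd_apply]
    rw [Finset.sum_comm]
  rw [h1, sum_sum_ex D (fun k l z => A i k * z * starRingEnd ℂ (B j l)) (by simp)]
  by_cases hi : p i
  · by_cases hj : p j
    · rw [ex_right _ i hj]
      refine Finset.sum_eq_zero fun k _ => Finset.sum_eq_zero fun l _ => ?_
      rw [hB.1 j l hj l.2, map_zero, mul_zero]
    · have h2 := ex_pos (L (sub p A) (sub (fun i => ¬ p i) B) *ᵥ D) ⟨i, hi⟩ ⟨j, hj⟩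
      rw [h2, L_mulVec]
      rfl
  · rw [ex_left _ hi j]
    refine Finset.sum_eq_zero fun k _ => Finset.sum_eq_zero fun l _ => ?_
    rw [hA.2 i k hi k.2, zero_mul, zero_mul]

theorem trace_ex (D E : {i // p i} × {i // ¬ p i} → ℂ) :
    trace (star (ex p D) * ex p E) = star D ⬝ᵥ E := by
  unfold trace
  simp only [diag_apply, mul_apply, star_apply]
  rw [Finset.sum_comm]
  have h1 := sum_sum_ex E (fun i j z => star (ex p D i j) * z) (by simp)
  rw [h1, dotProduct, Fintype.sum_prod_type]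
  refine Finset.sum_congr rfl fun i _ => Finset.sum_congr rfl fun j _ => ?_
  rw [ex_pos]
  rfl

end Ext

/-! ### Conjugates -/

section Conj

variable {ι : Type*} [Fintype ι] [DecidableEq ι]

theorem conj_mul {V : Matrix ι ι ℂ} (hV : V ∈ unitaryGroup ι ℂ) (A B : Matrix ι ι ℂ) :
    (V * A * star V) * (V * B * star V) = V * (A * B) * star V := by
  have h : star V * V = 1 := mem_unitaryGroup_iff'.mp hV
  calc (V * A * star V) * (V * B * star V) = V * A * (star V * V) * B * star V := by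
        simp only [mul_assoc]
    _ = V * (A * B) * star V := by
        rw [h, mul_one]
        simp only [mul_assoc]

theorem conj_one {V : Matrix ι ι ℂ} (hV : V ∈ unitaryGroup ι ℂ) : V * 1 * star V = 1 := by
  rw [mul_one, mem_unitaryGroup_iff.mp hV]

theorem conj_cube {V : Matrix ι ι ℂ} (hV : V ∈ unitaryGroup ι ℂ) {A : Matrix ι ι ℂ}
    (hA : A ^ 3 = 1) : (V * A * star V) ^ 3 = 1 := by
  rw [pow_succ, pow_two, conj_mul hV, conj_mul hV, ← pow_two, ← pow_succ, hA, conj_one hV]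

theorem conj_unitary {V A : Matrix ι ι ℂ} (hV : V ∈ unitaryGroup ι ℂ)
    (hA : A ∈ unitaryGroup ι ℂ) : V * A * star V ∈ unitaryGroup ι ℂ :=
  mul_mem (mul_mem hV hA) (Unitary.star_mem hV)

theorem trace_conj {V : Matrix ι ι ℂ} (hV : V ∈ unitaryGroup ι ℂ) (A : Matrix ι ι ℂ) :
    trace (V * A * star V) = trace A := by
  rw [trace_mul_comm, ← mul_assoc, mem_unitaryGroup_iff'.mp hV, one_mul]

end Conj

/-! ### The model matrices -/

theorem conj_om : starRingEnd ℂ om = om ^ 2 := by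
  have h1 : om * starRingEnd ℂ om = 1 := by
    rw [Complex.mul_conj, Complex.normSq_eq_norm_sq, om_norm]
    norm_num
  calc starRingEnd ℂ om = om ^ 3 * starRingEnd ℂ om := by rw [om_cube, one_mul]
    _ = om ^ 2 * (om * starRingEnd ℂ om) := by ring
    _ = om ^ 2 := by rw [h1, mul_one]

theorem om_sub (a b : Fin 3) :
    om ^ (a : ℕ) * starRingEnd ℂ (om ^ (b : ℕ)) = om ^ ((a - b : Fin 3) : ℕ) := by
  have h3 := om_cube
  rw [map_pow, conj_om]
  have e : ((-2 : Fin 3) : ℕ) = 1 := rfl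
  fin_cases a <;> fin_cases b <;> simp
  · rw [e]
    linear_combination om * h3
  · linear_combination h3
  · linear_combination om ^ 2 * h3
  · linear_combination om * h3
  · linear_combination (om ^ 3 + 1) * h3

section Model

variable {α β : Type*} [Fintype α] [DecidableEq α] [Fintype β] [DecidableEq β]

theorem L_diagonal (a : α → ℂ) (b : β → ℂ) :
    L (diagonal a) (diagonal b) = diagonal fun x => a x.1 * starRingEnd ℂ (b x.2) := by
  unfold L
  rw [diagonal_map (map_zero _), diagonal_kronecker_diagonal]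

theorem L_T0 (c₁ : α → Fin 3) (c₂ : β → Fin 3) :
    L (T0 c₁) (T0 c₂) = T0 fun x : α × β => c₁ x.1 - c₂ x.2 := by
  unfold T0
  rw [L_diagonal]
  simp only [om_sub]

theorem L_Th (θ₁ : α → ℝ) (θ₂ : β → ℝ) (φ : α × β → ℝ)
    (h : ∀ x, φ x = θ₁ x.1 - θ₂ x.2 ∨ φ x = θ₁ x.1 - θ₂ x.2 + 2 * π) :
    L (Th θ₁) (Th θ₂) = Th φ := by
  unfold Th
  rw [L_diagonal]
  congr 1
  funext x
  have h1 : Complex.exp ((θ₁ x.1 : ℂ) * Complex.I) *
      starRingEnd ℂ (Complex.exp ((θ₂ x.2 : ℂ) * Complex.I)) =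
      Complex.exp (((θ₁ x.1 - θ₂ x.2 : ℝ) : ℂ) * Complex.I) := by
    rw [← Complex.exp_conj, ← Complex.exp_add]
    congr 1
    simp
    ring
  rw [h1]
  rcases h x with h2 | h2
  · rw [h2]
  · rw [h2]
    push_cast
    rw [add_mul, Complex.exp_add, Complex.exp_two_pi_mul_I, mul_one]

theorem sum_color (c : α → Fin 3) (F : Fin 3 → ℝ) : ∑ i, F (c i) = ∑ a, (nc c a : ℝ) * F a := by
  rw [← Finset.sum_fiberwise univ c (fun i => F (c i))]
  refine Finset.sum_congr rfl fun a _ => ?_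
  rw [Finset.sum_congr rfl (g := fun _ => F a) (fun i hi => by rw [(mem_filter.mp hi).2]),
    Finset.sum_const, nsmul_eq_mul]
  rfl

theorem sum_hang (c₁ : α → Fin 3) (c₂ : β → Fin 3) :
    ∑ x : α × β, hang (c₁ x.1 - c₂ x.2) =
      ∑ a, (nc c₁ a : ℝ) * ∑ b, (nc c₂ b : ℝ) * hang (a - b) := by
  rw [Fintype.sum_prod_type]
  simp only
  have h1 : ∀ i : α, ∑ j : β, hang (c₁ i - c₂ j) = ∑ b, (nc c₂ b : ℝ) * hang (c₁ i - b) :=
    fun i => sum_color c₂ (fun b => hang (c₁ i - b))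
  simp only [h1]
  exact sum_color c₁ (fun a => ∑ b, (nc c₂ b : ℝ) * hang (a - b))

end Model

end Blk

/-- The inequality for a block of a maximum. -/
theorem block_ineq {ι : Type*} [Fintype ι] [DecidableEq ι] (b : ι → Bool) (c : ι → Fin 3)
    (θ ψ : ι → ℝ) (V U : Matrix ι ι ℂ)
    (hmax : IsMx b c θ V U) (hψ : ∀ i, |ψ i| < π / 2)
    (hts : (U * T0 c * star U) * (V * S0 b * star V) = Th (fun i => θ i + ψ i))
    (hsb : ∀ i j, ψ i ≠ ψ j → (V * S0 b * star V) i j = 0)
    (htb : ∀ i j, ψ i ≠ ψ j → (U * T0 c * star U) i j = 0)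
    (hwin : ∀ i j, (θ i + ψ i) - (θ j + ψ j) < 2 * π)
    (hinj : Function.Injective fun i => θ i + ψ i)
    (W : Finset ι) (hW : W.Nonempty) (hW' : Wᶜ.Nonempty) (μ : ℝ) (hμ : ∀ i ∈ W, ψ i = μ)
    (hμ' : ∀ j ∉ W, ψ j < μ) :
    ∃ (m : ℕ) (w : Fin 3 → ℕ), m ≤ #W ∧ m ≤ nb b ∧ #W - m ≤ Fintype.card ι - nb b ∧
      ∑ k, w k = #W ∧ (∀ k, w k ≤ nc c k) ∧
      Complex.exp (((∑ i ∈ W, (θ i + ψ i) : ℝ) : ℂ) * Complex.I)
        = (-1) ^ m * om ^ ((w 1 : ℕ) + 2 * w 2) ∧
      SE (fun i => θ i + ψ i) W + Num (Fintype.card ι) (nb b) (nc c) #W m w ≤ 0 := by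
  classical
  have hV : V ∈ unitaryGroup ι ℂ := hmax.1
  have hU : U ∈ unitaryGroup ι ℂ := hmax.2.1
  obtain ⟨s, hs⟩ : ∃ s, s = V * S0 b * star V := ⟨_, rfl⟩
  obtain ⟨t, ht⟩ : ∃ t, t = U * T0 c * star U := ⟨_, rfl⟩
  have hlev := levels b c θ ψ V U hmax hψ hts hsb htb W μ hμ hμ' s t
  have hsu : s ∈ unitaryGroup ι ℂ := hs ▸ Blk.conj_unitary hV (S0_unitary b)
  have htu : t ∈ unitaryGroup ι ℂ := ht ▸ Blk.conj_unitary hU (T0_unitary c)
  have hs2 : s * s = 1 := by rw [hs, Blk.conj_mul hV, S0_sq, Blk.conj_one hV]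
  have ht3 : t ^ 3 = 1 := by rw [ht]; exact Blk.conj_cube hU (T0_cube c)
  have hss : star s = s := by
    calc star s = star s * (s * s) := by rw [hs2, mul_one]
      _ = s := by rw [← mul_assoc, mem_unitaryGroup_iff'.mp hsu, one_mul]
  rw [← hs, ← ht] at hts
  rw [← hs] at hsb
  rw [← ht] at htb
  obtain ⟨p, hp⟩ : ∃ p : ι → Prop, p = fun i => i ∈ W := ⟨_, rfl⟩
  have hne : ∀ i k, p i → ¬ p k → ψ i ≠ ψ k := by
    intro i k hi hk
    rw [hp] at hi hk
    have h1 := hμ i hi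
    have h2 := hμ' k hk
    rw [h1]
    exact ne_of_gt h2
  have hBs : Blk.BD p s := ⟨fun i k hi hk => hsb i k (hne i k hi hk),
    fun i k hi hk => hsb i k (hne k i hk hi).symm⟩
  have hBt : Blk.BD p t := ⟨fun i k hi hk => htb i k (hne i k hi hk),
    fun i k hi hk => htb i k (hne k i hk hi).symm⟩
  obtain ⟨VW, hVW, bW, hbW⟩ := conj_S (Blk.sub p s) (Blk.sub_unitary hBs hsu)
    (Blk.sub_sq hBs hs2)
  obtain ⟨VQ, hVQ, bQ, hbQ⟩ := conj_S (Blk.sub (fun i => ¬ p i) s)
    (Blk.sub_unitary hBs.not hsu) (Blk.sub_sq hBs.not hs2)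
  obtain ⟨UW, hUW, cW, hcW⟩ := conj_T (Blk.sub p t) (Blk.sub_unitary hBt htu)
    (Blk.sub_cube hBt ht3)
  obtain ⟨UQ, hUQ, cQ, hcQ⟩ := conj_T (Blk.sub (fun i => ¬ p i) t)
    (Blk.sub_unitary hBt.not htu) (Blk.sub_cube hBt.not ht3)
  -- numbers
  have hcard : Fintype.card ι = Fintype.card {i // p i} + Fintype.card {i // ¬ p i} := by
    have := Blk.sum_split p (fun _ : ι => 1)
    simpa using this
  have hcW' : Fintype.card {i // p i} = #W := by
    exact Fintype.card_of_subtype W (fun x => by rw [hp])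
  have htrS : ((Fintype.card ι : ℂ) - 2 * nb b) = ((Fintype.card {i // p i} : ℂ) - 2 * nb bW) +
      ((Fintype.card {i // ¬ p i} : ℂ) - 2 * nb bQ) := by
    have h1 := Blk.trace_split p s
    rw [hbW, hbQ, Blk.trace_conj hVW, Blk.trace_conj hVQ, trace_S0, trace_S0] at h1
    rw [hs, Blk.trace_conj hV, trace_S0] at h1
    exact h1
  have hnb : nb b = nb bW + nb bQ := by
    rw [hcard] at htrS
    push_cast at htrS
    have h1 : ((nb b : ℕ) : ℂ) = ((nb bW + nb bQ : ℕ) : ℂ) := by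
      push_cast
      linear_combination (-1 / 2 : ℂ) * htrS
    exact_mod_cast h1
  have hnc : nc c = fun k => nc cW k + nc cQ k := by
    refine nc_unique _ _ ?_ ?_
    · rw [Finset.sum_add_distrib, sum_nc, sum_nc, sum_nc, hcard]
    · have h1 := Blk.trace_split p t
      rw [hcW, hcQ, Blk.trace_conj hUW, Blk.trace_conj hUQ, trace_T0, trace_T0] at h1
      rw [ht, Blk.trace_conj hU, trace_T0] at h1
      rw [h1, ← Finset.sum_add_distrib]
      refine Finset.sum_congr rfl fun k _ => ?_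
      push_cast
      ring
  have hbWle : nb bW ≤ Fintype.card {i // p i} := Finset.card_le_univ _
  have hbQle : nb bQ ≤ Fintype.card {i // ¬ p i} := Finset.card_le_univ _
  have hThW : Blk.sub p (Th fun i => θ i + ψ i) = Th fun i : {i // p i} => θ i + ψ i := by
    ext i j
    rw [Blk.sub_apply]
    unfold Th
    rw [diagonal_apply, diagonal_apply]
    simp [Subtype.ext_iff]
  have hThQ : Blk.sub (fun i => ¬ p i) (Th fun i => θ i + ψ i) =
      Th fun i : {i // ¬ p i} => θ i + ψ i := by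
    ext i j
    rw [Blk.sub_apply]
    unfold Th
    rw [diagonal_apply, diagonal_apply]
    simp [Subtype.ext_iff]
  have htsW : Blk.sub p t * Blk.sub p s = Th fun i : {i // p i} => θ i + ψ i := by
    rw [← Blk.sub_mul p t s hBt.1, hts, hThW]
  have htsQ : Blk.sub (fun i => ¬ p i) t * Blk.sub (fun i => ¬ p i) s =
      Th fun i : {i // ¬ p i} => θ i + ψ i := by
    rw [← Blk.sub_mul _ t s hBt.not.1, hts, hThQ]
  refine ⟨nb bW, nc cW, hcW' ▸ hbWle, by omega, by omega, by rw [sum_nc, hcW'],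
    fun k => by rw [hnc]; exact Nat.le_add_right _ _, ?_, ?_⟩
  · have h1 : Att bW cW fun i : {i // p i} => θ i + ψ i :=
      ⟨VW, hVW, UW, hUW, by rw [← hbW, ← hcW, htsW]⟩
    have h2 := det_of_att h1
    have h3 : ∑ i ∈ W, (θ i + ψ i) = ∑ i : {i // p i}, (θ i + ψ i) := by
      exact Finset.sum_subtype W (fun x => by rw [hp]) fun i => θ i + ψ i
    rw [h3]
    exact h2
  -- the index lemma on `W × Wᶜ`
  obtain ⟨sL, hsL⟩ : ∃ sL, sL = Blk.L (Blk.sub p s) (Blk.sub (fun i => ¬ p i) s) := ⟨_, rfl⟩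
  obtain ⟨tL, htL⟩ : ∃ tL, tL = Blk.L (Blk.sub p t) (Blk.sub (fun i => ¬ p i) t) := ⟨_, rfl⟩
  obtain ⟨PL, hPL⟩ : ∃ PL : Matrix ({i // p i} × {i // ¬ p i}) ({i // p i} × {i // ¬ p i}) ℂ,
    PL = (1 / 2 : ℂ) • (1 - sL) := ⟨_, rfl⟩
  obtain ⟨φ, hφ⟩ : ∃ φ : {i // p i} × {i // ¬ p i} → ℝ, φ = fun x =>
    (θ x.1 + ψ x.1) - (θ x.2 + ψ x.2) +
      2 * π * (if θ x.1 + ψ x.1 < θ x.2 + ψ x.2 then 1 else 0) := ⟨_, rfl⟩
  have hsL2 : sL * sL = 1 := by
    rw [hsL, Blk.L_mul, Blk.sub_sq hBs hs2, Blk.sub_sq hBs.not hs2, Blk.L_one]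
  have hsLs : star sL = sL := by
    rw [hsL, Blk.L_star, ← Blk.sub_star, ← Blk.sub_star, hss]
  have hidx := index_lemma tL PL (Blk.L UW UQ) (fun x => cW x.1 - cQ x.2)
    (Blk.L_unitary hUW hUQ) (by
      rw [htL, hcW, hcQ, ← Blk.L_mul, ← Blk.L_mul, Blk.L_T0, ← Blk.L_star]) (by
      rw [hPL, smul_mul_smul_comm, sub_mul, mul_sub, mul_sub, hsL2, one_mul, mul_one, one_mul]
      module) (by
      rw [hPL, star_smul, star_sub, star_one, hsLs]
      congr 1
      simp) φ (by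
      intro x
      have h1 := hwin x.2 x.1
      have h2 : θ x.1 + ψ x.1 ≠ θ x.2 + ψ x.2 := fun h => by
        have h3 : (x.1 : ι) = x.2 := hinj h
        exact x.2.2 (h3 ▸ x.1.2)
      rw [hφ]
      simp only
      split_ifs with h3
      · linarith
      · have h4 : θ x.2 + ψ x.2 < θ x.1 + ψ x.1 := lt_of_le_of_ne (not_lt.mp h3) h2.symm
        linarith) (by
      intro x
      have h1 := hwin x.1 x.2
      rw [hφ]
      simp only
      split_ifs with h3
      · linarith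
      · linarith) (by
      have h1 : (1 : Matrix ({i // p i} × {i // ¬ p i}) ({i // p i} × {i // ¬ p i}) ℂ) -
          (2 : ℂ) • PL = sL := by
        rw [hPL]
        module
      rw [h1, htL, hsL, Blk.L_mul, htsW, htsQ]
      refine Blk.L_Th _ _ _ fun x => ?_
      rw [hφ]
      simp only
      split_ifs with h3
      · right; ring
      · left; ring) (by
      intro D hD
      have h1 := Blk.conj_ex hBt.star hBt.star D
      rw [star_star, Blk.sub_star, Blk.sub_star, ← Blk.L_star, ← htL] at h1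
      have h2 := Blk.conj_ex hBt hBt D
      rw [← htL] at h2
      obtain ⟨Y, hY⟩ : ∃ Y, Y = star tL *ᵥ D - D := ⟨_, rfl⟩
      rw [← hY] at hD
      have h3 : sL *ᵥ Y = -Y := by
        rw [hPL, smul_mulVec, sub_mulVec, one_mulVec] at hD
        have h4 : Y - sL *ᵥ Y = (2 : ℂ) • Y := by
          have h10 := congrArg (fun z => (2 : ℂ) • z) hD
          simp only [smul_smul] at h10
          rw [← h10]
          norm_num
        have h5 : sL *ᵥ Y = Y - (2 : ℂ) • Y := by
          rw [← h4]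
          abel
        rw [h5, two_smul]
        abel
      have h6 := Blk.conj_ex hBs hBs Y
      rw [← hsL, h3, Blk.ex_neg] at h6
      have h7 : s * Blk.ex p Y = -(Blk.ex p Y * s) := by
        calc s * Blk.ex p Y = s * Blk.ex p Y * star s * s := by
              rw [mul_assoc _ (star s), mem_unitaryGroup_iff'.mp hsu, mul_one]
          _ = -(Blk.ex p Y * s) := by rw [h6, Matrix.neg_mul]
      have h8 : Blk.ex p Y = star t * Blk.ex p D * t - Blk.ex p D := by
        rw [hY, Blk.ex_sub, h1]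
      rw [h8] at h7
      have h9 := hlev (Blk.ex p D) hs ht (fun i j hij => by
        by_contra h
        rw [not_and_or] at h
        rcases h with h | h
        · exact hij (Blk.ex_left D (by rw [hp]; exact h) j)
        · exact hij (Blk.ex_right D i (by rw [hp]; exact not_not.mp h))) h7
      rw [h2, Blk.trace_ex] at h9
      exact h9)
  rw [Blk.sum_hang] at hidx
  have htrP : (trace PL).re = (((#W : ℝ) * (Fintype.card {i // ¬ p i} : ℝ)) -
      (#W - 2 * nb bW) * ((Fintype.card {i // ¬ p i} : ℝ) - 2 * nb bQ)) / 2 := by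
    have h1 : trace PL = (((((#W : ℝ) * (Fintype.card {i // ¬ p i} : ℝ)) -
      (#W - 2 * nb bW) * ((Fintype.card {i // ¬ p i} : ℝ) - 2 * nb bQ)) / 2 : ℝ) : ℂ) := by
      rw [hPL, trace_smul, trace_sub, trace_one, hsL, Blk.L_trace, hbW, hbQ,
        Blk.trace_conj hVW, Blk.trace_conj hVQ, trace_S0, trace_S0, Fintype.card_prod, hcW',
        smul_eq_mul, map_sub, map_mul, Complex.conj_natCast, Complex.conj_natCast,
        Complex.conj_ofNat]
      push_cast
      ring
    rw [h1, Complex.ofReal_re]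
  have hsumφ : ∑ x, φ x = 2 * π * SE (fun i => θ i + ψ i) W := by
    unfold SE
    have h1 : ∀ f : ι → ι → ℝ, ∑ i ∈ W, ∑ j ∈ Wᶜ, f i j =
        ∑ i : {i // p i}, ∑ j : {i // ¬ p i}, f i j := by
      intro f
      rw [Finset.sum_subtype W (p := p) (fun x => by rw [hp])]
      refine Finset.sum_congr rfl fun i _ => ?_
      exact Finset.sum_subtype _ (fun x => by rw [hp]; simp) _
    rw [h1, Fintype.sum_prod_type, Finset.mul_sum]
    refine Finset.sum_congr rfl fun i _ => ?_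
    rw [Finset.mul_sum]
    refine Finset.sum_congr rfl fun j _ => ?_
    rw [hφ]
    simp only
    rw [mul_add, mul_div_cancel₀ _ (by positivity)]
  rw [hsumφ, htrP] at hidx
  have hrw : (#W : ℝ) = nc cW 0 + nc cW 1 + nc cW 2 := by
    rw [← hcW', ← sum_nc cW, Fin.sum_univ_three]
    push_cast
    ring
  have hrq : (Fintype.card {i // ¬ p i} : ℝ) = nc cQ 0 + nc cQ 1 + nc cQ 2 := by
    rw [← sum_nc cQ, Fin.sum_univ_three]
    push_cast
    ring
  have hN : (Fintype.card ι : ℝ) = #W + Fintype.card {i // ¬ p i} := by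
    rw [hcard, hcW']
    push_cast
    ring
  have hB : (nb b : ℝ) = nb bW + nb bQ := by
    rw [hnb]
    push_cast
    ring
  have hh0 : hang 0 = 2 * π := by simp [hang]
  have hh1 : hang 1 = 2 * π / 3 := by simp [hang]
  have hh2 : hang 2 = 2 * π * 2 / 3 := by simp [hang]
  have e1 : (0 : Fin 3) - 1 = 2 := rfl
  have e2 : (0 : Fin 3) - 2 = 1 := rfl
  have e3 : (1 : Fin 3) - 2 = 2 := rfl
  have e4 : (2 : Fin 3) - 1 = 1 := rfl
  simp only [Fin.sum_univ_three, sub_zero, sub_self, e1, e2, e3, e4, hh0, hh1, hh2] at hidx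
  unfold Num
  simp only [Fin.sum_univ_three, sub_self, e1, e2, e3, e4, hnc]
  push_cast
  rw [hN, hB]
  rw [hrq] at hidx ⊢
  rw [hrw] at hidx ⊢
  have hπ := Real.pi_pos
  refine le_of_mul_le_mul_left (a := 2 * π) ?_ (by positivity)
  rw [mul_zero, mul_add]
  refine (add_le_add_left hidx _).trans (le_of_eq ?_)
  ring

end Pool.Agent.Lib.MP_88e1a1_al.Even
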