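import Pool.Agent.Lib.MP_88e1a1_al.Even.Comb0B

/-! # MP_88e1a1_al: the case analysis over the groups of six when `6 ∣ n` -/

set_option autoImplicit false

namespace Pool.Agent.Lib.MP_88e1a1_al.Even

open Finset Matrix
open scoped Real

namespace C0

/-- the values of `T` -/
theorem T_cases (w0 w1 w2 : ℤ) :
    6 ≤ (w0 - w2) ^ 2 + (w1 - w0) ^ 2 + (w2 - w1) ^ 2 ∨
    ((w0 - w2) ^ 2 + (w1 - w0) ^ 2 + (w2 - w1) ^ 2 = 2 ∧ ¬ 3 ∣ w0 + w1 + w2) ∨
    ((w0 - w2) ^ 2 + (w1 - w0) ^ 2 + (w2 - w1) ^ 2 = 0 ∧ 3 ∣ w0 + w1 + w2) := by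
  obtain ⟨a, ha⟩ : ∃ a, a = w1 - w0 := ⟨_, rfl⟩
  obtain ⟨b, hb⟩ : ∃ b, b = w2 - w1 := ⟨_, rfl⟩
  have hT : (w0 - w2) ^ 2 + (w1 - w0) ^ 2 + (w2 - w1) ^ 2 = 2 * (a ^ 2 + a * b + b ^ 2) := by
    rw [ha, hb]; ring
  have hr : w0 + w1 + w2 = 3 * w1 + (b - a) := by rw [ha, hb]; ring
  rw [hT, hr]
  clear hT hr ha hb
  by_cases h : 6 ≤ 2 * (a ^ 2 + a * b + b ^ 2)
  · exact Or.inl h
  · right
    push Not at h
    have ha1 : a ≤ 1 := by nlinarith [sq_nonneg (a + 2 * b), sq_nonneg (a - 2)]
    have ha2 : -1 ≤ a := by nlinarith [sq_nonneg (a + 2 * b), sq_nonneg (a + 2)]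
    have hb1 : b ≤ 1 := by nlinarith [sq_nonneg (b + 2 * a), sq_nonneg (b - 2)]
    have hb2 : -1 ≤ b := by nlinarith [sq_nonneg (b + 2 * a), sq_nonneg (b + 2)]
    interval_cases a <;> interval_cases b <;> first
      | (norm_num at h; done)
      | omega

/-- the case analysis -/
theorem absA (M : ℕ) (g : ℕ → ℤ) (D Q : ℕ → ℝ) (B : ℕ → Prop) (e T : ℤ)
    (hg : ∀ q < M, 0 ≤ g q ∧ g q ≤ 6) (hD : ∀ q < M, 0 ≤ D q) (hDs : ∑ q ∈ range M, D q < 1)
    (hQ : ∀ q < M, (g q : ℝ) * (6 - g q) * (1 / 2 - D q) ≤ Q q)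
    (hB : ∀ q < M, ¬ B q → (g q = 2 ∨ g q = 3 ∨ g q = 4) →
      (g q : ℝ) * (6 - g q) / 2 - 6 * D q ≤ Q q)
    (he : e % 2 = (∑ q ∈ range M, g q) % 2)
    (hT : 6 ≤ T ∨ (T = 2 ∧ ¬ 3 ∣ ∑ q ∈ range M, g q) ∨ (T = 0 ∧ 3 ∣ ∑ q ∈ range M, g q)) :
    0 ≤ ∑ q ∈ range M, Q q + 3 / 2 * (e : ℝ) ^ 2 + T ∨
    ∃ l < M, B l ∧ (∀ q < M, q ≠ l → g q = 0 ∨ g q = 6) ∧
      (((g l = 2 ∨ g l = 4) ∧ e = 0 ∧ T = 2) ∨ (g l = 3 ∧ e ^ 2 = 1 ∧ T = 0)) ∧
      -6 < ∑ q ∈ range M, Q q + 3 / 2 * (e : ℝ) ^ 2 + T := by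
  classical
  have he2 : (0 : ℝ) ≤ (e : ℝ) ^ 2 := sq_nonneg _
  have hT0 : (0 : ℝ) ≤ T := by
    have : 0 ≤ T := by omega
    exact_mod_cast this
  have hf : ∀ q < M, 0 ≤ g q * (6 - g q) := fun q hq =>
    mul_nonneg (hg q hq).1 (by have := (hg q hq).2; omega)
  have hfr : ∀ q < M, (0 : ℝ) ≤ (g q : ℝ) * (6 - g q) := fun q hq => by
    exact_mod_cast hf q hq
  by_cases hall : ∀ q < M, D q ≤ 1 / 2
  · left
    have : 0 ≤ ∑ q ∈ range M, Q q := sum_nonneg fun q hq => by
      rw [mem_range] at hq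
      refine le_trans ?_ (hQ q hq)
      exact mul_nonneg (hfr q hq) (by have := hall q hq; linarith)
    linarith
  · push Not at hall
    obtain ⟨l, hl, hDl⟩ := hall
    have hlr : l ∈ range M := mem_range.2 hl
    set R := (range M).erase l with hR
    have hRM : ∀ q ∈ R, q < M := fun q hq => mem_range.1 (mem_of_mem_erase hq)
    have hsD : ∑ q ∈ range M, D q = D l + ∑ q ∈ R, D q := (add_sum_erase _ _ hlr).symm
    have hsQ : ∑ q ∈ range M, Q q = Q l + ∑ q ∈ R, Q q := (add_sum_erase _ _ hlr).symm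
    have hsg : ∑ q ∈ range M, g q = g l + ∑ q ∈ R, g q := (add_sum_erase _ _ hlr).symm
    have hDR0 : 0 ≤ ∑ q ∈ R, D q := sum_nonneg fun q hq => hD q (hRM q hq)
    have hDR : ∑ q ∈ R, D q < 1 - D l := by rw [hsD] at hDs; linarith
    have hDl1 : D l < 1 := by linarith
    have hDle : ∀ q ∈ R, D q ≤ ∑ q ∈ R, D q := fun q hq =>
      single_le_sum (f := D) (fun q hq => hD q (hRM q hq)) hq
    have hQR : ∀ q ∈ R, 0 ≤ Q q := fun q hq => by
      refine le_trans ?_ (hQ q (hRM q hq))
      exact mul_nonneg (hfr q (hRM q hq)) (by have := hDle q hq; linarith)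
    have hQl := hQ l hl
    obtain ⟨hgl0, hgl6⟩ := hg l hl
    -- the pieces with a proper intersection
    have h5 : ∀ q < M, g q ≠ 0 → g q ≠ 6 → 5 ≤ g q * (6 - g q) := by
      intro q hq h0 h6
      obtain ⟨h1, h2⟩ := hg q hq
      generalize g q = z at h0 h6 h1 h2
      clear hQl hsQ hsD hsg hDR0 hDR hDle hQR
      interval_cases z <;> first
        | exact absurd rfl h0
        | exact absurd rfl h6
        | norm_num
    by_cases hJ : ∃ q ∈ R, g q ≠ 0 ∧ g q ≠ 6
    · obtain ⟨q₁, hq₁, h10, h16⟩ := hJ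
      have hq₁M := hRM q₁ hq₁
      left
      by_cases hJ2 : ∃ q ∈ R.erase q₁, g q ≠ 0 ∧ g q ≠ 6
      · obtain ⟨q₂, hq₂, h20, h26⟩ := hJ2
        have hq₂R := mem_of_mem_erase hq₂
        have hq₂M := hRM q₂ hq₂R
        have s1 : ∑ q ∈ R, Q q = Q q₁ + ∑ q ∈ R.erase q₁, Q q := (add_sum_erase _ _ hq₁).symm
        have s2 : ∑ q ∈ R.erase q₁, Q q = Q q₂ + ∑ q ∈ (R.erase q₁).erase q₂, Q q :=
          (add_sum_erase _ _ hq₂).symm
        have s3 : 0 ≤ ∑ q ∈ (R.erase q₁).erase q₂, Q q := sum_nonneg fun q hq =>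
          hQR q (mem_of_mem_erase (mem_of_mem_erase hq))
        have d1 : ∑ q ∈ R, D q = D q₁ + ∑ q ∈ R.erase q₁, D q := (add_sum_erase _ _ hq₁).symm
        have d2 : D q₂ ≤ ∑ q ∈ R.erase q₁, D q :=
          single_le_sum (f := D) (fun q hq => hD q (hRM q (mem_of_mem_erase hq))) hq₂
        have f1 : (5 : ℝ) ≤ (g q₁ : ℝ) * (6 - g q₁) := by exact_mod_cast h5 q₁ hq₁M h10 h16
        have f2 : (5 : ℝ) ≤ (g q₂ : ℝ) * (6 - g q₂) := by exact_mod_cast h5 q₂ hq₂M h20 h26
        have f3 : (g l : ℝ) * (6 - g l) ≤ 9 := by nlinarith [sq_nonneg ((g l : ℝ) - 3)]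
        have D1 := hD q₁ hq₁M
        have D2 := hD q₂ hq₂M
        have b1 : 5 * (1 / 2 - D q₁) ≤ Q q₁ := (mul_le_mul_of_nonneg_right f1 (by linarith)).trans
          (hQ q₁ hq₁M)
        have b2 : 5 * (1 / 2 - D q₂) ≤ Q q₂ := (mul_le_mul_of_nonneg_right f2 (by linarith)).trans
          (hQ q₂ hq₂M)
        have b3 : 9 * (1 / 2 - D l) ≤ Q l := by
          refine le_trans ?_ hQl
          nlinarith
        rw [hsQ, s1, s2]
        linarith
      · push Not at hJ2
        have s1 : ∑ q ∈ R, Q q = Q q₁ + ∑ q ∈ R.erase q₁, Q q := (add_sum_erase _ _ hq₁).symm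
        have s3 : 0 ≤ ∑ q ∈ R.erase q₁, Q q := sum_nonneg fun q hq =>
          hQR q (mem_of_mem_erase hq)
        have g1 : ∑ q ∈ R, g q = g q₁ + ∑ q ∈ R.erase q₁, g q := (add_sum_erase _ _ hq₁).symm
        have g2 : (6 : ℤ) ∣ ∑ q ∈ R.erase q₁, g q := dvd_sum fun q hq => by
          by_cases h0 : g q = 0
          · rw [h0]; exact dvd_zero _
          · rw [hJ2 q hq h0]
        obtain ⟨s, hs⟩ := g2
        rw [hsg, g1, hs] at he hT
        have b1 : (g q₁ : ℝ) * (6 - g q₁) * (D l - 1 / 2) ≤ Q q₁ := by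
          refine le_trans ?_ (hQ q₁ hq₁M)
          refine mul_le_mul_of_nonneg_left ?_ (hfr q₁ hq₁M)
          have := hDle q₁ hq₁
          linarith
        obtain ⟨h1a, h1b⟩ := hg q₁ hq₁M
        have hd1 : 0 < D l - 1 / 2 := by linarith
        have hd2 : D l - 1 / 2 < 1 / 2 := by linarith
        rw [hsQ, s1]
        have hkey : 0 ≤ ((g q₁ : ℝ) * (6 - g q₁) - (g l : ℝ) * (6 - g l)) * (D l - 1 / 2)
            + 3 / 2 * (e : ℝ) ^ 2 + T := by
          have hodd : e % 2 = 1 → (1 : ℝ) ≤ (e : ℝ) ^ 2 := by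
            intro h
            have : 1 ≤ e ^ 2 := by
              have : e ≠ 0 := by rintro rfl; omega
              have := sq_pos_of_ne_zero this
              omega
            exact_mod_cast this
          have hT2 : 2 ≤ T → (2 : ℝ) ≤ T := fun h => by exact_mod_cast h
          generalize D l - 1 / 2 = d at hd1 hd2
          generalize g q₁ = z at *
          generalize g l = y at *
          clear hsQ s1 b1 hQl
          interval_cases z <;> first
            | exact absurd rfl h10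
            | exact absurd rfl h16
            | (interval_cases y <;> push_cast <;> first
                | nlinarith
                | (have h7 := hT2 (by omega); nlinarith)
                | (have h7 := hodd (by omega); nlinarith))
        have e1 : ((g q₁ : ℝ) * (6 - g q₁) - (g l : ℝ) * (6 - g l)) * (D l - 1 / 2) =
            (g q₁ : ℝ) * (6 - g q₁) * (D l - 1 / 2) + (g l : ℝ) * (6 - g l) * (1 / 2 - D l) := by
          ring
        linarith
    · push Not at hJ
      have hJ' : ∀ q < M, q ≠ l → g q = 0 ∨ g q = 6 := by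
        intro q hq hql
        by_cases h0 : g q = 0
        · exact Or.inl h0
        · exact Or.inr (hJ q (mem_erase.2 ⟨hql, mem_range.2 hq⟩) h0)
      have s3 : 0 ≤ ∑ q ∈ R, Q q := sum_nonneg hQR
      have g2 : (6 : ℤ) ∣ ∑ q ∈ R, g q := dvd_sum fun q hq => by
        by_cases h0 : g q = 0
        · rw [h0]; exact dvd_zero _
        · rw [hJ q hq h0]
      obtain ⟨s, hs⟩ := g2
      rw [hsg, hs] at he hT
      have hBl := hB l hl
      have hodd : e % 2 = 1 → (1 : ℝ) ≤ (e : ℝ) ^ 2 := by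
        intro h
        have : 1 ≤ e ^ 2 := by
          have : e ≠ 0 := by rintro rfl; omega
          have := sq_pos_of_ne_zero this
          omega
        exact_mod_cast this
      have heven : e % 2 = 0 → e ≠ 0 → (4 : ℝ) ≤ (e : ℝ) ^ 2 := by
        intro h h0
        have : 4 ≤ e ^ 2 := by
          obtain ⟨k, rfl⟩ : ∃ k, e = 2 * k := ⟨e / 2, by omega⟩
          have hk : k ≠ 0 := by rintro rfl; exact h0 rfl
          have := sq_pos_of_ne_zero hk
          nlinarith
        exact_mod_cast this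
      have hodd9 : e % 2 = 1 → e ^ 2 ≠ 1 → (9 : ℝ) ≤ (e : ℝ) ^ 2 := by
        intro h h0
        have : 9 ≤ e ^ 2 := by
          have h1 : e ≤ -3 ∨ 3 ≤ e := by
            by_contra hh
            push Not at hh
            have : e = -1 ∨ e = 1 := by omega
            rcases this with rfl | rfl <;> simp at h0
          rcases h1 with h1 | h1 <;> nlinarith
        exact_mod_cast this
      have hT6 : 6 ≤ T → (6 : ℝ) ≤ T := fun h => by exact_mod_cast h
      rw [hsQ]
      have hlb : ∀ c : ℝ, c ≤ Q l + 3 / 2 * (e : ℝ) ^ 2 + T →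
          c ≤ Q l + ∑ q ∈ R, Q q + 3 / 2 * (e : ℝ) ^ 2 + T := fun c hc => by linarith
      have hgl : g l = 0 ∨ g l = 1 ∨ g l = 2 ∨ g l = 3 ∨ g l = 4 ∨ g l = 5 ∨ g l = 6 := by omega
      have htriv : 0 ≤ Q l + 3 / 2 * (e : ℝ) ^ 2 + T → 0 ≤ Q l + ∑ q ∈ R, Q q
          + 3 / 2 * (e : ℝ) ^ 2 + T := hlb 0
      -- the two even cases
      have hcase24 : (g l = 2 ∨ g l = 4) → (g l : ℝ) * (6 - g l) = 8 →
          0 ≤ Q l + ∑ q ∈ R, Q q + 3 / 2 * (e : ℝ) ^ 2 + T ∨
          (B l ∧ e = 0 ∧ T = 2 ∧ -6 < Q l + ∑ q ∈ R, Q q + 3 / 2 * (e : ℝ) ^ 2 + T) := by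
        intro h24 h8
        rw [h8] at hQl
        by_cases hT2 : T = 2
        · by_cases he0 : e = 0
          · by_cases hb : B l
            · right
              refine ⟨hb, he0, hT2, ?_⟩
              rw [hT2]
              push_cast
              nlinarith
            · left
              have h9 := hBl hb (by omega)
              rw [h8] at h9
              refine htriv ?_
              rw [hT2]
              push_cast
              linarith
          · left
            have h9 := heven (by omega) he0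
            refine htriv ?_
            nlinarith
        · left
          have h9 := hT6 (by omega)
          refine htriv ?_
          nlinarith
      rcases hgl with h | h | h | h | h | h | h
      · left
        refine htriv ?_
        rw [h] at hQl
        push_cast at hQl
        linarith
      · left
        refine htriv ?_
        rw [h] at hQl
        push_cast at hQl
        have h9 := hodd (by omega)
        have h10 : (2 : ℝ) ≤ T := by
          have : 2 ≤ T := by omega
          exact_mod_cast this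
        nlinarith
      · rcases hcase24 (Or.inl h) (by rw [h]; norm_num) with h1 | ⟨h1, h2, h3, h4⟩
        · exact Or.inl h1
        · exact Or.inr ⟨l, hl, h1, hJ', Or.inl ⟨Or.inl h, h2, h3⟩, h4⟩
      · have h8 : (g l : ℝ) * (6 - g l) = 9 := by rw [h]; norm_num
        rw [h8] at hQl
        by_cases hT0' : T = 0
        · by_cases he1 : e ^ 2 = 1
          · have he1' : (e : ℝ) ^ 2 = 1 := by exact_mod_cast he1
            by_cases hb : B l
            · right
              refine ⟨l, hl, hb, hJ', Or.inr ⟨h, he1, hT0'⟩, ?_⟩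
              rw [he1', hT0']
              push_cast
              linarith
            · left
              have h9 := hBl hb (Or.inr (Or.inl h))
              rw [h8] at h9
              refine htriv ?_
              rw [he1']
              linarith
          · left
            have h9 := hodd9 (by omega) he1
            refine htriv ?_
            linarith
        · left
          have h9 := hT6 (by omega)
          have h10 := hodd (by omega)
          refine htriv ?_
          linarith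
      · rcases hcase24 (Or.inr h) (by rw [h]; norm_num) with h1 | ⟨h1, h2, h3, h4⟩
        · exact Or.inl h1
        · exact Or.inr ⟨l, hl, h1, hJ', Or.inl ⟨Or.inr h, h2, h3⟩, h4⟩
      · left
        refine htriv ?_
        rw [h] at hQl
        push_cast at hQl
        have h9 := hodd (by omega)
        have h10 : (2 : ℝ) ≤ T := by
          have : 2 ≤ T := by omega
          exact_mod_cast this
        nlinarith
      · left
        refine htriv ?_
        rw [h] at hQl
        push_cast at hQl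
        linarith

end C0

end Pool.Agent.Lib.MP_88e1a1_al.Even
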