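import Pool.Agent.Lib.MP_88e1a1_al.Even.Comb0G
import Pool.Agent.Lib.MP_88e1a1_al.Even.Comb0A

/-! # MP_88e1a1_al: the combinatorial inequality when `6 ∣ n` -/

set_option autoImplicit false

namespace Pool.Agent.Lib.MP_88e1a1_al.Even

open Finset Matrix
open scoped Real

namespace C0

/-- the sum over all pairs is at least the sum over the groups -/
theorem SD_ge (M : ℕ) (c : ℕ → ℤ) (X : ℕ → ℝ) (hc : ∀ i, c i = 0 ∨ c i = 1)
    (hX : ∀ i j, i ≤ j → j < 6 * M → X i ≤ X j)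
    (hX1 : ∀ i j, i < 6 * M → j < 6 * M → X j - X i ≤ 1) :
    ∑ q ∈ range M, Qg c X q ≤
      ∑ i ∈ range (6 * M), ∑ j ∈ range (6 * M),
        (c i : ℝ) * (1 - c j) * (X i - X j + if i < j then 1 else 0)
      + ∑ i ∈ range (6 * M), (c i : ℝ) * (((i % 6 : ℕ) : ℝ) - 5 / 2) := by
  have hcr : ∀ i, (c i : ℝ) = 0 ∨ (c i : ℝ) = 1 := by
    intro i
    rcases hc i with h | h
    · left; rw [h]; norm_num
    · right; rw [h]; norm_num
  have hnn : ∀ i < 6 * M, ∀ j < 6 * M,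
      0 ≤ (c i : ℝ) * (1 - c j) * (X i - X j + if i < j then 1 else 0) := by
    intro i hi j hj
    rcases hcr i with h | h
    · rw [h]; simp
    rcases hcr j with h' | h'
    swap
    · rw [h']; simp
    rw [h, h']
    rcases lt_or_ge i j with h2 | h2
    · rw [if_pos h2]
      have := hX1 i j hi hj
      linarith
    · rw [if_neg h2.not_gt]
      have := hX j i h2 hi
      linarith
  rw [sum_six (fun i => ∑ j ∈ range (6 * M),
        (c i : ℝ) * (1 - c j) * (X i - X j + if i < j then 1 else 0)),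
    sum_six (fun i => (c i : ℝ) * (((i % 6 : ℕ) : ℝ) - 5 / 2)), ← sum_add_distrib]
  refine sum_le_sum fun q hq => ?_
  rw [mem_range] at hq
  unfold Qg
  refine add_le_add ?_ (le_of_eq ?_)
  · refine sum_le_sum fun u hu => ?_
    rw [mem_range] at hu
    rw [sum_six]
    have h1 : ∑ v ∈ range 6, (c (6 * q + u) : ℝ) * (1 - c (6 * q + v)) *
        (X (6 * q + u) - X (6 * q + v) + if u < v then 1 else 0) =
        ∑ v ∈ range 6, (c (6 * q + u) : ℝ) * (1 - c (6 * q + v)) *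
        (X (6 * q + u) - X (6 * q + v) + if 6 * q + u < 6 * q + v then 1 else 0) := by
      refine sum_congr rfl fun v _ => ?_
      simp only [Nat.add_lt_add_iff_left]
    rw [h1]
    refine single_le_sum (f := fun q' => ∑ v ∈ range 6, (c (6 * q + u) : ℝ) * (1 - c (6 * q' + v)) *
        (X (6 * q + u) - X (6 * q' + v) + if 6 * q + u < 6 * q' + v then 1 else 0))
      (fun q' hq' => sum_nonneg fun v hv => ?_) (mem_range.2 hq)
    rw [mem_range] at hq' hv
    exact hnn _ (by omega) _ (by omega)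
  · refine sum_congr rfl fun u hu => ?_
    rw [mem_range] at hu
    rw [show (6 * q + u) % 6 = u by omega]

theorem sum_W_ind {n : ℕ} (W : Finset (Fin n)) (f : ℕ → ℝ) :
    ∑ i ∈ W, f i = ∑ i ∈ range n, (C24.ind W i : ℝ) * f i := by
  rw [sum_range]
  have h : ∀ i : Fin n, (C24.ind W i : ℝ) * f i = if i ∈ W then f i else 0 := by
    intro i
    rw [C24.ind_val]
    split_ifs <;> simp
  rw [sum_congr rfl fun i _ => h i, sum_ite_mem, univ_inter]

theorem sum_Wc_ind {n : ℕ} (W : Finset (Fin n)) (f : ℕ → ℝ) :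
    ∑ i ∈ Wᶜ, f i = ∑ i ∈ range n, (1 - (C24.ind W i : ℝ)) * f i := by
  rw [sum_range]
  have h : ∀ i : Fin n, (1 - (C24.ind W i : ℝ)) * f i = if i ∈ Wᶜ then f i else 0 := by
    intro i
    rw [C24.ind_val]
    by_cases hi : i ∈ W
    · rw [if_pos hi, if_neg (by simpa using hi)]; simp
    · rw [if_neg hi, if_pos (by simpa using hi)]; simp
  rw [sum_congr rfl fun i _ => h i, sum_ite_mem, univ_inter]

theorem SD_eq {n : ℕ} (W : Finset (Fin n)) (x : Fin n → ℝ) :
    ∑ i ∈ W, ∑ j ∈ Wᶜ, (x i - x j + if i < j then 1 else 0) =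
      ∑ i ∈ range n, ∑ j ∈ range n, (C24.ind W i : ℝ) * (1 - C24.ind W j) *
        (C24.ext x i - C24.ext x j + if i < j then 1 else 0) := by
  obtain ⟨F, hF⟩ : ∃ F : ℕ → ℝ, ∀ a : ℕ, F a = ∑ j ∈ range n, (1 - (C24.ind W j : ℝ)) *
        (C24.ext x a - C24.ext x j + if a < j then 1 else 0) := ⟨_, fun _ => rfl⟩
  have h1 : ∀ i ∈ W, ∑ j ∈ Wᶜ, (x i - x j + if i < j then 1 else 0) = F i := by
    intro i _
    rw [hF]
    refine Eq.trans ?_
      (sum_Wc_ind W (fun j => C24.ext x i - C24.ext x j + if (i : ℕ) < j then 1 else 0))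
    refine sum_congr rfl fun j _ => ?_
    rw [C24.ext_val, C24.ext_val]
    simp only [Fin.lt_def]
  rw [sum_congr rfl h1, sum_W_ind]
  refine sum_congr rfl fun i _ => ?_
  rw [hF, mul_sum]
  refine sum_congr rfl fun j _ => ?_
  ring

/-- a decreasing pattern is determined by its sum -/
theorem pat (c : ℕ → ℤ) (hc : ∀ v, c v = 0 ∨ c v = 1) (hB : ∀ t < 5, ¬ (c t = 0 ∧ c (t + 1) = 1))
    (v : ℕ) (hv : v < 6) : c v = 1 ↔ (v : ℤ) < ∑ v ∈ range 6, c v := by
  have b0 := hB 0 (by norm_num)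
  have b1 := hB 1 (by norm_num)
  have b2 := hB 2 (by norm_num)
  have b3 := hB 3 (by norm_num)
  have b4 := hB 4 (by norm_num)
  norm_num at b0 b1 b2 b3 b4
  simp only [sum_range_succ, sum_range_zero, zero_add]
  have c0 := hc 0
  have c1 := hc 1
  have c2 := hc 2
  have c3 := hc 3
  have c4 := hc 4
  have c5 := hc 5
  interval_cases v <;> omega

theorem all_of_sum (c : ℕ → ℤ) (hc : ∀ v, c v = 0 ∨ c v = 1)
    (h : ∑ v ∈ range 6, c v = 0 ∨ ∑ v ∈ range 6, c v = 6) (u v : ℕ) (hu : u < 6) (hv : v < 6) :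
    c u = 1 ↔ c v = 1 := by
  simp only [sum_range_succ, sum_range_zero, zero_add] at h
  have c0 := hc 0
  have c1 := hc 1
  have c2 := hc 2
  have c3 := hc 3
  have c4 := hc 4
  have c5 := hc 5
  have key : (∀ u < 6, c u = 0) ∨ (∀ u < 6, c u = 1) := by
    rcases h with h | h
    · left
      intro u hu
      interval_cases u <;> omega
    · right
      intro u hu
      interval_cases u <;> omega
  rcases key with key | key
  · rw [key u hu, key v hv]
  · rw [key u hu, key v hv]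

theorem sum_D (X : ℕ → ℝ) (M : ℕ) (hX : ∀ i j, i ≤ j → j < 6 * M → X i ≤ X j) :
    ∀ k, 0 < k → k ≤ M → ∑ q ∈ range k, (X (6 * q + 5) - X (6 * q)) ≤ X (6 * k - 1) - X 0 := by
  intro k
  induction k with
  | zero => intro h; exact absurd h (lt_irrefl 0)
  | succ k ih =>
    intro _ hk
    rw [sum_range_succ]
    rcases Nat.eq_zero_or_pos k with rfl | hk0
    · simp
    · have h1 := ih hk0 (by omega)
      have h2 := hX (6 * k - 1) (6 * k) (by omega) (by omega)
      rw [show 6 * (k + 1) - 1 = 6 * k + 5 by omega]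
      linarith

/-- Claim A -/
theorem claimA (M : ℕ) (hM : 0 < M) (x : Fin (6 * M) → ℝ) (hx : AlcO (6 * M) x)
    (W : Finset (Fin (6 * M))) (m : ℕ) (w : Fin 3 → ℕ) (hw : ∑ k, w k = #W) :
    0 ≤ SE (tht (6 * M) x) W + Num (6 * M) (6 * M / 2) (cc (6 * M)) #W m w ∨
    ∃ l g, Exc M W l g ∧
      (((g = 2 ∨ g = 4) ∧ #W = 2 * m ∧
        ((w 0 : ℤ) - w 2) ^ 2 + ((w 1 : ℤ) - w 0) ^ 2 + ((w 2 : ℤ) - w 1) ^ 2 = 2) ∨
      (g = 3 ∧ ((#W : ℤ) - 2 * m) ^ 2 = 1 ∧
        ((w 0 : ℤ) - w 2) ^ 2 + ((w 1 : ℤ) - w 0) ^ 2 + ((w 2 : ℤ) - w 1) ^ 2 = 0)) ∧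
      -1 < SE (tht (6 * M) x) W + Num (6 * M) (6 * M / 2) (cc (6 * M)) #W m w := by
  have h6 := six_formula (6 * M) (Dvd.intro _ rfl) x hx W m w hw
  rw [SD_eq, sum_W_ind W (fun i => (((i % 6 : ℕ) : ℝ) - 5 / 2))] at h6
  obtain ⟨hmono, hlt, hsum, hstr⟩ := hx
  obtain ⟨c, hcdef⟩ : ∃ c, c = C24.ind W := ⟨_, rfl⟩
  obtain ⟨X, hXdef⟩ : ∃ X, X = C24.ext x := ⟨_, rfl⟩
  have hc : ∀ i, c i = 0 ∨ c i = 1 := by rw [hcdef]; exact C24.ind01 W
  have hval : ∀ i : Fin (6 * M), c i = if i ∈ W then 1 else 0 := by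
    rw [hcdef]; exact C24.ind_val W
  have hmem : ∀ i : Fin (6 * M), i ∈ W ↔ c i = 1 := by
    intro i
    rw [hval]
    split_ifs with h <;> simp [h]
  have hXv : ∀ i : Fin (6 * M), X i = x i := by rw [hXdef]; exact C24.ext_val x
  have hX : ∀ i j, i ≤ j → j < 6 * M → X i ≤ X j := by
    intro i j hij hj
    have h1 := hXv ⟨i, lt_of_le_of_lt hij hj⟩
    have h2 := hXv ⟨j, hj⟩
    simp only at h1 h2
    rw [h1, h2]
    exact hmono hij
  have hX1 : ∀ i j, i < 6 * M → j < 6 * M → X j - X i < 1 := by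
    intro i j hi hj
    have h1 := hXv ⟨i, hi⟩
    have h2 := hXv ⟨j, hj⟩
    simp only at h1 h2
    rw [h1, h2]
    exact hlt _ _
  rw [← hcdef, ← hXdef] at h6
  have hge := SD_ge M c X hc hX (fun i j hi hj => (hX1 i j hi hj).le)
  have hr : ∑ q ∈ range M, ∑ v ∈ range 6, c (6 * q + v) = #W := by
    rw [← sum_six c, hcdef]
    exact C24.sum_ind W
  have hw' : (w 0 : ℤ) + w 1 + w 2 = #W := by
    rw [Fin.sum_univ_three] at hw
    exact_mod_cast hw
  have hA := absA M (fun q => ∑ v ∈ range 6, c (6 * q + v)) (fun q => X (6 * q + 5) - X (6 * q))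
    (Qg c X) (fun q => ∀ t < 5, ¬ (c (6 * q + t) = 0 ∧ c (6 * q + (t + 1)) = 1))
    ((#W : ℤ) - 2 * m)
    (((w 0 : ℤ) - w 2) ^ 2 + ((w 1 : ℤ) - w 0) ^ 2 + ((w 2 : ℤ) - w 1) ^ 2)
    (by
      intro q _
      constructor
      · exact sum_nonneg fun v _ => by rcases hc (6 * q + v) with h | h <;> omega
      · calc ∑ v ∈ range 6, c (6 * q + v) ≤ ∑ v ∈ range 6, (1 : ℤ) :=
            sum_le_sum fun v _ => by rcases hc (6 * q + v) with h | h <;> omega
          _ = 6 := by simp)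
    (by
      intro q hq
      have := hX (6 * q) (6 * q + 5) (by omega) (by omega)
      linarith)
    (lt_of_le_of_lt (sum_D X M hX M hM le_rfl) (hX1 0 (6 * M - 1) (by omega) (by omega)))
    (by
      intro q hq
      exact grp_lb (fun v => c (6 * q + v)) (fun v => X (6 * q + v)) (fun v => hc _)
        (fun v hv => hX _ _ (by omega) (by omega)))
    (by
      intro q hq hnB hg
      push Not at hnB
      obtain ⟨t, ht, ht0, ht1⟩ := hnB
      exact grp_lb2 (fun v => c (6 * q + v)) (fun v => X (6 * q + v)) (fun v => hc _)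
        (fun v hv => hX _ _ (by omega) (by omega)) t ht ht0 ht1 hg)
    (by
      rw [hr]
      omega)
    (by
      rw [hr, ← hw']
      exact T_cases _ _ _)
  push_cast at hA
  rcases hA with hA | ⟨l, hl, hBl, hothers, hcase, hlow⟩
  · left
    linarith
  · right
    refine ⟨l, (∑ v ∈ range 6, c (6 * l + v)).toNat, ⟨hl, ?_, ?_⟩, ?_, by linarith⟩
    · intro i hi
      rw [hmem]
      have h1 := pat (fun v => c (6 * l + v)) (fun v => hc _) hBl ((i : ℕ) % 6)
        (Nat.mod_lt _ (by norm_num))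
      have h2 : 6 * l + (i : ℕ) % 6 = i := by omega
      simp only [h2] at h1
      rw [h1]
      have h3 : 0 ≤ ∑ v ∈ range 6, c (6 * l + v) :=
        sum_nonneg fun v _ => by rcases hc (6 * l + v) with h | h <;> omega
      omega
    · intro i j hij hil
      have hq : (i : ℕ) / 6 < M := by
        have := i.2
        omega
      have h1 := all_of_sum (fun v => c (6 * ((i : ℕ) / 6) + v)) (fun v => hc _)
        (hothers _ hq hil) ((i : ℕ) % 6) ((j : ℕ) % 6) (Nat.mod_lt _ (by norm_num))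
        (Nat.mod_lt _ (by norm_num))
      have h2 : 6 * ((i : ℕ) / 6) + (i : ℕ) % 6 = i := by omega
      have h3 : 6 * ((i : ℕ) / 6) + (j : ℕ) % 6 = j := by omega
      simp only [h2, h3] at h1
      rw [hmem, hmem, h1]
    · rcases hcase with ⟨h1, h2, h3⟩ | ⟨h1, h2, h3⟩
      · left
        refine ⟨?_, by omega, h3⟩
        rcases h1 with h1 | h1
        · left; rw [h1]; rfl
        · right; rw [h1]; rfl
      · right
        refine ⟨by rw [h1]; rfl, h2, h3⟩

end C0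

open C0

/-- the combinatorial inequality when `6 ∣ n` -/
theorem comb0 (n : ℕ) (hn : 6 ∣ n) (x : Fin n → ℝ) (hx : AlcO n x)
    (W : Finset (Fin n)) (hW : W.Nonempty) (hW' : Wᶜ.Nonempty) (m : ℕ) (w : Fin 3 → ℕ) (δ : ℝ) (hm : m ≤ #W) (hw : ∑ k, w k = #W)
    (hδ : 0 < δ)
    (hdet : Complex.exp (((∑ i ∈ W, tht n x i + 2 * π * δ : ℝ) : ℂ) * Complex.I)
      = (-1) ^ m * om ^ ((w 1 : ℕ) + 2 * w 2)) :
    0 < SE (tht n x) W + Num n (n / 2) (cc n) #W m w + n * δ := by
  obtain ⟨M, rfl⟩ := hn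
  obtain ⟨i, _⟩ := hW
  have hM : 0 < M := by
    have := i.2
    omega
  have hnδ : 0 < ((6 * M : ℕ) : ℝ) * δ := by
    have : (0 : ℝ) < ((6 * M : ℕ) : ℝ) := by
      have : 0 < 6 * M := by omega
      exact_mod_cast this
    positivity
  rcases claimA M hM x hx W m w hw with h | ⟨l, g, hE, hc, hlow⟩
  · linarith
  · obtain ⟨j, hj, hj0⟩ := claimB M x hx W m w δ hw hdet l g hE hc
    have h1 : -1 < (j : ℝ) := by rw [← hj]; linarith
    have h2 : -1 < j := by exact_mod_cast h1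
    have h3 : 1 ≤ j := by omega
    have h4 : (1 : ℝ) ≤ j := by exact_mod_cast h3
    rw [hj]
    linarith

end Pool.Agent.Lib.MP_88e1a1_al.Even
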