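import Pool.Agent.Lib.MP_88e1a1_al.Even.Defs

/-! # MP_88e1a1_al: the formula for the left side of the inequality when `6 ∣ n` -/

set_option autoImplicit false

namespace Pool.Agent.Lib.MP_88e1a1_al.Even

open Finset Matrix
open scoped Real

namespace C0

/-- the integer part of the sum -/
def mm (i j : ℕ) : ℤ :=
  ((i % 6 : ℕ) : ℤ) - ((j % 6 : ℕ) : ℤ) + (if i % 6 < j % 6 ∨ (i % 6 = j % 6 ∧ i < j) then 6 else 0)
    - (if i < j then 1 else 0)

theorem mm_add (i j : ℕ) : mm i j + mm j i = if i = j then 0 else 5 := by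
  unfold mm
  rcases lt_trichotomy i j with h | h | h
  · rcases lt_trichotomy (i % 6) (j % 6) with h' | h' | h'
    · rw [if_pos (Or.inl h'), if_pos h, if_neg (by omega), if_neg (by omega), if_neg (by omega)]
      ring
    · rw [if_pos (Or.inr ⟨h', h⟩), if_pos h, if_neg (by omega), if_neg (by omega),
        if_neg (by omega)]
      ring
    · rw [if_neg (by omega), if_pos h, if_pos (Or.inl h'), if_neg (by omega), if_neg (by omega)]
      ring
  · subst h
    simp
  · rcases lt_trichotomy (i % 6) (j % 6) with h' | h' | h'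
    · rw [if_pos (Or.inl h'), if_neg (by omega), if_neg (by omega), if_pos h, if_neg (by omega)]
      ring
    · rw [if_neg (by omega), if_neg (by omega), if_pos (Or.inr ⟨h'.symm, h⟩), if_pos h,
        if_neg (by omega)]
      ring
    · rw [if_neg (by omega), if_neg (by omega), if_pos (Or.inl h'), if_pos h, if_neg (by omega)]
      ring

theorem sum_six {M : Type*} [AddCommMonoid M] (f : ℕ → M) (m : ℕ) :
    ∑ i ∈ range (6 * m), f i = ∑ q ∈ range m, ∑ v ∈ range 6, f (6 * q + v) := by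
  induction m with
  | zero => simp
  | succ m ih =>
    rw [sum_range_succ, ← ih, show 6 * (m + 1) = 6 * m + 6 by ring, sum_range_add]

theorem mm_block (a b u : ℕ) (hu : u < 6) :
    ∑ v ∈ range 6, mm (6 * a + u) (6 * b + v) = if a = b then 10 + (u : ℤ) else 15 := by
  have h : ∀ v ∈ range 6, mm (6 * a + u) (6 * b + v) = (u : ℤ) - v
      + (if u < v ∨ (u = v ∧ a < b) then 6 else 0) - (if a < b ∨ (a = b ∧ u < v) then 1 else 0) := by
    intro v hv
    rw [mem_range] at hv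
    unfold mm
    have h1 : (6 * a + u) % 6 = u := by omega
    have h2 : (6 * b + v) % 6 = v := by omega
    have h3 : (u < v ∨ (u = v ∧ 6 * a + u < 6 * b + v)) ↔ (u < v ∨ (u = v ∧ a < b)) := by omega
    have h4 : (6 * a + u < 6 * b + v) ↔ (a < b ∨ (a = b ∧ u < v)) := by omega
    rw [h1, h2]
    simp only [h3]
    simp only [h4]
  rw [sum_congr rfl h]
  clear h
  simp only [sum_range_succ, sum_range_zero]
  rcases lt_trichotomy a b with h | h | h
  · rw [if_neg h.ne]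
    simp only [h, and_true, true_or, if_true]
    interval_cases u <;> norm_num
  · subst h
    simp only [lt_irrefl, and_false, or_false, true_and, false_or, if_true]
    interval_cases u <;> norm_num
  · rw [if_neg h.ne']
    have h1 : ¬ a < b := by omega
    have h2 : a ≠ b := by omega
    simp only [h1, h2, and_false, or_false, false_and, if_false]
    interval_cases u <;> norm_num

theorem row (M i : ℕ) (hi : i < 6 * M) :
    ∑ j ∈ range (6 * M), mm i j = 15 * (M : ℤ) - 5 + ((i % 6 : ℕ) : ℤ) := by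
  obtain ⟨a, u, hu, rfl⟩ : ∃ a u, u < 6 ∧ i = 6 * a + u := ⟨i / 6, i % 6, by omega, by omega⟩
  rw [sum_six, sum_congr rfl fun b _ => mm_block a b u hu]
  have ha : a ∈ range M := by rw [mem_range]; omega
  rw [← add_sum_erase _ _ ha, if_pos rfl, sum_congr rfl (g := fun _ => (15 : ℤ)) (fun b hb => by
    rw [if_neg (ne_of_mem_erase hb).symm]), sum_const, card_erase_of_mem ha, card_range,
    show (6 * a + u) % 6 = u by omega]
  have : 1 ≤ M := by
    rw [mem_range] at ha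
    omega
  rw [nsmul_eq_mul]
  push_cast [this]
  ring

/-- the sum of `mm` over a set times its complement -/
theorem sum_mm (M : ℕ) (W : Finset (Fin (6 * M))) :
    2 * ∑ i ∈ W, ∑ j ∈ Wᶜ, mm i j =
      2 * ∑ i ∈ W, (15 * (M : ℤ) - 5 + (((i : ℕ) % 6 : ℕ) : ℤ)) - 5 * (#W * (#W - 1)) := by
  have h1 : ∑ i ∈ W, ∑ j ∈ Wᶜ, mm i j + ∑ i ∈ W, ∑ j ∈ W, mm i j =
      ∑ i ∈ W, (15 * (M : ℤ) - 5 + (((i : ℕ) % 6 : ℕ) : ℤ)) := by
    rw [← sum_add_distrib]
    refine sum_congr rfl fun i _ => ?_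
    rw [sum_compl_add_sum W (fun j : Fin (6 * M) => mm i j), ← row M i i.2,
      sum_range (fun j => mm i j)]
  have h2 : 2 * ∑ i ∈ W, ∑ j ∈ W, mm i j = 5 * (#W * (#W - 1)) := by
    have h3 : ∑ i ∈ W, ∑ j ∈ W, mm i j = ∑ i ∈ W, ∑ j ∈ W, mm j i := sum_comm
    calc 2 * ∑ i ∈ W, ∑ j ∈ W, mm i j
        = ∑ i ∈ W, ∑ j ∈ W, mm i j + ∑ i ∈ W, ∑ j ∈ W, mm j i := by rw [← h3]; ring
      _ = ∑ i ∈ W, ∑ j ∈ W, (mm i j + mm j i) := by
          rw [← sum_add_distrib]
          exact sum_congr rfl fun i _ => sum_add_distrib.symm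
      _ = ∑ i ∈ W, 5 * ((#W : ℤ) - 1) := by
          refine sum_congr rfl fun i hi => ?_
          rw [sum_congr rfl fun (j : Fin (6 * M)) _ => mm_add i j, ← add_sum_erase _ _ hi, if_pos rfl,
            sum_congr rfl (g := fun _ => (5 : ℤ)) (fun j hj => by
              rw [if_neg fun h => (ne_of_mem_erase hj).symm (Fin.ext h)]), sum_const,
            card_erase_of_mem hi]
          have : 1 ≤ #W := card_pos.2 ⟨i, hi⟩
          rw [nsmul_eq_mul]
          push_cast [this]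
          ring
      _ = 5 * (#W * (#W - 1)) := by rw [sum_const, nsmul_eq_mul]; ring
  linarith

end C0

open C0

/-- the left side of the inequality for `6 ∣ n` -/
theorem six_formula (n : ℕ) (hn : 6 ∣ n) (x : Fin n → ℝ) (hx : AlcO n x) (W : Finset (Fin n))
    (m : ℕ) (w : Fin 3 → ℕ) (hw : ∑ k, w k = #W) :
    6 * (SE (tht n x) W + Num n (n / 2) (cc n) #W m w) =
      ∑ i ∈ W, ∑ j ∈ Wᶜ, (x i - x j + if i < j then 1 else 0)
        + ∑ i ∈ W, ((((i : ℕ) % 6 : ℕ) : ℝ) - 5 / 2) + 3 / 2 * ((#W : ℝ) - 2 * m) ^ 2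
        + (((w 0 : ℝ) - w 2) ^ 2 + ((w 1 : ℝ) - w 0) ^ 2 + ((w 2 : ℝ) - w 1) ^ 2) := by
  obtain ⟨M, rfl⟩ := hn
  have hk : ∀ i, kap (6 * M) i = i % 6 := by
    intro i
    unfold kap
    rw [if_pos (by omega)]
  obtain ⟨hmono, hsp, hsum, hstr⟩ := hx
  have hterm : ∀ i j : Fin (6 * M), i ≠ j →
      6 * ((tht (6 * M) x i - tht (6 * M) x j) / (2 * π) +
        (if tht (6 * M) x i < tht (6 * M) x j then 1 else 0)) =
      (x i - x j + if i < j then 1 else 0) + ((mm i j : ℤ) : ℝ) := by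
    intro i j hij
    have h1 : (tht (6 * M) x i < tht (6 * M) x j) ↔
        (((i : ℕ) % 6 < (j : ℕ) % 6) ∨ ((i : ℕ) % 6 = (j : ℕ) % 6 ∧ (i : ℕ) < j)) := by
      unfold tht
      rw [hk, hk, mul_lt_mul_iff_right₀ (by positivity)]
      have h2 := hsp i j
      have h3 := hsp j i
      rcases lt_trichotomy ((i : ℕ) % 6) ((j : ℕ) % 6) with h | h | h
      · have h4 : (((i : ℕ) % 6 : ℕ) : ℝ) + 1 ≤ (((j : ℕ) % 6 : ℕ) : ℝ) := by exact_mod_cast h
        constructor
        · intro _; exact Or.inl h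
        · intro _; linarith
      · rw [h, add_lt_add_iff_right]
        constructor
        · intro h5
          refine Or.inr ⟨rfl, ?_⟩
          by_contra h6
          exact absurd (hmono (show j ≤ i by rw [Fin.le_def]; omega)) (not_le.2 h5)
        · rintro (h5 | ⟨_, h5⟩)
          · exact absurd h5 (lt_irrefl _)
          · exact hstr i j h5 (by rw [hk, hk, h])
      · have h4 : (((j : ℕ) % 6 : ℕ) : ℝ) + 1 ≤ (((i : ℕ) % 6 : ℕ) : ℝ) := by exact_mod_cast h
        constructor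
        · intro h5; linarith
        · intro h5; omega
    have h2 : (tht (6 * M) x i - tht (6 * M) x j) / (2 * π)
        = (x i - x j + (((i : ℕ) % 6 : ℕ) : ℝ) - (((j : ℕ) % 6 : ℕ) : ℝ)) / 6 := by
      unfold tht
      rw [hk, hk]
      field_simp
      ring
    rw [h2]
    unfold mm
    simp only [h1, Fin.lt_def, Int.cast_sub, Int.cast_add, Int.cast_natCast, Int.cast_ite,
      Int.cast_ofNat, Int.cast_zero, Int.cast_one]
    split_ifs <;> ring
  have hSE : 6 * SE (tht (6 * M) x) W = ∑ i ∈ W, ∑ j ∈ Wᶜ, (x i - x j + if i < j then 1 else 0)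
      + ((∑ i ∈ W, ∑ j ∈ Wᶜ, mm i j : ℤ) : ℝ) := by
    unfold SE
    push_cast
    rw [mul_sum, ← sum_add_distrib]
    refine sum_congr rfl fun i hi => ?_
    rw [mul_sum, ← sum_add_distrib]
    refine sum_congr rfl fun j hj => hterm i j ?_
    rintro rfl
    exact (mem_compl.1 hj) hi
  have hmm := sum_mm M W
  have hmm' : 2 * ((∑ i ∈ W, ∑ j ∈ Wᶜ, mm i j : ℤ) : ℝ) =
      2 * (∑ i ∈ W, (15 * (M : ℝ) - 5 + (((i : ℕ) % 6 : ℕ) : ℝ))) - 5 * (#W * ((#W : ℝ) - 1)) := by
    have h := congrArg (fun z : ℤ => (z : ℝ)) hmm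
    simp only [Int.cast_sub, Int.cast_add, Int.cast_mul, Int.cast_natCast, Int.cast_sum,
      Int.cast_ofNat, Int.cast_one] at h
    rw [Int.cast_sum]
    simp only [Int.cast_sum]
    exact h
  have hsplit : ∑ i ∈ W, (15 * (M : ℝ) - 5 + (((i : ℕ) % 6 : ℕ) : ℝ)) =
      ∑ i ∈ W, ((((i : ℕ) % 6 : ℕ) : ℝ) - 5 / 2) + #W * (15 * (M : ℝ) - 5 / 2) := by
    rw [← nsmul_eq_mul, ← sum_const, ← sum_add_distrib]
    refine sum_congr rfl fun i _ => ?_
    ring
  have hw' : (w 0 : ℝ) + w 1 + w 2 = #W := by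
    rw [Fin.sum_univ_three] at hw
    exact_mod_cast hw
  have hN : Num (6 * M) (6 * M / 2) (cc (6 * M)) #W m w =
      (((#W : ℝ) - m) * (3 * M - m) + m * ((6 * M - 3 * M) - (#W - m))) / 2
        + ((w 0 : ℝ) * (2 / 3 * (2 * M - w 2) + 1 / 3 * (2 * M - w 1))
          + (w 1 : ℝ) * (2 / 3 * (2 * M - w 0) + 1 / 3 * (2 * M - w 2))
          + (w 2 : ℝ) * (2 / 3 * (2 * M - w 1) + 1 / 3 * (2 * M - w 0)))
        - #W * (6 * M - #W) := by
    unfold Num
    have h3 : 6 * M / 2 = 3 * M := by omega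
    have h4 : ∀ k, cc (6 * M) k = 2 * M := by
      intro k
      unfold cc
      rw [if_pos (by omega)]
      omega
    rw [Fin.sum_univ_three, h3]
    simp only [h4]
    have e0 : (0 : Fin 3) - 1 = 2 := rfl
    have e1 : (1 : Fin 3) - 1 = 0 := rfl
    have e2 : (2 : Fin 3) - 1 = 1 := rfl
    have f0 : (0 : Fin 3) - 2 = 1 := rfl
    have f1 : (1 : Fin 3) - 2 = 2 := rfl
    have f2 : (2 : Fin 3) - 2 = 0 := rfl
    rw [e0, e1, e2, f0, f1, f2]
    push_cast
    ring
  rw [mul_add, hSE, hN]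
  have h5 : ((∑ i ∈ W, ∑ j ∈ Wᶜ, mm i j : ℤ) : ℝ) =
      ∑ i ∈ W, ((((i : ℕ) % 6 : ℕ) : ℝ) - 5 / 2) + #W * (15 * (M : ℝ) - 5 / 2)
        - 5 / 2 * (#W * ((#W : ℝ) - 1)) := by
    rw [hsplit] at hmm'
    linarith
  rw [h5, ← hw']
  ring

end Pool.Agent.Lib.MP_88e1a1_al.Even
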