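import Pool.Agent.Lib.MP_88e1a1_al.Even.Comb0Aux

/-! # MP_88e1a1_al: integrality in the exceptional case when `6 ∣ n` -/

set_option autoImplicit false

namespace Pool.Agent.Lib.MP_88e1a1_al.Even

open Finset Matrix
open scoped Real

/-- all groups of six except the `l`-th lie in `W` or outside, the `l`-th meets `W` in its first `g`
elements -/
def Exc (M : ℕ) (W : Finset (Fin (6 * M))) (l g : ℕ) : Prop :=
  l < M ∧ (∀ i : Fin (6 * M), (i : ℕ) / 6 = l → (i ∈ W ↔ (i : ℕ) % 6 < g)) ∧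
    ∀ i j : Fin (6 * M), (i : ℕ) / 6 = (j : ℕ) / 6 → (i : ℕ) / 6 ≠ l → (i ∈ W ↔ j ∈ W)

namespace C0

/-- sums over `W` as sums over groups -/
theorem sum_W (M : ℕ) (W : Finset (Fin (6 * M))) (f : ℕ → ℤ) :
    ∑ i ∈ W, f i = ∑ q ∈ range M, ∑ v ∈ range 6,
      if h : 6 * q + v < 6 * M then (if (⟨6 * q + v, h⟩ : Fin (6 * M)) ∈ W then f (6 * q + v) else 0)
      else 0 := by
  rw [← sum_six (fun i => if h : i < 6 * M then
    (if (⟨i, h⟩ : Fin (6 * M)) ∈ W then f i else 0) else 0), sum_range]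
  have h : ∀ i : Fin (6 * M), (if h : (i : ℕ) < 6 * M then
      (if (⟨i, h⟩ : Fin (6 * M)) ∈ W then f i else 0) else 0) = if i ∈ W then f i else 0 :=
    fun i => by rw [dif_pos i.2]
  rw [sum_congr rfl fun i _ => h i, ← sum_filter]
  congr 1
  ext i
  simp

theorem sum_exc (M : ℕ) (W : Finset (Fin (6 * M))) (l g : ℕ) (h : Exc M W l g) (hg : g ≤ 6) :
    ∃ S : Finset ℕ, ∀ f : ℕ → ℤ, ∑ i ∈ W, f i =
      ∑ q ∈ S, ∑ v ∈ range 6, f (6 * q + v) + ∑ v ∈ range g, f (6 * l + v) := by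
  classical
  obtain ⟨hl, h1, h2⟩ := h
  refine ⟨(range M).filter fun q => q ≠ l ∧ ∃ h : 6 * q < 6 * M, (⟨6 * q, h⟩ : Fin (6 * M)) ∈ W, ?_⟩
  intro f
  rw [sum_W, ← add_sum_erase _ _ (mem_range.2 hl), add_comm]
  congr 1
  · rw [sum_filter, ← add_sum_erase (range M) _ (mem_range.2 hl), if_neg (by simp), zero_add]
    refine sum_congr rfl fun q hq => ?_
    rw [mem_erase, mem_range] at hq
    obtain ⟨hql, hqM⟩ := hq
    have hq6 : 6 * q < 6 * M := by omega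
    by_cases hW : (⟨6 * q, hq6⟩ : Fin (6 * M)) ∈ W
    · rw [if_pos ⟨hql, hq6, hW⟩]
      refine sum_congr rfl fun v hv => ?_
      rw [mem_range] at hv
      have hv6 : 6 * q + v < 6 * M := by omega
      rw [dif_pos hv6, if_pos]
      refine (h2 ⟨6 * q, hq6⟩ ⟨6 * q + v, hv6⟩ ?_ ?_).1 hW
      · simp only; omega
      · simp only; omega
    · rw [if_neg (fun h => hW h.2.2)]
      refine sum_eq_zero fun v hv => ?_
      rw [mem_range] at hv
      have hv6 : 6 * q + v < 6 * M := by omega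
      rw [dif_pos hv6, if_neg]
      intro h
      refine hW ((h2 ⟨6 * q, hq6⟩ ⟨6 * q + v, hv6⟩ ?_ ?_).2 h)
      · simp only; omega
      · simp only; omega
  · have e : ∀ v ∈ range 6, (if h : 6 * l + v < 6 * M then
        (if (⟨6 * l + v, h⟩ : Fin (6 * M)) ∈ W then f (6 * l + v) else 0) else 0) =
        if v < g then f (6 * l + v) else 0 := by
      intro v hv
      rw [mem_range] at hv
      have hv6 : 6 * l + v < 6 * M := by omega
      rw [dif_pos hv6]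
      have := h1 ⟨6 * l + v, hv6⟩ (by simp only; omega)
      simp only [show (6 * l + v) % 6 = v by omega] at this
      simp only [this]
    rw [sum_congr rfl e, ← sum_filter]
    congr 1
    ext v
    simp only [mem_filter, mem_range]
    omega

/-- number of increasing pairs from `W` to the complement -/
theorem count_lt (M : ℕ) (W : Finset (Fin (6 * M))) :
    2 * ∑ i ∈ W, ∑ j ∈ Wᶜ, (if i < j then (1 : ℤ) else 0) =
      2 * (#W * (6 * (M : ℤ) - 1) - ∑ i ∈ W, ((i : ℕ) : ℤ)) - #W * (#W - 1) := by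
  have h1 : ∑ i ∈ W, ∑ j ∈ Wᶜ, (if i < j then (1 : ℤ) else 0) +
      ∑ i ∈ W, ∑ j ∈ W, (if i < j then (1 : ℤ) else 0) =
      #W * (6 * (M : ℤ) - 1) - ∑ i ∈ W, ((i : ℕ) : ℤ) := by
    rw [← sum_add_distrib, ← nsmul_eq_mul, ← sum_const, ← sum_sub_distrib]
    refine sum_congr rfl fun i _ => ?_
    rw [sum_compl_add_sum W (fun j => if i < j then (1 : ℤ) else 0), sum_boole]
    have h2 : (univ.filter fun j : Fin (6 * M) => i < j) = Finset.Ioi i := by
      ext j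
      simp
    rw [h2, Fin.card_Ioi]
    have := i.2
    omega
  have h2 : 2 * ∑ i ∈ W, ∑ j ∈ W, (if i < j then (1 : ℤ) else 0) = #W * (#W - 1) := by
    have h3 : ∑ i ∈ W, ∑ j ∈ W, (if i < j then (1 : ℤ) else 0) =
        ∑ i ∈ W, ∑ j ∈ W, (if j < i then (1 : ℤ) else 0) := sum_comm
    calc 2 * ∑ i ∈ W, ∑ j ∈ W, (if i < j then (1 : ℤ) else 0)
        = ∑ i ∈ W, ∑ j ∈ W, (if i < j then (1 : ℤ) else 0)
          + ∑ i ∈ W, ∑ j ∈ W, (if j < i then (1 : ℤ) else 0) := by rw [← h3]; ring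
      _ = ∑ i ∈ W, ∑ j ∈ W, ((if i < j then (1 : ℤ) else 0) + (if j < i then (1 : ℤ) else 0)) := by
          rw [← sum_add_distrib]
          exact sum_congr rfl fun i _ => sum_add_distrib.symm
      _ = ∑ i ∈ W, ((#W : ℤ) - 1) := by
          refine sum_congr rfl fun i hi => ?_
          have h4 : ∀ j ∈ W, ((if i < j then (1 : ℤ) else 0) + (if j < i then (1 : ℤ) else 0)) =
              if i = j then 0 else 1 := by
            intro j _
            rcases lt_trichotomy i j with h | h | h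
            · rw [if_pos h, if_neg h.not_gt, if_neg h.ne]; rfl
            · subst h; simp
            · rw [if_neg h.not_gt, if_pos h, if_neg h.ne']; rfl
          rw [sum_congr rfl h4, ← add_sum_erase _ _ hi, if_pos rfl,
            sum_congr rfl (g := fun _ => (1 : ℤ)) (fun j hj => by
              rw [if_neg (ne_of_mem_erase hj).symm]), sum_const, card_erase_of_mem hi]
          have : 1 ≤ #W := card_pos.2 ⟨i, hi⟩
          rw [nsmul_eq_mul]
          push_cast [this]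
          ring
      _ = #W * (#W - 1) := by rw [sum_const, nsmul_eq_mul]
  linarith

theorem sum_sub_compl (n : ℕ) (x : Fin n → ℝ) (hx : ∑ i, x i = 0) (W : Finset (Fin n)) :
    ∑ i ∈ W, ∑ j ∈ Wᶜ, (x i - x j) = n * ∑ i ∈ W, x i := by
  have h1 : ∑ j ∈ Wᶜ, x j = -∑ i ∈ W, x i := by
    have := sum_compl_add_sum W x
    rw [hx] at this
    linarith
  have h2 : (#Wᶜ : ℝ) = n - #W := by
    rw [card_compl, Fintype.card_fin, Nat.cast_sub (by simpa using card_le_univ W)]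
  have h3 : ∀ i ∈ W, ∑ j ∈ Wᶜ, (x i - x j) = (n - #W) * x i + ∑ i ∈ W, x i := by
    intro i _
    rw [sum_sub_distrib, sum_const, nsmul_eq_mul, h1, h2]
    ring
  rw [sum_congr rfl h3, sum_add_distrib, ← mul_sum, sum_const, nsmul_eq_mul]
  ring

/-- the determinant condition in additive form -/
theorem of_det (n : ℕ) (hn : 6 ∣ n) (x : Fin n → ℝ) (W : Finset (Fin n)) (m k : ℕ) (δ : ℝ)
    (hdet : Complex.exp (((∑ i ∈ W, tht n x i + 2 * π * δ : ℝ) : ℂ) * Complex.I)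
      = (-1) ^ m * om ^ k) :
    ∃ l : ℤ, 6 * δ = 3 * m + 2 * k + 6 * l - ∑ i ∈ W, x i - ∑ i ∈ W, (((i : ℕ) % 6 : ℕ) : ℝ) := by
  have h1 : ((-1) ^ m * om ^ k : ℂ) =
      Complex.exp ((m * (π * Complex.I)) + k * (2 * π * Complex.I / 3)) := by
    rw [Complex.exp_add, Complex.exp_nat_mul, Complex.exp_nat_mul, Complex.exp_pi_mul_I, om]
  rw [h1, Complex.exp_eq_exp_iff_exists_int] at hdet
  obtain ⟨l, hl⟩ := hdet
  refine ⟨l, ?_⟩
  have h2 : ((∑ i ∈ W, tht n x i + 2 * π * δ : ℝ) : ℂ) =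
      ((m * π + k * (2 * π / 3) + l * (2 * π) : ℝ) : ℂ) := by
    have hI : Complex.I ≠ 0 := Complex.I_ne_zero
    refine mul_right_cancel₀ hI ?_
    rw [hl]
    push_cast
    ring
  have h3 : ∑ i ∈ W, tht n x i + 2 * π * δ = m * π + k * (2 * π / 3) + l * (2 * π) := by
    exact_mod_cast h2
  have h4 : ∑ i ∈ W, tht n x i = π / 3 * (∑ i ∈ W, x i + ∑ i ∈ W, (((i : ℕ) % 6 : ℕ) : ℝ)) := by
    rw [← sum_add_distrib, mul_sum]
    refine sum_congr rfl fun i _ => ?_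
    unfold tht kap
    rw [if_pos (by omega)]
  rw [h4] at h3
  have hπ : (0 : ℝ) < π := Real.pi_pos
  have h5 : π * (6 * δ) = π * (3 * m + 2 * k + 6 * l - ∑ i ∈ W, x i
      - ∑ i ∈ W, (((i : ℕ) % 6 : ℕ) : ℝ)) := by linarith
  exact mul_left_cancel₀ hπ.ne' h5

/-- the sum with integers made explicit -/
theorem six_total (M : ℕ) (x : Fin (6 * M) → ℝ) (hx : AlcO (6 * M) x) (W : Finset (Fin (6 * M)))
    (m : ℕ) (w : Fin 3 → ℕ) (δ : ℝ) (hw : ∑ k, w k = #W)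
    (hdet : Complex.exp (((∑ i ∈ W, tht (6 * M) x i + 2 * π * δ : ℝ) : ℂ) * Complex.I)
      = (-1) ^ m * om ^ ((w 1 : ℕ) + 2 * w 2)) :
    ∃ l : ℤ, 6 * (SE (tht (6 * M) x) W + Num (6 * M) (6 * M / 2) (cc (6 * M)) #W m w
        + (6 * M : ℕ) * δ) =
      6 * M * (3 * m + 2 * (w 1 + 2 * w 2) + 6 * l - ∑ i ∈ W, (((i : ℕ) % 6 : ℕ) : ℝ))
        + (#W * (6 * (M : ℝ) - 1) - ∑ i ∈ W, ((i : ℕ) : ℝ) - #W * (#W - 1) / 2)
        + ∑ i ∈ W, (((i : ℕ) % 6 : ℕ) : ℝ) - 5 / 2 * #W + 3 / 2 * ((#W : ℝ) - 2 * m) ^ 2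
        + (((w 0 : ℝ) - w 2) ^ 2 + ((w 1 : ℝ) - w 0) ^ 2 + ((w 2 : ℝ) - w 1) ^ 2) := by
  obtain ⟨l, hl⟩ := of_det (6 * M) (Dvd.intro _ rfl) x W m _ δ hdet
  refine ⟨l, ?_⟩
  have h1 := six_formula (6 * M) (Dvd.intro _ rfl) x hx W m w hw
  have h2 : ∑ i ∈ W, ∑ j ∈ Wᶜ, (x i - x j + if i < j then 1 else 0) =
      ∑ i ∈ W, ∑ j ∈ Wᶜ, (x i - x j) + ((∑ i ∈ W, ∑ j ∈ Wᶜ, (if i < j then (1 : ℤ) else 0) : ℤ) : ℝ) := by
    rw [Int.cast_sum, ← sum_add_distrib]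
    refine sum_congr rfl fun i _ => ?_
    rw [Int.cast_sum, ← sum_add_distrib]
    refine sum_congr rfl fun j _ => ?_
    split_ifs <;> simp
  have h3 := sum_sub_compl (6 * M) x hx.2.2.1 W
  have h4 := congrArg (fun z : ℤ => (z : ℝ)) (count_lt M W)
  simp only [Int.cast_sub, Int.cast_mul, Int.cast_natCast, Int.cast_ofNat, Int.cast_one] at h4
  have h5 : ((∑ i ∈ W, ((i : ℕ) : ℤ) : ℤ) : ℝ) = ∑ i ∈ W, ((i : ℕ) : ℝ) := by
    rw [Int.cast_sum]
    rfl
  rw [h5] at h4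
  obtain ⟨I, hI⟩ : ∃ I : ℤ, I = ∑ i ∈ W, ∑ j ∈ Wᶜ, (if i < j then (1 : ℤ) else 0) := ⟨_, rfl⟩
  rw [← hI] at h2 h4
  have h6 : ∑ i ∈ W, ((((i : ℕ) % 6 : ℕ) : ℝ) - 5 / 2) =
      ∑ i ∈ W, (((i : ℕ) % 6 : ℕ) : ℝ) - 5 / 2 * #W := by
    rw [sum_sub_distrib, sum_const, nsmul_eq_mul]
    ring
  rw [mul_add, h1, h2, h3, h6]
  have h7 : 6 * (((6 * M : ℕ) : ℝ) * δ) = 6 * M * (6 * δ) := by push_cast; ring
  rw [h7, hl]
  push_cast
  linear_combination h4 / 2

end C0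

open C0

/-- integrality in the exceptional case -/
theorem claimB (M : ℕ) (x : Fin (6 * M) → ℝ) (hx : AlcO (6 * M) x) (W : Finset (Fin (6 * M)))
    (m : ℕ) (w : Fin 3 → ℕ) (δ : ℝ) (hw : ∑ k, w k = #W)
    (hdet : Complex.exp (((∑ i ∈ W, tht (6 * M) x i + 2 * π * δ : ℝ) : ℂ) * Complex.I)
      = (-1) ^ m * om ^ ((w 1 : ℕ) + 2 * w 2)) (l g : ℕ) (hE : Exc M W l g)
    (hc : ((g = 2 ∨ g = 4) ∧ #W = 2 * m ∧
        ((w 0 : ℤ) - w 2) ^ 2 + ((w 1 : ℤ) - w 0) ^ 2 + ((w 2 : ℤ) - w 1) ^ 2 = 2) ∨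
      (g = 3 ∧ ((#W : ℤ) - 2 * m) ^ 2 = 1 ∧
        ((w 0 : ℤ) - w 2) ^ 2 + ((w 1 : ℤ) - w 0) ^ 2 + ((w 2 : ℤ) - w 1) ^ 2 = 0)) :
    ∃ j : ℤ, SE (tht (6 * M) x) W + Num (6 * M) (6 * M / 2) (cc (6 * M)) #W m w
        + (6 * M : ℕ) * δ = j ∧ j ≠ 0 := by
  obtain ⟨l', ht⟩ := six_total M x hx W m w δ hw hdet
  obtain ⟨S, hS⟩ := sum_exc M W l g hE (by rcases hc with ⟨h | h, _⟩ | ⟨h, _⟩ <;> omega)
  have e1 : (#W : ℤ) = 6 * #S + g := by
    have := hS fun _ => 1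
    simp only [sum_const, card_range, nsmul_eq_mul, mul_one] at this
    push_cast at this
    linarith
  have e2 : ∑ i ∈ W, (((i : ℕ) % 6 : ℕ) : ℤ) = 15 * #S + ∑ v ∈ range g, ((v % 6 : ℕ) : ℤ) := by
    have := hS fun i => ((i % 6 : ℕ) : ℤ)
    rw [this]
    congr 1
    · rw [mul_comm, ← nsmul_eq_mul, ← sum_const]
      refine sum_congr rfl fun q _ => ?_
      have : ∀ v ∈ range 6, (((6 * q + v) % 6 : ℕ) : ℤ) = (v : ℤ) := by
        intro v hv
        rw [mem_range] at hv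
        rw [show (6 * q + v) % 6 = v by omega]
      rw [sum_congr rfl this]
      decide
    · refine sum_congr rfl fun v _ => ?_
      rw [show (6 * l + v) % 6 = v % 6 by omega]
  have e3 : ∑ i ∈ W, ((i : ℕ) : ℤ) = 36 * ∑ q ∈ S, (q : ℤ) + 15 * #S +
      (6 * l * g + ∑ v ∈ range g, (v : ℤ)) := by
    have := hS fun i => (i : ℤ)
    rw [this]
    congr 1
    · rw [mul_sum, mul_comm (15 : ℤ), ← nsmul_eq_mul, ← sum_const, ← sum_add_distrib]
      refine sum_congr rfl fun q _ => ?_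
      simp only [sum_range_succ, sum_range_zero]
      push_cast
      ring
    · push_cast
      rw [sum_add_distrib, sum_const, card_range, nsmul_eq_mul]
      ring
  have r1 := congrArg (fun z : ℤ => (z : ℝ)) e1
  have r2 := congrArg (fun z : ℤ => (z : ℝ)) e2
  have r3 := congrArg (fun z : ℤ => (z : ℝ)) e3
  simp only [Int.cast_sum, Int.cast_natCast] at r2 r3
  set A : ℤ := ∑ q ∈ S, (q : ℤ) with hA
  rcases hc with ⟨hg, hm, hT⟩ | ⟨rfl, he, hT⟩
  · have hT' := congrArg (fun z : ℤ => (z : ℝ)) hT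
    simp only [Int.cast_add, Int.cast_sub, Int.cast_pow, Int.cast_natCast, Int.cast_ofNat] at hT'
    rw [hT'] at ht
    have hm' : (#W : ℝ) = 2 * m := by exact_mod_cast hm
    have hm2 : (#W : ℤ) = 2 * m := by exact_mod_cast hm
    rcases hg with rfl | rfl
    · have k2 : ∑ v ∈ range 2, ((v % 6 : ℕ) : ℤ) = 1 := by decide
      have k3 : ∑ v ∈ range 2, (v : ℤ) = 1 := by decide
      rw [k2] at r2
      rw [k3] at r3
      push_cast at r1 r2 r3
      have hm3 : (m : ℤ) = 3 * #S + 1 := by push_cast at e1; omega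
      have hm4 : (m : ℝ) = 3 * #S + 1 := by exact_mod_cast hm3
      obtain ⟨b, hb⟩ := Int.even_mul_succ_self (#S : ℤ)
      refine ⟨M * (4 + 2 * ((w 1 : ℤ) + 2 * w 2) + 6 * l') - 3 * (#S : ℤ) ^ 2 - 5 * #S - 1
        - 6 * A - 2 * l, ?_, ?_⟩
      · rw [r2, r3, hm', hm4] at ht
        push_cast at ht ⊢
        linear_combination ht / 6
      · intro h0
        have hP : (M : ℤ) * (4 + 2 * ((w 1 : ℤ) + 2 * w 2) + 6 * l') =
            2 * (M * (2 + ((w 1 : ℤ) + 2 * w 2) + 3 * l')) := by ring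
        rw [hP] at h0
        generalize (M : ℤ) * (2 + ((w 1 : ℤ) + 2 * w 2) + 3 * l') = P at h0
        have hsq : 3 * (#S : ℤ) ^ 2 = 3 * (#S * (#S + 1)) - 3 * #S := by ring
        rw [hsq, hb] at h0
        omega
    · have k2 : ∑ v ∈ range 4, ((v % 6 : ℕ) : ℤ) = 6 := by decide
      have k3 : ∑ v ∈ range 4, (v : ℤ) = 6 := by decide
      rw [k2] at r2
      rw [k3] at r3
      push_cast at r1 r2 r3
      have hm3 : (m : ℤ) = 3 * #S + 2 := by push_cast at e1; omega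
      have hm4 : (m : ℝ) = 3 * #S + 2 := by exact_mod_cast hm3
      obtain ⟨b, hb⟩ := Int.even_mul_succ_self (#S : ℤ)
      refine ⟨M * (4 + 2 * ((w 1 : ℤ) + 2 * w 2) + 6 * l') - 3 * (#S : ℤ) ^ 2 - 7 * #S - 3
        - 6 * A - 4 * l, ?_, ?_⟩
      · rw [r2, r3, hm', hm4] at ht
        push_cast at ht ⊢
        linear_combination ht / 6
      · intro h0
        have hP : (M : ℤ) * (4 + 2 * ((w 1 : ℤ) + 2 * w 2) + 6 * l') =
            2 * (M * (2 + ((w 1 : ℤ) + 2 * w 2) + 3 * l')) := by ring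
        rw [hP] at h0
        generalize (M : ℤ) * (2 + ((w 1 : ℤ) + 2 * w 2) + 3 * l') = P at h0
        have hsq : 3 * (#S : ℤ) ^ 2 = 3 * (#S * (#S + 1)) - 3 * #S := by ring
        rw [hsq, hb] at h0
        omega
  · have s0 := sq_nonneg ((w 0 : ℤ) - w 2)
    have s1 := sq_nonneg ((w 1 : ℤ) - w 0)
    have s2 := sq_nonneg ((w 2 : ℤ) - w 1)
    have hw0 : (w 0 : ℤ) = w 2 := by
      have : ((w 0 : ℤ) - w 2) ^ 2 = 0 := by linarith
      have := pow_eq_zero_iff (two_ne_zero) |>.1 this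
      linarith
    have hw1 : (w 1 : ℤ) = w 0 := by
      have : ((w 1 : ℤ) - w 0) ^ 2 = 0 := by linarith
      have := pow_eq_zero_iff (two_ne_zero) |>.1 this
      linarith
    have hT' := congrArg (fun z : ℤ => (z : ℝ)) hT
    simp only [Int.cast_add, Int.cast_sub, Int.cast_pow, Int.cast_natCast, Int.cast_ofNat,
      Int.cast_zero] at hT'
    have he' := congrArg (fun z : ℤ => (z : ℝ)) he
    simp only [Int.cast_sub, Int.cast_mul, Int.cast_pow, Int.cast_natCast, Int.cast_ofNat,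
      Int.cast_one] at he'
    rw [hT', he'] at ht
    have k2 : ∑ v ∈ range 3, ((v % 6 : ℕ) : ℤ) = 3 := by decide
    have k3 : ∑ v ∈ range 3, (v : ℤ) = 3 := by decide
    rw [k2] at r2
    rw [k3] at r3
    push_cast at r1 r2 r3
    rw [Fin.sum_univ_three] at hw
    have hw2 : (w 1 : ℤ) + 2 * w 2 = 6 * #S + 3 := by
      have : (w 0 : ℤ) + w 1 + w 2 = #W := by exact_mod_cast hw
      push_cast at e1
      omega
    have hw3 : (w 1 : ℝ) + 2 * w 2 = 6 * #S + 3 := by exact_mod_cast hw2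
    refine ⟨M * (3 * m + 3 * (#S : ℤ) + 6 + 6 * l') - 3 * (#S : ℤ) ^ 2 - 6 * #S - 2
      - 6 * A - 3 * l, ?_, ?_⟩
    · rw [r2, r3, hw3, r1] at ht
      push_cast at ht ⊢
      linear_combination ht / 6
    · intro h0
      have hP : (M : ℤ) * (3 * m + 3 * (#S : ℤ) + 6 + 6 * l') - 3 * (#S : ℤ) ^ 2 =
          3 * (M * (m + (#S : ℤ) + 2 + 2 * l') - (#S : ℤ) ^ 2) := by ring
      rw [hP] at h0
      generalize (M : ℤ) * (m + (#S : ℤ) + 2 + 2 * l') - (#S : ℤ) ^ 2 = P at h0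
      omega

end Pool.Agent.Lib.MP_88e1a1_al.Even
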