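import Pool.Agent.Lib.MP_88e1a1_al.Even.Comb24
import Pool.Agent.Lib.MP_88e1a1_al.Even.Comb0Aux

/-! # MP_88e1a1_al: the inequality within a group of six when `6 ∣ n` -/

set_option autoImplicit false

namespace Pool.Agent.Lib.MP_88e1a1_al.Even

open Finset Matrix
open scoped Real

namespace C0

/-- the part of the sum within the `q`-th group of six -/
noncomputable def Qg (c : ℕ → ℤ) (X : ℕ → ℝ) (q : ℕ) : ℝ :=
  ∑ u ∈ range 6, ∑ v ∈ range 6, (c (6 * q + u) : ℝ) * (1 - c (6 * q + v)) *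
      (X (6 * q + u) - X (6 * q + v) + if u < v then 1 else 0)
    + ∑ u ∈ range 6, (c (6 * q + u) : ℝ) * ((u : ℝ) - 5 / 2)

/-- explicit form for six numbers -/
theorem expand6 (c : ℕ → ℝ) (y : ℕ → ℝ) :
    ∑ u ∈ range 6, ∑ v ∈ range 6, c u * (1 - c v) * (y u - y v + if u < v then 1 else 0)
      + ∑ u ∈ range 6, c u * ((u : ℝ) - 5 / 2) =
    c 0 * ((1 - c 1) * (y 0 - y 1 + 1) + (1 - c 2) * (y 0 - y 2 + 1) + (1 - c 3) * (y 0 - y 3 + 1)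
        + (1 - c 4) * (y 0 - y 4 + 1) + (1 - c 5) * (y 0 - y 5 + 1) - 5 / 2)
    + c 1 * ((1 - c 0) * (y 1 - y 0) + (1 - c 2) * (y 1 - y 2 + 1) + (1 - c 3) * (y 1 - y 3 + 1)
        + (1 - c 4) * (y 1 - y 4 + 1) + (1 - c 5) * (y 1 - y 5 + 1) - 3 / 2)
    + c 2 * ((1 - c 0) * (y 2 - y 0) + (1 - c 1) * (y 2 - y 1) + (1 - c 3) * (y 2 - y 3 + 1)
        + (1 - c 4) * (y 2 - y 4 + 1) + (1 - c 5) * (y 2 - y 5 + 1) - 1 / 2)
    + c 3 * ((1 - c 0) * (y 3 - y 0) + (1 - c 1) * (y 3 - y 1) + (1 - c 2) * (y 3 - y 2)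
        + (1 - c 4) * (y 3 - y 4 + 1) + (1 - c 5) * (y 3 - y 5 + 1) + 1 / 2)
    + c 4 * ((1 - c 0) * (y 4 - y 0) + (1 - c 1) * (y 4 - y 1) + (1 - c 2) * (y 4 - y 2)
        + (1 - c 3) * (y 4 - y 3) + (1 - c 5) * (y 4 - y 5 + 1) + 3 / 2)
    + c 5 * ((1 - c 0) * (y 5 - y 0) + (1 - c 1) * (y 5 - y 1) + (1 - c 2) * (y 5 - y 2)
        + (1 - c 3) * (y 5 - y 3) + (1 - c 4) * (y 5 - y 4) + 5 / 2) := by
  simp only [sum_range_succ, sum_range_zero]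
  norm_num
  ring

theorem grp_lb (c : ℕ → ℤ) (y : ℕ → ℝ) (hc : ∀ v, c v = 0 ∨ c v = 1)
    (hy : ∀ v < 5, y v ≤ y (v + 1)) :
    ((∑ v ∈ range 6, c v : ℤ) : ℝ) * (6 - (∑ v ∈ range 6, c v : ℤ)) * (1 / 2 - (y 5 - y 0)) ≤
    ∑ u ∈ range 6, ∑ v ∈ range 6, (c u : ℝ) * (1 - c v) * (y u - y v + if u < v then 1 else 0)
      + ∑ u ∈ range 6, (c u : ℝ) * ((u : ℝ) - 5 / 2) := by
  rw [expand6 (fun u => (c u : ℝ)) y]
  have y0 := hy 0 (by norm_num)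
  have y1 := hy 1 (by norm_num)
  have y2 := hy 2 (by norm_num)
  have y3 := hy 3 (by norm_num)
  have y4 := hy 4 (by norm_num)
  norm_num at y0 y1 y2 y3 y4
  simp only [sum_range_succ, sum_range_zero, zero_add]
  rcases hc 0 with h0 | h0 <;> rcases hc 1 with h1 | h1 <;> rcases hc 2 with h2 | h2 <;>
    rcases hc 3 with h3 | h3 <;> rcases hc 4 with h4 | h4 <;> rcases hc 5 with h5 | h5 <;>
    rw [h0, h1, h2, h3, h4, h5] <;> norm_num <;> linarith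

theorem grp_lb2 (c : ℕ → ℤ) (y : ℕ → ℝ) (hc : ∀ v, c v = 0 ∨ c v = 1)
    (hy : ∀ v < 5, y v ≤ y (v + 1)) (t : ℕ) (ht : t < 5) (ht0 : c t = 0) (ht1 : c (t + 1) = 1)
    (hg : ∑ v ∈ range 6, c v = 2 ∨ ∑ v ∈ range 6, c v = 3 ∨ ∑ v ∈ range 6, c v = 4) :
    ((∑ v ∈ range 6, c v : ℤ) : ℝ) * (6 - (∑ v ∈ range 6, c v : ℤ)) / 2 - 6 * (y 5 - y 0) ≤
    ∑ u ∈ range 6, ∑ v ∈ range 6, (c u : ℝ) * (1 - c v) * (y u - y v + if u < v then 1 else 0)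
      + ∑ u ∈ range 6, (c u : ℝ) * ((u : ℝ) - 5 / 2) := by
  rw [expand6 (fun u => (c u : ℝ)) y]
  have y0 := hy 0 (by norm_num)
  have y1 := hy 1 (by norm_num)
  have y2 := hy 2 (by norm_num)
  have y3 := hy 3 (by norm_num)
  have y4 := hy 4 (by norm_num)
  norm_num at y0 y1 y2 y3 y4
  simp only [sum_range_succ, sum_range_zero, zero_add] at hg ⊢
  rcases hc 0 with h0 | h0 <;> rcases hc 1 with h1 | h1 <;> rcases hc 2 with h2 | h2 <;>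
    rcases hc 3 with h3 | h3 <;> rcases hc 4 with h4 | h4 <;> rcases hc 5 with h5 | h5 <;>
    rw [h0, h1, h2, h3, h4, h5] at hg ⊢ <;> first
      | (exfalso; revert hg; norm_num; done)
      | (norm_num; linarith)
      | (exfalso; interval_cases t <;> simp_all)

end C0

end Pool.Agent.Lib.MP_88e1a1_al.Even
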