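import Pool.Agent.Lib.MP_88e1a1_al.Even.Defs

/-! # MP_88e1a1_al: the combinatorial inequality for `n ≡ 2, 4 (mod 6)` -/

set_option autoImplicit false

namespace Pool.Agent.Lib.MP_88e1a1_al.Even

open Finset Matrix
open scoped Real

namespace C24

/-- pattern for `n ≡ 2` -/
def kA (i : ℕ) : ℕ := (2 * (i / 2)) % 3 + 3 * (i % 2)

/-- pattern for `n ≡ 4` -/
def kB (i : ℕ) : ℕ := (i / 2) % 3 + 3 * (i % 2)

/-- the integer part of the sum -/
def mm (K : ℕ → ℕ) (i j : ℕ) : ℤ :=
  if i = j then 0 else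
    (K i : ℤ) - K j + (if K i < K j ∨ (K i = K j ∧ i < j) then 6 else 0) - (if i < j then 1 else 0)

theorem mm_add (K : ℕ → ℕ) (i j : ℕ) : mm K i j + mm K j i = if i = j then 0 else 5 := by
  unfold mm
  rcases lt_trichotomy i j with h | h | h
  · rcases lt_trichotomy (K i) (K j) with h' | h' | h'
    · simp [h.ne, h.ne', h, h.not_gt, h', h'.not_gt, h'.ne']
      ring
    · simp [h.ne, h.ne', h, h.not_gt, h']
    · simp [h.ne, h.ne', h, h.not_gt, h', h'.not_gt, h'.ne', h'.ne]
      ring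
  · simp [h]
  · rcases lt_trichotomy (K i) (K j) with h' | h' | h'
    · simp [h.ne, h.ne', h, h.not_gt, h', h'.not_gt, h'.ne']
      ring
    · simp [h.ne, h.ne', h, h.not_gt, h']
    · simp [h.ne, h.ne', h, h.not_gt, h', h'.not_gt, h'.ne', h'.ne]
      ring

theorem mm_lt (K : ℕ → ℕ) {i j : ℕ} (h : i < j) : mm K i j =
    (K i : ℤ) - K j + (if K i ≤ K j then 6 else 0) - 1 := by
  unfold mm
  rw [if_neg h.ne, if_pos h]
  congr 2
  by_cases h' : K i ≤ K j
  · rw [if_pos h', if_pos]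
    rcases h'.lt_or_eq with h'' | h''
    · exact Or.inl h''
    · exact Or.inr ⟨h'', h⟩
  · rw [if_neg h', if_neg]
    rintro (h'' | h'')
    · exact h' h''.le
    · exact h' h''.1.le

theorem mm_gt (K : ℕ → ℕ) {i j : ℕ} (h : j < i) : mm K i j =
    (K i : ℤ) - K j + (if K i < K j then 6 else 0) := by
  unfold mm
  rw [if_neg h.ne', if_neg h.not_gt, sub_zero]
  congr 1
  by_cases h' : K i < K j
  · rw [if_pos h', if_pos (Or.inl h')]
  · rw [if_neg h', if_neg]
    rintro (h'' | h'')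
    · exact h' h''
    · exact absurd h''.2 h.not_gt

theorem mm_self (K : ℕ → ℕ) (i : ℕ) : mm K i i = 0 := by
  unfold mm; simp

theorem kA_le (i : ℕ) : kA i ≤ 5 := by unfold kA; omega
theorem kB_le (i : ℕ) : kB i ≤ 5 := by unfold kB; omega

theorem blockA (i b : ℕ) : ∑ j ∈ range (6 * b), mm kA i j =
    if i < 6 * b then 15 * (b : ℤ) - 5 + (i % 6 : ℕ) else 15 * (b : ℤ) := by
  induction b with
  | zero => simp
  | succ b ih =>
    rw [show 6 * (b + 1) = 6 * b + 1 + 1 + 1 + 1 + 1 + 1 by ring]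
    iterate 6 rw [sum_range_succ]
    rw [ih]
    have k0 : kA (6 * b) = 0 := by unfold kA; omega
    have k1 : kA (6 * b + 1) = 3 := by unfold kA; omega
    have k2 : kA (6 * b + 1 + 1) = 2 := by unfold kA; omega
    have k3 : kA (6 * b + 1 + 1 + 1) = 5 := by unfold kA; omega
    have k4 : kA (6 * b + 1 + 1 + 1 + 1) = 1 := by unfold kA; omega
    have k5 : kA (6 * b + 1 + 1 + 1 + 1 + 1) = 4 := by unfold kA; omega
    rcases lt_or_ge i (6 * b) with h | h
    · rw [if_pos h, if_pos (by omega)]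
      rw [mm_lt kA (show i < 6 * b by omega), mm_lt kA (show i < 6 * b + 1 by omega),
        mm_lt kA (show i < 6 * b + 1 + 1 by omega), mm_lt kA (show i < 6 * b + 1 + 1 + 1 by omega),
        mm_lt kA (show i < 6 * b + 1 + 1 + 1 + 1 by omega),
        mm_lt kA (show i < 6 * b + 1 + 1 + 1 + 1 + 1 by omega), k0, k1, k2, k3, k4, k5]
      have hk := kA_le i
      generalize kA i = k at hk
      push_cast
      interval_cases k <;> norm_num <;> ring
    · rw [if_neg (by omega)]
      rcases lt_or_ge i (6 * b + 6) with h' | h'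
      · rw [if_pos (by omega)]
        obtain ⟨u, rfl⟩ : ∃ u, i = 6 * b + u := ⟨i - 6 * b, by omega⟩
        have hu : u < 6 := by omega
        rw [show (6 * b + u) % 6 = u by omega]
        interval_cases u
        · rw [Nat.add_zero, mm_self, mm_lt kA (show 6 * b < 6 * b + 1 by omega),
            mm_lt kA (show 6 * b < 6 * b + 1 + 1 by omega),
            mm_lt kA (show 6 * b < 6 * b + 1 + 1 + 1 by omega),
            mm_lt kA (show 6 * b < 6 * b + 1 + 1 + 1 + 1 by omega),
            mm_lt kA (show 6 * b < 6 * b + 1 + 1 + 1 + 1 + 1 by omega), k0, k1, k2, k3, k4, k5]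
          push_cast; norm_num; ring
        · rw [mm_gt kA (show 6 * b < 6 * b + 1 by omega), mm_self,
            mm_lt kA (show 6 * b + 1 < 6 * b + 1 + 1 by omega),
            mm_lt kA (show 6 * b + 1 < 6 * b + 1 + 1 + 1 by omega),
            mm_lt kA (show 6 * b + 1 < 6 * b + 1 + 1 + 1 + 1 by omega),
            mm_lt kA (show 6 * b + 1 < 6 * b + 1 + 1 + 1 + 1 + 1 by omega), k0, k1, k2, k3, k4, k5]
          push_cast; norm_num; ring
        · rw [show 6 * b + 2 = 6 * b + 1 + 1 by ring,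
            mm_gt kA (show 6 * b < 6 * b + 1 + 1 by omega),
            mm_gt kA (show 6 * b + 1 < 6 * b + 1 + 1 by omega), mm_self,
            mm_lt kA (show 6 * b + 1 + 1 < 6 * b + 1 + 1 + 1 by omega),
            mm_lt kA (show 6 * b + 1 + 1 < 6 * b + 1 + 1 + 1 + 1 by omega),
            mm_lt kA (show 6 * b + 1 + 1 < 6 * b + 1 + 1 + 1 + 1 + 1 by omega),
            k0, k1, k2, k3, k4, k5]
          push_cast; norm_num; ring
        · rw [show 6 * b + 3 = 6 * b + 1 + 1 + 1 by ring,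
            mm_gt kA (show 6 * b < 6 * b + 1 + 1 + 1 by omega),
            mm_gt kA (show 6 * b + 1 < 6 * b + 1 + 1 + 1 by omega),
            mm_gt kA (show 6 * b + 1 + 1 < 6 * b + 1 + 1 + 1 by omega), mm_self,
            mm_lt kA (show 6 * b + 1 + 1 + 1 < 6 * b + 1 + 1 + 1 + 1 by omega),
            mm_lt kA (show 6 * b + 1 + 1 + 1 < 6 * b + 1 + 1 + 1 + 1 + 1 by omega),
            k0, k1, k2, k3, k4, k5]
          push_cast; norm_num; ring
        · rw [show 6 * b + 4 = 6 * b + 1 + 1 + 1 + 1 by ring,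
            mm_gt kA (show 6 * b < 6 * b + 1 + 1 + 1 + 1 by omega),
            mm_gt kA (show 6 * b + 1 < 6 * b + 1 + 1 + 1 + 1 by omega),
            mm_gt kA (show 6 * b + 1 + 1 < 6 * b + 1 + 1 + 1 + 1 by omega),
            mm_gt kA (show 6 * b + 1 + 1 + 1 < 6 * b + 1 + 1 + 1 + 1 by omega), mm_self,
            mm_lt kA (show 6 * b + 1 + 1 + 1 + 1 < 6 * b + 1 + 1 + 1 + 1 + 1 by omega),
            k0, k1, k2, k3, k4, k5]
          push_cast; norm_num; ring
        · rw [show 6 * b + 5 = 6 * b + 1 + 1 + 1 + 1 + 1 by ring,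
            mm_gt kA (show 6 * b < 6 * b + 1 + 1 + 1 + 1 + 1 by omega),
            mm_gt kA (show 6 * b + 1 < 6 * b + 1 + 1 + 1 + 1 + 1 by omega),
            mm_gt kA (show 6 * b + 1 + 1 < 6 * b + 1 + 1 + 1 + 1 + 1 by omega),
            mm_gt kA (show 6 * b + 1 + 1 + 1 < 6 * b + 1 + 1 + 1 + 1 + 1 by omega),
            mm_gt kA (show 6 * b + 1 + 1 + 1 + 1 < 6 * b + 1 + 1 + 1 + 1 + 1 by omega), mm_self,
            k0, k1, k2, k3, k4, k5]
          push_cast; norm_num; ring
      · rw [if_neg (by omega)]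
        rw [mm_gt kA (show 6 * b < i by omega), mm_gt kA (show 6 * b + 1 < i by omega),
          mm_gt kA (show 6 * b + 1 + 1 < i by omega), mm_gt kA (show 6 * b + 1 + 1 + 1 < i by omega),
          mm_gt kA (show 6 * b + 1 + 1 + 1 + 1 < i by omega),
          mm_gt kA (show 6 * b + 1 + 1 + 1 + 1 + 1 < i by omega), k0, k1, k2, k3, k4, k5]
        have hk := kA_le i
        generalize kA i = k at hk
        push_cast
        interval_cases k <;> norm_num <;> ring

theorem blockB (i b : ℕ) : ∑ j ∈ range (6 * b), mm kB i j =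
    if i < 6 * b then 15 * (b : ℤ) - 5 + (i % 6 : ℕ) else 15 * (b : ℤ) := by
  induction b with
  | zero => simp
  | succ b ih =>
    rw [show 6 * (b + 1) = 6 * b + 1 + 1 + 1 + 1 + 1 + 1 by ring]
    iterate 6 rw [sum_range_succ]
    rw [ih]
    have k0 : kB (6 * b) = 0 := by unfold kB; omega
    have k1 : kB (6 * b + 1) = 3 := by unfold kB; omega
    have k2 : kB (6 * b + 1 + 1) = 1 := by unfold kB; omega
    have k3 : kB (6 * b + 1 + 1 + 1) = 4 := by unfold kB; omega
    have k4 : kB (6 * b + 1 + 1 + 1 + 1) = 2 := by unfold kB; omega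
    have k5 : kB (6 * b + 1 + 1 + 1 + 1 + 1) = 5 := by unfold kB; omega
    rcases lt_or_ge i (6 * b) with h | h
    · rw [if_pos h, if_pos (by omega)]
      rw [mm_lt kB (show i < 6 * b by omega), mm_lt kB (show i < 6 * b + 1 by omega),
        mm_lt kB (show i < 6 * b + 1 + 1 by omega), mm_lt kB (show i < 6 * b + 1 + 1 + 1 by omega),
        mm_lt kB (show i < 6 * b + 1 + 1 + 1 + 1 by omega),
        mm_lt kB (show i < 6 * b + 1 + 1 + 1 + 1 + 1 by omega), k0, k1, k2, k3, k4, k5]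
      have hk := kB_le i
      generalize kB i = k at hk
      push_cast
      interval_cases k <;> norm_num <;> ring
    · rw [if_neg (by omega)]
      rcases lt_or_ge i (6 * b + 6) with h' | h'
      · rw [if_pos (by omega)]
        obtain ⟨u, rfl⟩ : ∃ u, i = 6 * b + u := ⟨i - 6 * b, by omega⟩
        have hu : u < 6 := by omega
        rw [show (6 * b + u) % 6 = u by omega]
        interval_cases u
        · rw [Nat.add_zero, mm_self, mm_lt kB (show 6 * b < 6 * b + 1 by omega),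
            mm_lt kB (show 6 * b < 6 * b + 1 + 1 by omega),
            mm_lt kB (show 6 * b < 6 * b + 1 + 1 + 1 by omega),
            mm_lt kB (show 6 * b < 6 * b + 1 + 1 + 1 + 1 by omega),
            mm_lt kB (show 6 * b < 6 * b + 1 + 1 + 1 + 1 + 1 by omega), k0, k1, k2, k3, k4, k5]
          push_cast; norm_num; ring
        · rw [mm_gt kB (show 6 * b < 6 * b + 1 by omega), mm_self,
            mm_lt kB (show 6 * b + 1 < 6 * b + 1 + 1 by omega),
            mm_lt kB (show 6 * b + 1 < 6 * b + 1 + 1 + 1 by omega),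
            mm_lt kB (show 6 * b + 1 < 6 * b + 1 + 1 + 1 + 1 by omega),
            mm_lt kB (show 6 * b + 1 < 6 * b + 1 + 1 + 1 + 1 + 1 by omega), k0, k1, k2, k3, k4, k5]
          push_cast; norm_num; ring
        · rw [show 6 * b + 2 = 6 * b + 1 + 1 by ring,
            mm_gt kB (show 6 * b < 6 * b + 1 + 1 by omega),
            mm_gt kB (show 6 * b + 1 < 6 * b + 1 + 1 by omega), mm_self,
            mm_lt kB (show 6 * b + 1 + 1 < 6 * b + 1 + 1 + 1 by omega),
            mm_lt kB (show 6 * b + 1 + 1 < 6 * b + 1 + 1 + 1 + 1 by omega),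
            mm_lt kB (show 6 * b + 1 + 1 < 6 * b + 1 + 1 + 1 + 1 + 1 by omega),
            k0, k1, k2, k3, k4, k5]
          push_cast; norm_num; ring
        · rw [show 6 * b + 3 = 6 * b + 1 + 1 + 1 by ring,
            mm_gt kB (show 6 * b < 6 * b + 1 + 1 + 1 by omega),
            mm_gt kB (show 6 * b + 1 < 6 * b + 1 + 1 + 1 by omega),
            mm_gt kB (show 6 * b + 1 + 1 < 6 * b + 1 + 1 + 1 by omega), mm_self,
            mm_lt kB (show 6 * b + 1 + 1 + 1 < 6 * b + 1 + 1 + 1 + 1 by omega),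
            mm_lt kB (show 6 * b + 1 + 1 + 1 < 6 * b + 1 + 1 + 1 + 1 + 1 by omega),
            k0, k1, k2, k3, k4, k5]
          push_cast; norm_num; ring
        · rw [show 6 * b + 4 = 6 * b + 1 + 1 + 1 + 1 by ring,
            mm_gt kB (show 6 * b < 6 * b + 1 + 1 + 1 + 1 by omega),
            mm_gt kB (show 6 * b + 1 < 6 * b + 1 + 1 + 1 + 1 by omega),
            mm_gt kB (show 6 * b + 1 + 1 < 6 * b + 1 + 1 + 1 + 1 by omega),
            mm_gt kB (show 6 * b + 1 + 1 + 1 < 6 * b + 1 + 1 + 1 + 1 by omega), mm_self,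
            mm_lt kB (show 6 * b + 1 + 1 + 1 + 1 < 6 * b + 1 + 1 + 1 + 1 + 1 by omega),
            k0, k1, k2, k3, k4, k5]
          push_cast; norm_num; ring
        · rw [show 6 * b + 5 = 6 * b + 1 + 1 + 1 + 1 + 1 by ring,
            mm_gt kB (show 6 * b < 6 * b + 1 + 1 + 1 + 1 + 1 by omega),
            mm_gt kB (show 6 * b + 1 < 6 * b + 1 + 1 + 1 + 1 + 1 by omega),
            mm_gt kB (show 6 * b + 1 + 1 < 6 * b + 1 + 1 + 1 + 1 + 1 by omega),
            mm_gt kB (show 6 * b + 1 + 1 + 1 < 6 * b + 1 + 1 + 1 + 1 + 1 by omega),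
            mm_gt kB (show 6 * b + 1 + 1 + 1 + 1 < 6 * b + 1 + 1 + 1 + 1 + 1 by omega), mm_self,
            k0, k1, k2, k3, k4, k5]
          push_cast; norm_num; ring
      · rw [if_neg (by omega)]
        rw [mm_gt kB (show 6 * b < i by omega), mm_gt kB (show 6 * b + 1 < i by omega),
          mm_gt kB (show 6 * b + 1 + 1 < i by omega), mm_gt kB (show 6 * b + 1 + 1 + 1 < i by omega),
          mm_gt kB (show 6 * b + 1 + 1 + 1 + 1 < i by omega),
          mm_gt kB (show 6 * b + 1 + 1 + 1 + 1 + 1 < i by omega), k0, k1, k2, k3, k4, k5]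
        have hk := kB_le i
        generalize kB i = k at hk
        push_cast
        interval_cases k <;> norm_num <;> ring


theorem rowA (a i : ℕ) (hi : i < 6 * a + 2) : 2 * ∑ j ∈ range (6 * a + 2), mm kA i j =
    5 * ((6 * a + 2 : ℕ) - 1 : ℤ) - 1 + 2 * (i % 2 : ℕ) := by
  rw [show 6 * a + 2 = 6 * a + 1 + 1 by ring]
  iterate 2 rw [sum_range_succ]
  rw [blockA]
  have k0 : kA (6 * a) = 0 := by unfold kA; omega
  have k1 : kA (6 * a + 1) = 3 := by unfold kA; omega
  rcases lt_or_ge i (6 * a) with h | h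
  · rw [if_pos h, mm_lt kA (show i < 6 * a by omega), mm_lt kA (show i < 6 * a + 1 by omega),
      k0, k1]
    obtain ⟨b, u, hu, rfl⟩ : ∃ b u, u < 6 ∧ i = 6 * b + u := ⟨i / 6, i % 6, by omega, by omega⟩
    rw [show (6 * b + u) % 6 = u by omega]
    interval_cases u
    · rw [show kA (6 * b + 0) = 0 by unfold kA; omega, show (6 * b + 0) % 2 = 0 by omega]
      push_cast; norm_num; ring
    · rw [show kA (6 * b + 1) = 3 by unfold kA; omega, show (6 * b + 1) % 2 = 1 by omega]
      push_cast; norm_num; ring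
    · rw [show kA (6 * b + 2) = 2 by unfold kA; omega, show (6 * b + 2) % 2 = 0 by omega]
      push_cast; norm_num; ring
    · rw [show kA (6 * b + 3) = 5 by unfold kA; omega, show (6 * b + 3) % 2 = 1 by omega]
      push_cast; norm_num; ring
    · rw [show kA (6 * b + 4) = 1 by unfold kA; omega, show (6 * b + 4) % 2 = 0 by omega]
      push_cast; norm_num; ring
    · rw [show kA (6 * b + 5) = 4 by unfold kA; omega, show (6 * b + 5) % 2 = 1 by omega]
      push_cast; norm_num; ring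
  · rw [if_neg (by omega)]
    obtain rfl | rfl : i = 6 * a ∨ i = 6 * a + 1 := by omega
    · rw [mm_self, mm_lt kA (show 6 * a < 6 * a + 1 by omega), k0, k1,
        show (6 * a) % 2 = 0 by omega]
      push_cast; norm_num; ring
    · rw [mm_self, mm_gt kA (show 6 * a < 6 * a + 1 by omega), k0, k1,
        show (6 * a + 1) % 2 = 1 by omega]
      push_cast; norm_num; ring

theorem rowB (a i : ℕ) (hi : i < 6 * a + 4) : 2 * ∑ j ∈ range (6 * a + 4), mm kB i j =
    5 * ((6 * a + 4 : ℕ) - 1 : ℤ) - 1 + 2 * (i % 2 : ℕ) := by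
  rw [show 6 * a + 4 = 6 * a + 1 + 1 + 1 + 1 by ring]
  iterate 4 rw [sum_range_succ]
  rw [blockB]
  have k0 : kB (6 * a) = 0 := by unfold kB; omega
  have k1 : kB (6 * a + 1) = 3 := by unfold kB; omega
  have k2 : kB (6 * a + 1 + 1) = 1 := by unfold kB; omega
  have k3 : kB (6 * a + 1 + 1 + 1) = 4 := by unfold kB; omega
  rcases lt_or_ge i (6 * a) with h | h
  · rw [if_pos h, mm_lt kB (show i < 6 * a by omega), mm_lt kB (show i < 6 * a + 1 by omega),
      mm_lt kB (show i < 6 * a + 1 + 1 by omega), mm_lt kB (show i < 6 * a + 1 + 1 + 1 by omega),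
      k0, k1, k2, k3]
    obtain ⟨b, u, hu, rfl⟩ : ∃ b u, u < 6 ∧ i = 6 * b + u := ⟨i / 6, i % 6, by omega, by omega⟩
    rw [show (6 * b + u) % 6 = u by omega]
    interval_cases u
    · rw [show kB (6 * b + 0) = 0 by unfold kB; omega, show (6 * b + 0) % 2 = 0 by omega]
      push_cast; norm_num; ring
    · rw [show kB (6 * b + 1) = 3 by unfold kB; omega, show (6 * b + 1) % 2 = 1 by omega]
      push_cast; norm_num; ring
    · rw [show kB (6 * b + 2) = 1 by unfold kB; omega, show (6 * b + 2) % 2 = 0 by omega]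
      push_cast; norm_num; ring
    · rw [show kB (6 * b + 3) = 4 by unfold kB; omega, show (6 * b + 3) % 2 = 1 by omega]
      push_cast; norm_num; ring
    · rw [show kB (6 * b + 4) = 2 by unfold kB; omega, show (6 * b + 4) % 2 = 0 by omega]
      push_cast; norm_num; ring
    · rw [show kB (6 * b + 5) = 5 by unfold kB; omega, show (6 * b + 5) % 2 = 1 by omega]
      push_cast; norm_num; ring
  · rw [if_neg (by omega)]
    obtain rfl | rfl | rfl | rfl : i = 6 * a ∨ i = 6 * a + 1 ∨ i = 6 * a + 1 + 1 ∨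
      i = 6 * a + 1 + 1 + 1 := by omega
    · rw [mm_self, mm_lt kB (show 6 * a < 6 * a + 1 by omega),
        mm_lt kB (show 6 * a < 6 * a + 1 + 1 by omega),
        mm_lt kB (show 6 * a < 6 * a + 1 + 1 + 1 by omega), k0, k1, k2, k3,
        show (6 * a) % 2 = 0 by omega]
      push_cast; norm_num; ring
    · rw [mm_self, mm_gt kB (show 6 * a < 6 * a + 1 by omega),
        mm_lt kB (show 6 * a + 1 < 6 * a + 1 + 1 by omega),
        mm_lt kB (show 6 * a + 1 < 6 * a + 1 + 1 + 1 by omega), k0, k1, k2, k3,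
        show (6 * a + 1) % 2 = 1 by omega]
      push_cast; norm_num; ring
    · rw [mm_self, mm_gt kB (show 6 * a < 6 * a + 1 + 1 by omega),
        mm_gt kB (show 6 * a + 1 < 6 * a + 1 + 1 by omega),
        mm_lt kB (show 6 * a + 1 + 1 < 6 * a + 1 + 1 + 1 by omega), k0, k1, k2, k3,
        show (6 * a + 1 + 1) % 2 = 0 by omega]
      push_cast; norm_num; ring
    · rw [mm_self, mm_gt kB (show 6 * a < 6 * a + 1 + 1 + 1 by omega),
        mm_gt kB (show 6 * a + 1 < 6 * a + 1 + 1 + 1 by omega),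
        mm_gt kB (show 6 * a + 1 + 1 < 6 * a + 1 + 1 + 1 by omega), k0, k1, k2, k3,
        show (6 * a + 1 + 1 + 1) % 2 = 1 by omega]
      push_cast; norm_num; ring

theorem sum_pairs {M : Type*} [AddCommMonoid M] (f : ℕ → M) (m : ℕ) :
    ∑ i ∈ range (2 * m), f i = ∑ q ∈ range m, (f (2 * q) + f (2 * q + 1)) := by
  induction m with
  | zero => simp
  | succ m ih =>
    rw [show 2 * (m + 1) = 2 * m + 1 + 1 by ring, sum_range_succ, sum_range_succ, ih,
      sum_range_succ, add_assoc]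

/-- the partner of an index -/
def sg (i : ℕ) : ℕ := if i % 2 = 0 then i + 1 else i - 1

theorem telesc (m : ℕ) (X : ℕ → ℝ) (hX : ∀ i j, i ≤ j → j < 2 * m → X i ≤ X j) :
    ∀ k, 0 < k → k ≤ m → ∑ q ∈ range k, (X (2 * q + 1) - X (2 * q)) ≤ X (2 * k - 1) - X 0 := by
  intro k
  induction k with
  | zero => intro h; exact absurd h (lt_irrefl 0)
  | succ k ih =>
    intro _ hk
    rw [sum_range_succ]
    rcases Nat.eq_zero_or_pos k with rfl | hk0
    · simp
    · have h1 := ih hk0 (by omega)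
      have h2 := hX (2 * k - 1) (2 * k) (by omega) (by omega)
      rw [show 2 * (k + 1) - 1 = 2 * k + 1 by omega]
      linarith

theorem core (m : ℕ) (c : ℕ → ℤ) (X : ℕ → ℝ) (hc : ∀ i, c i = 0 ∨ c i = 1)
    (hX : ∀ i j, i ≤ j → j < 2 * m → X i ≤ X j)
    (hX1 : ∀ i j, i < 2 * m → j < 2 * m → X j - X i ≤ 1) (e : ℤ)
    (he : e % 2 = (∑ i ∈ range (2 * m), c i) % 2) :
    0 ≤ ∑ i ∈ range (2 * m), ∑ j ∈ range (2 * m),
        (c i : ℝ) * (1 - c j) * (X i - X j + if i < j then 1 else 0)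
      + 1 / 2 * ∑ i ∈ range (2 * m), (c i : ℝ) * (2 * (i % 2 : ℕ) - 1) + 3 / 2 * (e : ℝ) ^ 2 := by
  have hcr : ∀ i, (c i : ℝ) = 0 ∨ (c i : ℝ) = 1 := by
    intro i
    rcases hc i with h | h
    · left; rw [h]; norm_num
    · right; rw [h]; norm_num
  -- the terms are nonnegative
  have hnn : ∀ i ∈ range (2 * m), ∀ j ∈ range (2 * m),
      0 ≤ (c i : ℝ) * (1 - c j) * (X i - X j + if i < j then 1 else 0) := by
    intro i hi j hj
    rw [mem_range] at hi hj
    rcases hcr i with h | h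
    · rw [h]; simp
    rcases hcr j with h' | h'
    swap
    · rw [h']; simp
    rw [h, h']
    rcases lt_or_ge i j with h2 | h2
    · rw [if_pos h2]
      have := hX1 i j hi hj
      linarith
    · rw [if_neg h2.not_gt]
      have := hX j i h2 hi
      linarith
  have hsd : ∑ i ∈ range (2 * m),
      (c i : ℝ) * (1 - c (sg i)) * (X i - X (sg i) + if i < sg i then 1 else 0) ≤
      ∑ i ∈ range (2 * m), ∑ j ∈ range (2 * m),
        (c i : ℝ) * (1 - c j) * (X i - X j + if i < j then 1 else 0) := by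
    refine sum_le_sum fun i hi => ?_
    refine single_le_sum (f := fun j => (c i : ℝ) * (1 - c j) * (X i - X j + if i < j then 1 else 0))
      (fun j hj => hnn i hi j hj) ?_
    rw [mem_range] at hi ⊢
    unfold sg
    split_ifs <;> omega
  rw [sum_pairs] at hsd
  rw [sum_pairs (fun i => (c i : ℝ) * (2 * (i % 2 : ℕ) - 1))]
  set SD := ∑ i ∈ range (2 * m), ∑ j ∈ range (2 * m),
        (c i : ℝ) * (1 - c j) * (X i - X j + if i < j then 1 else 0) with hSD
  -- per pair
  have hpair : ∀ q ∈ range m, (((c (2 * q) + c (2 * q + 1) - 2 * (c (2 * q) * c (2 * q + 1)) : ℤ)) : ℝ)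
        * (1 / 2 - (X (2 * q + 1) - X (2 * q))) ≤
      ((c (2 * q) : ℝ) * (1 - c (sg (2 * q))) *
          (X (2 * q) - X (sg (2 * q)) + if 2 * q < sg (2 * q) then 1 else 0) +
        (c (2 * q + 1) : ℝ) * (1 - c (sg (2 * q + 1))) *
          (X (2 * q + 1) - X (sg (2 * q + 1)) + if 2 * q + 1 < sg (2 * q + 1) then 1 else 0)) +
      1 / 2 * ((c (2 * q) : ℝ) * (2 * ((2 * q) % 2 : ℕ) - 1) +
        (c (2 * q + 1) : ℝ) * (2 * ((2 * q + 1) % 2 : ℕ) - 1)) := by
    intro q hq
    rw [mem_range] at hq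
    have e1 : sg (2 * q) = 2 * q + 1 := by unfold sg; rw [if_pos (by omega)]
    have e2 : sg (2 * q + 1) = 2 * q := by unfold sg; rw [if_neg (by omega)]; omega
    rw [e1, e2, if_pos (by omega), if_neg (by omega), show (2 * q) % 2 = 0 by omega,
      show (2 * q + 1) % 2 = 1 by omega]
    have hd := hX (2 * q) (2 * q + 1) (by omega) (by omega)
    rcases hc (2 * q) with h | h <;> rcases hc (2 * q + 1) with h' | h' <;> rw [h, h'] <;>
      push_cast <;> linarith
  have hsum := sum_le_sum hpair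
  rw [sum_add_distrib, ← mul_sum] at hsum
  -- number of split pairs
  set s : ℕ → ℤ := fun q => c (2 * q) + c (2 * q + 1) - 2 * (c (2 * q) * c (2 * q + 1)) with hs
  have hs01 : ∀ q, s q = 0 ∨ s q = 1 := by
    intro q
    simp only [hs]
    rcases hc (2 * q) with h | h <;> rcases hc (2 * q + 1) with h' | h' <;> rw [h, h'] <;> norm_num
  have hS : ∑ q ∈ range m, s q = ∑ i ∈ range (2 * m), c i -
      2 * ∑ q ∈ range m, c (2 * q) * c (2 * q + 1) := by
    rw [sum_pairs c, mul_sum, ← sum_sub_distrib]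
  have hsnn : ∀ q ∈ range m, 0 ≤ s q := by
    intro q _
    rcases hs01 q with h | h <;> rw [h] <;> norm_num
  have hS0 : 0 ≤ ∑ q ∈ range m, s q := sum_nonneg hsnn
  have hmain : ∑ q ∈ range m, (s q : ℝ) * (1 / 2 - (X (2 * q + 1) - X (2 * q))) ≤
      SD + 1 / 2 * ∑ q ∈ range m, ((c (2 * q) : ℝ) * (2 * ((2 * q) % 2 : ℕ) - 1) +
        (c (2 * q + 1) : ℝ) * (2 * ((2 * q + 1) % 2 : ℕ) - 1)) := by
    refine hsum.trans ?_
    linarith
  refine le_trans ?_ (add_le_add_left hmain _)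
  have hesq : 0 ≤ (e : ℝ) ^ 2 := sq_nonneg _
  rcases hS0.eq_or_lt with h0 | h0
  · have hz : ∀ q ∈ range m, s q = 0 := (sum_eq_zero_iff_of_nonneg hsnn).1 h0.symm
    have : ∑ q ∈ range m, (s q : ℝ) * (1 / 2 - (X (2 * q + 1) - X (2 * q))) = 0 := by
      refine sum_eq_zero fun q hq => ?_
      rw [hz q hq]; simp
    rw [this]
    linarith
  · have hm0 : 0 < m := by
      rcases Nat.eq_zero_or_pos m with h | h
      · rw [h] at h0; simp at h0
      · exact h
    have hd1 : ∑ q ∈ range m, (X (2 * q + 1) - X (2 * q)) ≤ 1 := by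
      refine (telesc m X hX m hm0 le_rfl).trans (hX1 _ _ ?_ ?_)
      · omega
      · omega
    have hge : (∑ q ∈ range m, s q : ℤ) / 2 - (1 : ℝ) ≤
        ∑ q ∈ range m, (s q : ℝ) * (1 / 2 - (X (2 * q + 1) - X (2 * q))) := by
      have h1 : ∑ q ∈ range m, (s q : ℝ) * (1 / 2 - (X (2 * q + 1) - X (2 * q))) =
          (∑ q ∈ range m, s q : ℤ) / 2 - ∑ q ∈ range m, (s q : ℝ) * (X (2 * q + 1) - X (2 * q)) := by
        push_cast
        rw [sum_div, ← sum_sub_distrib]
        refine sum_congr rfl fun q _ => ?_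
        ring
      rw [h1]
      have h2 : ∑ q ∈ range m, (s q : ℝ) * (X (2 * q + 1) - X (2 * q)) ≤
          ∑ q ∈ range m, (X (2 * q + 1) - X (2 * q)) := by
        refine sum_le_sum fun q hq => ?_
        rw [mem_range] at hq
        have hd := hX (2 * q) (2 * q + 1) (by omega) (by omega)
        rcases hs01 q with h | h <;> rw [h]
        · simp; linarith
        · simp
      linarith
    refine le_trans ?_ (add_le_add_left hge _)
    rcases lt_or_ge (∑ q ∈ range m, s q) 2 with h2 | h2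
    · have h1 : ∑ q ∈ range m, s q = 1 := by omega
      have he1 : e % 2 = 1 := by
        rw [he]; omega
      have he2 : (1 : ℤ) ≤ e ^ 2 := by
        have : e ≠ 0 := by rintro rfl; simp at he1
        have := sq_pos_of_ne_zero this
        omega
      have he3 : (1 : ℝ) ≤ (e : ℝ) ^ 2 := by exact_mod_cast he2
      rw [h1]
      push_cast
      linarith
    · have h3 : (2 : ℝ) ≤ ((∑ q ∈ range m, s q : ℤ) : ℝ) := by exact_mod_cast h2
      linarith

theorem mmsum (n : ℕ) (K : ℕ → ℕ) (c : ℕ → ℤ) (hc : ∀ i, c i = 0 ∨ c i = 1)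
    (hrow : ∀ i < n, 2 * ∑ j ∈ range n, mm K i j = 5 * ((n : ℕ) - 1 : ℤ) - 1 + 2 * (i % 2 : ℕ)) :
    2 * ∑ i ∈ range n, ∑ j ∈ range n, c i * (1 - c j) * mm K i j =
      5 * (∑ i ∈ range n, c i) * (n - ∑ i ∈ range n, c i)
        + ∑ i ∈ range n, c i * (2 * (i % 2 : ℕ) - 1) := by
  have hsq : ∀ i, c i * c i = c i := by
    intro i
    rcases hc i with h | h <;> rw [h] <;> norm_num
  have hB : 2 * ∑ i ∈ range n, ∑ j ∈ range n, c i * c j * mm K i j =
      5 * ((∑ i ∈ range n, c i) * (∑ i ∈ range n, c i) - ∑ i ∈ range n, c i) := by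
    have h1 : ∑ i ∈ range n, ∑ j ∈ range n, c i * c j * mm K i j =
        ∑ i ∈ range n, ∑ j ∈ range n, c i * c j * mm K j i := by
      rw [sum_comm]
      refine sum_congr rfl fun i _ => sum_congr rfl fun j _ => ?_
      ring
    rw [two_mul]
    nth_rewrite 2 [h1]
    rw [← sum_add_distrib]
    have h2 : ∀ i ∈ range n, ∑ j ∈ range n, c i * c j * mm K i j +
        ∑ j ∈ range n, c i * c j * mm K j i = 5 * (c i * (∑ j ∈ range n, c j) - c i) := by
      intro i hi
      rw [← sum_add_distrib]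
      have h3 : ∀ j ∈ range n, c i * c j * mm K i j + c i * c j * mm K j i =
          5 * (c i * c j) - if i = j then 5 * (c i * c j) else 0 := by
        intro j _
        rw [← mul_add, mm_add]
        split_ifs <;> ring
      rw [sum_congr rfl h3, sum_sub_distrib, sum_ite_eq, if_pos hi, hsq, ← mul_sum, ← mul_sum]
      ring
    rw [sum_congr rfl h2, ← mul_sum, sum_sub_distrib, ← sum_mul]
  have hA : 2 * ∑ i ∈ range n, ∑ j ∈ range n, c i * mm K i j =
      ∑ i ∈ range n, c i * (5 * ((n : ℕ) - 1 : ℤ) - 1 + 2 * (i % 2 : ℕ)) := by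
    rw [mul_sum]
    refine sum_congr rfl fun i hi => ?_
    rw [← hrow i (mem_range.1 hi), ← mul_sum]
    ring
  have hAB : ∑ i ∈ range n, ∑ j ∈ range n, c i * (1 - c j) * mm K i j =
      ∑ i ∈ range n, ∑ j ∈ range n, c i * mm K i j -
        ∑ i ∈ range n, ∑ j ∈ range n, c i * c j * mm K i j := by
    rw [← sum_sub_distrib]
    refine sum_congr rfl fun i _ => ?_
    rw [← sum_sub_distrib]
    refine sum_congr rfl fun j _ => ?_
    ring
  have hA2 : ∑ i ∈ range n, c i * (5 * ((n : ℕ) - 1 : ℤ) - 1 + 2 * (i % 2 : ℕ)) =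
      5 * ((n : ℕ) - 1 : ℤ) * ∑ i ∈ range n, c i + ∑ i ∈ range n, c i * (2 * (i % 2 : ℕ) - 1) := by
    rw [mul_sum, ← sum_add_distrib]
    refine sum_congr rfl fun i _ => ?_
    ring
  rw [hAB, mul_sub, hA, hB, hA2]
  ring

/-- integer inequality for `n ≡ 2` -/
theorem int2 (w : Fin 3 → ℕ) : (0 : ℝ) ≤ (w 0 : ℝ) ^ 2 + (w 1 : ℝ) ^ 2 + (w 2 : ℝ) ^ 2 -
    ((w 0 : ℝ) * w 1 + w 1 * w 2 + w 2 * w 0) + (w 0 - w 1) := by
  have h : (0 : ℤ) ≤ (w 0 : ℤ) ^ 2 + (w 1 : ℤ) ^ 2 + (w 2 : ℤ) ^ 2 -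
      ((w 0 : ℤ) * w 1 + w 1 * w 2 + w 2 * w 0) + (w 0 - w 1) := by
    generalize (w 0 : ℤ) = a
    generalize (w 1 : ℤ) = b
    generalize (w 2 : ℤ) = d
    have h1 : 2 * (a ^ 2 + b ^ 2 + d ^ 2 - (a * b + b * d + d * a) + (a - b)) + 1 =
        (d - a) ^ 2 + (b - a - 1) ^ 2 + (d - b) ^ 2 := by ring
    have h2 := sq_nonneg (d - a)
    have h3 := sq_nonneg (b - a - 1)
    have h4 := sq_nonneg (d - b)
    omega
  exact_mod_cast h

/-- integer inequality for `n ≡ 4` -/
theorem int4 (w : Fin 3 → ℕ) : (0 : ℝ) ≤ (w 0 : ℝ) ^ 2 + (w 1 : ℝ) ^ 2 + (w 2 : ℝ) ^ 2 -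
    ((w 0 : ℝ) * w 1 + w 1 * w 2 + w 2 * w 0) + (w 2 - w 1) := by
  have h : (0 : ℤ) ≤ (w 0 : ℤ) ^ 2 + (w 1 : ℤ) ^ 2 + (w 2 : ℤ) ^ 2 -
      ((w 0 : ℤ) * w 1 + w 1 * w 2 + w 2 * w 0) + (w 2 - w 1) := by
    generalize (w 0 : ℤ) = a
    generalize (w 1 : ℤ) = b
    generalize (w 2 : ℤ) = d
    have h1 : 2 * (a ^ 2 + b ^ 2 + d ^ 2 - (a * b + b * d + d * a) + (d - b)) + 1 =
        (d - a) ^ 2 + (b - a) ^ 2 + (d - b + 1) ^ 2 := by ring
    have h2 := sq_nonneg (d - a)
    have h3 := sq_nonneg (b - a)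
    have h4 := sq_nonneg (d - b + 1)
    omega
  exact_mod_cast h

/-- indicator of `W`, extended to `ℕ` -/
def ind {n : ℕ} (W : Finset (Fin n)) (i : ℕ) : ℤ :=
  if h : i < n then (if (⟨i, h⟩ : Fin n) ∈ W then 1 else 0) else 0

theorem ind_val {n : ℕ} (W : Finset (Fin n)) (i : Fin n) : ind W i = if i ∈ W then 1 else 0 := by
  unfold ind
  rw [dif_pos i.2]

theorem ind01 {n : ℕ} (W : Finset (Fin n)) (i : ℕ) : ind W i = 0 ∨ ind W i = 1 := by
  unfold ind
  split_ifs <;> simp

theorem sum_ind {n : ℕ} (W : Finset (Fin n)) : ∑ i ∈ range n, ind W i = #W := by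
  rw [← Fin.sum_univ_eq_sum_range]
  simp_rw [ind_val]
  rw [sum_ite_mem, univ_inter, sum_const]
  simp

/-- extension of `x` to `ℕ` -/
noncomputable def ext {n : ℕ} (x : Fin n → ℝ) (i : ℕ) : ℝ := if h : i < n then x ⟨i, h⟩ else 0

theorem ext_val {n : ℕ} (x : Fin n → ℝ) (i : Fin n) : ext x i = x i := by
  unfold ext
  rw [dif_pos i.2]

theorem SE_eq (n : ℕ) (K : ℕ → ℕ) (x : Fin n → ℝ) (hx : AlcO n x) (hK : ∀ i, kap n i = K i)
    (W : Finset (Fin n)) :
    6 * SE (tht n x) W = ∑ i ∈ range n, ∑ j ∈ range n,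
        (ind W i : ℝ) * (1 - ind W j) * (ext x i - ext x j + if i < j then 1 else 0)
      + ((∑ i ∈ range n, ∑ j ∈ range n, ind W i * (1 - ind W j) * mm K i j : ℤ) : ℝ) := by
  obtain ⟨hmono, hlt, hsum, hstrict⟩ := hx
  have hthlt : ∀ i j : Fin n, tht n x i < tht n x j ↔
      (K i < K j ∨ (K i = K j ∧ (i : ℕ) < j)) := by
    intro i j
    unfold tht
    have hpi : 0 < π / 3 := by positivity
    rw [mul_lt_mul_iff_right₀ hpi, hK, hK]
    have h1 := hlt i j
    have h2 := hlt j i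
    rcases lt_trichotomy (K i) (K j) with h | h | h
    · simp only [h, true_or, iff_true]
      have : (K i : ℝ) + 1 ≤ K j := by exact_mod_cast h
      linarith
    · simp only [h, lt_irrefl, false_or, true_and]
      constructor
      · intro h3
        by_contra h4
        have h5 : j ≤ i := by
          rw [Fin.le_def]; omega
        have := hmono h5
        linarith
      · intro h3
        have := hstrict i j (by rw [Fin.lt_def]; exact h3) (by rw [hK, hK, h])
        linarith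
    · simp only [h.not_gt, h.ne', false_and, or_false, iff_false, not_lt]
      have : (K j : ℝ) + 1 ≤ K i := by exact_mod_cast h
      linarith
  have hterm : ∀ i j : Fin n, i ≠ j →
      6 * ((tht n x i - tht n x j) / (2 * π) + if tht n x i < tht n x j then 1 else 0) =
      (ext x i - ext x j + if (i : ℕ) < j then 1 else 0) + ((mm K i j : ℤ) : ℝ) := by
    intro i j hij
    have hij' : (i : ℕ) ≠ j := fun h => hij (Fin.ext h)
    have h1 : (tht n x i - tht n x j) / (2 * π) = (x i - x j + K i - K j) / 6 := by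
      unfold tht
      rw [hK, hK]
      have := Real.pi_pos.ne'
      field_simp
      ring
    rw [h1, ext_val, ext_val]
    unfold mm
    rw [if_neg hij']
    have h2 : (if tht n x i < tht n x j then (1 : ℝ) else 0) =
        if K i < K j ∨ (K i = K j ∧ (i : ℕ) < j) then 1 else 0 := by
      simp only [hthlt i j]
    rw [h2]
    push_cast
    split_ifs <;> ring
  have hE : 6 * SE (tht n x) W = ∑ i : Fin n, ∑ j : Fin n,
      (ind W i : ℝ) * (1 - ind W j) *
        ((ext x i - ext x j + if (i : ℕ) < j then 1 else 0) + ((mm K i j : ℤ) : ℝ)) := by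
    unfold SE
    rw [mul_sum]
    have h1 : ∀ i ∈ W, 6 * ∑ j ∈ Wᶜ, ((tht n x i - tht n x j) / (2 * π) +
        if tht n x i < tht n x j then (1 : ℝ) else 0) =
        ∑ j : Fin n, (1 - (ind W j : ℝ)) *
        ((ext x i - ext x j + if (i : ℕ) < j then 1 else 0) + ((mm K i j : ℤ) : ℝ)) := by
      intro i hi
      rw [mul_sum]
      have h2 : ∀ j ∈ Wᶜ, 6 * ((tht n x i - tht n x j) / (2 * π) +
        if tht n x i < tht n x j then (1 : ℝ) else 0) = (1 - (ind W j : ℝ)) *
        ((ext x i - ext x j + if (i : ℕ) < j then 1 else 0) + ((mm K i j : ℤ) : ℝ)) := by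
        intro j hj
        rw [mem_compl] at hj
        rw [hterm i j (fun h => hj (h ▸ hi)), ind_val, if_neg hj]
        simp
      rw [sum_congr rfl h2]
      refine sum_subset (subset_univ _) fun j _ hj => ?_
      rw [mem_compl, not_not] at hj
      rw [ind_val, if_pos hj]
      simp
    rw [sum_congr rfl h1]
    have h3 : ∀ i ∈ W, ∑ j : Fin n, (1 - (ind W j : ℝ)) *
        ((ext x i - ext x j + if (i : ℕ) < j then 1 else 0) + ((mm K i j : ℤ) : ℝ)) =
        ∑ j : Fin n, (ind W i : ℝ) * (1 - ind W j) *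
        ((ext x i - ext x j + if (i : ℕ) < j then 1 else 0) + ((mm K i j : ℤ) : ℝ)) := by
      intro i hi
      refine sum_congr rfl fun j _ => ?_
      rw [ind_val W i, if_pos hi]
      push_cast
      ring
    rw [sum_congr rfl h3]
    refine sum_subset (subset_univ _) fun i _ hi => ?_
    refine sum_eq_zero fun j _ => ?_
    rw [ind_val W i, if_neg hi]
    simp
  rw [hE]
  have h4 : ∀ i : Fin n, ∑ j : Fin n, (ind W i : ℝ) * (1 - ind W j) *
        ((ext x i - ext x j + if (i : ℕ) < j then 1 else 0) + ((mm K i j : ℤ) : ℝ)) =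
      ∑ j ∈ range n, (ind W i : ℝ) * (1 - ind W j) *
        ((ext x i - ext x j + if (i : ℕ) < j then 1 else 0) + ((mm K i j : ℤ) : ℝ)) := by
    intro i
    exact Fin.sum_univ_eq_sum_range (fun j : ℕ => (ind W i : ℝ) * (1 - ind W j) *
        ((ext x i - ext x j + if (i : ℕ) < j then 1 else 0) + ((mm K i j : ℤ) : ℝ))) n
  rw [sum_congr rfl fun i _ => h4 i]
  rw [Fin.sum_univ_eq_sum_range (fun i : ℕ => ∑ j ∈ range n, (ind W i : ℝ) * (1 - ind W j) *
        ((ext x i - ext x j + if i < j then 1 else 0) + ((mm K i j : ℤ) : ℝ))) n]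
  push_cast
  rw [← sum_add_distrib]
  refine sum_congr rfl fun i _ => ?_
  rw [← sum_add_distrib]
  refine sum_congr rfl fun j _ => ?_
  ring

/-- the lower bound of the spectral part -/
theorem SE_ge (n : ℕ) (hn : Even n) (K : ℕ → ℕ) (x : Fin n → ℝ) (hx : AlcO n x)
    (hK : ∀ i, kap n i = K i)
    (hrow : ∀ i < n, 2 * ∑ j ∈ range n, mm K i j = 5 * ((n : ℕ) - 1 : ℤ) - 1 + 2 * (i % 2 : ℕ))
    (W : Finset (Fin n)) (m : ℕ) :
    5 / 2 * (#W * (n - #W : ℝ)) ≤ 6 * SE (tht n x) W + 3 / 2 * ((#W : ℝ) - 2 * m) ^ 2 := by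
  rw [SE_eq n K x hx hK W]
  have h1 := mmsum n K (ind W) (ind01 W) hrow
  rw [sum_ind] at h1
  obtain ⟨hmono, hlt, hsum, hstrict⟩ := hx
  obtain ⟨M, rfl⟩ := hn.two_dvd
  have h2 := core M (ind W) (ext x) (ind01 W) (by
      intro i j hij hj
      unfold ext
      rw [dif_pos hj, dif_pos (lt_of_le_of_lt hij hj)]
      exact hmono (by rw [Fin.le_def]; exact hij)) (by
      intro i j hi hj
      unfold ext
      rw [dif_pos hj, dif_pos hi]
      exact (hlt _ _).le) ((#W : ℤ) - 2 * m) (by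
      rw [sum_ind]; omega)
  have h3 : ((2 * ∑ i ∈ range (2 * M), ∑ j ∈ range (2 * M),
      ind W i * (1 - ind W j) * mm K i j : ℤ) : ℝ) = ((5 * (#W : ℤ) * ((2 * M : ℕ) - (#W : ℤ))
        + ∑ i ∈ range (2 * M), ind W i * (2 * (i % 2 : ℕ) - 1) : ℤ) : ℝ) := by
    rw [h1]
  simp only [Int.cast_sum, Int.cast_mul, Int.cast_sub, Int.cast_add, Int.cast_natCast,
    Int.cast_ofNat, Int.cast_one] at h2 h3 ⊢
  linarith

end C24

theorem comb24 (n : ℕ) (hn : Even n) (h3 : ¬ 3 ∣ n) (x : Fin n → ℝ) (hx : AlcO n x)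
    (W : Finset (Fin n)) (m : ℕ) (w : Fin 3 → ℕ) (hm : m ≤ #W) (hw : ∑ k, w k = #W) :
    0 ≤ SE (tht n x) W + Num n (n / 2) (cc n) #W m w := by
  have hn2 : ((n / 2 : ℕ) : ℝ) = n / 2 := by
    obtain ⟨M, rfl⟩ := hn.two_dvd
    rw [Nat.mul_div_cancel_left _ (by norm_num)]
    push_cast
    ring
  have hwr : (w 0 : ℝ) + w 1 + w 2 = #W := by
    rw [← hw, Fin.sum_univ_three]
    push_cast
    ring
  have hmod : n % 6 = 2 ∨ n % 6 = 4 := by
    obtain ⟨M, rfl⟩ := hn.two_dvd
    omega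
  rcases hmod with h | h
  · have hK : ∀ i, kap n i = C24.kA i := by
      intro i
      unfold kap C24.kA
      rw [if_neg (by omega), if_pos h]
    have hrow : ∀ i < n, 2 * ∑ j ∈ range n, C24.mm C24.kA i j =
        5 * ((n : ℕ) - 1 : ℤ) - 1 + 2 * (i % 2 : ℕ) := by
      obtain ⟨a, rfl⟩ : ∃ a, n = 6 * a + 2 := ⟨n / 6, by omega⟩
      intro i hi
      exact C24.rowA a i hi
    have h1 := C24.SE_ge n hn C24.kA x hx hK hrow W m
    have h2 := C24.int2 w
    have hC0 : ((cc n 0 : ℕ) : ℝ) = (n - 2) / 3 := by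
      obtain ⟨a, rfl⟩ : ∃ a, n = 6 * a + 2 := ⟨n / 6, by omega⟩
      have : cc (6 * a + 2) 0 = 2 * a := by
        unfold cc
        rw [if_neg (by omega), if_pos (by omega), if_pos rfl]
        omega
      rw [this]; push_cast; ring
    have hC1 : ((cc n 1 : ℕ) : ℝ) = (n - 2) / 3 + 1 := by
      obtain ⟨a, rfl⟩ : ∃ a, n = 6 * a + 2 := ⟨n / 6, by omega⟩
      have : cc (6 * a + 2) 1 = 2 * a + 1 := by
        unfold cc
        rw [if_neg (by omega), if_pos (by omega), if_neg (by decide)]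
        omega
      rw [this]; push_cast; ring
    have hC2 : ((cc n 2 : ℕ) : ℝ) = (n - 2) / 3 + 1 := by
      obtain ⟨a, rfl⟩ : ∃ a, n = 6 * a + 2 := ⟨n / 6, by omega⟩
      have : cc (6 * a + 2) 2 = 2 * a + 1 := by
        unfold cc
        rw [if_neg (by omega), if_pos (by omega), if_neg (by decide)]
        omega
      rw [this]; push_cast; ring
    unfold Num
    rw [Fin.sum_univ_three, show (0 : Fin 3) - 1 = 2 by decide, show (0 : Fin 3) - 2 = 1 by decide,
      show (1 : Fin 3) - 1 = 0 by decide, show (1 : Fin 3) - 2 = 2 by decide,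
      show (2 : Fin 3) - 1 = 1 by decide, show (2 : Fin 3) - 2 = 0 by decide, hC0, hC1, hC2, hn2]
    rw [← hwr] at h1 ⊢
    nlinarith [h1, h2]
  · have hK : ∀ i, kap n i = C24.kB i := by
      intro i
      unfold kap C24.kB
      rw [if_neg (by omega), if_neg (by omega)]
    have hrow : ∀ i < n, 2 * ∑ j ∈ range n, C24.mm C24.kB i j =
        5 * ((n : ℕ) - 1 : ℤ) - 1 + 2 * (i % 2 : ℕ) := by
      obtain ⟨a, rfl⟩ : ∃ a, n = 6 * a + 4 := ⟨n / 6, by omega⟩
      intro i hi
      exact C24.rowB a i hi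
    have h1 := C24.SE_ge n hn C24.kB x hx hK hrow W m
    have h2 := C24.int4 w
    have hC0 : ((cc n 0 : ℕ) : ℝ) = (n - 1) / 3 := by
      obtain ⟨a, rfl⟩ : ∃ a, n = 6 * a + 4 := ⟨n / 6, by omega⟩
      have : cc (6 * a + 4) 0 = 2 * a + 1 := by
        unfold cc
        rw [if_neg (by omega), if_neg (by omega), if_neg (by decide)]
        omega
      rw [this]; push_cast; ring
    have hC1 : ((cc n 1 : ℕ) : ℝ) = (n - 1) / 3 + 1 := by
      obtain ⟨a, rfl⟩ : ∃ a, n = 6 * a + 4 := ⟨n / 6, by omega⟩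
      have : cc (6 * a + 4) 1 = 2 * a + 2 := by
        unfold cc
        rw [if_neg (by omega), if_neg (by omega), if_pos rfl]
        omega
      rw [this]; push_cast; ring
    have hC2 : ((cc n 2 : ℕ) : ℝ) = (n - 1) / 3 := by
      obtain ⟨a, rfl⟩ : ∃ a, n = 6 * a + 4 := ⟨n / 6, by omega⟩
      have : cc (6 * a + 4) 2 = 2 * a + 1 := by
        unfold cc
        rw [if_neg (by omega), if_neg (by omega), if_neg (by decide)]
        omega
      rw [this]; push_cast; ring
    unfold Num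
    rw [Fin.sum_univ_three, show (0 : Fin 3) - 1 = 2 by decide, show (0 : Fin 3) - 2 = 1 by decide,
      show (1 : Fin 3) - 1 = 0 by decide, show (1 : Fin 3) - 2 = 2 by decide,
      show (2 : Fin 3) - 1 = 1 by decide, show (2 : Fin 3) - 2 = 0 by decide, hC0, hC1, hC2, hn2]
    rw [← hwr] at h1 ⊢
    nlinarith [h1, h2]

end Pool.Agent.Lib.MP_88e1a1_al.Even
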