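import Pool.Agent.Lib.MP_88e1a1_al.Main

/-! # MP_88e1a1_al, even `n`: definitions

Unitary `s, t` with `s ^ 2 = 1`, `t ^ 3 = 1` and prescribed spectrum of `t * s`.
-/

set_option autoImplicit false

namespace Pool.Agent.Lib.MP_88e1a1_al.Even

open Finset Matrix
open scoped Real

/-- primitive cube root of unity -/
noncomputable def om : ℂ := Complex.exp (2 * π * Complex.I / 3)

section Defs

variable {ι : Type*} [Fintype ι] [DecidableEq ι]

/-- model of an involution -/
noncomputable def S0 (b : ι → Bool) : Matrix ι ι ℂ := diagonal fun i => if b i then -1 else 1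

/-- model of an element of order three -/
noncomputable def T0 (c : ι → Fin 3) : Matrix ι ι ℂ := diagonal fun i => om ^ (c i : ℕ)

/-- the diagonal unitary matrix with angles `θ` -/
noncomputable def Th (θ : ι → ℝ) : Matrix ι ι ℂ :=
  diagonal fun i => Complex.exp ((θ i : ℂ) * Complex.I)

/-- number of `-1`'s -/
def nb (b : ι → Bool) : ℕ := #{i | b i = true}

/-- number of indices of colour `k` -/
def nc (c : ι → Fin 3) (k : Fin 3) : ℕ := #{i | c i = k}

/-- the angles `θ` are attained: `t * s = Th θ` for an involution `s` and a `t` of order three, of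
the types given by `b` and `c` -/
def Att (b : ι → Bool) (c : ι → Fin 3) (θ : ι → ℝ) : Prop :=
  ∃ V ∈ unitaryGroup ι ℂ, ∃ U ∈ unitaryGroup ι ℂ,
    (U * T0 c * star U) * (V * S0 b * star V) = Th θ

/-- the function which is maximised -/
noncomputable def obj (b : ι → Bool) (c : ι → Fin 3) (θ : ι → ℝ) (V U : Matrix ι ι ℂ) : ℝ :=
  (trace ((U * T0 c * star U) * (V * S0 b * star V) * star (Th θ))).re

/-- `(V, U)` is a maximum of `obj` over the unitary group -/
def IsMx (b : ι → Bool) (c : ι → Fin 3) (θ : ι → ℝ) (V U : Matrix ι ι ℂ) : Prop :=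
  V ∈ unitaryGroup ι ℂ ∧ U ∈ unitaryGroup ι ℂ ∧
    ∀ V' ∈ unitaryGroup ι ℂ, ∀ U' ∈ unitaryGroup ι ℂ, obj b c θ V' U' ≤ obj b c θ V U

/-- the spectral part of the inequality: for angles in a window of length `2π` this is the sum
over `i ∈ W`, `j ∉ W` of `{(θ i - θ j) / 2π}` -/
noncomputable def SE (θ : ι → ℝ) (W : Finset ι) : ℝ :=
  ∑ i ∈ W, ∑ j ∈ Wᶜ, ((θ i - θ j) / (2 * π) + if θ i < θ j then 1 else 0)

end Defs

/-- the numerical part of the inequality. `N` = size, `B` = number of `-1`'s of `s`, `C k` =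
multiplicity of `om ^ k` in `t`; `r, m, w` the same for the sub-block. -/
noncomputable def Num (N B : ℕ) (C : Fin 3 → ℕ) (r m : ℕ) (w : Fin 3 → ℕ) : ℝ :=
  (((r : ℝ) - m) * ((B : ℝ) - m) + m * (((N : ℝ) - B) - (r - m))) / 2
    + ∑ k : Fin 3, (w k : ℝ) * (2 / 3 * ((C (k - 1) : ℝ) - w (k - 1))
        + 1 / 3 * ((C (k - 2) : ℝ) - w (k - 2)))
    - r * (N - r)

section Good

variable {ι : Type*} [Fintype ι] [DecidableEq ι]

/-- `θ` satisfies the (semi)stability inequalities -/
structure Good (b : ι → Bool) (c : ι → Fin 3) (θ : ι → ℝ) : Prop where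
  win : ∀ i j, θ i - θ j < 2 * π
  inj : Function.Injective θ
  pos : ∀ (W : Finset ι) (m : ℕ) (w : Fin 3 → ℕ) (δ : ℝ), W.Nonempty → Wᶜ.Nonempty →
    m ≤ #W → m ≤ nb b → #W - m ≤ Fintype.card ι - nb b → ∑ k, w k = #W →
    (∀ k, w k ≤ nc c k) → 0 < δ →
    Complex.exp (((∑ i ∈ W, θ i + 2 * π * δ : ℝ) : ℂ) * Complex.I)
      = (-1) ^ m * om ^ ((w 1 : ℕ) + 2 * w 2) →
    0 < SE θ W + Num (Fintype.card ι) (nb b) (nc c) #W m w + Fintype.card ι * δ

end Good

/-- angle in `(0, 2π]` attached to an eigenvalue of `t`, with `1 ↦ 2π` -/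
noncomputable def hang (k : Fin 3) : ℝ := if k = 0 then 2 * π else 2 * π * (k : ℕ) / 3

/-- the pattern of sextants: `n ≡ 0`: `i mod 6`; `n ≡ 2, 4 (mod 6)`: pairs of opposite sextants,
going backwards resp. forwards -/
def kap (n i : ℕ) : ℕ :=
  if n % 6 = 0 then i % 6
  else if n % 6 = 2 then (2 * (i / 2)) % 3 + 3 * (i % 2)
  else (i / 2) % 3 + 3 * (i % 2)

/-- target angles -/
noncomputable def tht (n : ℕ) (x : Fin n → ℝ) : Fin n → ℝ := fun i => π / 3 * (x i + kap n i)

/-- closed alcove -/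
def Alc (n : ℕ) (x : Fin n → ℝ) : Prop :=
  Monotone x ∧ (∀ i j, x j - x i ≤ 1) ∧ ∑ i, x i = 0

/-- partly open alcove: enough strictness to make the angles `tht n x` distinct -/
def AlcO (n : ℕ) (x : Fin n → ℝ) : Prop :=
  Monotone x ∧ (∀ i j, x j - x i < 1) ∧ ∑ i, x i = 0 ∧
    ∀ i j : Fin n, i < j → kap n i = kap n j → x i < x j

/-- multiplicities of `om ^ k` in `t` for the pattern `kap n` -/
def cc (n : ℕ) (k : Fin 3) : ℕ :=
  if n % 6 = 0 then n / 3
  else if n % 6 = 2 then (if k = 0 then n / 3 else n / 3 + 1)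
  else (if k = 1 then n / 3 + 1 else n / 3)

end Pool.Agent.Lib.MP_88e1a1_al.Even
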