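import Pool.Agent.Lib.MP_88e1a1_al.Even.Defs

/-! # MP_88e1a1_al, even `n`: the maximum of `obj` and its first order conditions -/

set_option autoImplicit false

namespace Pool.Agent.Lib.MP_88e1a1_al.Even

open Finset Matrix
open scoped Real

section
variable {ι : Type*} [Fintype ι] [DecidableEq ι]

namespace MaxFO

theorem diag_unitary_of_norm (d : ι → ℂ) (h : ∀ i, ‖d i‖ = 1) : diagonal d ∈ unitaryGroup ι ℂ := by
  rw [mem_unitaryGroup_iff, star_eq_conjTranspose, diagonal_conjTranspose, diagonal_mul_diagonal,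
    ← diagonal_one]
  congr 1
  funext i
  rw [Pi.star_apply, Complex.star_def, Complex.mul_conj, Complex.normSq_eq_norm_sq, h i]
  norm_num

private theorem S0_unitary' (b : ι → Bool) : S0 b ∈ unitaryGroup ι ℂ := by
  refine diag_unitary_of_norm _ fun i => ?_
  split_ifs <;> simp

private theorem T0_unitary' (c : ι → Fin 3) : T0 c ∈ unitaryGroup ι ℂ := by
  refine diag_unitary_of_norm _ fun i => ?_
  have h : om = Complex.exp (((2 * π / 3 : ℝ) : ℂ) * Complex.I) := by
    rw [om]
    congr 1
    push_cast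
    ring
  rw [norm_pow, h, Complex.norm_exp_ofReal_mul_I, one_pow]

private theorem Th_unitary' (θ : ι → ℝ) : Th θ ∈ unitaryGroup ι ℂ := by
  refine diag_unitary_of_norm _ fun i => ?_
  exact Complex.norm_exp_ofReal_mul_I _

theorem isCompact_unitary : IsCompact {V : Matrix ι ι ℂ | V ∈ unitaryGroup ι ℂ} := by
  have hc : IsClosed {V : Matrix ι ι ℂ | V ∈ unitaryGroup ι ℂ} := by
    have : {V : Matrix ι ι ℂ | V ∈ unitaryGroup ι ℂ} = {V | V * star V = 1} := by
      ext V
      exact mem_unitaryGroup_iff
    rw [this]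
    exact isClosed_eq (by fun_prop) continuous_const
  have hK : IsCompact (Set.pi Set.univ fun _ : ι => Set.pi Set.univ fun _ : ι =>
      Metric.closedBall (0 : ℂ) 1) :=
    isCompact_univ_pi fun _ => isCompact_univ_pi fun _ => isCompact_closedBall _ _
  refine IsCompact.of_isClosed_subset hK hc ?_
  intro V hV i _ j _
  rw [mem_closedBall_zero_iff]
  exact entry_norm_bound_of_unitary hV i j

theorem unitary_mul_star {V : Matrix ι ι ℂ} (hV : V ∈ unitaryGroup ι ℂ) : V * star V = 1 :=
  mem_unitaryGroup_iff.1 hV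

theorem star_mul_unitary {V : Matrix ι ι ℂ} (hV : V ∈ unitaryGroup ι ℂ) : star V * V = 1 :=
  mem_unitaryGroup_iff'.1 hV

open scoped Matrix.Norms.Frobenius in
/-- the exponential of a skew-Hermitian matrix is unitary -/
theorem exp_mem_unitary (X : Matrix ι ι ℂ) (hX : star X = -X) (ε : ℝ) :
    NormedSpace.exp (ε • X) ∈ unitaryGroup ι ℂ := by
  rw [mem_unitaryGroup_iff]
  have h1 : star (NormedSpace.exp (ε • X)) = NormedSpace.exp (-(ε • X)) := by
    rw [star_eq_conjTranspose, ← Matrix.exp_conjTranspose, ← star_eq_conjTranspose, star_smul, hX]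
    simp
  have hc : Commute (ε • X) (-(ε • X)) := (Commute.refl (ε • X)).neg_right
  rw [h1, ← Matrix.exp_add_of_commute _ _ hc, add_neg_cancel, NormedSpace.exp_zero]

open scoped Matrix.Norms.Frobenius in
/-- first variation -/
theorem first_var (t A : Matrix ι ι ℂ)
    (hmax : ∀ W ∈ unitaryGroup ι ℂ, (trace (W * t * star W * A)).re ≤ (trace (t * A)).re)
    (X : Matrix ι ι ℂ) (hX : star X = -X) : (trace (X * (t * A - A * t))).re = 0 := by
  have h1 : HasDerivAt (fun ε : ℝ => NormedSpace.exp (ε • X)) X 0 := by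
    have := hasDerivAt_exp_smul_const (𝕂 := ℝ) X 0
    rw [zero_smul, NormedSpace.exp_zero, one_mul] at this
    exact this
  have h2 : HasDerivAt (fun ε : ℝ => NormedSpace.exp (ε • (-X))) (-X) 0 := by
    have := hasDerivAt_exp_smul_const (𝕂 := ℝ) (-X) 0
    rw [zero_smul, NormedSpace.exp_zero, one_mul] at this
    exact this
  have h3 : HasDerivAt (fun ε : ℝ => NormedSpace.exp (ε • X) * t * NormedSpace.exp (ε • (-X)) * A)
      (X * t * A - t * X * A) 0 := by
    have := ((h1.mul_const t).mul h2).mul_const A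
    have e : (X * t * NormedSpace.exp ((0 : ℝ) • (-X)) + NormedSpace.exp ((0 : ℝ) • X) * t * (-X)) * A
        = X * t * A - t * X * A := by
      rw [zero_smul, zero_smul, NormedSpace.exp_zero, one_mul, mul_one, mul_neg, add_mul, neg_mul]
      rfl
    rw [e] at this
    exact this
  let L : Matrix ι ι ℂ →L[ℝ] ℝ := LinearMap.toContinuousLinearMap
    (Complex.reLm.comp ((Matrix.traceLinearMap ι ℂ ℂ).restrictScalars ℝ))
  have hL : ∀ B, L B = (trace B).re := fun B => rfl
  have h4 : HasDerivAt (fun ε : ℝ => L (NormedSpace.exp (ε • X) * t * NormedSpace.exp (ε • (-X)) * A))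
      (L (X * t * A - t * X * A)) 0 := L.hasFDerivAt.comp_hasDerivAt 0 h3
  have h5 : IsLocalMax (fun ε : ℝ => L (NormedSpace.exp (ε • X) * t * NormedSpace.exp (ε • (-X)) * A)) 0 := by
    refine Filter.Eventually.of_forall fun ε => ?_
    simp only [hL, zero_smul, NormedSpace.exp_zero, one_mul, mul_one]
    have := hmax _ (exp_mem_unitary X hX ε)
    have h6 : star (NormedSpace.exp (ε • X)) = NormedSpace.exp (ε • (-X)) := by
      rw [star_eq_conjTranspose, ← Matrix.exp_conjTranspose, ← star_eq_conjTranspose, star_smul, hX]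
      simp
    rw [h6] at this
    exact this
  have h7 := h5.hasDerivAt_eq_zero h4
  rw [hL] at h7
  rw [← h7]
  congr 1
  rw [mul_sub, trace_sub, trace_sub, ← mul_assoc, ← mul_assoc, trace_mul_comm (X * A) t, ← mul_assoc]

open scoped ComplexOrder in
/-- a matrix whose real pairing with all skew-Hermitian matrices vanishes is Hermitian -/
theorem herm_of_var (Z : Matrix ι ι ℂ)
    (h : ∀ X : Matrix ι ι ℂ, star X = -X → (trace (X * Z)).re = 0) : star Z = Z := by
  have h1 := h (Z - star Z) (by rw [star_sub, star_star]; abel)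
  have h2 : trace (star (Z * Z)) = star (trace (Z * Z)) := trace_conjTranspose _
  have h3 : (trace (star (Z - star Z) * (Z - star Z))).re = 0 := by
    have e : star (Z - star Z) * (Z - star Z)
        = -((Z - star Z) * Z) + (Z * star Z - star (Z * Z)) := by
      rw [star_sub, star_star, star_mul]
      noncomm_ring
    have e2 : (Z - star Z) * Z = Z * Z - star Z * Z := sub_mul _ _ _
    rw [e, trace_add, trace_neg, trace_sub, h2, trace_mul_comm Z (star Z)]
    rw [e2, trace_sub] at h1 ⊢
    simp only [Complex.add_re, Complex.neg_re, Complex.sub_re, Complex.star_def,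
      Complex.conj_re] at h1 ⊢
    linarith
  have h4 : trace (star (Z - star Z) * (Z - star Z)) = 0 := by
    refine Complex.ext h3 ?_
    have h5 : star (trace (star (Z - star Z) * (Z - star Z)))
        = trace (star (Z - star Z) * (Z - star Z)) := by
      have h6 : trace (star (star (Z - star Z) * (Z - star Z)))
          = star (trace (star (Z - star Z) * (Z - star Z))) := trace_conjTranspose _
      rw [← h6, star_mul, star_star]
    have h7 := congrArg Complex.im h5
    rw [Complex.star_def, Complex.conj_im] at h7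
    simp only [Complex.zero_im]
    linarith
  have h5 : Z - star Z = 0 := trace_conjTranspose_mul_self_eq_zero_iff.1 h4
  exact (sub_eq_zero.1 h5).symm

theorem comm_of_herm (u Q : Matrix ι ι ℂ) (hu : u ∈ unitaryGroup ι ℂ)
    (h : star (Q - star u * Q * u) = Q - star u * Q * u) :
    u * (Q - star Q) = (Q - star Q) * u := by
  have h1 : Q - star Q = star u * (Q - star Q) * u := by
    rw [star_sub, star_mul, star_mul, star_star, ← mul_assoc] at h
    rw [mul_sub, sub_mul, sub_eq_sub_iff_sub_eq_sub, ← h]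
  calc u * (Q - star Q) = u * (star u * (Q - star Q) * u) := by rw [← h1]
    _ = (u * star u) * (Q - star Q) * u := by simp only [mul_assoc]
    _ = (Q - star Q) * u := by rw [unitary_mul_star hu, one_mul]

/-- a matrix commuting with a diagonal one vanishes at the places with different entries -/
theorem apply_eq_zero_of_comm (A : Matrix ι ι ℂ) (d : ι → ℂ)
    (h : A * diagonal d = diagonal d * A) (i j : ι) (hij : d i ≠ d j) : A i j = 0 := by
  have h1 := congrFun (congrFun h i) j
  rw [mul_diagonal, diagonal_mul] at h1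
  have h2 : (d i - d j) * A i j = 0 := by rw [sub_mul, ← h1]; ring
  exact (mul_eq_zero.1 h2).resolve_left (sub_ne_zero.2 hij)

open scoped Matrix.Norms.Frobenius in
theorem frob_sq (A : Matrix ι ι ℂ) : ‖A‖ ^ 2 = ∑ i, ∑ j, ‖A i j‖ ^ 2 := by
  rw [frobenius_norm_def, ← Real.sqrt_eq_rpow, Real.sq_sqrt]
  · simp
  · positivity

omit [DecidableEq ι] in
theorem trace_star_mul_re (A : Matrix ι ι ℂ) : (trace (star A * A)).re = ∑ i, ∑ j, ‖A i j‖ ^ 2 := by
  rw [trace, Complex.re_sum, Finset.sum_comm]
  refine Finset.sum_congr rfl fun j _ => ?_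
  rw [diag_apply, mul_apply, Complex.re_sum]
  refine Finset.sum_congr rfl fun i _ => ?_
  rw [star_apply, Complex.star_def, ← Complex.normSq_eq_conj_mul_self, Complex.ofReal_re,
    Complex.normSq_eq_norm_sq]

open scoped Matrix.Norms.Frobenius in
/-- a Hermitian matrix near `2` with diagonal square is diagonal -/
theorem diagonal_of_sq (H : Matrix ι ι ℂ) (hH : star H = H) (q : ι → ℂ)
    (hq : H * H = diagonal q) (hn : ‖(2 : ℂ) • (1 : Matrix ι ι ℂ) - H‖ ≤ 1) (i j : ι) (hij : i ≠ j) :
    H i j = 0 := by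
  set c : ι → ℝ := fun i => Real.sqrt (∑ k, ‖H i k‖ ^ 2) with hc
  have hc0 : ∀ i, 0 ≤ c i := fun i => Real.sqrt_nonneg _
  have hqc : ∀ i, q i = ((c i) ^ 2 : ℝ) := by
    intro i
    have h1 := congrFun (congrFun hq i) i
    rw [diagonal_apply_eq] at h1
    rw [← h1, mul_apply, hc, Real.sq_sqrt (by positivity)]
    push_cast
    refine Finset.sum_congr rfl fun k _ => ?_
    have h2 : H k i = star (H i k) := by
      conv_lhs => rw [← hH]
      rfl
    rw [h2, Complex.star_def, Complex.mul_conj, Complex.normSq_eq_norm_sq]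
    push_cast
    rfl
  set C : Matrix ι ι ℂ := diagonal fun i => (c i : ℂ) with hC
  have hCC : H * H = C * C := by
    rw [hq, hC, diagonal_mul_diagonal]
    congr 1
    funext i
    rw [hqc]
    push_cast
    ring
  have hcomm : H * C = C * H := by
    ext i j
    rw [hC, mul_diagonal, diagonal_mul]
    by_cases hij : q i = q j
    · have : c i = c j := by
        rw [hqc, hqc] at hij
        have h2 : (c i) ^ 2 = (c j) ^ 2 := by exact_mod_cast hij
        exact (sq_eq_sq₀ (hc0 i) (hc0 j)).1 h2
      rw [this, mul_comm]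
    · have h0 : H i j = 0 := by
        refine apply_eq_zero_of_comm H q ?_ i j hij
        rw [← hq, mul_assoc]
      rw [h0, mul_zero, zero_mul]
  set E : Matrix ι ι ℂ := H - C with hE
  have hHE : H * E = -(C * E) := by
    have : H * E + C * E = 0 := by
      rw [hE, mul_sub, mul_sub, hcomm, hCC]
      abel
    exact eq_neg_of_add_eq_zero_left this
  have h2E : ((2 : ℂ) • (1 : Matrix ι ι ℂ) - H) * E = diagonal (fun i => (2 + c i : ℂ)) * E := by
    have h3 : diagonal (fun i => (2 + c i : ℂ)) = (2 : ℂ) • (1 : Matrix ι ι ℂ) + C := by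
      rw [hC, smul_one_eq_diagonal, diagonal_add]
    rw [h3, sub_mul, add_mul, hHE, sub_neg_eq_add]
  have hle : 2 * ‖E‖ ≤ ‖E‖ := by
    have h4 : 2 * ‖E‖ ≤ ‖diagonal (fun i => (2 + c i : ℂ)) * E‖ := by
      refine le_of_sq_le_sq ?_ (norm_nonneg _)
      rw [mul_pow, frob_sq, frob_sq, Finset.mul_sum]
      refine Finset.sum_le_sum fun i _ => ?_
      rw [Finset.mul_sum]
      refine Finset.sum_le_sum fun j _ => ?_
      rw [diagonal_mul, norm_mul, mul_pow]
      have h5 : (2 : ℝ) ≤ ‖(2 + c i : ℂ)‖ := by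
        have h6 : ((2 + c i : ℝ) : ℂ) = (2 + c i : ℂ) := by push_cast; rfl
        rw [← h6, Complex.norm_real, Real.norm_eq_abs]
        exact le_trans (by linarith [hc0 i]) (le_abs_self _)
      have := hc0 i
      gcongr
    have h5 : ‖((2 : ℂ) • (1 : Matrix ι ι ℂ) - H) * E‖ ≤ 1 * ‖E‖ :=
      (frobenius_norm_mul _ _).trans (by gcongr)
    rw [h2E, one_mul] at h5
    exact h4.trans h5
  have hE0 : E = 0 := by
    rw [← norm_eq_zero]
    have := norm_nonneg E
    linarith
  have hHC : H = C := sub_eq_zero.1 hE0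
  rw [hHC, hC, diagonal_apply_ne _ hij]

end MaxFO

open MaxFO

theorem exists_max (b : ι → Bool) (c : ι → Fin 3) (θ : ι → ℝ) : ∃ V U, IsMx b c θ V U := by
  have hK : IsCompact ({V : Matrix ι ι ℂ | V ∈ unitaryGroup ι ℂ} ×ˢ
      {U : Matrix ι ι ℂ | U ∈ unitaryGroup ι ℂ}) := isCompact_unitary.prod isCompact_unitary
  have h1 : (1 : Matrix ι ι ℂ) ∈ {V : Matrix ι ι ℂ | V ∈ unitaryGroup ι ℂ} :=
    one_mem (unitaryGroup ι ℂ)
  have hne : ({V : Matrix ι ι ℂ | V ∈ unitaryGroup ι ℂ} ×ˢ
      {U : Matrix ι ι ℂ | U ∈ unitaryGroup ι ℂ}).Nonempty := ⟨(1, 1), Set.mk_mem_prod h1 h1⟩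
  have hf : ContinuousOn (fun p : Matrix ι ι ℂ × Matrix ι ι ℂ => obj b c θ p.1 p.2)
      ({V : Matrix ι ι ℂ | V ∈ unitaryGroup ι ℂ} ×ˢ
      {U : Matrix ι ι ℂ | U ∈ unitaryGroup ι ℂ}) := by
    refine Continuous.continuousOn ?_
    unfold obj
    refine Complex.continuous_re.comp (Continuous.matrix_trace ?_)
    fun_prop
  obtain ⟨⟨V, U⟩, hVU, hm⟩ := hK.exists_isMaxOn hne hf
  refine ⟨V, U, hVU.1, hVU.2, fun V' hV' U' hU' => ?_⟩
  exact isMaxOn_iff.1 hm (V', U') (Set.mk_mem_prod hV' hU')

open scoped Matrix.Norms.Frobenius in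
/-- structure at a maximum which is nearly `card ι` -/
theorem first_order (b : ι → Bool) (c : ι → Fin 3) (θ : ι → ℝ)
    (hθ : ∀ i j, i ≠ j → Complex.exp ((θ i : ℂ) * Complex.I) ≠ Complex.exp ((θ j : ℂ) * Complex.I))
    (V U : Matrix ι ι ℂ) (hmax : IsMx b c θ V U)
    (hnear : (Fintype.card ι : ℝ) - 1 / 8 < obj b c θ V U) :
    ∃ ψ : ι → ℝ, (∀ i, |ψ i| < π / 2) ∧
      (U * T0 c * star U) * (V * S0 b * star V) = Th (fun i => θ i + ψ i) ∧
      (∀ i j, ψ i ≠ ψ j → (V * S0 b * star V) i j = 0) ∧
      (∀ i j, ψ i ≠ ψ j → (U * T0 c * star U) i j = 0) ∧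
      obj b c θ V U = ∑ i, Real.cos (ψ i) := by
  obtain ⟨hV, hU, hmx⟩ := hmax
  obtain ⟨s, hs⟩ : ∃ s, s = V * S0 b * star V := ⟨_, rfl⟩
  obtain ⟨t, ht⟩ : ∃ t, t = U * T0 c * star U := ⟨_, rfl⟩
  rw [← hs, ← ht]
  have hsu : s ∈ unitaryGroup ι ℂ := by
    rw [hs]; exact mul_mem (mul_mem hV (S0_unitary' b)) (Unitary.star_mem hV)
  have htu : t ∈ unitaryGroup ι ℂ := by
    rw [ht]; exact mul_mem (mul_mem hU (T0_unitary' c)) (Unitary.star_mem hU)
  obtain ⟨Θ, hΘ⟩ : ∃ Θ, Θ = Th θ := ⟨_, rfl⟩
  have hΘu : Θ ∈ unitaryGroup ι ℂ := by rw [hΘ]; exact Th_unitary' θ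
  obtain ⟨M, hM⟩ : ∃ M, M = t * s * star Θ := ⟨_, rfl⟩
  have hMu : M ∈ unitaryGroup ι ℂ := by
    rw [hM]; exact mul_mem (mul_mem htu hsu) (Unitary.star_mem hΘu)
  have hobj : obj b c θ V U = (trace M).re := by rw [hM, hs, ht, hΘ]; rfl
  have ht1 := unitary_mul_star htu
  have ht2 := star_mul_unitary htu
  have hs1 := unitary_mul_star hsu
  have hs2 := star_mul_unitary hsu
  have hΘ1 := unitary_mul_star hΘu
  have hΘ2 := star_mul_unitary hΘu
  have hM1 := unitary_mul_star hMu
  have hM2 := star_mul_unitary hMu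
  -- the two first variations
  have v1 : star (t * (s * star Θ) - (s * star Θ) * t) = t * (s * star Θ) - (s * star Θ) * t := by
    refine herm_of_var _ (first_var t (s * star Θ) fun W hW => ?_)
    have h := hmx V hV (W * U) (mul_mem hW hU)
    have e1 : obj b c θ V (W * U) = (trace (W * t * star W * (s * star Θ))).re := by
      unfold obj
      rw [ht, star_mul W U]
      simp only [mul_assoc, hs, hΘ]
    have e2 : obj b c θ V U = (trace (t * (s * star Θ))).re := by
      rw [hobj, hM, mul_assoc]
    rw [e1, e2] at h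
    exact h
  have v2 : star (s * (star Θ * t) - (star Θ * t) * s) = s * (star Θ * t) - (star Θ * t) * s := by
    refine herm_of_var _ (first_var s (star Θ * t) fun W hW => ?_)
    have h := hmx (W * V) (mul_mem hW hV) U hU
    have e1 : obj b c θ (W * V) U = (trace (W * s * star W * (star Θ * t))).re := by
      have e0 : W * s * star W * (star Θ * t) = (W * s * star W * star Θ) * t := by
        simp only [mul_assoc]
      rw [e0, trace_mul_comm]
      unfold obj
      rw [hs, star_mul W V]
      simp only [mul_assoc, ht, hΘ]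
    have e2 : obj b c θ V U = (trace (s * (star Θ * t))).re := by
      rw [hobj, hM, ← mul_assoc, trace_mul_comm (s * star Θ) t, mul_assoc]
    rw [e1, e2] at h
    exact h
  -- `N` commutes with everything
  obtain ⟨N, hN⟩ : ∃ N, N = M - star M := ⟨_, rfl⟩
  have hMt : t * (s * star Θ) = M := by rw [hM, mul_assoc]
  have hQ : s * (star Θ * t) = star t * M * t := by
    rw [hM]
    calc s * (star Θ * t) = (star t * t) * (s * (star Θ * t)) := by rw [ht2, one_mul]
      _ = star t * (t * s * star Θ) * t := by simp only [mul_assoc]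
  have ct : t * N = N * t := by
    rw [hN]
    refine comm_of_herm t M htu ?_
    have e : (s * star Θ) * t = star t * M * t := by rw [← hQ, mul_assoc]
    rw [hMt, e] at v1
    exact v1
  have hNt : star t * N * t = N := by
    rw [mul_assoc, ← ct, ← mul_assoc, ht2, one_mul]
  have cs : s * N = N * s := by
    have e0 : star t * M * t - star (star t * M * t) = N := by
      rw [star_mul, star_mul, star_star, ← mul_assoc, ← sub_mul, ← mul_sub, ← hN, hNt]
    have e1 : (star Θ * t) * s = star s * (star t * M * t) * s := by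
      rw [← hQ]
      calc star Θ * t * s = (star s * s) * (star Θ * t * s) := by rw [hs2, one_mul]
        _ = star s * (s * (star Θ * t)) * s := by simp only [mul_assoc]
    have h := comm_of_herm s (star t * M * t) hsu (by
      rw [hQ, e1] at v2
      exact v2)
    rw [e0] at h
    exact h
  have cM' : star M * N = N * star M := by
    rw [hN, mul_sub, sub_mul, hM1, hM2]
  have hΘM : Θ = star M * t * s := by
    rw [hM, star_mul, star_mul, star_star]
    calc Θ = Θ * (star s * ((star t * t) * s)) := by rw [ht2, one_mul, hs2, mul_one]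
      _ = Θ * (star s * star t) * t * s := by simp only [mul_assoc]
  have cΘ : N * Θ = Θ * N := by
    rw [hΘM]
    calc N * (star M * t * s) = (N * star M) * t * s := by simp only [mul_assoc]
      _ = star M * (N * t) * s := by rw [← cM']; simp only [mul_assoc]
      _ = star M * t * (N * s) := by rw [← ct]; simp only [mul_assoc]
      _ = star M * t * s * N := by rw [← cs]; simp only [mul_assoc]
  have hNd : ∀ i j, i ≠ j → N i j = 0 := fun i j hij =>
    apply_eq_zero_of_comm N _ (by rw [hΘ, Th] at cΘ; exact cΘ) i j (hθ i j hij)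
  have hNN : N = diagonal fun i => N i i := by
    ext i j
    by_cases hij : i = j
    · subst hij; rw [diagonal_apply_eq]
    · rw [hNd i j hij, diagonal_apply_ne _ hij]
  -- `M` is near `1`
  have hfr : ‖(1 : Matrix ι ι ℂ) - M‖ ^ 2 < 1 / 4 := by
    rw [frob_sq, ← trace_star_mul_re]
    have e : star (1 - M) * (1 - M) = 1 + 1 - M - star M := by
      rw [star_sub, star_one, sub_mul, mul_sub, mul_sub, hM2]
      simp only [one_mul, mul_one]
      abel
    have e2 : trace (star M) = star (trace M) := trace_conjTranspose _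
    rw [e, trace_sub, trace_sub, trace_add, trace_one, e2]
    simp only [Complex.sub_re, Complex.add_re, Complex.natCast_re, Complex.star_def,
      Complex.conj_re]
    rw [hobj] at hnear
    linarith
  have hfr' : ‖(1 : Matrix ι ι ℂ) - M‖ < 1 / 2 := by
    refine lt_of_pow_lt_pow_left₀ 2 (by norm_num) (hfr.trans_le (by norm_num))
  -- `H = M + star M`
  have hHd : ∀ i j, i ≠ j → (M + star M) i j = 0 := by
    refine diagonal_of_sq (M + star M) (by rw [star_add, star_star, add_comm])
      (fun i => N i i * N i i + 4) ?_ ?_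
    · have e : (M + star M) * (M + star M) = N * N + (4 : ℂ) • (1 : Matrix ι ι ℂ) := by
        have e1 : (M + star M) * (M + star M) = M * M + star M * star M + (1 + 1) := by
          rw [add_mul, mul_add, mul_add, hM1, hM2]
          abel
        have e2 : N * N = M * M + star M * star M - (1 + 1) := by
          rw [hN, sub_mul, mul_sub, mul_sub, hM1, hM2]
          abel
        have e3 : (4 : ℂ) • (1 : Matrix ι ι ℂ) = 1 + 1 + (1 + 1) := by
          have : (4 : ℂ) = 1 + 1 + (1 + 1) := by norm_num
          rw [this]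
          simp only [add_smul, one_smul]
        rw [e1, e2, e3]
        abel
      have e4 : N * N = diagonal fun i => N i i * N i i := by
        conv_lhs => rw [hNN]
        rw [diagonal_mul_diagonal]
      rw [e, e4, smul_one_eq_diagonal, diagonal_add]
    · have e : (2 : ℂ) • (1 : Matrix ι ι ℂ) - (M + star M) = (1 - M) + star (1 - M) := by
        rw [star_sub, star_one, two_smul]
        abel
      have e2 : ‖star (1 - M)‖ = ‖1 - M‖ := frobenius_norm_conjTranspose _
      rw [e]
      refine (norm_add_le _ _).trans ?_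
      rw [e2]
      linarith
  have hMd : ∀ i j, i ≠ j → M i j = 0 := by
    intro i j hij
    have h1 := hHd i j hij
    have h2 := hNd i j hij
    rw [Matrix.add_apply] at h1
    rw [hN, Matrix.sub_apply] at h2
    linear_combination (h1 + h2) / 2
  have hMM : M = diagonal fun i => M i i := by
    ext i j
    by_cases hij : i = j
    · subst hij; rw [diagonal_apply_eq]
    · rw [hMd i j hij, diagonal_apply_ne _ hij]
  have hnorm : ∀ i, ‖M i i‖ = 1 := by
    intro i
    have h1 := congrFun (congrFun hM1 i) i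
    rw [hMM, star_eq_conjTranspose, diagonal_conjTranspose, diagonal_mul_diagonal,
      diagonal_apply_eq, one_apply_eq] at h1
    simp only [Pi.star_apply, Complex.star_def, Complex.mul_conj, Complex.normSq_eq_norm_sq] at h1
    have h2 : ‖M i i‖ ^ 2 = 1 := by exact_mod_cast h1
    exact (pow_eq_one_iff_of_nonneg (norm_nonneg _) two_ne_zero).1 h2
  have hre : ∀ i, 0 < (M i i).re := by
    intro i
    have h1 : ‖(1 - M) i i‖ ^ 2 ≤ ‖(1 : Matrix ι ι ℂ) - M‖ ^ 2 := by
      rw [frob_sq]
      refine le_trans ?_ (Finset.single_le_sum (f := fun i => ∑ j, ‖(1 - M) i j‖ ^ 2)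
        (fun i _ => by positivity) (Finset.mem_univ i))
      exact Finset.single_le_sum (f := fun j => ‖(1 - M) i j‖ ^ 2)
        (fun i _ => by positivity) (Finset.mem_univ i)
    have h2 : ‖(1 - M) i i‖ < 1 / 2 :=
      lt_of_pow_lt_pow_left₀ 2 (by norm_num) ((h1.trans_lt hfr).trans_le (by norm_num))
    rw [Matrix.sub_apply, one_apply_eq] at h2
    have h3 := (Complex.abs_re_le_norm (1 - M i i)).trans_lt h2
    rw [Complex.sub_re, Complex.one_re, abs_lt] at h3
    linarith [h3.2]
  have hexp : ∀ i, Complex.exp (((Complex.arg (M i i) : ℝ) : ℂ) * Complex.I) = M i i := by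
    intro i
    have := Complex.norm_mul_exp_arg_mul_I (M i i)
    rw [hnorm i, Complex.ofReal_one, one_mul] at this
    exact this
  have hψ : ∀ i, |Complex.arg (M i i)| < π / 2 := fun i =>
    Complex.abs_arg_lt_pi_div_two_iff.2 (Or.inl (hre i))
  have hsin : ∀ i, N i i = 2 * Real.sin (Complex.arg (M i i)) * Complex.I := by
    intro i
    have e1 : N i i = M i i - star (M i i) := by rw [hN]; rfl
    have e2 : Real.sin (Complex.arg (M i i)) = (M i i).im := by
      have := congrArg Complex.im (hexp i)
      rw [Complex.exp_ofReal_mul_I_im] at this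
      exact this
    rw [e1, e2, Complex.star_def]
    refine Complex.ext ?_ ?_
    · simp
    · simp
      ring
  have hne : ∀ i j, Complex.arg (M i i) ≠ Complex.arg (M j j) → N i i ≠ N j j := by
    intro i j hij h
    rw [hsin i, hsin j] at h
    have h1 : (Real.sin (Complex.arg (M i i)) : ℂ) = Real.sin (Complex.arg (M j j)) := by
      have h2 : (2 : ℂ) * Complex.I ≠ 0 := mul_ne_zero two_ne_zero Complex.I_ne_zero
      refine mul_left_cancel₀ h2 ?_
      linear_combination h
    have h2 : Real.sin (Complex.arg (M i i)) = Real.sin (Complex.arg (M j j)) := by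
      exact_mod_cast h1
    have h3 := abs_lt.1 (hψ i)
    have h4 := abs_lt.1 (hψ j)
    exact hij (Real.injOn_sin ⟨by linarith [h3.1], by linarith [h3.2]⟩
      ⟨by linarith [h4.1], by linarith [h4.2]⟩ h2)
  refine ⟨fun i => Complex.arg (M i i), hψ, ?_, ?_, ?_, ?_⟩
  · have h1 : t * s = M * Θ := by
      rw [hM, mul_assoc, hΘ2, mul_one]
    have h2 : M * Θ = diagonal (fun i => M i i) * Θ := by rw [← hMM]
    rw [h1, h2, hΘ, Th, Th, diagonal_mul_diagonal]
    congr 1
    funext i
    have h3 := hexp i
    conv_lhs => rw [← h3]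
    rw [← Complex.exp_add]
    congr 1
    push_cast
    ring
  · intro i j hij
    refine apply_eq_zero_of_comm s (fun i => N i i) ?_ i j (hne i j hij)
    rw [← hNN]
    exact cs
  · intro i j hij
    refine apply_eq_zero_of_comm t (fun i => N i i) ?_ i j (hne i j hij)
    rw [← hNN]
    exact ct
  · rw [hobj, trace, Complex.re_sum]
    refine Finset.sum_congr rfl fun i _ => ?_
    have := congrArg Complex.re (hexp i)
    rw [Complex.exp_ofReal_mul_I_re] at this
    exact this.symm

end

end Pool.Agent.Lib.MP_88e1a1_al.Even
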