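import Pool.Agent.Lib.MP_88e1a1_al.Even.Ident
import Pool.Agent.Lib.MP_88e1a1_al.Even.MaxFO
import Pool.Agent.Lib.MP_88e1a1_al.Even.Block

/-! # MP_88e1a1_al, even `n`: near misses are hits -/

set_option autoImplicit false

namespace Pool.Agent.Lib.MP_88e1a1_al.Even

open Finset Matrix
open scoped Real

variable {ι : Type*} [Fintype ι] [DecidableEq ι]

namespace Loc

/-- cosines close to one -/
theorem abs_lt_of_cos {η x : ℝ} (hη : 0 < η) (hx : |x| < π / 2)
    (h : Real.cos η < Real.cos x) : |x| < η := by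
  by_contra hcon
  push Not at hcon
  have h1 : Real.cos x ≤ Real.cos η := by
    rw [← Real.cos_abs x]
    exact Real.cos_le_cos_of_nonneg_of_le_pi hη.le (by linarith [Real.pi_pos]) hcon
  linarith

theorem cos_each {ψ : ι → ℝ} {ε : ℝ} (h : (Fintype.card ι : ℝ) - ε < ∑ i, Real.cos (ψ i))
    (i : ι) : 1 - ε < Real.cos (ψ i) := by
  have h1 : ∑ j, Real.cos (ψ j) = Real.cos (ψ i) + ∑ j ∈ univ.erase i, Real.cos (ψ j) :=
    (Finset.add_sum_erase univ (fun j => Real.cos (ψ j)) (mem_univ i)).symm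
  have h2 : ∑ j ∈ univ.erase i, Real.cos (ψ j) ≤ ∑ j ∈ univ.erase i, (1 : ℝ) :=
    Finset.sum_le_sum fun j _ => Real.cos_le_one _
  rw [Finset.sum_const, Finset.card_erase_of_mem (mem_univ i), Finset.card_univ] at h2
  have h3 : 1 ≤ Fintype.card ι := Fintype.card_pos_iff.mpr ⟨i⟩
  rw [nsmul_eq_mul, mul_one, Nat.cast_sub h3] at h2
  push_cast at h2
  linarith

omit [DecidableEq ι] in
theorem sum_zero {ψ : ι → ℝ} {η : ℝ} (hη : (Fintype.card ι : ℝ) * η < 2 * π)
    (hψ : ∀ i, |ψ i| < η)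
    (h : Complex.exp (((∑ i, ψ i : ℝ) : ℂ) * Complex.I) = 1) : ∑ i, ψ i = 0 := by
  have h1 : |∑ i, ψ i| < 2 * π := by
    refine lt_of_le_of_lt (Finset.abs_sum_le_sum_abs _ _) (lt_of_le_of_lt ?_ hη)
    calc ∑ i, |ψ i| ≤ ∑ i : ι, η := Finset.sum_le_sum fun i _ => (hψ i).le
      _ = (Fintype.card ι : ℝ) * η := by rw [Finset.sum_const, Finset.card_univ, nsmul_eq_mul]
  rw [Complex.exp_eq_one_iff] at h
  obtain ⟨k, hk⟩ := h
  have h2 : (∑ i, ψ i : ℝ) = k * (2 * π) := by
    have h3 : (((∑ i, ψ i : ℝ) : ℂ)) = ((k * (2 * π) : ℝ) : ℂ) := by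
      have h4 : (((∑ i, ψ i : ℝ) : ℂ)) * Complex.I = ((k * (2 * π) : ℝ) : ℂ) * Complex.I := by
        rw [hk]; push_cast; ring
      exact mul_right_cancel₀ Complex.I_ne_zero h4
    exact_mod_cast h3
  rw [h2] at h1
  have hpi := Real.pi_pos
  have h5 : |(k : ℝ)| < 1 := by
    rw [abs_mul, abs_of_pos (by positivity : (0 : ℝ) < 2 * π)] at h1
    by_contra hc
    push Not at hc
    nlinarith
  have h6 : k = 0 := by
    have : |k| < 1 := by exact_mod_cast h5
    exact Int.abs_lt_one_iff.mp this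
  rw [h2, h6]; simp

theorem SE_shift (θ ψ : ι → ℝ) {γ η μ : ℝ} (hγη : 2 * η < γ) (hψ : ∀ i, |ψ i| < η)
    (hsep : ∀ i j, i ≠ j → γ ≤ |θ i - θ j|) (W : Finset ι) (hμ : ∀ i ∈ W, ψ i = μ)
    (h0 : ∑ i, ψ i = 0) :
    SE (fun i => θ i + ψ i) W
      = SE θ W + (Fintype.card ι : ℝ) * ((#W : ℝ) * μ / (2 * π)) := by
  have hpi := Real.pi_pos
  have key : ∀ i ∈ W, ∀ j ∈ Wᶜ,
      (((θ i + ψ i) - (θ j + ψ j)) / (2 * π) + if θ i + ψ i < θ j + ψ j then (1 : ℝ) else 0)
        = ((θ i - θ j) / (2 * π) + if θ i < θ j then (1 : ℝ) else 0) + (μ - ψ j) / (2 * π) := by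
    intro i hi j hj
    have hij : i ≠ j := by
      rintro rfl
      exact (Finset.mem_compl.mp hj) hi
    have h1 := hsep i j hij
    have h2 := abs_lt.mp (hψ i)
    have h3 := abs_lt.mp (hψ j)
    have h4 : (θ i + ψ i < θ j + ψ j) ↔ (θ i < θ j) := by
      constructor
      · intro h
        by_contra hc
        push Not at hc
        rw [abs_of_nonneg (by linarith)] at h1
        linarith [h2.1, h3.2]
      · intro h
        rw [abs_of_neg (by linarith)] at h1
        linarith [h2.2, h3.1]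
    simp only [h4]
    rw [hμ i hi]
    ring
  unfold SE
  rw [Finset.sum_congr rfl fun i hi => Finset.sum_congr rfl fun j hj => key i hi j hj]
  simp only [Finset.sum_add_distrib]
  congr 1
  rw [Finset.sum_const, nsmul_eq_mul, ← Finset.sum_div, Finset.sum_sub_distrib, Finset.sum_const,
    nsmul_eq_mul, Finset.card_compl, Nat.cast_sub (Finset.card_le_univ W)]
  have h5 : ∑ j ∈ Wᶜ, ψ j = - (#W * μ) := by
    have h6 := Finset.sum_add_sum_compl W ψ
    rw [h0, Finset.sum_congr rfl hμ, Finset.sum_const, nsmul_eq_mul] at h6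
    linarith
  rw [h5]
  field_simp
  ring

end Loc

open Loc

theorem exists_eps (b : ι → Bool) (c : ι → Fin 3) (γ : ℝ) (hγ : 0 < γ) :
    ∃ ε > 0, ∀ θ : ι → ℝ, Good b c θ →
      Complex.exp (((∑ i, θ i : ℝ) : ℂ) * Complex.I)
        = (-1) ^ nb b * om ^ (nc c 1 + 2 * nc c 2) →
      (∀ i j, i ≠ j → γ ≤ |θ i - θ j| ∧ |θ i - θ j| ≤ 2 * π - γ) →
      ∀ V ∈ unitaryGroup ι ℂ, ∀ U ∈ unitaryGroup ι ℂ,
      (Fintype.card ι : ℝ) - ε < obj b c θ V U → Att b c θ := by
  classical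
  have hpi := Real.pi_pos
  -- choice of `η`
  obtain ⟨η, hη0, hηpi, hηγ, hηn⟩ : ∃ η : ℝ, 0 < η ∧ η ≤ π ∧ 2 * η < γ ∧
      (Fintype.card ι : ℝ) * η < 2 * π := by
    refine ⟨min (min π (γ / 4)) (π / (Fintype.card ι + 1)), ?_, ?_, ?_, ?_⟩
    · positivity
    · exact (min_le_left _ _).trans (min_le_left _ _)
    · have : min (min π (γ / 4)) (π / (Fintype.card ι + 1)) ≤ γ / 4 :=
        (min_le_left _ _).trans (min_le_right _ _)
      linarith
    · have h1 : min (min π (γ / 4)) (π / (Fintype.card ι + 1)) ≤ π / (Fintype.card ι + 1) :=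
        min_le_right _ _
      have h2 : (0 : ℝ) ≤ Fintype.card ι := by positivity
      have h3 : (Fintype.card ι : ℝ) * (π / (Fintype.card ι + 1)) ≤ π := by
        rw [mul_div_assoc', div_le_iff₀ (by positivity)]
        nlinarith
      have := mul_le_mul_of_nonneg_left h1 h2
      linarith
  have hcosη : Real.cos η < 1 := by
    have := Real.cos_lt_cos_of_nonneg_of_le_pi (le_refl 0) hηpi hη0
    simpa using this
  refine ⟨min (1 / 8) (1 - Real.cos η), lt_min (by norm_num) (by linarith), ?_⟩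
  intro θ hgood hdet hsep V₀ hV₀ U₀ hU₀ hnear₀
  obtain ⟨V, U, hmax⟩ := exists_max b c θ
  have hnear : (Fintype.card ι : ℝ) - min (1 / 8) (1 - Real.cos η) < obj b c θ V U :=
    hnear₀.trans_le (hmax.2.2 V₀ hV₀ U₀ hU₀)
  have hnear8 : (Fintype.card ι : ℝ) - 1 / 8 < obj b c θ V U := by
    have := min_le_left (1 / 8 : ℝ) (1 - Real.cos η)
    linarith
  have hnear' : (Fintype.card ι : ℝ) - (1 - Real.cos η) < obj b c θ V U := by
    have := min_le_right (1 / 8 : ℝ) (1 - Real.cos η)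
    linarith
  have hθ : ∀ i j, i ≠ j → Complex.exp ((θ i : ℂ) * Complex.I)
      ≠ Complex.exp ((θ j : ℂ) * Complex.I) := by
    intro i j hij h
    obtain ⟨h1, h2⟩ := hsep i j hij
    rw [Complex.exp_eq_exp_iff_exists_int] at h
    obtain ⟨k, hk⟩ := h
    have h3 : θ i - θ j = k * (2 * π) := by
      have h4 : ((θ i - θ j : ℝ) : ℂ) * Complex.I = ((k * (2 * π) : ℝ) : ℂ) * Complex.I := by
        push_cast
        linear_combination hk
      have h5 := mul_right_cancel₀ Complex.I_ne_zero h4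
      exact_mod_cast h5
    rw [h3, abs_mul, abs_of_pos (by positivity : (0 : ℝ) < 2 * π)] at h1 h2
    have h6 : |(k : ℝ)| < 1 := by
      by_contra hc
      push Not at hc
      nlinarith
    have h7 : k = 0 := by
      have : |k| < 1 := by exact_mod_cast h6
      exact Int.abs_lt_one_iff.mp this
    rw [h7] at h1
    simp at h1
    linarith
  obtain ⟨ψ, hψ, hts, hsb, htb, hobj⟩ := first_order b c θ hθ V U hmax hnear8
  have hψη : ∀ i, |ψ i| < η := by
    intro i
    refine abs_lt_of_cos hη0 (hψ i) ?_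
    rw [hobj] at hnear'
    have := cos_each hnear' i
    linarith
  rcases isEmpty_or_nonempty ι with hem | hne
  · exact ⟨V, hmax.1, U, hmax.2.1, by rw [hts]; congr 1; funext i; exact hem.elim i⟩
  have hattψ : Att b c (fun i => θ i + ψ i) := ⟨V, hmax.1, U, hmax.2.1, hts⟩
  have hdetψ := det_of_att hattψ
  have hexp : Complex.exp (((∑ i, ψ i : ℝ) : ℂ) * Complex.I) = 1 := by
    have h1 : Complex.exp (((∑ i, θ i : ℝ) : ℂ) * Complex.I)
        * Complex.exp (((∑ i, ψ i : ℝ) : ℂ) * Complex.I)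
        = Complex.exp (((∑ i, θ i : ℝ) : ℂ) * Complex.I) * 1 := by
      rw [← Complex.exp_add, mul_one, hdet, ← hdetψ]
      congr 1
      push_cast [Finset.sum_add_distrib]
      ring
    exact mul_left_cancel₀ (Complex.exp_ne_zero _) h1
  have hsum0 : ∑ i, ψ i = 0 := sum_zero hηn hψη hexp
  -- the maximum of `ψ`
  obtain ⟨i₀, hi₀⟩ := Finite.exists_max ψ
  by_cases hall : ∀ i, ψ i = ψ i₀
  · have h1 : ψ i₀ = 0 := by
      rw [Finset.sum_congr rfl (fun i _ => hall i), Finset.sum_const, nsmul_eq_mul] at hsum0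
      rcases mul_eq_zero.mp hsum0 with h | h
      · exfalso
        have : (0 : ℝ) < (univ : Finset ι).card := by
          exact_mod_cast Finset.card_pos.mpr ⟨i₀, mem_univ _⟩
        linarith
      · exact h
    have h2 : (fun i => θ i + ψ i) = θ := by
      funext i
      rw [hall i, h1, add_zero]
    rwa [h2] at hattψ
  exfalso
  push Not at hall
  obtain ⟨j₀, hj₀⟩ := hall
  set W : Finset ι := univ.filter fun i => ψ i = ψ i₀ with hWdef
  have hWi : i₀ ∈ W := by simp [hWdef]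
  have hWj : j₀ ∈ Wᶜ := by simp [hWdef, hj₀]
  have hμ : ∀ i ∈ W, ψ i = ψ i₀ := by
    intro i hi
    simpa [hWdef] using hi
  have hμ' : ∀ j ∉ W, ψ j < ψ i₀ := by
    intro j hj
    have h1 : ψ j ≠ ψ i₀ := by simpa [hWdef] using hj
    exact lt_of_le_of_ne (hi₀ j) h1
  have hpos : 0 < ψ i₀ := by
    by_contra hc
    push Not at hc
    have h1 : ∑ i, ψ i < 0 := by
      have h2 : ∑ i, ψ i < ∑ i : ι, (0 : ℝ) := by
        refine Finset.sum_lt_sum (fun i _ => (hi₀ i).trans hc) ⟨j₀, mem_univ _, ?_⟩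
        exact lt_of_lt_of_le (lt_of_le_of_ne (hi₀ j₀) hj₀) hc
      simpa using h2
    linarith
  have hwin : ∀ i j, (θ i + ψ i) - (θ j + ψ j) < 2 * π := by
    intro i j
    rcases eq_or_ne i j with rfl | hij
    · linarith
    · have h1 := (abs_le.mp (hsep i j hij).2).2
      have h2 := abs_lt.mp (hψη i)
      have h3 := abs_lt.mp (hψη j)
      linarith [h2.2, h3.1]
  have hinj : Function.Injective fun i => θ i + ψ i := by
    intro i j hij
    by_contra hne'
    have h1 := (hsep i j hne').1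
    have h2 := abs_lt.mp (hψη i)
    have h3 := abs_lt.mp (hψη j)
    have h4 : θ i - θ j = ψ j - ψ i := by
      have : θ i + ψ i = θ j + ψ j := hij
      linarith
    have h5 : |θ i - θ j| < γ := by
      rw [h4, abs_lt]
      constructor <;> linarith [h2.1, h2.2, h3.1, h3.2]
    linarith
  obtain ⟨m, w, hm, hmb, hmb', hw, hwc, hdetW, hle⟩ :=
    block_ineq b c θ ψ V U hmax hψ hts hsb htb hwin hinj W ⟨i₀, hWi⟩ ⟨j₀, hWj⟩ (ψ i₀) hμ hμ'
  have hcard : (0 : ℝ) < #W := by exact_mod_cast Finset.card_pos.mpr ⟨i₀, hWi⟩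
  have hδ : 0 < (#W : ℝ) * ψ i₀ / (2 * π) := by positivity
  have hgoal := hgood.pos W m w ((#W : ℝ) * ψ i₀ / (2 * π)) ⟨i₀, hWi⟩ ⟨j₀, hWj⟩ hm hmb hmb' hw hwc
    hδ (by
      rw [← hdetW]
      congr 3
      rw [Finset.sum_add_distrib, Finset.sum_congr rfl hμ, Finset.sum_const, nsmul_eq_mul]
      field_simp)
  rw [SE_shift θ ψ hηγ hψη (fun i j hij => (hsep i j hij).1) W hμ hsum0] at hle
  linarith

end Pool.Agent.Lib.MP_88e1a1_al.Even
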