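import Pool.Agent.Lib.MP_88e1a1_al.Even.PathAux
import Pool.Agent.Lib.MP_88e1a1_al.Even.Local

/-! # MP_88e1a1_al, even `n`: the continuity method, final form -/

set_option autoImplicit false

namespace Pool.Agent.Lib.MP_88e1a1_al.Even

open Finset Matrix
open scoped Real

variable {ι : Type*} [Fintype ι] [DecidableEq ι]

theorem path (b : ι → Bool) (c : ι → Fin 3) (θ₀ θ₁ : ι → ℝ) (h0 : Att b c θ₀)
    (hsum : ∑ i, θ₀ i = ∑ i, θ₁ i)
    (hgood : ∀ τ ∈ Set.Ico (0 : ℝ) 1, Good b c (fun i => (1 - τ) * θ₀ i + τ * θ₁ i)) :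
    Att b c θ₁ :=
  path_of b c θ₀ θ₁ h0 hsum hgood (det_of_att h0) (exists_eps b c)

end Pool.Agent.Lib.MP_88e1a1_al.Even
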