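import Pool.Agent.Lib.MP_88e1a1_al.Even.Alcove
import Pool.Agent.Lib.MP_88e1a1_al.Even.Base
import Pool.Agent.Lib.MP_88e1a1_al.Even.Comb0
import Pool.Agent.Lib.MP_88e1a1_al.Even.Comb24
import Pool.Agent.Lib.MP_88e1a1_al.Even.Ident
import Pool.Agent.Lib.MP_88e1a1_al.Even.Path

/-! Final assembly for even `n`. -/

set_option autoImplicit false

namespace Pool.Agent.Lib.MP_88e1a1_al.Even

open Finset Matrix
open scoped Real

theorem kap_le (n i : ℕ) : kap n i ≤ 5 := by
  unfold kap
  split_ifs <;> omega

theorem good_tht' (n : ℕ) (hn : Even n) (b : Fin n → Bool) (c : Fin n → Fin 3)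
    (hb : nb b = n / 2) (hc : ∀ k, nc c k = cc n k) (x : Fin n → ℝ) (hx : AlcO n x) :
    Good b c (tht n x) := by
  have hcc : nc c = cc n := funext hc
  obtain ⟨hmono, hsp, hsum, hstr⟩ := hx
  have hpi := Real.pi_pos
  refine ⟨?_, ?_, ?_⟩
  · intro i j
    have h1 := kap_le n i
    have h2 : (kap n i : ℝ) ≤ 5 := by exact_mod_cast h1
    have h3 : (0 : ℝ) ≤ kap n j := by positivity
    have h4 := hsp j i
    unfold tht
    nlinarith
  · intro i j hij
    unfold tht at hij
    have h0 : x i + kap n i = x j + kap n j := by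
      have h3 : (π / 3) ≠ 0 := by positivity
      exact mul_left_cancel₀ h3 hij
    have h1 : ((kap n i : ℤ) : ℝ) - (kap n j : ℤ) = x j - x i := by
      push_cast
      linarith
    have h2 : (kap n i : ℤ) - kap n j = 0 := by
      have ha : ((kap n i : ℤ) - kap n j : ℤ) < 1 := by
        have : (((kap n i : ℤ) - kap n j : ℤ) : ℝ) < 1 := by
          push_cast at h1 ⊢
          rw [h1]
          exact hsp i j
        exact_mod_cast this
      have hb' : (-1 : ℤ) < ((kap n i : ℤ) - kap n j : ℤ) := by
        have : (-1 : ℝ) < (((kap n i : ℤ) - kap n j : ℤ) : ℝ) := by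
          push_cast at h1 ⊢
          rw [h1]
          have := hsp j i
          linarith
        exact_mod_cast this
      omega
    have h3 : kap n i = kap n j := by omega
    have h4 : x i = x j := by
      have : (kap n i : ℝ) = kap n j := by exact_mod_cast h3
      linarith
    rcases lt_trichotomy i j with h | h | h
    · exact absurd h4 (hstr i j h h3).ne
    · exact h
    · exact absurd h4 (hstr j i h h3.symm).ne'
  · intro W m w δ hW hW' hm _ _ hw _ hδ hdet
    rw [Fintype.card_fin, hb, hcc]
    by_cases h3 : 3 ∣ n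
    · have h6 : 6 ∣ n := by
        obtain ⟨k, hk⟩ := hn
        omega
      exact comb0 n h6 x ⟨hmono, hsp, hsum, hstr⟩ W hW hW' m w δ hm hw hδ hdet
    · have h := comb24 n hn h3 x ⟨hmono, hsp, hsum, hstr⟩ W m w hm hw
      have hn0 : (0 : ℝ) < n := by
        obtain ⟨i, _⟩ := hW
        have : 0 < n := lt_of_le_of_lt (Nat.zero_le _) i.2
        exact_mod_cast this
      have : 0 < n * δ := by positivity
      linarith

theorem exists_b (n : ℕ) : ∃ b : Fin n → Bool, nb b = n / 2 := by
  refine ⟨fun i => decide ((i : ℕ) < n / 2), ?_⟩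
  unfold nb
  have : (univ.filter fun i : Fin n => decide ((i : ℕ) < n / 2) = true)
      = univ.filter fun i : Fin n => (i : ℕ) < n / 2 := by
    ext i; simp
  rw [this, Fin.card_filter_val_lt]
  omega

theorem cc_sum (n : ℕ) (hn : Even n) : cc n 0 + cc n 1 + cc n 2 = n := by
  obtain ⟨k, hk⟩ := hn
  unfold cc
  split_ifs <;> simp_all <;> omega

theorem exists_c (n : ℕ) (hn : Even n) : ∃ c : Fin n → Fin 3, ∀ k, nc c k = cc n k := by
  have hs := cc_sum n hn
  set a := cc n 0 with ha
  set b := cc n 1 with hb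
  refine ⟨fun i => if (i : ℕ) < a then 0 else if (i : ℕ) < a + b then 1 else 2, ?_⟩
  have hlt : ∀ t : ℕ, t ≤ n → #{i : Fin n | (i : ℕ) < t} = t := by
    intro t ht
    rw [Fin.card_filter_val_lt]
    omega
  intro k
  unfold nc
  fin_cases k
  · have : (univ.filter fun i : Fin n =>
        (if (i : ℕ) < a then (0 : Fin 3) else if (i : ℕ) < a + b then 1 else 2) = 0)
        = univ.filter fun i : Fin n => (i : ℕ) < a := by
      ext i
      simp only [mem_filter, mem_univ, true_and]
      constructor
      · intro h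
        by_contra h'
        rw [if_neg h'] at h
        split_ifs at h <;> simp at h
      · intro h
        rw [if_pos h]
    simp only [Fin.zero_eta]
    rw [this, hlt a (by omega)]
  · have : (univ.filter fun i : Fin n =>
        (if (i : ℕ) < a then (0 : Fin 3) else if (i : ℕ) < a + b then 1 else 2) = 1)
        = (univ.filter fun i : Fin n => (i : ℕ) < a + b) \
          (univ.filter fun i : Fin n => (i : ℕ) < a) := by
      ext i
      simp only [mem_filter, mem_univ, true_and, mem_sdiff]
      constructor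
      · intro h
        by_cases h' : (i : ℕ) < a
        · rw [if_pos h'] at h
          simp at h
        · rw [if_neg h'] at h
          by_cases h'' : (i : ℕ) < a + b
          · exact ⟨h'', h'⟩
          · rw [if_neg h''] at h
            simp at h
      · rintro ⟨h, h'⟩
        rw [if_neg h', if_pos h]
    simp only [Fin.mk_one]
    rw [this, card_sdiff_of_subset, hlt a (by omega), hlt (a + b) (by omega)]
    · omega
    · intro i
      simp only [mem_filter, mem_univ, true_and]
      omega
  · have : (univ.filter fun i : Fin n =>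
        (if (i : ℕ) < a then (0 : Fin 3) else if (i : ℕ) < a + b then 1 else 2) = 2)
        = univ \ (univ.filter fun i : Fin n => (i : ℕ) < a + b) := by
      ext i
      simp only [mem_filter, mem_univ, true_and, mem_sdiff]
      constructor
      · intro h h'
        split_ifs at h <;> simp at h
      · intro h
        rw [if_neg (by omega), if_neg h]
    have e2 : (⟨2, by omega⟩ : Fin 3) = 2 := rfl
    simp only [Fin.reduceFinMk]
    rw [this, card_sdiff_of_subset (subset_univ _), hlt (a + b) (by omega), card_univ, Fintype.card_fin]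
    omega

theorem alcO_mix {n : ℕ} {x y : Fin n → ℝ} (hx : AlcO n x) (hy : Alc n y) {τ : ℝ}
    (h0 : 0 ≤ τ) (h1 : τ < 1) : AlcO n fun i => (1 - τ) * x i + τ * y i := by
  obtain ⟨hm, hs, h0x, hst⟩ := hx
  obtain ⟨hm', hs', h0y⟩ := hy
  have h1' : 0 < 1 - τ := by linarith
  refine ⟨?_, ?_, ?_, ?_⟩
  · intro i j hij
    have a := hm hij
    have b := hm' hij
    have a' := mul_le_mul_of_nonneg_left a h1'.le
    have b' := mul_le_mul_of_nonneg_left b h0
    exact add_le_add a' b'
  · intro i j
    have a := mul_lt_mul_of_pos_left (hs i j) h1'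
    have b := mul_le_mul_of_nonneg_left (hs' i j) h0
    simp only
    nlinarith
  · rw [sum_add_distrib, ← mul_sum, ← mul_sum, h0x, h0y]
    ring
  · intro i j hij hk
    have a := mul_lt_mul_of_pos_left (hst i j hij hk) h1'
    have b := mul_le_mul_of_nonneg_left (hm' hij.le) h0
    simp only
    linarith

theorem tht_mix (n : ℕ) (x y : Fin n → ℝ) (τ : ℝ) :
    (fun i => (1 - τ) * tht n x i + τ * tht n y i)
      = tht n fun i => (1 - τ) * x i + τ * y i := by
  funext i
  unfold tht
  ring

theorem hit_even' (n : ℕ) (hn : Even n) (d : Fin n → Circle) (hd : ∏ i, d i = 1) :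
    Hit (diagonal fun i => (d i : ℂ)) := by
  obtain ⟨b, hb⟩ := exists_b n
  obtain ⟨c, hc⟩ := exists_c n hn
  obtain ⟨xb, hxb, hatt⟩ := base n hn b c hb hc
  obtain ⟨σ, x, hx, hdx⟩ := alcove_coords n d hd
  have hatt' : Att b c (tht n x) := by
    refine path b c (tht n xb) (tht n x) hatt ?_ ?_
    · unfold tht
      rw [← mul_sum, ← mul_sum, sum_add_distrib, sum_add_distrib, hxb.2.2.1, hx.2.2]
    · intro τ hτ
      rw [tht_mix]
      exact good_tht' n hn b c hb hc _ (alcO_mix hxb hx hτ.1 hτ.2)
  have h := hit_of_att hatt' (fun i => d (σ i)) (by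
    intro i
    rw [hdx i]
    unfold tht
    have : ((6 * (π / 3 * (x i + kap n i)) : ℝ) : ℂ) * Complex.I
        = ((2 * π * x i : ℝ) : ℂ) * Complex.I + (kap n i : ℂ) * (2 * π * Complex.I) := by
      push_cast
      ring
    rw [this, Complex.exp_add, Complex.exp_nat_mul_two_pi_mul_I, mul_one])
  have h2 := hit_reindex h σ.symm
  rw [submatrix_diagonal_equiv] at h2
  convert h2 using 3
  simp

/-- all `n` -/
theorem result_all (n : ℕ) (hn : 1 ≤ n) (g : Matrix (Fin n) (Fin n) ℂ)
    (hg : g ∈ specialUnitaryGroup (Fin n) ℂ) :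
    ∃ x y : Matrix (Fin n) (Fin n) ℂ,
      x ∈ specialUnitaryGroup (Fin n) ℂ ∧ y ∈ specialUnitaryGroup (Fin n) ℂ ∧
      (x * y * star x * star y) * (x ^ 2 * y ^ 2 * star (x ^ 2) * star (y ^ 2)) *
        star (x * y * star x * star y) *
        star (x ^ 2 * y ^ 2 * star (x ^ 2) * star (y ^ 2)) = g := by
  obtain ⟨hgu, hgd⟩ := mem_specialUnitaryGroup_iff.1 hg
  obtain ⟨U, hU, d, rfl⟩ := unitary_diag g hgu
  have hd : ∏ i, d i = 1 := by
    rw [det_mul_right_comm, mem_unitaryGroup_iff.1 hU, one_mul, det_diagonal] at hgd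
    apply Circle.ext
    rw [Circle.coe_one, ← hgd]
    exact map_prod Circle.coeHom _ _
  have hh : Hit (diagonal fun i => (d i : ℂ)) := by
    rcases Nat.even_or_odd n with h | h
    · exact hit_even' n h d hd
    · exact hit_diagonal_odd (by rwa [Fintype.card_fin]) d hd
  have hhit := hit_conj hh hU
  have : Nonempty (Fin n) := ⟨⟨0, hn⟩⟩
  obtain ⟨x, hx, y, hy, h⟩ := hit_su hhit
  exact ⟨x, y, hx, hy, h⟩

end Pool.Agent.Lib.MP_88e1a1_al.Even
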