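import Pool.Agent.Lib.MP_88e1a1_al.Even.MaxFO

/-! # MP_88e1a1_al, even `n`: the continuity method -/

set_option autoImplicit false

namespace Pool.Agent.Lib.MP_88e1a1_al.Even

open Finset Matrix
open scoped Real Topology

section
variable {ι : Type*} [Fintype ι] [DecidableEq ι]

/-! ## PATH -/

omit [Fintype ι] in
theorem continuous_Th {X : Type*} [TopologicalSpace X] (u : X → ι → ℝ) (hu : Continuous u) :
    Continuous fun τ => Th (u τ) := by
  unfold Th
  refine Continuous.matrix_diagonal ?_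
  fun_prop

/-- being attained is a closed condition -/
theorem att_closed (b : ι → Bool) (c : ι → Fin 3) (u : ℝ → ι → ℝ) (hu : Continuous u) :
    IsClosed {τ : ℝ | Att b c (u τ)} := by
  have hK : IsCompact ({V : Matrix ι ι ℂ | V ∈ unitaryGroup ι ℂ} ×ˢ
      {U : Matrix ι ι ℂ | U ∈ unitaryGroup ι ℂ}) :=
    MaxFO.isCompact_unitary.prod MaxFO.isCompact_unitary
  have hf : Continuous fun p : Matrix ι ι ℂ × Matrix ι ι ℂ =>
      (p.2 * T0 c * star p.2) * (p.1 * S0 b * star p.1) := by fun_prop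
  have hC := (hK.image hf).isClosed.preimage (continuous_Th u hu)
  convert hC using 1
  ext τ
  constructor
  · rintro ⟨V, hV, U, hU, h⟩
    exact ⟨(V, U), ⟨hV, hU⟩, h⟩
  · rintro ⟨⟨V, U⟩, ⟨hV, hU⟩, h⟩
    exact ⟨V, hV, U, hU, h⟩

/-- the continuity method along a segment, with the openness as a hypothesis -/
theorem path_of (b : ι → Bool) (c : ι → Fin 3) (θ₀ θ₁ : ι → ℝ) (h0 : Att b c θ₀)
    (hsum : ∑ i, θ₀ i = ∑ i, θ₁ i)
    (hgood : ∀ τ ∈ Set.Ico (0 : ℝ) 1, Good b c (fun i => (1 - τ) * θ₀ i + τ * θ₁ i))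
    (hdet : Complex.exp (((∑ i, θ₀ i : ℝ) : ℂ) * Complex.I)
      = (-1) ^ nb b * om ^ (nc c 1 + 2 * nc c 2))
    (hopen : ∀ γ : ℝ, 0 < γ → ∃ ε > 0, ∀ θ : ι → ℝ, Good b c θ →
      Complex.exp (((∑ i, θ i : ℝ) : ℂ) * Complex.I)
        = (-1) ^ nb b * om ^ (nc c 1 + 2 * nc c 2) →
      (∀ i j, i ≠ j → γ ≤ |θ i - θ j| ∧ |θ i - θ j| ≤ 2 * π - γ) →
      ∀ V ∈ unitaryGroup ι ℂ, ∀ U ∈ unitaryGroup ι ℂ,
      (Fintype.card ι : ℝ) - ε < obj b c θ V U → Att b c θ) :
    Att b c θ₁ := by
  set u : ℝ → ι → ℝ := fun τ i => (1 - τ) * θ₀ i + τ * θ₁ i with hu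
  have huc : Continuous u := by fun_prop
  have hcl := att_closed b c u huc
  have hu0 : u 0 = θ₀ := by
    funext i
    simp [hu]
  have hu1 : u 1 = θ₁ := by
    funext i
    simp [hu]
  have hus : ∀ τ, ∑ i, u τ i = ∑ i, θ₀ i := by
    intro τ
    simp only [hu]
    rw [Finset.sum_add_distrib, ← Finset.mul_sum, ← Finset.mul_sum, ← hsum]
    ring
  have hsub : Set.Icc (0 : ℝ) 1 ⊆ {τ : ℝ | Att b c (u τ)} := by
    refine IsClosed.Icc_subset_of_forall_mem_nhdsWithin (hcl.inter isClosed_Icc)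
      (by rw [Set.mem_ofPred_eq, hu0]; exact h0) ?_
    rintro x ⟨hx, hx01⟩
    have hg := hgood x hx01
    -- a gap
    have hgap : ∀ᶠ γ in 𝓝[>] (0 : ℝ), ∀ i j, i ≠ j →
        γ < |u x i - u x j| ∧ |u x i - u x j| < 2 * π - γ := by
      rw [Filter.eventually_all]
      intro i
      rw [Filter.eventually_all]
      intro j
      by_cases hij : i = j
      · exact Filter.Eventually.of_forall fun γ h => absurd hij h
      · have h1 : 0 < |u x i - u x j| := abs_pos.2 (sub_ne_zero.2 fun h => hij (hg.inj h))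
        have h2 : |u x i - u x j| < 2 * π := by
          rw [abs_lt]
          have h3 := hg.win i j
          have h4 := hg.win j i
          constructor <;> linarith
        have h3 : ∀ᶠ γ in 𝓝 (0 : ℝ), γ < |u x i - u x j| ∧ |u x i - u x j| < 2 * π - γ := by
          refine (eventually_lt_nhds h1).and ?_
          have : Filter.Tendsto (fun γ : ℝ => 2 * π - γ) (𝓝 0) (𝓝 (2 * π - 0)) :=
            tendsto_const_nhds.sub Filter.tendsto_id
          exact this.eventually (eventually_gt_nhds (by simpa using h2))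
        exact (h3.filter_mono nhdsWithin_le_nhds).mono fun γ h _ => h
    obtain ⟨γ, hγ, hγ0⟩ := (hgap.and self_mem_nhdsWithin).exists
    obtain ⟨ε, hε, heps⟩ := hopen γ hγ0
    obtain ⟨V, hV, U, hU, hVU⟩ := hx
    have hgap' : ∀ᶠ τ in 𝓝 x, ∀ i j, i ≠ j →
        γ ≤ |u τ i - u τ j| ∧ |u τ i - u τ j| ≤ 2 * π - γ := by
      rw [Filter.eventually_all]
      intro i
      rw [Filter.eventually_all]
      intro j
      by_cases hij : i = j
      · exact Filter.Eventually.of_forall fun γ h => absurd hij h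
      · have hc : Continuous fun τ => |u τ i - u τ j| := by fun_prop
        have h1 := hc.tendsto x
        obtain ⟨h2, h3⟩ := hγ i j hij
        filter_upwards [h1.eventually (eventually_gt_nhds h2),
          h1.eventually (eventually_lt_nhds h3)] with τ h4 h5 _
        exact ⟨h4.le, h5.le⟩
    have hobj : ∀ᶠ τ in 𝓝 x, (Fintype.card ι : ℝ) - ε < obj b c (u τ) V U := by
      have hc : Continuous fun τ => obj b c (u τ) V U := by
        unfold obj
        refine Complex.continuous_re.comp (Continuous.matrix_trace ?_)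
        have := continuous_Th u huc
        fun_prop
      have hx : obj b c (u x) V U = Fintype.card ι := by
        unfold obj
        have h1 : Th (u x) ∈ unitaryGroup ι ℂ :=
          MaxFO.diag_unitary_of_norm _ fun i => Complex.norm_exp_ofReal_mul_I _
        rw [hVU, MaxFO.unitary_mul_star h1, trace_one, Complex.natCast_re]
      have h1 := hc.tendsto x
      rw [hx] at h1
      exact h1.eventually (eventually_gt_nhds (by linarith))
    have hIco : ∀ᶠ τ in 𝓝[>] x, τ ∈ Set.Ico (0 : ℝ) 1 := by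
      filter_upwards [Ioo_mem_nhdsGT hx01.2] with τ hτ
      exact ⟨hx01.1.trans hτ.1.le, hτ.2⟩
    filter_upwards [hIco, hgap'.filter_mono nhdsWithin_le_nhds,
      hobj.filter_mono nhdsWithin_le_nhds] with τ h1 h2 h3
    refine heps (u τ) (hgood τ h1) ?_ h2 V hV U hU h3
    rw [hus]
    exact hdet
  have := hsub (Set.right_mem_Icc.2 zero_le_one)
  rw [Set.mem_ofPred_eq, hu1] at this
  exact this

end

end Pool.Agent.Lib.MP_88e1a1_al.Even
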