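import Pool.Agent.Lib.MP_88e1a1_al.Even.Defs

/-! # MP_88e1a1_al, even `n`: the second variation at a maximum

At a maximum of `obj` the path `V ↦ exp (-ε X) V`, `U ↦ exp (-ε X) exp (ε Y) U` has vanishing
first derivative, and the sign of the second one gives `second_var`.
-/

set_option autoImplicit false
set_option linter.unusedSectionVars false

namespace Pool.Agent.Lib.MP_88e1a1_al.Even.SecVar

open Asymptotics Filter Topology

section Expansion

variable {𝔸 : Type*} [NormedRing 𝔸] [NormedAlgebra ℝ 𝔸]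

/-- `f ε = 1 + ε A + ε ^ 2 B + O(ε ^ 3)` -/
def E2 (f : ℝ → 𝔸) (A B : 𝔸) : Prop :=
  (fun ε : ℝ => f ε - (1 + ε • A + ε ^ 2 • B)) =O[𝓝 0] fun ε : ℝ => ε ^ 3

theorem E2.bdd {f : ℝ → 𝔸} {A B : 𝔸} (h : E2 f A B) : f =O[𝓝 0] fun _ : ℝ => (1 : ℝ) := by
  have h1 : (fun ε : ℝ => ε ^ 3) =O[𝓝 0] fun _ : ℝ => (1 : ℝ) :=
    (continuous_pow 3).continuousAt.tendsto.isBigO_one ℝ
  have h2 : (fun ε : ℝ => (1 + ε • A + ε ^ 2 • B : 𝔸)) =O[𝓝 0] fun _ : ℝ => (1 : ℝ) := by
    have : Continuous fun ε : ℝ => (1 + ε • A + ε ^ 2 • B : 𝔸) := by fun_prop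
    exact this.continuousAt.tendsto.isBigO_one ℝ
  have := (h.trans h1).add h2
  simpa using this

theorem E2.mul {f g : ℝ → 𝔸} {A B A' B' : 𝔸} (hf : E2 f A B) (hg : E2 g A' B') :
    E2 (fun ε => f ε * g ε) (A + A') (B + A * A' + B') := by
  unfold E2
  have h1 : (fun ε : ℝ => (f ε - (1 + ε • A + ε ^ 2 • B)) * g ε) =O[𝓝 0] fun ε : ℝ => ε ^ 3 := by
    have := IsBigO.mul hf hg.bdd
    simpa using this
  have h2 : (fun ε : ℝ => (1 + ε • A + ε ^ 2 • B) * (g ε - (1 + ε • A' + ε ^ 2 • B'))) =O[𝓝 0]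
      fun ε : ℝ => ε ^ 3 := by
    have h3 : (fun ε : ℝ => (1 + ε • A + ε ^ 2 • B : 𝔸)) =O[𝓝 0] fun _ : ℝ => (1 : ℝ) := by
      have : Continuous fun ε : ℝ => (1 + ε • A + ε ^ 2 • B : 𝔸) := by fun_prop
      exact this.continuousAt.tendsto.isBigO_one ℝ
    have := IsBigO.mul h3 hg
    simpa using this
  have h4 : (fun ε : ℝ => ε ^ 3 • (A * B' + B * A' + ε • (B * B'))) =O[𝓝 0]
      fun ε : ℝ => ε ^ 3 := by
    have h5 : (fun ε : ℝ => (A * B' + B * A' + ε • (B * B') : 𝔸)) =O[𝓝 0]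
        fun _ : ℝ => (1 : ℝ) := by
      have : Continuous fun ε : ℝ => (A * B' + B * A' + ε • (B * B') : 𝔸) := by fun_prop
      exact this.continuousAt.tendsto.isBigO_one ℝ
    have := (isBigO_refl (fun ε : ℝ => ε ^ 3) (𝓝 0)).smul h5
    simpa using this
  refine ((h1.add h2).add h4).congr_left fun ε => ?_
  simp only [mul_sub, sub_mul, mul_add, add_mul, smul_add, one_mul, mul_one, smul_mul_assoc,
    mul_smul_comm, smul_smul]
  module

theorem E2.exp [CompleteSpace 𝔸] (Z : 𝔸) :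
    E2 (fun ε : ℝ => NormedSpace.exp (ε • Z)) Z ((1 / 2 : ℝ) • Z ^ 2) := by
  have h1 := (NormedSpace.exp_hasFPowerSeriesAt_zero (𝕂 := ℝ) (𝔸 := 𝔸)).isBigO_sub_partialSum_pow 3
  have h2 : Tendsto (fun ε : ℝ => ε • Z) (𝓝 0) (𝓝 0) := by
    have : Continuous fun ε : ℝ => ε • Z := by fun_prop
    simpa using this.tendsto 0
  have h3 := h1.comp_tendsto h2
  have h4 : (fun ε : ℝ => ‖ε • Z‖ ^ 3) =O[𝓝 0] fun ε : ℝ => ε ^ 3 := by
    refine IsBigO.of_bound (‖Z‖ ^ 3) (Eventually.of_forall fun ε => ?_)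
    rw [norm_smul, mul_pow, Real.norm_eq_abs (_ * _), abs_of_nonneg (by positivity), norm_pow,
      mul_comm]
  refine (h3.trans h4).congr_left fun ε => ?_
  simp only [Function.comp, zero_add, FormalMultilinearSeries.partialSum,
    Finset.sum_range_succ, Finset.sum_range_zero]
  simp only [NormedSpace.expSeries_apply_eq]
  simp [smul_pow]
  exact smul_comm _ _ _

/-- second order condition at a maximum -/
theorem second_order {f : ℝ → 𝔸} {B : 𝔸} (hf : E2 f 0 B) (φ : 𝔸 →L[ℝ] ℝ)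
    (hmax : ∀ ε, φ (f ε) ≤ φ 1) : φ B ≤ 0 := by
  have h1 : (fun ε : ℝ => φ (f ε - (1 + ε • (0 : 𝔸) + ε ^ 2 • B))) =O[𝓝 0] fun ε : ℝ => ε ^ 3 :=
    (φ.isBigO_comp _ _).trans hf
  obtain ⟨C, hC⟩ := h1.bound
  by_contra! hB
  have h2 : ∀ᶠ ε : ℝ in 𝓝[>] 0, φ B ≤ |C| * ε := by
    filter_upwards [hC.filter_mono nhdsWithin_le_nhds, self_mem_nhdsWithin] with ε h3 h4
    have h5 : (0 : ℝ) < ε := h4
    rw [smul_zero, add_zero, map_sub, map_add, map_smul, Real.norm_eq_abs, Real.norm_eq_abs,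
      abs_of_pos (pow_pos h5 3)] at h3
    have h6 := hmax ε
    have h7 := (abs_le.1 h3).1
    have h8 : C * ε ^ 3 ≤ |C| * ε ^ 3 := mul_le_mul_of_nonneg_right (le_abs_self C) (by positivity)
    have h9 : ε ^ 2 * φ B ≤ ε ^ 2 * (|C| * ε) := by
      have : ε ^ 2 • φ B = ε ^ 2 * φ B := rfl
      nlinarith
    exact le_of_mul_le_mul_left h9 (by positivity)
  have h3 : Tendsto (fun ε : ℝ => |C| * ε) (𝓝[>] 0) (𝓝 0) := by
    have : Continuous fun ε : ℝ => |C| * ε := by fun_prop
    simpa using (this.tendsto 0).mono_left nhdsWithin_le_nhds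
  exact absurd (ge_of_tendsto h3 h2) (not_le.2 hB)

end Expansion


section Mat

open Matrix

variable {ι : Type*} [Fintype ι] [DecidableEq ι]

theorem star_S0 (b : ι → Bool) : star (S0 b) = S0 b := by
  unfold S0
  rw [star_eq_conjTranspose, diagonal_conjTranspose]
  congr 1
  ext i
  by_cases h : b i <;> simp [h]

theorem S0_mul (b : ι → Bool) : S0 b * S0 b = 1 := by
  unfold S0
  rw [diagonal_mul_diagonal, ← diagonal_one]
  congr 1
  ext i
  by_cases h : b i <;> simp [h]

theorem T0_star (c : ι → Fin 3) : star (T0 c) * T0 c = 1 := by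
  have h1 : ‖om‖ = 1 := by
    unfold om
    have : (2 * Real.pi * Complex.I / 3 : ℂ) = ((2 * Real.pi / 3 : ℝ) : ℂ) * Complex.I := by
      push_cast
      ring
    rw [this, Complex.norm_exp_ofReal_mul_I]
  unfold T0
  rw [star_eq_conjTranspose, diagonal_conjTranspose, diagonal_mul_diagonal, ← diagonal_one]
  congr 1
  ext i
  simp only [Pi.star_apply, RCLike.star_def, map_pow]
  rw [← mul_pow, ← Complex.normSq_eq_conj_mul_self, Complex.normSq_eq_norm_sq, h1]
  simp

theorem Th_star (θ ψ : ι → ℝ) : Th (fun i => θ i + ψ i) * star (Th θ) = Th ψ := by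
  unfold Th
  rw [star_eq_conjTranspose, diagonal_conjTranspose, diagonal_mul_diagonal]
  congr 1
  ext i
  simp only [Pi.star_apply, RCLike.star_def]
  rw [← Complex.exp_conj, ← Complex.exp_add]
  congr 1
  simp
  ring

/-- block `(α, β)` of a matrix -/
def Supp (ψ : ι → ℝ) (α β : ℝ) (A : Matrix ι ι ℂ) : Prop :=
  ∀ i j, A i j ≠ 0 → ψ i = α ∧ ψ j = β

variable {ψ : ι → ℝ} {α β : ℝ} {A B : Matrix ι ι ℂ}

theorem Supp.add (hA : Supp ψ α β A) (hB : Supp ψ α β B) : Supp ψ α β (A + B) := by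
  intro i j h
  by_contra h1
  have h2 : A i j = 0 := by
    by_contra h3
    exact h1 (hA i j h3)
  have h3 : B i j = 0 := by
    by_contra h3
    exact h1 (hB i j h3)
  exact h (by rw [Matrix.add_apply, h2, h3, add_zero])

theorem Supp.sub (hA : Supp ψ α β A) (hB : Supp ψ α β B) : Supp ψ α β (A - B) := by
  intro i j h
  by_contra h1
  have h2 : A i j = 0 := by
    by_contra h3
    exact h1 (hA i j h3)
  have h3 : B i j = 0 := by
    by_contra h3
    exact h1 (hB i j h3)
  exact h (by rw [Matrix.sub_apply, h2, h3, sub_zero])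

theorem Supp.left (hA : Supp ψ α β A) {t : Matrix ι ι ℂ} (ht : ∀ i j, ψ i ≠ ψ j → t i j = 0) :
    Supp ψ α β (t * A) := by
  intro i j h
  rw [Matrix.mul_apply] at h
  obtain ⟨k, -, hk⟩ := Finset.exists_ne_zero_of_sum_ne_zero h
  have h1 := hA k j (right_ne_zero_of_mul hk)
  have h2 : ψ i = ψ k := by
    by_contra h3
    exact left_ne_zero_of_mul hk (ht i k h3)
  exact ⟨h2.trans h1.1, h1.2⟩

theorem Supp.right (hA : Supp ψ α β A) {t : Matrix ι ι ℂ} (ht : ∀ i j, ψ i ≠ ψ j → t i j = 0) :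
    Supp ψ α β (A * t) := by
  intro i j h
  rw [Matrix.mul_apply] at h
  obtain ⟨k, -, hk⟩ := Finset.exists_ne_zero_of_sum_ne_zero h
  have h1 := hA i k (left_ne_zero_of_mul hk)
  have h2 : ψ k = ψ j := by
    by_contra h3
    exact right_ne_zero_of_mul hk (ht k j h3)
  exact ⟨h1.1, h2.symm.trans h1.2⟩

theorem Supp.mul_zero (hA : Supp ψ α β A) (hB : Supp ψ α β B) (h : α ≠ β) : A * B = 0 := by
  ext i j
  rw [Matrix.mul_apply, Matrix.zero_apply]
  refine Finset.sum_eq_zero fun k _ => ?_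
  by_contra h1
  exact h ((hB k j (right_ne_zero_of_mul h1)).1.symm.trans (hA i k (left_ne_zero_of_mul h1)).2)

theorem Supp.Th_mul (hA : Supp ψ α β A) :
    Th ψ * A = Complex.exp ((α : ℂ) * Complex.I) • A := by
  ext i j
  unfold Th
  rw [diagonal_mul, Matrix.smul_apply, smul_eq_mul]
  by_cases h : A i j = 0
  · rw [h, MulZeroClass.mul_zero, MulZeroClass.mul_zero]
  · rw [(hA i j h).1]

theorem Supp.Th_mul_star (hA : Supp ψ α β A) :
    Th ψ * star A = Complex.exp ((β : ℂ) * Complex.I) • star A := by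
  ext i j
  unfold Th
  rw [diagonal_mul, Matrix.smul_apply, smul_eq_mul]
  by_cases h : A j i = 0
  · rw [star_apply, h, star_zero, MulZeroClass.mul_zero, MulZeroClass.mul_zero]
  · rw [(hA j i h).2]

theorem comm_trace (hA : Supp ψ α β A) (hB : Supp ψ α β B) (h : α ≠ β) :
    trace (((A - star A) * (B - star B) - (B - star B) * (A - star A)) * Th ψ) =
      (Complex.exp ((α : ℂ) * Complex.I) - Complex.exp ((β : ℂ) * Complex.I)) *
        (trace (star A * B) - star (trace (star A * B))) := by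
  have h1 : star A * star B = 0 := by
    rw [← star_mul, hB.mul_zero hA h, star_zero]
  have h2 : star B * star A = 0 := by
    rw [← star_mul, hA.mul_zero hB h, star_zero]
  have h3 : (A - star A) * (B - star B) - (B - star B) * (A - star A) =
      B * star A - A * star B + (star B * A - star A * B) := by
    rw [sub_mul, sub_mul, mul_sub, mul_sub, mul_sub, mul_sub, hA.mul_zero hB h,
      hB.mul_zero hA h, h1, h2]
    abel
  have h4 : star (trace (star A * B)) = trace (star B * A) := by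
    rw [star_eq_conjTranspose, ← trace_conjTranspose, conjTranspose_mul,
      conjTranspose_conjTranspose, ← star_eq_conjTranspose]
  rw [h3, trace_mul_comm, mul_add, mul_sub, mul_sub, ← mul_assoc, ← mul_assoc, ← mul_assoc,
    ← mul_assoc, hA.Th_mul, hB.Th_mul, hA.Th_mul_star, hB.Th_mul_star, h4]
  simp only [smul_mul_assoc, trace_add, trace_sub, trace_smul, smul_eq_mul]
  rw [trace_mul_comm B (star A), trace_mul_comm A (star B)]
  ring


theorem star_zero_of {t : Matrix ι ι ℂ} (ht : ∀ i j, ψ i ≠ ψ j → t i j = 0) :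
    ∀ i j, ψ i ≠ ψ j → (star t) i j = 0 := by
  intro i j h
  rw [star_apply, ht j i (Ne.symm h), star_zero]

attribute [local instance] Matrix.linftyOpNormedRing Matrix.linftyOpNormedAlgebra

theorem star_exp (Z : Matrix ι ι ℂ) (hZ : star Z = -Z) (ε : ℝ) :
    star (NormedSpace.exp (ε • Z)) = NormedSpace.exp (ε • (-Z)) := by
  rw [star_eq_conjTranspose, ← Matrix.exp_conjTranspose, ← star_eq_conjTranspose, star_smul, hZ]
  simp

theorem exp_unitary (Z : Matrix ι ι ℂ) (hZ : star Z = -Z) (ε : ℝ) :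
    NormedSpace.exp (ε • Z) ∈ unitaryGroup ι ℂ := by
  rw [mem_unitaryGroup_iff, star_exp Z hZ, ← Matrix.exp_add_of_commute, ← smul_add, add_neg_cancel,
    smul_zero, NormedSpace.exp_zero]
  exact ((Commute.refl Z).neg_right.smul_right ε).smul_left ε

theorem exp_conj_unitary (u Z : Matrix ι ι ℂ) (hu : u ∈ unitaryGroup ι ℂ) (ε : ℝ) :
    u * NormedSpace.exp (ε • Z) * star u = NormedSpace.exp (ε • (u * Z * star u)) := by
  have h1 : u * star u = 1 := mem_unitaryGroup_iff.1 hu
  have h2 : star u * u = 1 := mem_unitaryGroup_iff'.1 hu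
  have h3 := Matrix.exp_units_conj (⟨u, star u, h1, h2⟩ : (Matrix ι ι ℂ)ˣ) (ε • Z)
  have h4 : u * (ε • Z) * star u = ε • (u * Z * star u) := by
    rw [mul_smul_comm, smul_mul_assoc]
  rw [← h4]
  exact h3.symm

/-- the second variation -/
theorem core (t s D : Matrix ι ι ℂ) (ht : t ∈ unitaryGroup ι ℂ) (hs : s ∈ unitaryGroup ι ℂ)
    (hss : star s = s) (htb : ∀ i j, ψ i ≠ ψ j → t i j = 0)
    (hαβ : Real.sin β < Real.sin α) (hD : Supp ψ α β D)
    (hC : s * (star t * D * t - D) = -((star t * D * t - D) * s))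
    (hmax : ∀ E₁ ∈ unitaryGroup ι ℂ, ∀ E₂ ∈ unitaryGroup ι ℂ,
      (trace (E₁ * E₂ * (t * star E₂ * star t) * (t * s * star E₁ * star (t * s)) * Th ψ)).re ≤
        (trace (Th ψ)).re) :
    (trace (star D * (t * D * star t))).im ≤ 0 := by
  have ht1 : t * star t = 1 := mem_unitaryGroup_iff.1 ht
  have ht2 : star t * t = 1 := mem_unitaryGroup_iff'.1 ht
  have hs1 : s * s = 1 := by
    have := mem_unitaryGroup_iff.1 hs
    rwa [hss] at this
  have hne : α ≠ β := by
    rintro rfl
    exact lt_irrefl _ hαβ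
  set P := star t * D * t with hP
  set Q := t * D * star t with hQ
  have sP : Supp ψ α β P := (hD.left (star_zero_of htb)).right htb
  have sQ : Supp ψ α β Q := (hD.left htb).right (star_zero_of htb)
  set C := P - D with hCdef
  set B := P + D with hBdef
  set Cg := Q - D with hCg
  set Bt := D + Q with hBt
  have sC : Supp ψ α β C := sP.sub hD
  have sB : Supp ψ α β B := sP.add hD
  have sCg : Supp ψ α β Cg := sQ.sub hD
  have sBt : Supp ψ α β Bt := hD.add sQ
  have e1 : t * P * star t = D := by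
    rw [hP]
    calc t * (star t * D * t) * star t = (t * star t) * D * (t * star t) := by noncomm_ring
      _ = D := by rw [ht1, one_mul, mul_one]
  have e2 : s * C * s = -C := by
    rw [hC, neg_mul, mul_assoc, hs1, mul_one]
  have e3 : t * s * C * star (t * s) = Cg := by
    rw [star_mul, hss]
    calc t * s * C * (s * star t) = t * (s * C * s) * star t := by noncomm_ring
      _ = -(t * P * star t) + t * D * star t := by rw [e2, hCdef]; noncomm_ring
      _ = Cg := by rw [e1, hCg, hQ]; abel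
  have e4 : t * B * star t = Bt := by
    rw [hBdef, mul_add, add_mul, e1]
  set X := C - star C with hX
  set Y := B - star B with hY
  set Xg := Cg - star Cg with hXg
  set Yt := Bt - star Bt with hYt
  have e5 : t * s * X * star (t * s) = Xg := by
    have : t * s * star C * star (t * s) = star Cg := by
      rw [← e3]
      simp only [star_mul, star_star, mul_assoc]
    rw [hX, mul_sub, sub_mul, e3, this]
  have e6 : t * Y * star t = Yt := by
    have : t * star B * star t = star Bt := by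
      rw [← e4]
      simp only [star_mul, star_star, mul_assoc]
    rw [hY, mul_sub, sub_mul, e4, this]
  have e7 : Xg = X - Y + Yt := by
    rw [hXg, hX, hY, hYt, hCg, hCdef, hBdef, hBt]
    simp only [star_sub, star_add]
    abel
  have hXs : star X = -X := by
    rw [hX, star_sub, star_star]
    abel
  have hYs : star Y = -Y := by
    rw [hY, star_sub, star_star]
    abel
  have hE := (((E2.exp (-X)).mul (E2.exp Y)).mul (E2.exp (-Yt))).mul (E2.exp Xg)
  have hsum : -X + Y + -Yt + Xg = 0 := by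
    rw [e7]
    abel
  rw [hsum] at hE
  let φ : Matrix ι ι ℂ →L[ℝ] ℝ := LinearMap.toContinuousLinearMap
    (Complex.reLm ∘ₗ (((Matrix.traceLinearMap ι ℂ ℂ) ∘ₗ (LinearMap.mulRight ℂ (Th ψ))).restrictScalars ℝ))
  have hφ : ∀ A, φ A = (trace (A * Th ψ)).re := fun A => rfl
  set Bf := (1 / 2 : ℝ) • (-X) ^ 2 + -X * Y + (1 / 2 : ℝ) • Y ^ 2 + (-X + Y) * -Yt +
      (1 / 2 : ℝ) • (-Yt) ^ 2 + (-X + Y + -Yt) * Xg + (1 / 2 : ℝ) • Xg ^ 2 with hBf
  have hle : (trace (Bf * Th ψ)).re ≤ 0 := second_order hE φ (by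
    intro ε
    change (trace (_ * Th ψ)).re ≤ (trace (1 * Th ψ)).re
    rw [one_mul]
    have h1 := hmax _ (exp_unitary (-X) (by rw [star_neg, hXs]) ε) _ (exp_unitary Y hYs ε)
    rw [star_exp (-X) (by rw [star_neg, hXs]), star_exp Y hYs,
      exp_conj_unitary _ _ ht, exp_conj_unitary _ _ (mul_mem ht hs), neg_neg, mul_neg, neg_mul,
      e5, e6] at h1
    exact h1)
  have h2 : (2 : ℝ) • Bf = (X * Xg - Xg * X) - (Y * Yt - Yt * Y) := by
    rw [hBf]
    simp only [smul_add, smul_smul]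
    norm_num
    rw [e7]
    simp only [two_smul]
    noncomm_ring
  have h3 : 2 * (trace (Bf * Th ψ)).re =
      (trace ((X * Xg - Xg * X) * Th ψ)).re - (trace ((Y * Yt - Yt * Y) * Th ψ)).re := by
    rw [← Complex.sub_re, ← trace_sub, ← sub_mul, ← h2, smul_mul_assoc, trace_smul,
      Complex.smul_re, smul_eq_mul]
  rw [comm_trace sC sCg hne, comm_trace sB sBt hne] at h3
  have h4 : ∀ z : ℂ, ((Complex.exp ((α : ℂ) * Complex.I) - Complex.exp ((β : ℂ) * Complex.I)) *
      (z - star z)).re = -(2 * (Real.sin α - Real.sin β) * z.im) := by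
    intro z
    rw [Complex.exp_mul_I, Complex.exp_mul_I]
    simp [Complex.cos_ofReal_re, Complex.sin_ofReal_re, Complex.mul_re]
    ring
  rw [h4, h4] at h3
  have h5 : trace (star B * Bt) - trace (star C * Cg) = 4 * trace (star D * Q) := by
    have h6 : trace (star P * D) = trace (star D * Q) := by
      rw [hP, hQ, star_mul, star_mul, star_star, mul_assoc, trace_mul_comm]
      congr 1
      noncomm_ring
    rw [hBdef, hBt, hCdef, hCg]
    have h7 : star (P + D) * (D + Q) - star (P - D) * (Q - D) =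
        star P * D + star P * D + star D * Q + star D * Q := by
      rw [star_add, star_sub]
      noncomm_ring
    rw [← trace_sub, h7, trace_add, trace_add, trace_add, h6]
    ring
  have h8 : (trace (star B * Bt)).im - (trace (star C * Cg)).im = 4 * (trace (star D * Q)).im := by
    have := congrArg Complex.im h5
    simpa using this
  have h9 : 0 < Real.sin α - Real.sin β := sub_pos.2 hαβ
  by_contra! h10
  have h11 : 0 < (Real.sin α - Real.sin β) * (trace (star D * Q)).im := mul_pos h9 h10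
  nlinarith

end Mat

end Pool.Agent.Lib.MP_88e1a1_al.Even.SecVar

namespace Pool.Agent.Lib.MP_88e1a1_al.Even

open Finset Matrix
open scoped Real

variable {ι : Type*} [Fintype ι] [DecidableEq ι]

theorem second_var (b : ι → Bool) (c : ι → Fin 3) (θ ψ : ι → ℝ) (V U s t : Matrix ι ι ℂ)
    (hmax : IsMx b c θ V U) (hs : s = V * S0 b * star V) (ht : t = U * T0 c * star U)
    (hts : t * s = Th (fun i => θ i + ψ i))
    (hsb : ∀ i j, ψ i ≠ ψ j → s i j = 0) (htb : ∀ i j, ψ i ≠ ψ j → t i j = 0)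
    (α β : ℝ) (hαβ : Real.sin β < Real.sin α) (D : Matrix ι ι ℂ)
    (hD : ∀ i j, D i j ≠ 0 → ψ i = α ∧ ψ j = β)
    (hC : s * (star t * D * t - D) = -((star t * D * t - D) * s)) :
    (trace (star D * (t * D * star t))).im ≤ 0 := by
  obtain ⟨hV, hU, hm⟩ := hmax
  have hT0 : T0 c ∈ unitaryGroup ι ℂ := mem_unitaryGroup_iff'.2 (SecVar.T0_star c)
  have hS0 : S0 b ∈ unitaryGroup ι ℂ := by
    rw [mem_unitaryGroup_iff', SecVar.star_S0, SecVar.S0_mul]
  have ht' : t ∈ unitaryGroup ι ℂ := by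
    rw [ht]
    exact mul_mem (mul_mem hU hT0) (Unitary.star_mem hU)
  have hs' : s ∈ unitaryGroup ι ℂ := by
    rw [hs]
    exact mul_mem (mul_mem hV hS0) (Unitary.star_mem hV)
  have hss : star s = s := by
    rw [hs, star_mul, star_mul, star_star, SecVar.star_S0, mul_assoc]
  have ht2 : star t * t = 1 := mem_unitaryGroup_iff'.1 ht'
  have hts2 : star (t * s) * (t * s) = 1 := mem_unitaryGroup_iff'.1 (mul_mem ht' hs')
  have hM : t * s * star (Th θ) = Th ψ := by
    rw [hts, SecVar.Th_star]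
  refine SecVar.core t s D ht' hs' hss htb hαβ hD hC fun E₁ hE₁ E₂ hE₂ => ?_
  have h1 := hm (E₁ * V) (mul_mem hE₁ hV) (E₁ * E₂ * U) (mul_mem (mul_mem hE₁ hE₂) hU)
  have hE1 : star E₁ * E₁ = 1 := mem_unitaryGroup_iff'.1 hE₁
  unfold obj at h1
  rw [← ht, ← hs, hM] at h1
  have h2 : E₁ * E₂ * U * T0 c * star (E₁ * E₂ * U) * (E₁ * V * S0 b * star (E₁ * V)) *
      star (Th θ) =
      E₁ * E₂ * (t * star E₂ * star t) * (t * s * star E₁ * star (t * s)) * Th ψ := by
    have h3 : E₁ * E₂ * U * T0 c * star (E₁ * E₂ * U) * (E₁ * V * S0 b * star (E₁ * V)) *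
        star (Th θ) = E₁ * E₂ * (U * T0 c * star U) * star E₂ * (star E₁ * E₁) *
          (V * S0 b * star V) * star E₁ * star (Th θ) := by
      simp only [star_mul, mul_assoc]
    have h4 : E₁ * E₂ * (t * star E₂ * star t) * (t * s * star E₁ * star (t * s)) *
        (t * s * star (Th θ)) = E₁ * E₂ * t * star E₂ * (star t * t) * s * star E₁ *
          (star (t * s) * (t * s)) * star (Th θ) := by
      simp only [mul_assoc]
    rw [h3, ← hM, h4, hE1, ht2, hts2, ← ht, ← hs]
    simp only [mul_one]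
  rw [h2] at h1
  exact h1

end Pool.Agent.Lib.MP_88e1a1_al.Even
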