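import Pool.Agent.Lib.MP_88e1a1_al.Even.Defs

/-! # Spectral sums -/

set_option autoImplicit false

namespace Pool.Agent.Lib.MP_88e1a1_al.Even

open Finset Matrix
open scoped Real

namespace Spec

instance fact_two_pi : Fact (0 < 2 * π) := ⟨Real.two_pi_pos⟩

variable {κ : Type*} [Fintype κ] [DecidableEq κ]

theorem trace_conj_pow {V : Matrix κ κ ℂ} (hV : V ∈ unitaryGroup κ ℂ) (e : κ → ℂ) (j : ℕ) :
    trace ((V * diagonal e * star V) ^ j) = ∑ k, e k ^ j := by
  have h1 : star V * V = 1 := (Unitary.mem_iff.mp hV).1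
  have h : ∀ j : ℕ, (V * diagonal e * star V) ^ j = V * diagonal (fun k => e k ^ j) * star V := by
    intro j
    induction j with
    | zero =>
      have h2 : V * star V = 1 := (Unitary.mem_iff.mp hV).2
      simp [h2]
    | succ j ih =>
      rw [pow_succ, ih]
      calc V * diagonal (fun k => e k ^ j) * star V * (V * diagonal e * star V)
          = V * diagonal (fun k => e k ^ j) * (star V * V) * diagonal e * star V := by
            simp only [mul_assoc]
        _ = V * (diagonal (fun k => e k ^ j) * diagonal e) * star V := by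
            rw [h1, mul_one]; simp only [mul_assoc]
        _ = _ := by rw [diagonal_mul_diagonal]; simp only [pow_succ]
  rw [h, trace_mul_comm, ← mul_assoc, h1, one_mul, trace_diagonal]

/-- spectral sums -/
noncomputable def Phi (d : ℝ → κ → Circle) (f : C(AddCircle (2 * π), ℂ)) (τ : ℝ) : ℂ :=
  ∑ k, f ((AddCircle.homeomorphCircle').symm (d τ k))

omit [DecidableEq κ] in
theorem Phi_dist (d : ℝ → κ → Circle) (f f' : C(AddCircle (2 * π), ℂ)) (τ : ℝ) :
    dist (Phi d f τ) (Phi d f' τ) ≤ Fintype.card κ * dist f f' := by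
  unfold Phi
  calc _ ≤ ∑ k : κ, dist (f ((AddCircle.homeomorphCircle').symm (d τ k)))
        (f' ((AddCircle.homeomorphCircle').symm (d τ k))) := dist_sum_sum_le _ _ _
    _ ≤ ∑ _k : κ, dist f f' := Finset.sum_le_sum fun k _ => ContinuousMap.dist_apply_le_dist _
    _ = _ := by simp

/-- functions with continuous spectral sums -/
noncomputable def good (d : ℝ → κ → Circle) : Submodule ℂ C(AddCircle (2 * π), ℂ) where
  carrier := {f | Continuous (Phi d f)}
  zero_mem' := by
    have : Phi d 0 = fun _ => 0 := by funext τ; simp [Phi]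
    change Continuous (Phi d 0)
    rw [this]; exact continuous_const
  add_mem' := by
    intro f f' hf hf'
    have : Phi d (f + f') = fun τ => Phi d f τ + Phi d f' τ := by
      funext τ; simp [Phi, Finset.sum_add_distrib]
    change Continuous (Phi d (f + f'))
    rw [this]; exact hf.add hf'
  smul_mem' := by
    intro c f hf
    have : Phi d (c • f) = fun τ => c * Phi d f τ := by
      funext τ; simp [Phi, Finset.mul_sum]
    change Continuous (Phi d (c • f))
    rw [this]; exact continuous_const.mul hf

omit [DecidableEq κ] in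
theorem good_closed (d : ℝ → κ → Circle) : IsClosed (good d : Set C(AddCircle (2 * π), ℂ)) := by
  rw [← isSeqClosed_iff_isClosed]
  intro f g hf hg
  change Continuous (Phi d g)
  have hu : TendstoUniformly (fun n τ => Phi d (f n) τ) (Phi d g) Filter.atTop := by
    rw [Metric.tendstoUniformly_iff]
    intro ε hε
    have h1 : Filter.Tendsto (fun n => (Fintype.card κ : ℝ) * dist g (f n)) Filter.atTop (nhds 0) := by
      have h2 : Filter.Tendsto (fun n => dist g (f n)) Filter.atTop (nhds 0) := by
        have := (tendsto_iff_dist_tendsto_zero.mp hg)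
        simpa only [dist_comm] using this
      simpa using h2.const_mul (Fintype.card κ : ℝ)
    filter_upwards [h1.eventually (gt_mem_nhds hε)] with n hn τ
    exact (Phi_dist d g (f n) τ).trans_lt hn
  exact hu.continuous (Filter.Frequently.of_forall fun n => hf n)

theorem symm_toCircle (z : Circle) : AddCircle.toCircle ((AddCircle.homeomorphCircle').symm z) = z := by
  have h : ∀ x : AddCircle (2 * π), AddCircle.toCircle x = AddCircle.homeomorphCircle' x := by
    intro x
    induction x using QuotientAddGroup.induction_on with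
    | H x =>
      rw [AddCircle.toCircle_apply_mk, AddCircle.homeomorphCircle'_apply_mk]
      congr 1
      field_simp
  rw [h, Homeomorph.apply_symm_apply]

theorem fourier_good {g V : ℝ → Matrix κ κ ℂ} {d : ℝ → κ → Circle}
    (hg : Continuous g) (hV : ∀ τ, V τ ∈ unitaryGroup κ ℂ)
    (hd : ∀ τ, g τ = V τ * diagonal (fun k => (d τ k : ℂ)) * star (V τ)) (n : ℤ) :
    Continuous (Phi d (fourier n)) := by
  have hnat : ∀ j : ℕ, Continuous fun τ => ∑ k, (d τ k : ℂ) ^ j := by
    intro j
    have : (fun τ => ∑ k, (d τ k : ℂ) ^ j) = fun τ => trace (g τ ^ j) := by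
      funext τ
      rw [hd τ, trace_conj_pow (hV τ)]
    rw [this]
    exact (hg.pow j).matrix_trace
  have hP : ∀ τ, Phi d (fourier n) τ = ∑ k, (((d τ k) ^ n : Circle) : ℂ) := by
    intro τ
    unfold Phi
    congr 1; funext k
    rw [fourier_apply, AddCircle.toCircle_zsmul, symm_toCircle]
  have hP' : Phi d (fourier n) = fun τ => ∑ k, (((d τ k) ^ n : Circle) : ℂ) := funext hP
  rw [hP']
  rcases Int.eq_nat_or_neg n with ⟨j, rfl | rfl⟩
  · simpa using hnat j
  · have : (fun τ => ∑ k, (((d τ k) ^ (-(j : ℤ)) : Circle) : ℂ)) = fun τ => star (∑ k, (d τ k : ℂ) ^ j) := by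
      funext τ
      rw [star_sum]
      congr 1; funext k
      rw [_root_.zpow_neg, Circle.coe_inv_eq_conj, zpow_natCast, Circle.coe_pow]
      rfl
    rw [this]
    exact continuous_star.comp (hnat j)

theorem good_top {g V : ℝ → Matrix κ κ ℂ} {d : ℝ → κ → Circle}
    (hg : Continuous g) (hV : ∀ τ, V τ ∈ unitaryGroup κ ℂ)
    (hd : ∀ τ, g τ = V τ * diagonal (fun k => (d τ k : ℂ)) * star (V τ)) : good d = ⊤ := by
  rw [eq_top_iff, ← span_fourier_closure_eq_top]
  apply Submodule.topologicalClosure_minimal _ _ (good_closed d)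
  rw [Submodule.span_le]
  rintro _ ⟨n, rfl⟩
  exact fourier_good hg hV hd n

end Spec

/-- spectral sums of a continuous function are continuous along paths of unitary matrices -/
theorem spec_continuous {κ : Type*} [Fintype κ] [DecidableEq κ] (F : ℂ → ℝ)
    (hF : ContinuousOn F (Metric.sphere 0 1)) (g V : ℝ → Matrix κ κ ℂ) (d : ℝ → κ → Circle)
    (hg : Continuous g) (hV : ∀ τ, V τ ∈ unitaryGroup κ ℂ)
    (hd : ∀ τ, g τ = V τ * diagonal (fun k => (d τ k : ℂ)) * star (V τ)) :
    Continuous fun τ => ∑ k, F (d τ k) := by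
  have hFc : Continuous fun z : Circle => F (z : ℂ) :=
    hF.comp_continuous continuous_subtype_val fun z => by simp [Circle.norm_coe]
  let f : C(AddCircle (2 * π), ℂ) :=
    ⟨fun x => ((F ((AddCircle.homeomorphCircle' x : Circle) : ℂ) : ℝ) : ℂ),
      Complex.continuous_ofReal.comp (hFc.comp AddCircle.homeomorphCircle'.continuous)⟩
  have h1 : f ∈ Spec.good d := by rw [Spec.good_top hg hV hd]; trivial
  have h2 : Continuous (Spec.Phi d f) := h1
  have h3 : (fun τ => ∑ k, F (d τ k)) = fun τ => (Spec.Phi d f τ).re := by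
    funext τ
    unfold Spec.Phi
    rw [Complex.re_sum]
    congr 1; funext k
    change F (d τ k) = (((F ((AddCircle.homeomorphCircle' ((AddCircle.homeomorphCircle').symm (d τ k)) : Circle) : ℂ) : ℝ) : ℂ)).re
    rw [Homeomorph.apply_symm_apply, Complex.ofReal_re]
  rw [h3]
  exact Complex.continuous_re.comp h2

/-- two diagonalisations of the same matrix give the same spectral sums -/
theorem spec_unique {κ : Type*} [Fintype κ] [DecidableEq κ] (F : ℂ → ℝ)
    (V V' : Matrix κ κ ℂ) (d d' : κ → ℂ) (hV : V ∈ unitaryGroup κ ℂ)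
    (hV' : V' ∈ unitaryGroup κ ℂ) (h : V * diagonal d * star V = V' * diagonal d' * star V') :
    ∑ k, F (d k) = ∑ k, F (d' k) := by
  have hc : ∀ (V : Matrix κ κ ℂ) (d : κ → ℂ), V ∈ unitaryGroup κ ℂ →
      (V * diagonal d * star V).charpoly.roots = Finset.univ.val.map d := by
    intro V d hV
    have h1 : star V * V = 1 := (Unitary.mem_iff.mp hV).1
    rw [charpoly_mul_comm, ← mul_assoc, h1, one_mul, charpoly_diagonal,
      Polynomial.roots_prod _ _ (by
        rw [Finset.prod_ne_zero_iff]; intro i _; exact Polynomial.X_sub_C_ne_zero _)]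
    simp
  have h2 : Finset.univ.val.map d = Finset.univ.val.map d' := by
    rw [← hc V d hV, ← hc V' d' hV', h]
  have h3 := congrArg (fun s : Multiset ℂ => (s.map F).sum) h2
  simpa [Multiset.map_map] using h3

end Pool.Agent.Lib.MP_88e1a1_al.Even
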